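import Mathlib

namespace Pool.Agent.P.MP_81d17b_pr.LR

open Finset
open scoped RealInnerProductSpace

variable {E : Type} [NormedAddCommGroup E] [InnerProductSpace ℝ E] {S : Type} [Fintype S]

/-- The Markov operator of the kernel `K` with marginal `μ`. -/
noncomputable def Pm (μ : S → ℝ) (K : S → S → ℝ) (g : S → E) (s : S) : E :=
  (μ s)⁻¹ • ∑ t, K s t • g t

/-- The abstract hypotheses of the positivity argument. -/
structure Hyp (μ : S → ℝ) (K : S → S → ℝ) (φ : S → E) (z : S → S → E) (Λ : E → ℝ)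
    (e0 e1 : ℝ) : Prop where
  hμ : ∀ s, 0 < μ s
  hK : ∀ s t, 0 ≤ K s t
  symm : ∀ s t, K s t = K t s
  row : ∀ s, ∑ t, K s t = μ s
  tot : ∑ s, μ s = 1
  hφ : ∀ s, ‖φ s‖ ≤ 1
  zsymm : ∀ s t, z s t = z t s
  zero : Λ 0 = 0
  c1 : ∀ δ : S → E,
    ∑ s, ∑ t, K s t * |Λ (z s t + δ s) - Λ (φ s - Pm μ K φ s + δ s)| ≤ e0
  c2 : ∀ v : S → E, (∀ s, ‖v s‖ ≤ 1) →
    ∑ s, ∑ t, K s t * |⟪v s, z s t - (φ s - Pm μ K φ s)⟫| ≤ e0
  f1 : ∀ δ : S → E,
    ∑ s, ∑ t, K s t * max (⟪φ t, δ s⟫ - Λ (φ s - Pm μ K φ s + δ s)) 0 ≤ e1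
  psd : ∀ g : S → E, ∑ s, μ s * ‖Pm μ K g s‖ ^ 2 ≤ ∑ s, ∑ t, K s t * ⟪g s, g t⟫

/-- Approximate weighted subgradients. -/
def Good (μ : S → ℝ) (K : S → S → ℝ) (φ : S → E) (Λ : E → ℝ) (γ : S → S → E) (p : S → S → ℝ)
    (D : ℝ) : Prop :=
  (∀ s t, ‖γ s t‖ ≤ 1) ∧ (∀ s t, 0 ≤ p s t ∧ p s t ≤ 1) ∧
    ∀ δ : S → E,
      ∑ s, ∑ t, K s t * max (⟪γ s t, δ s⟫ - p s t * Λ (φ s - Pm μ K φ s + δ s)) 0 ≤ D

variable {μ : S → ℝ} {K : S → S → ℝ} {φ : S → E} {z : S → S → E} {Λ : E → ℝ} {e0 e1 : ℝ}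

theorem Hyp.nonempty (h : Hyp μ K φ z Λ e0 e1) : Nonempty S := by
  by_contra hn
  rw [not_nonempty_iff] at hn
  have := h.tot
  simp at this

theorem Hyp.e0_nonneg (h : Hyp μ K φ z Λ e0 e1) : 0 ≤ e0 := by
  refine le_trans ?_ (h.c1 fun _ => 0)
  exact sum_nonneg fun s _ => sum_nonneg fun t _ => mul_nonneg (h.hK s t) (abs_nonneg _)

theorem Hyp.step (h : Hyp μ K φ z Λ e0 e1) {γ : S → S → E} {p : S → S → ℝ} {D : ℝ}
    (hg : Good μ K φ Λ γ p D) (f : S → S → ℝ) (hf : ∀ s t, 0 ≤ f s t ∧ f s t ≤ 1) :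
    Good μ K φ Λ (fun _ t => (μ t)⁻¹ • ∑ r, (K t r * f t r) • γ t r)
      (fun _ t => (μ t)⁻¹ * ∑ r, K t r * f t r * p t r) (D + 2 * e0) := by
  obtain ⟨hγ, hp, hD⟩ := hg
  have := h.nonempty
  set g : S → E := fun t => (μ t)⁻¹ • ∑ r, (K t r * f t r) • γ t r with hgdef
  set q : S → ℝ := fun t => (μ t)⁻¹ * ∑ r, K t r * f t r * p t r with hqdef
  set κ : S → E := fun s => φ s - Pm μ K φ s with hκ
  have hg1 : ∀ t, ‖g t‖ ≤ 1 := by
    intro t
    have hμ := h.hμ t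
    simp only [hgdef]
    rw [norm_smul, Real.norm_eq_abs, abs_of_pos (inv_pos.2 hμ)]
    have : ‖∑ r, (K t r * f t r) • γ t r‖ ≤ μ t := by
      rw [← h.row t]
      refine (norm_sum_le _ _).trans (sum_le_sum fun r _ => ?_)
      rw [norm_smul, Real.norm_eq_abs, abs_of_nonneg (mul_nonneg (h.hK t r) (hf t r).1)]
      have h1 := h.hK t r
      have h2 := hf t r
      have h3 := hγ t r
      have h4 := norm_nonneg (γ t r)
      have : f t r * ‖γ t r‖ ≤ 1 := mul_le_one₀ h2.2 h4 h3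
      nlinarith
    calc (μ t)⁻¹ * _ ≤ (μ t)⁻¹ * μ t := by gcongr
      _ = 1 := inv_mul_cancel₀ hμ.ne'
  have hq1 : ∀ t, 0 ≤ q t ∧ q t ≤ 1 := by
    intro t
    have hμ := h.hμ t
    simp only [hqdef]
    refine ⟨mul_nonneg (inv_pos.2 hμ).le (sum_nonneg fun r _ =>
      mul_nonneg (mul_nonneg (h.hK t r) (hf t r).1) (hp t r).1), ?_⟩
    have : ∑ r, K t r * f t r * p t r ≤ μ t := by
      rw [← h.row t]
      refine sum_le_sum fun r _ => ?_
      have h1 := h.hK t r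
      have h2 := hf t r
      have h3 := hp t r
      have : f t r * p t r ≤ 1 := mul_le_one₀ h2.2 h3.1 h3.2
      nlinarith
    calc (μ t)⁻¹ * _ ≤ (μ t)⁻¹ * μ t := by gcongr
      _ = 1 := inv_mul_cancel₀ hμ.ne'
  have hstate : ∀ δ : S → E,
      ∑ t, μ t * max (⟪g t, δ t⟫ - q t * Λ (κ t + δ t)) 0 ≤ D := by
    intro δ
    refine le_trans (sum_le_sum fun t _ => ?_) (hD δ)
    have hμ := h.hμ t
    rw [mul_max_of_nonneg _ _ hμ.le, mul_zero]
    refine max_le ?_ (sum_nonneg fun r _ => mul_nonneg (h.hK t r) (le_max_right _ _))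
    have e : μ t * (⟪g t, δ t⟫ - q t * Λ (κ t + δ t)) =
        ∑ r, K t r * (f t r * (⟪γ t r, δ t⟫ - p t r * Λ (κ t + δ t))) := by
      simp only [hgdef, hqdef, real_inner_smul_left, sum_inner]
      rw [mul_sub, ← mul_assoc, mul_inv_cancel₀ hμ.ne', one_mul, ← mul_assoc, ← mul_assoc,
        mul_inv_cancel₀ hμ.ne', one_mul, sum_mul, ← sum_sub_distrib]
      exact sum_congr rfl fun r _ => by ring
    rw [e]
    refine sum_le_sum fun r _ => mul_le_mul_of_nonneg_left ?_ (h.hK t r)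
    have h2 := hf t r
    have h3 : ⟪γ t r, δ t⟫ - p t r * Λ (κ t + δ t) ≤
      max (⟪γ t r, δ t⟫ - p t r * Λ (κ t + δ t)) 0 := le_max_left _ _
    have h4 : 0 ≤ max (⟪γ t r, δ t⟫ - p t r * Λ (κ t + δ t)) 0 := le_max_right _ _
    calc _ ≤ f t r * max (⟪γ t r, δ t⟫ - p t r * Λ (κ t + δ t)) 0 := by gcongr; exact h2.1
      _ ≤ _ := by nlinarith
  refine ⟨fun _ t => hg1 t, fun _ t => hq1 t, fun δ => ?_⟩
  -- choose, for every `t`, the worst `s`
  have hex : ∀ t, ∃ s0, ∀ s, ⟪g t, z s t + δ s - κ t⟫ - q t * Λ (κ t + (z s t + δ s - κ t)) ≤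
      ⟪g t, z s0 t + δ s0 - κ t⟫ - q t * Λ (κ t + (z s0 t + δ s0 - κ t)) := by
    intro t
    obtain ⟨s0, -, hs0⟩ := exists_max_image univ
      (fun s => ⟪g t, z s t + δ s - κ t⟫ - q t * Λ (κ t + (z s t + δ s - κ t))) univ_nonempty
    exact ⟨s0, fun s => hs0 s (mem_univ s)⟩
  choose w hw using hex
  have h1 := hstate fun t => z (w t) t + δ (w t) - κ t
  have h2 := h.c2 g hg1
  have h3 := h.c1 δ
  set d : S → ℝ := fun t => max (⟪g t, z (w t) t + δ (w t) - κ t⟫ -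
    q t * Λ (κ t + (z (w t) t + δ (w t) - κ t))) 0 with hd
  have key : ∀ s t, max (⟪g t, δ s⟫ - q t * Λ (κ s + δ s)) 0 ≤
      d t + |⟪g t, z t s - κ t⟫| + |Λ (z s t + δ s) - Λ (κ s + δ s)| := by
    intro s t
    have hd0 : 0 ≤ d t := le_max_right _ _
    refine max_le ?_ (by positivity)
    have a1 := (hw t s).trans (le_max_left _ 0 : _ ≤ d t)
    have a2 : κ t + (z s t + δ s - κ t) = z s t + δ s := by abel
    have a3 : ⟪g t, z s t + δ s - κ t⟫ = ⟪g t, z t s - κ t⟫ + ⟪g t, δ s⟫ := by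
      rw [← inner_add_right, h.zsymm s t]
      congr 1
      abel
    rw [a2, a3] at a1
    have a4 := neg_abs_le ⟪g t, z t s - κ t⟫
    have a5 : q t * (Λ (z s t + δ s) - Λ (κ s + δ s)) ≤ |Λ (z s t + δ s) - Λ (κ s + δ s)| := by
      have b1 := le_abs_self (Λ (z s t + δ s) - Λ (κ s + δ s))
      have b2 := abs_nonneg (Λ (z s t + δ s) - Λ (κ s + δ s))
      have b3 := hq1 t
      calc _ ≤ q t * |Λ (z s t + δ s) - Λ (κ s + δ s)| := by gcongr; exact b3.1
        _ ≤ _ := by nlinarith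
    nlinarith
  calc ∑ s, ∑ t, K s t * max (⟪g t, δ s⟫ - q t * Λ (κ s + δ s)) 0
      ≤ ∑ s, ∑ t, K s t * (d t + |⟪g t, z t s - κ t⟫| + |Λ (z s t + δ s) - Λ (κ s + δ s)|) :=
        sum_le_sum fun s _ => sum_le_sum fun t _ =>
          mul_le_mul_of_nonneg_left (key s t) (h.hK s t)
    _ = ∑ t, μ t * d t + ∑ t, ∑ s, K t s * |⟪g t, z t s - κ t⟫| +
          ∑ s, ∑ t, K s t * |Λ (z s t + δ s) - Λ (κ s + δ s)| := by
        simp only [mul_add, sum_add_distrib]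
        congr 2
        · rw [sum_comm]
          refine sum_congr rfl fun t _ => ?_
          rw [← h.row t, sum_mul]
          exact sum_congr rfl fun s _ => by rw [h.symm]
        · rw [sum_comm]
          exact sum_congr rfl fun t _ => sum_congr rfl fun s _ => by rw [h.symm]
    _ ≤ D + 2 * e0 := by linarith

theorem Hyp.neg_iter (h : Hyp μ K φ z Λ e0 e1) (i : ℕ) :
    ∀ {γ : S → S → E} {p : S → S → ℝ} {D : ℝ}, Good μ K φ Λ γ p D →
      ∑ s, ∑ t, K s t * max (-⟪γ s t, (Pm μ K)^[i] (fun r => φ r - Pm μ K φ r) s⟫) 0 ≤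
        D + 2 * i * e0 := by
  induction i with
  | zero =>
    intro γ p D hg
    have := hg.2.2 fun s => -(φ s - Pm μ K φ s)
    simp only [add_neg_cancel, h.zero, mul_zero, sub_zero, inner_neg_right] at this
    simpa using this
  | succ i ih =>
    intro γ p D hg
    set w := (Pm μ K)^[i] (fun r => φ r - Pm μ K φ r) with hw
    rw [Function.iterate_succ_apply', ← hw]
    classical
    let f : S → S → ℝ := fun s t => if ⟪γ s t, Pm μ K w s⟫ < 0 then 1 else 0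
    have hf : ∀ s t, 0 ≤ f s t ∧ f s t ≤ 1 := by
      intro s t
      simp only [f]
      split_ifs <;> norm_num
    have h1 := ih (h.step hg f hf)
    set g : S → E := fun t => (μ t)⁻¹ • ∑ r, (K t r * f t r) • γ t r with hgdef
    have e1 : ∀ s, ∑ t, K s t * max (-⟪γ s t, Pm μ K w s⟫) 0 = ∑ t, K s t * (-⟪g s, w t⟫) := by
      intro s
      have hμ := h.hμ s
      have a1 : ∑ t, K s t * max (-⟪γ s t, Pm μ K w s⟫) 0 = -(μ s * ⟪g s, Pm μ K w s⟫) := by
        simp only [hgdef, real_inner_smul_left, sum_inner]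
        rw [← mul_assoc, mul_inv_cancel₀ hμ.ne', one_mul, ← sum_neg_distrib]
        refine sum_congr rfl fun t _ => ?_
        simp only [f]
        split_ifs with hc
        · rw [max_eq_left (by linarith)]; ring
        · rw [max_eq_right (by linarith)]; ring
      rw [a1, Pm, real_inner_smul_right, ← mul_assoc, mul_inv_cancel₀ hμ.ne', one_mul, inner_sum,
        ← sum_neg_distrib]
      refine sum_congr rfl fun t _ => ?_
      rw [real_inner_smul_right]; ring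
    calc _ = ∑ s, ∑ t, K s t * (-⟪g s, w t⟫) := sum_congr rfl fun s _ => e1 s
      _ ≤ ∑ s, ∑ t, K s t * max (-⟪g s, w t⟫) 0 :=
          sum_le_sum fun s _ => sum_le_sum fun t _ =>
            mul_le_mul_of_nonneg_left (le_max_left _ _) (h.hK s t)
      _ = ∑ t, ∑ s, K t s * max (-⟪g s, w t⟫) 0 := by
          rw [sum_comm]
          exact sum_congr rfl fun t _ => sum_congr rfl fun s _ => by rw [h.symm]
      _ ≤ D + 2 * e0 + 2 * i * e0 := h1
      _ = _ := by push_cast; ring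

theorem Hyp.good_iter (h : Hyp μ K φ z Λ e0 e1) (j : ℕ) :
    Good μ K φ Λ (fun _ t => (Pm μ K)^[j] φ t) (fun _ _ => 1) (e1 + 2 * j * e0) := by
  induction j with
  | zero =>
    refine ⟨fun _ t => h.hφ t, fun _ _ => ⟨zero_le_one, le_rfl⟩, fun δ => ?_⟩
    simpa using h.f1 δ
  | succ j ih =>
    have h1 := h.step ih (fun _ _ => 1) fun _ _ => ⟨zero_le_one, le_rfl⟩
    have e1 : (fun (_ : S) t => (μ t)⁻¹ * ∑ r, K t r * 1 * (1 : ℝ)) = fun _ _ => 1 := by
      funext _ t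
      simp only [mul_one]
      rw [h.row t, inv_mul_cancel₀ (h.hμ t).ne']
    have e2 : (fun (_ : S) t => (μ t)⁻¹ • ∑ r, (K t r * 1) • (Pm μ K)^[j] φ r) =
        fun _ t => (Pm μ K)^[j + 1] φ t := by
      funext _ t
      rw [Function.iterate_succ_apply']
      simp only [mul_one, Pm]
    rw [e1, e2] at h1
    convert h1 using 1
    push_cast; ring

theorem iter_sub (μ : S → ℝ) (K : S → S → ℝ) (i : ℕ) (g g' : S → E) :
    (Pm μ K)^[i] (fun r => g r - g' r) = fun r => (Pm μ K)^[i] g r - (Pm μ K)^[i] g' r := by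
  induction i with
  | zero => rfl
  | succ i ih =>
    funext s
    simp only [Function.iterate_succ_apply', ih, Pm, smul_sub, sum_sub_distrib]

theorem iter_tele (μ : S → ℝ) (K : S → S → ℝ) (φ : S → E) (j : ℕ) (s : S) :
    φ s = (Pm μ K)^[j] φ s + ∑ i ∈ range j, (Pm μ K)^[i] (fun r => φ r - Pm μ K φ r) s := by
  induction j with
  | zero => simp
  | succ j ih =>
    rw [sum_range_succ, iter_sub, ← Function.iterate_succ_apply (Pm μ K) j φ]
    simp only [Nat.succ_eq_add_one]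
    rw [← add_assoc, add_right_comm, add_sub_cancel]
    exact ih

theorem Hyp.exists_close (h : Hyp μ K φ z Λ e0 e1) {J : ℕ} (hJ : 1 ≤ J) :
    ∃ j < J, ∑ s, ∑ t, K s t * ‖(Pm μ K)^[j] φ s - (Pm μ K)^[j] φ t‖ ^ 2 ≤ 2 / J := by
  set a : ℕ → ℝ := fun j => ∑ s, μ s * ‖(Pm μ K)^[j] φ s‖ ^ 2 with ha
  have h1 : ∀ j, ∑ s, ∑ t, K s t * ‖(Pm μ K)^[j] φ s - (Pm μ K)^[j] φ t‖ ^ 2 ≤
      2 * (a j - a (j + 1)) := by
    intro j
    have h2 := h.psd ((Pm μ K)^[j] φ)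
    have h3 : a (j + 1) = ∑ s, μ s * ‖Pm μ K ((Pm μ K)^[j] φ) s‖ ^ 2 := by
      simp only [ha, Function.iterate_succ_apply']
    set g := (Pm μ K)^[j] φ with hg
    have h4 : ∑ s, ∑ t, K s t * ‖g s - g t‖ ^ 2 =
        2 * a j - 2 * ∑ s, ∑ t, K s t * ⟪g s, g t⟫ := by
      have e1 : ∑ s, ∑ t, K s t * ‖g s‖ ^ 2 = a j := by
        simp only [ha, ← hg]
        exact sum_congr rfl fun s _ => by rw [← sum_mul, h.row]
      have e2 : ∑ s, ∑ t, K s t * ‖g t‖ ^ 2 = a j := by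
        rw [sum_comm, ← e1]
        exact sum_congr rfl fun s _ => sum_congr rfl fun t _ => by rw [h.symm]
      have e3 : ∀ s t, K s t * ‖g s - g t‖ ^ 2 =
          K s t * ‖g s‖ ^ 2 + K s t * ‖g t‖ ^ 2 - 2 * (K s t * ⟪g s, g t⟫) := by
        intro s t
        rw [norm_sub_sq_real]; ring
      simp only [e3, sum_sub_distrib, sum_add_distrib, ← mul_sum, e1, e2]
      ring
    rw [h4, h3]
    linarith
  have ha0 : a 0 ≤ 1 := by
    rw [← h.tot]
    refine sum_le_sum fun s _ => ?_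
    have := h.hφ s
    have h2 : ‖φ s‖ ^ 2 ≤ 1 := by
      have := norm_nonneg (φ s)
      nlinarith
    have := h.hμ s
    simp only [Function.iterate_zero, id]
    nlinarith
  have haJ : 0 ≤ a J := sum_nonneg fun s _ => mul_nonneg (h.hμ s).le (sq_nonneg _)
  have hsum : ∑ j ∈ range J, (a j - a (j + 1)) ≤ ∑ _j ∈ range J, (1 / (J : ℝ)) := by
    rw [sum_range_sub', sum_const, card_range, nsmul_eq_mul]
    have : (0 : ℝ) < J := by exact_mod_cast hJ
    rw [mul_one_div_cancel this.ne']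
    linarith
  obtain ⟨j, hj, hj2⟩ := exists_le_of_sum_le (by simp; omega) hsum
  refine ⟨j, mem_range.1 hj, (h1 j).trans ?_⟩
  rw [show (2 : ℝ) / J = 2 * (1 / J) by ring]
  linarith

/-- The abstract positivity estimate. -/
theorem Hyp.positivity (h : Hyp μ K φ z Λ e0 e1) {J : ℕ} (hJ : 1 ≤ J) :
    ∑ s, ∑ t, K s t * max (-⟪φ s, φ t⟫) 0 ≤ 1 / (2 * J) + 2 * J * e1 + 6 * J ^ 2 * e0 := by
  obtain ⟨j, hj, hc⟩ := h.exists_close hJ
  have he0 := h.e0_nonneg
  have he1 : 0 ≤ e1 := le_trans (sum_nonneg fun s _ => sum_nonneg fun t _ =>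
    mul_nonneg (h.hK s t) (le_max_right _ _)) (h.f1 fun _ => 0)
  set g := (Pm μ K)^[j] φ with hg
  set w : ℕ → S → E := fun i => (Pm μ K)^[i] (fun r => φ r - Pm μ K φ r) with hw
  have key : ∀ s t, max (-⟪φ s, φ t⟫) 0 ≤ ‖g s - g t‖ ^ 2 / 4 +
      ∑ i ∈ range j, max (-⟪φ t, w i s⟫) 0 + ∑ i ∈ range j, max (-⟪g s, w i t⟫) 0 := by
    intro s t
    have n1 : 0 ≤ ∑ i ∈ range j, max (-⟪φ t, w i s⟫) 0 := sum_nonneg fun _ _ => le_max_right _ _
    have n2 : 0 ≤ ∑ i ∈ range j, max (-⟪g s, w i t⟫) 0 := sum_nonneg fun _ _ => le_max_right _ _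
    refine max_le ?_ (by positivity)
    have a1 : ⟪φ s, φ t⟫ = ⟪g s, φ t⟫ + ∑ i ∈ range j, ⟪φ t, w i s⟫ := by
      conv_lhs => rw [iter_tele μ K φ j s]
      rw [inner_add_left, sum_inner]
      congr 1
      exact sum_congr rfl fun i _ => real_inner_comm _ _
    have a2 : ⟪g s, φ t⟫ = ⟪g s, g t⟫ + ∑ i ∈ range j, ⟪g s, w i t⟫ := by
      conv_lhs => rw [iter_tele μ K φ j t]
      rw [inner_add_right, inner_sum]
    have a3 : -⟪g s, g t⟫ ≤ ‖g s - g t‖ ^ 2 / 4 := by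
      have b1 := norm_sub_sq_real (g s) (g t)
      have b2 := norm_add_sq_real (g s) (g t)
      have b3 := sq_nonneg ‖g s + g t‖
      linarith
    have a4 : -∑ i ∈ range j, ⟪φ t, w i s⟫ ≤ ∑ i ∈ range j, max (-⟪φ t, w i s⟫) 0 := by
      rw [← sum_neg_distrib]
      exact sum_le_sum fun _ _ => le_max_left _ _
    have a5 : -∑ i ∈ range j, ⟪g s, w i t⟫ ≤ ∑ i ∈ range j, max (-⟪g s, w i t⟫) 0 := by
      rw [← sum_neg_distrib]
      exact sum_le_sum fun _ _ => le_max_left _ _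
    rw [a1, a2]
    linarith
  have hjJ : (j : ℝ) ≤ J := by exact_mod_cast hj.le
  have hj0 : (0 : ℝ) ≤ j := Nat.cast_nonneg j
  have b1 : ∑ s, ∑ t, K s t * ∑ i ∈ range j, max (-⟪φ t, w i s⟫) 0 ≤ J * (e1 + 2 * J * e0) := by
    have : ∑ s, ∑ t, K s t * ∑ i ∈ range j, max (-⟪φ t, w i s⟫) 0 =
        ∑ i ∈ range j, ∑ s, ∑ t, K s t * max (-⟪φ t, w i s⟫) 0 := by
      simp only [mul_sum]
      rw [sum_comm (s := range j)]
      refine sum_congr rfl fun s _ => ?_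
      rw [sum_comm]
    rw [this]
    calc _ ≤ ∑ _i ∈ range j, (e1 + 2 * J * e0) := by
          refine sum_le_sum fun i hi => ?_
          have h1 := h.neg_iter i (h.good_iter 0)
          have hi' : (i : ℝ) ≤ J := by exact_mod_cast ((mem_range.1 hi).trans hj).le
          simp only [Function.iterate_zero, id, Nat.cast_zero, mul_zero, zero_mul, add_zero] at h1
          refine h1.trans ?_
          gcongr
      _ ≤ _ := by
          rw [sum_const, card_range, nsmul_eq_mul]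
          gcongr
  have b2 : ∑ s, ∑ t, K s t * ∑ i ∈ range j, max (-⟪g s, w i t⟫) 0 ≤ J * (e1 + 4 * J * e0) := by
    have : ∑ s, ∑ t, K s t * ∑ i ∈ range j, max (-⟪g s, w i t⟫) 0 =
        ∑ i ∈ range j, ∑ t, ∑ s, K t s * max (-⟪g s, w i t⟫) 0 := by
      simp only [mul_sum]
      rw [sum_comm (s := range j), sum_comm]
      refine sum_congr rfl fun t _ => ?_
      rw [sum_comm]
      exact sum_congr rfl fun i _ => sum_congr rfl fun s _ => by rw [h.symm]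
    rw [this]
    calc _ ≤ ∑ _i ∈ range j, (e1 + 4 * J * e0) := by
          refine sum_le_sum fun i hi => ?_
          have h1 := h.neg_iter i (h.good_iter j)
          have hi' : (i : ℝ) ≤ J := by exact_mod_cast ((mem_range.1 hi).trans hj).le
          refine h1.trans ?_
          have c1 : 2 * (j : ℝ) * e0 ≤ 2 * J * e0 := by gcongr
          have c2 : 2 * (i : ℝ) * e0 ≤ 2 * J * e0 := by gcongr
          linarith
      _ ≤ _ := by
          rw [sum_const, card_range, nsmul_eq_mul]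
          gcongr
  calc _ ≤ ∑ s, ∑ t, K s t * (‖g s - g t‖ ^ 2 / 4 +
        ∑ i ∈ range j, max (-⟪φ t, w i s⟫) 0 + ∑ i ∈ range j, max (-⟪g s, w i t⟫) 0) :=
        sum_le_sum fun s _ => sum_le_sum fun t _ =>
          mul_le_mul_of_nonneg_left (key s t) (h.hK s t)
    _ = (∑ s, ∑ t, K s t * ‖g s - g t‖ ^ 2) / 4 +
          ∑ s, ∑ t, K s t * ∑ i ∈ range j, max (-⟪φ t, w i s⟫) 0 +
          ∑ s, ∑ t, K s t * ∑ i ∈ range j, max (-⟪g s, w i t⟫) 0 := by
        simp only [mul_add, sum_add_distrib, sum_div, mul_div_assoc]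
    _ ≤ (2 / J) / 4 + J * (e1 + 2 * J * e0) + J * (e1 + 4 * J * e0) := by gcongr
    _ = _ := by
        have : (0 : ℝ) < J := by exact_mod_cast hJ
        field_simp
        ring

end Pool.Agent.P.MP_81d17b_pr.LR
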