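import Pool.Agent.P.MP_81d17b_pr.LR.Init

namespace Pool.Agent.P.MP_81d17b_pr.LR

open Real Finset Function

variable {V : Type}

/-- Product of the two spins of a pair. -/
noncomputable def sp (e : Sym2 V) (σ : V → Bool) : ℝ := (e.map fun x => sg (σ x)).mul

theorem sp_mk (x y : V) (σ : V → Bool) : sp s(x, y) σ = sg (σ x) * sg (σ y) := rfl

theorem sp_cases (e : Sym2 V) (σ : V → Bool) : sp e σ = 1 ∨ sp e σ = -1 := by
  induction e using Sym2.ind with
  | h x y =>
    rw [sp_mk]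
    rcases sg_cases (σ x) with h1 | h1 <;> rcases sg_cases (σ y) with h2 | h2 <;> simp [h1, h2]

/-- Overlap of two replicas in the block `B`. -/
noncomputable def mB (B : Finset V) (σ τ : V → Bool) : ℝ :=
  (∑ x ∈ B, sg (σ x) * sg (τ x)) / B.card

theorem abs_sum_sg (B : Finset V) (σ τ : V → Bool) : |∑ x ∈ B, sg (σ x) * sg (τ x)| ≤ B.card := by
  refine (abs_sum_le_sum_abs _ _).trans (le_of_eq ?_)
  simp [abs_mul, abs_sg]

theorem abs_mB (B : Finset V) (σ τ : V → Bool) : |mB B σ τ| ≤ 1 := by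
  rw [mB, abs_div, Nat.abs_cast]
  exact div_le_one_of_le₀ (abs_sum_sg B σ τ) (Nat.cast_nonneg _)

theorem sign_ineq {κ : Type} (I : Finset κ) (hI : I.Nonempty) (m : κ → ℝ) {r : ℝ} (hr : 0 < r) :
    (∑ i ∈ I, |m i|) / I.card - r -
        (∑ i ∈ I, ∑ j ∈ I, max (-(m i * m j)) 0) / (I.card ^ 2 * r) ≤ |∑ i ∈ I, m i| / I.card := by
  have hn : (0 : ℝ) < I.card := by exact_mod_cast card_pos.2 hI
  set P := ∑ i ∈ I, max (m i) 0 with hP
  set N := ∑ i ∈ I, max (-m i) 0 with hN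
  have hP0 : 0 ≤ P := sum_nonneg fun _ _ => le_max_right _ _
  have hN0 : 0 ≤ N := sum_nonneg fun _ _ => le_max_right _ _
  have e1 : ∑ i ∈ I, |m i| = P + N := by
    rw [← sum_add_distrib]
    exact sum_congr rfl fun i _ => (max_zero_add_max_neg_zero_eq_abs_self _).symm
  have e2 : ∑ i ∈ I, m i = P - N := by
    rw [← sum_sub_distrib]
    exact sum_congr rfl fun i _ => (max_zero_sub_max_neg_zero_eq_self _).symm
  have e3 : P * N ≤ ∑ i ∈ I, ∑ j ∈ I, max (-(m i * m j)) 0 := by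
    rw [sum_mul_sum]
    refine sum_le_sum fun i _ => sum_le_sum fun j _ => ?_
    rcases le_total (m i) 0 with h1 | h1
    · rw [max_eq_right h1, zero_mul]
      exact le_max_right _ _
    · rcases le_total (-m j) 0 with h2 | h2
      · rw [max_eq_right h2, mul_zero]
        exact le_max_right _ _
      · rw [max_eq_left h1, max_eq_left h2, mul_neg]
        exact le_max_left _ _
  rw [e1, e2]
  set n : ℝ := (I.card : ℝ)
  have e4 : P * N / (n ^ 2 * r) ≤ (∑ i ∈ I, ∑ j ∈ I, max (-(m i * m j)) 0) / (n ^ 2 * r) := by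
    gcongr
  have key : ∀ a b : ℝ, 0 ≤ a → a ≤ b → (a + b) / n - r - a * b / (n ^ 2 * r) ≤ (b - a) / n := by
    intro a b ha hab
    have h1 : a * a / (n ^ 2 * r) ≤ a * b / (n ^ 2 * r) := by gcongr
    have h2 : (b - a) / n - ((a + b) / n - r - a * a / (n ^ 2 * r)) =
        (n * r - a) ^ 2 / (n ^ 2 * r) := by
      field_simp
      ring
    have h3 : 0 ≤ (n * r - a) ^ 2 / (n ^ 2 * r) := by positivity
    linarith
  rcases le_total P N with h | h
  · rw [abs_sub_comm, abs_of_nonneg (sub_nonneg.2 h)]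
    linarith [key P N hP0 h]
  · rw [abs_of_nonneg (sub_nonneg.2 h)]
    have := key N P hN0 h
    rw [add_comm N, mul_comm N] at this
    linarith

variable [DecidableEq V]

theorem tile_ineq {κ : Type} (I : Finset κ) (hI : I.Nonempty) (B : κ → Finset V) (R : Finset V)
    {w : ℕ} (hw : 0 < w) (hc : ∀ i ∈ I, (B i).card = w) (hR : ∀ i ∈ I, B i ⊆ R)
    (hd : (I : Set κ).PairwiseDisjoint B) {θ : ℝ} (hθ : (1 - θ) * R.card ≤ I.card * w)
    (σ τ : V → Bool) : |∑ i ∈ I, mB (B i) σ τ| / I.card - 2 * θ ≤ |mB R σ τ| := by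
  have hn : (0 : ℝ) < I.card := by exact_mod_cast card_pos.2 hI
  have hw' : (0 : ℝ) < w := by exact_mod_cast hw
  have hU : I.biUnion B ⊆ R := biUnion_subset.2 hR
  have hcU : ((I.biUnion B).card : ℝ) = I.card * w := by
    rw [card_biUnion hd, sum_congr rfl hc]
    simp
  have hle : ((I.biUnion B).card : ℝ) ≤ R.card := by exact_mod_cast card_le_card hU
  have hq : (0 : ℝ) < R.card := lt_of_lt_of_le (by rw [hcU]; positivity) hle
  have e1 : ∑ x ∈ R, sg (σ x) * sg (τ x) =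
      ∑ x ∈ R \ I.biUnion B, sg (σ x) * sg (τ x) + w * ∑ i ∈ I, mB (B i) σ τ := by
    rw [← sum_sdiff hU, sum_biUnion hd, mul_sum]
    congr 1
    refine sum_congr rfl fun i hi => ?_
    rw [mB, hc i hi]
    field_simp
  have e2 := abs_sum_sg (R \ I.biUnion B) σ τ
  rw [card_sdiff_of_subset hU, Nat.cast_sub (card_le_card hU), hcU] at e2
  have e3 : |∑ i ∈ I, mB (B i) σ τ| ≤ I.card := by
    refine (abs_sum_le_sum_abs _ _).trans ?_
    simpa using sum_le_sum fun i (_ : i ∈ I) => abs_mB (B i) σ τ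
  have e4 : w * |∑ i ∈ I, mB (B i) σ τ| - (R.card - I.card * w) ≤ |∑ x ∈ R, sg (σ x) * sg (τ x)| := by
    rw [e1, ← abs_of_pos hw', ← abs_mul, abs_of_pos hw']
    have := abs_sub_abs_le_abs_sub (w * ∑ i ∈ I, mB (B i) σ τ)
      (-∑ x ∈ R \ I.biUnion B, sg (σ x) * sg (τ x))
    rw [abs_neg, sub_neg_eq_add, add_comm] at this
    linarith
  rw [mB, abs_div, Nat.abs_cast, le_div_iff₀ hq]
  set a := |∑ i ∈ I, mB (B i) σ τ| / I.card with ha
  have ha1 : a ≤ 1 := div_le_one_of_le₀ e3 hn.le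
  have ha0 : 0 ≤ a := by positivity
  have e5 : |∑ i ∈ I, mB (B i) σ τ| = a * I.card := by rw [ha]; field_simp
  rw [e5] at e4
  rw [hcU] at hle
  nlinarith [mul_le_mul_of_nonneg_left ha1 (sub_nonneg.2 hle)]

variable [Fintype V]

/-- Disorder-averaged two-replica expectation. -/
noncomputable def E2 (A : Sym2 V → ℝ) (f : (V → Bool) → (V → Bool) → ℝ) : ℝ :=
  (∑ ε : Sym2 V → Bool, th sp f fun e => A e * sg (ε e)) / Fintype.card (Sym2 V → Bool)

variable {A : Sym2 V → ℝ}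

theorem card_pos' : (0 : ℝ) < Fintype.card (Sym2 V → Bool) := by exact_mod_cast Fintype.card_pos

theorem E2_mono {f g : (V → Bool) → (V → Bool) → ℝ} (h : ∀ σ τ, f σ τ ≤ g σ τ) :
    E2 A f ≤ E2 A g :=
  div_le_div_of_nonneg_right (sum_le_sum fun _ _ => th_mono h _) card_pos'.le

theorem E2_const (c : ℝ) : E2 A (fun _ _ => c) = c := by
  have := card_pos' (V := V)
  simp only [E2, th_const, sum_const, card_univ, nsmul_eq_mul]
  field_simp

theorem E2_add (f g : (V → Bool) → (V → Bool) → ℝ) :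
    E2 A (fun σ τ => f σ τ + g σ τ) = E2 A f + E2 A g := by
  simp only [E2, th_add, sum_add_distrib, add_div]

theorem E2_mul (c : ℝ) (f : (V → Bool) → (V → Bool) → ℝ) :
    E2 A (fun σ τ => c * f σ τ) = c * E2 A f := by
  simp only [E2, th_mul, ← mul_sum, mul_div_assoc]

theorem E2_sum {κ : Type} (I : Finset κ) (f : κ → (V → Bool) → (V → Bool) → ℝ) :
    E2 A (fun σ τ => ∑ i ∈ I, f i σ τ) = ∑ i ∈ I, E2 A (f i) := by
  simp only [E2, th_sum, ← sum_div]
  rw [sum_comm]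

theorem stepV {κ : Type} [DecidableEq κ] (I : Finset κ) (hI : I.Nonempty) (B : κ → Finset V)
    (R : Finset V) {w : ℕ} (hw : 0 < w) (hc : ∀ i ∈ I, (B i).card = w) (hR : ∀ i ∈ I, B i ⊆ R)
    (hd : (I : Set κ).PairwiseDisjoint B) {θ : ℝ} (hθ : (1 - θ) * R.card ≤ I.card * w)
    {q η ρ r : ℝ} (hr : 0 < r) (hη : 0 ≤ η) (hq : ∀ i ∈ I, q ≤ E2 A fun σ τ => |mB (B i) σ τ|)
    (bad : κ → Finset κ) (hbad : ∀ i ∈ I, ((I ∩ bad i).card : ℝ) ≤ ρ * I.card)
    (hgood : ∀ i ∈ I, ∀ j ∈ I, j ∉ bad i →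
      E2 A (fun σ τ => max (-(mB (B i) σ τ * mB (B j) σ τ)) 0) ≤ η) :
    q - 2 * θ - r - (η + ρ) / r ≤ E2 A fun σ τ => |mB R σ τ| := by
  have hn : (0 : ℝ) < I.card := by exact_mod_cast card_pos.2 hI
  have h1 : E2 A (fun σ τ => (I.card : ℝ)⁻¹ * ∑ i ∈ I, |mB (B i) σ τ|) ≤
      E2 A fun σ τ => |mB R σ τ| + ((2 * θ + r) + ((I.card : ℝ) ^ 2 * r)⁻¹ *
        ∑ i ∈ I, ∑ j ∈ I, max (-(mB (B i) σ τ * mB (B j) σ τ)) 0) := by
    refine E2_mono fun σ τ => ?_
    have a1 := sign_ineq I hI (fun i => mB (B i) σ τ) hr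
    have a2 := tile_ineq I hI B R hw hc hR hd hθ σ τ
    simp only [← div_eq_inv_mul]
    linarith
  rw [E2_mul, E2_sum, E2_add, E2_add, E2_const, E2_mul, E2_sum] at h1
  simp only [E2_sum] at h1
  have h2 : q ≤ (I.card : ℝ)⁻¹ * ∑ i ∈ I, E2 A fun σ τ => |mB (B i) σ τ| := by
    rw [← div_eq_inv_mul, le_div_iff₀ hn]
    simpa [mul_comm] using sum_le_sum hq
  have h3 : ∀ i ∈ I, ∑ j ∈ I, E2 A (fun σ τ => max (-(mB (B i) σ τ * mB (B j) σ τ)) 0) ≤
      (η + ρ) * I.card := by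
    intro i hi
    have h4 : ∀ j ∈ I, E2 A (fun σ τ => max (-(mB (B i) σ τ * mB (B j) σ τ)) 0) ≤
        η + if j ∈ bad i then 1 else 0 := by
      intro j hj
      split_ifs with hb
      · rw [← E2_const (A := A) (η + 1)]
        refine E2_mono fun σ τ => max_le ?_ (by linarith)
        have b1 : |mB (B i) σ τ * mB (B j) σ τ| ≤ 1 := by
          rw [abs_mul]
          exact mul_le_one₀ (abs_mB _ _ _) (abs_nonneg _) (abs_mB _ _ _)
        linarith [neg_le_abs (mB (B i) σ τ * mB (B j) σ τ)]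
      · rw [add_zero]
        exact hgood i hi j hj hb
    refine (sum_le_sum h4).trans ?_
    rw [sum_add_distrib, sum_ite_mem]
    simp only [sum_const, nsmul_eq_mul, mul_one]
    linarith [hbad i hi]
  have h5 := sum_le_sum h3
  rw [sum_const, nsmul_eq_mul] at h5
  have h6 := mul_le_mul_of_nonneg_left h5 (show 0 ≤ ((I.card : ℝ) ^ 2 * r)⁻¹ by positivity)
  have h7 : ((I.card : ℝ) ^ 2 * r)⁻¹ * (I.card * ((η + ρ) * I.card)) = (η + ρ) / r := by
    field_simp
  linarith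

theorem pairV {B B' : Finset V} (hd : Disjoint B B') {a a' : ℝ} (ha : 0 ≤ a)
    (hA : ∀ x ∈ B, ∀ y ∈ B', a ≤ A s(x, y) ∧ A s(x, y) ≤ a') {J : ℕ} (hJ : 1 ≤ J)
    (hT : (2 : ℝ) ^ (8 * J ^ 7) ≤ a ^ 2 * (B.card * B'.card)) :
    E2 A (fun σ τ => max (-(mB B σ τ * mB B' σ τ)) 0) ≤
      103 / J + KL * (B.card * B'.card * a' ^ 4) := by
  set D := (B ×ˢ B').image fun p : V × V => s(p.1, p.2) with hD
  have hinj : Set.InjOn (fun p : V × V => s(p.1, p.2)) (B ×ˢ B' : Finset (V × V)) := by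
    intro p hp q hq h
    rw [mem_coe, mem_product] at hp hq
    rcases Sym2.eq_iff.1 h with ⟨h1, h2⟩ | ⟨h1, _⟩
    · exact Prod.ext h1 h2
    · exact absurd (h1 ▸ hp.1) (disjoint_right.1 hd hq.2)
  have hc : (D.card : ℝ) = B.card * B'.card := by
    rw [hD, card_image_of_injOn hinj, card_product, Nat.cast_mul]
  have h := pair_abs (s := sp) sp_cases (A := A) ha D (fun e he => by
    obtain ⟨p, hp, rfl⟩ := mem_image.1 he
    exact (hA _ (mem_product.1 hp).1 _ (mem_product.1 hp).2).1) hJ (hc ▸ hT)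
  have e1 : ∀ σ τ, (∑ e ∈ D, sp e σ * sp e τ) / D.card = mB B σ τ * mB B' σ τ := by
    intro σ τ
    rw [hc, hD, sum_image hinj, mB, mB, div_mul_div_comm, sum_mul_sum, sum_product]
    congr 1
    exact sum_congr rfl fun x _ => sum_congr rfl fun y _ => by simp only [sp_mk]; ring
  simp only [e1] at h
  have e2 : ∑ e ∈ D, A e ^ 4 ≤ B.card * B'.card * a' ^ 4 := by
    rw [← hc, ← nsmul_eq_mul, ← sum_const]
    refine sum_le_sum fun e he => ?_
    obtain ⟨p, hp, rfl⟩ := mem_image.1 he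
    have := hA _ (mem_product.1 hp).1 _ (mem_product.1 hp).2
    exact pow_le_pow_left₀ (ha.trans this.1) this.2 4
  rw [E2, div_le_iff₀ card_pos', mul_comm]
  refine h.trans (mul_le_mul_of_nonneg_left ?_ card_pos'.le)
  have := mul_le_mul_of_nonneg_left e2 KL_nonneg
  linarith

theorem th_sq (B : Finset V) (h : Sym2 V → ℝ) : th sp (fun σ τ => mB B σ τ ^ 2) h =
    (∑ x ∈ B, ∑ y ∈ B, (∑ σ, gw sp h σ * sp s(x, y) σ) ^ 2) / B.card ^ 2 := by
  have e1 : ∀ σ τ, mB B σ τ ^ 2 =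
      ((B.card : ℝ) ^ 2)⁻¹ * ∑ x ∈ B, ∑ y ∈ B, sp s(x, y) σ * sp s(x, y) τ := by
    intro σ τ
    rw [mB, div_pow, div_eq_inv_mul, sq (∑ x ∈ B, _), sum_mul_sum]
    congr 1
    exact sum_congr rfl fun x _ => sum_congr rfl fun y _ => by simp only [sp_mk]; ring
  simp only [e1]
  rw [th_mul, th_sum, div_eq_inv_mul]
  congr 1
  refine sum_congr rfl fun x _ => ?_
  rw [th_sum]
  refine sum_congr rfl fun y _ => ?_
  rw [sq, sum_mul_sum, th]
  exact sum_congr rfl fun σ _ => sum_congr rfl fun τ _ => by ring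

theorem initV {B : Finset V} (hB : B.Nonempty) {t : ℝ} (ht : 0 < t)
    (hA : ∀ x ∈ B, ∀ y ∈ B, x ≠ y → t ≤ A s(x, y)) :
    1 - 6 * (1 + 1 / t) / √B.card ≤ E2 A fun σ τ => mB B σ τ ^ 2 := by
  have hn : (0 : ℝ) < B.card := by exact_mod_cast card_pos.2 hB
  have hs : 0 < √(B.card : ℝ) := sqrt_pos.2 hn
  set P := B.offDiag.image fun p : V × V => s(p.1, p.2) with hP
  set T : Finset (V → Bool) := Fintype.piFinset fun x => if x ∈ B then univ else {true} with hT
  have cT : (T.card : ℝ) = 2 ^ B.card := by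
    rw [hT, Fintype.card_piFinset]
    simp [apply_ite card]
  have cP : (P.card : ℝ) ≤ B.card ^ 2 := by
    have := card_image_le (s := B.offDiag) (f := fun p : V × V => s(p.1, p.2))
    rw [offDiag_card] at this
    rw [sq]
    exact_mod_cast this.trans (Nat.sub_le _ _)
  have h := init_abs (s := sp) sp_cases (A := A) P T (fun σ => ⟨fun x => if x ∈ B then σ x else true,
    Fintype.mem_piFinset.2 fun x => by split_ifs <;> simp, fun e he => by
      obtain ⟨p, hp, rfl⟩ := mem_image.1 he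
      obtain ⟨h1, h2, _⟩ := mem_offDiag.1 hp
      simp only [sp_mk, h1, h2, if_true]⟩) ht (fun e he => by
      obtain ⟨p, hp, rfl⟩ := mem_image.1 he
      obtain ⟨h1, h2, h3⟩ := mem_offDiag.1 hp
      exact hA _ h1 _ h2 h3) (l := 1 / √B.card) (by positivity)
  have key : ∀ g : Sym2 V → ℝ, 1 - 2 * (∑ e ∈ P, (1 - (∑ σ, gw sp g σ * sp e σ) ^ 2)) / B.card ^ 2 ≤
      th sp (fun σ τ => mB B σ τ ^ 2) g := by
    intro g
    set M : Sym2 V → ℝ := fun e => 1 - (∑ σ, gw sp g σ * sp e σ) ^ 2 with hM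
    have hM0 : ∀ e, 0 ≤ M e := fun e =>
      sub_nonneg.2 ((sq_le_one_iff_abs_le_one _).2 (mean_abs sp_cases g e))
    have a1 : ∑ p ∈ B.offDiag, M s(p.1, p.2) ≤ 2 * ∑ e ∈ P, M e := by
      rw [sum_comp M fun p : V × V => s(p.1, p.2), mul_sum]
      refine sum_le_sum fun e _ => ?_
      rw [nsmul_eq_mul]
      refine mul_le_mul_of_nonneg_right ?_ (hM0 e)
      induction e using Sym2.ind with
      | h x y =>
        have : (B.offDiag.filter fun p : V × V => s(p.1, p.2) = s(x, y)) ⊆ {(x, y), (y, x)} := by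
          intro p hp
          rcases Sym2.eq_iff.1 (mem_filter.1 hp).2 with ⟨h1, h2⟩ | ⟨h1, h2⟩
          · simp [← h1, ← h2]
          · simp [← h1, ← h2]
        exact_mod_cast (card_le_card this).trans card_le_two
    have a2 : ∑ x ∈ B, ∑ y ∈ B, M s(x, y) = ∑ p ∈ B.offDiag, M s(p.1, p.2) := by
      rw [← sum_product', ← diag_union_offDiag, sum_union (disjoint_diag_offDiag B), sum_diag,
        sum_eq_zero, zero_add]
      intro x _
      simp only [hM, sp_mk, sg_sq, mul_one, gw_sum]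
      ring
    rw [th_sq, le_div_iff₀ (by positivity), sub_mul, div_mul_cancel₀ _ (by positivity)]
    rw [← a2] at a1
    simp only [hM, sum_sub_distrib, sum_const, nsmul_eq_mul] at a1 ⊢
    nlinarith
  have h2 := sum_le_sum fun (ε : Sym2 V → Bool) (_ : ε ∈ univ) => key fun e => A e * sg (ε e)
  rw [sum_sub_distrib, ← sum_div, ← mul_sum, sum_const, card_univ, nsmul_eq_mul, mul_one] at h2
  rw [E2, le_div_iff₀ card_pos']
  refine le_trans ?_ h2
  have h3 : log T.card / (1 / √B.card) + 1 / √B.card / 2 * P.card ≤ 3 / 2 * B.card ^ 2 / √B.card := by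
    rw [cT, log_pow]
    have b1 : log 2 ≤ 1 := by linarith [log_two_lt_d9]
    calc _ ≤ B.card * 1 / (1 / √B.card) + 1 / √B.card / 2 * B.card ^ 2 := by gcongr
      _ = _ := by
        have b2 : (B.card : ℝ) = √B.card ^ 2 := (sq_sqrt hn.le).symm
        generalize √(B.card : ℝ) = u at b2 hs
        rw [b2]
        field_simp
        ring
  have h4 := h.trans (mul_le_mul_of_nonneg_left (mul_le_mul_of_nonneg_left h3
    (show 0 ≤ 2 * (1 + 1 / t) by positivity)) card_pos'.le)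
  have h5 := div_le_div_of_nonneg_right (mul_le_mul_of_nonneg_left h4 zero_le_two)
    (show 0 ≤ (B.card : ℝ) ^ 2 by positivity)
  have h6 : 2 * (Fintype.card (Sym2 V → Bool) * (2 * (1 + 1 / t) * (3 / 2 * B.card ^ 2 / √B.card))) /
      B.card ^ 2 = 6 * (1 + 1 / t) / √B.card * Fintype.card (Sym2 V → Bool) := by
    field_simp
    ring
  linarith

end Pool.Agent.P.MP_81d17b_pr.LR
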