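import Pool.Agent.P.MP_81d17b_pr.LR.Defs

namespace Pool.Agent.P.MP_81d17b_pr.LR

open Real Finset Function

theorem sg_cases (b : Bool) : sg b = 1 ∨ sg b = -1 := by cases b <;> simp [sg]

theorem sg_not (b : Bool) : sg (!b) = -sg b := by cases b <;> simp [sg]

theorem sg_sq (b : Bool) : sg b * sg b = 1 := by cases b <;> simp [sg]

theorem abs_sg (b : Bool) : |sg b| = 1 := by cases b <;> simp [sg]

theorem tanh_sq_le (t : ℝ) : tanh t ^ 2 ≤ t ^ 2 ∧ t ^ 2 - t ^ 4 ≤ tanh t ^ 2 := by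
  have hc := cosh_pos t
  have h1 : cosh t ^ 2 ≤ exp (t ^ 2) := by
    calc cosh t ^ 2 ≤ exp (t ^ 2 / 2) ^ 2 := pow_le_pow_left₀ hc.le (cosh_le_exp_half_sq t) 2
      _ = _ := by rw [← exp_nat_mul]; congr 1; push_cast; ring
  have h2 : (1 - t ^ 2) * cosh t ^ 2 ≤ 1 := by
    have h3 := add_one_le_exp (-t ^ 2)
    calc (1 - t ^ 2) * cosh t ^ 2 ≤ exp (-t ^ 2) * cosh t ^ 2 := by gcongr; linarith
      _ ≤ exp (-t ^ 2) * exp (t ^ 2) := by gcongr
      _ = 1 := by rw [← exp_add]; simp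
  have h4 : t ^ 2 ≤ sinh t ^ 2 := by
    rw [← sq_abs t, ← sq_abs (sinh t), abs_sinh]
    exact pow_le_pow_left₀ (abs_nonneg t) (self_le_sinh_iff.2 (abs_nonneg t)) 2
  rw [tanh_eq_sinh_div_cosh, div_pow, div_le_iff₀ (by positivity), le_div_iff₀ (by positivity)]
  have h5 := cosh_sq t
  constructor
  · nlinarith
  · nlinarith [mul_le_mul_of_nonneg_left h2 (sq_nonneg t)]

theorem tanh_ge {t : ℝ} (ht : 0 < t) : t / (1 + t) ≤ tanh t := by
  rw [tanh_eq_sinh_div_cosh, div_le_div_iff₀ (by positivity) (cosh_pos t)]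
  have h1 := cosh_sub_sinh t
  have h2 : exp (-t) ≤ 1 := exp_le_one_iff.2 (by linarith)
  have h3 := self_le_sinh_iff.2 ht.le
  nlinarith

variable {ι S : Type} [Fintype ι] [Fintype S]

/-- Gibbs weights for the interaction terms `s e` and the couplings `h e`. -/
noncomputable def gw (s : ι → S → ℝ) (h : ι → ℝ) (σ : S) : ℝ :=
  exp (∑ e, h e * s e σ) / ∑ τ, exp (∑ e, h e * s e τ)

/-- Two-replica average. -/
noncomputable def th (s : ι → S → ℝ) (f : S → S → ℝ) (h : ι → ℝ) : ℝ :=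
  ∑ σ, ∑ τ, gw s h σ * gw s h τ * f σ τ

variable [Nonempty S] {s : ι → S → ℝ}

theorem gZ_pos (h : ι → ℝ) : 0 < ∑ τ, exp (∑ e, h e * s e τ) :=
  sum_pos (fun _ _ => exp_pos _) univ_nonempty

theorem gw_pos (h : ι → ℝ) (σ : S) : 0 < gw s h σ := div_pos (exp_pos _) (gZ_pos h)

theorem gw_sum (h : ι → ℝ) : ∑ σ, gw s h σ = 1 := by
  simp only [gw]
  rw [← sum_div]
  exact div_self (gZ_pos h).ne'

theorem gw_cont (σ : S) : Continuous fun h => gw s h σ :=
  Continuous.div (by fun_prop) (by fun_prop) fun h => (gZ_pos h).ne'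

theorem th_cont (f : S → S → ℝ) : Continuous (th s f) :=
  continuous_finsetSum _ fun σ _ => continuous_finsetSum _ fun τ _ =>
    ((gw_cont σ).mul (gw_cont τ)).mul continuous_const

theorem th_mono {f g : S → S → ℝ} (hfg : ∀ σ τ, f σ τ ≤ g σ τ) (h : ι → ℝ) :
    th s f h ≤ th s g h :=
  sum_le_sum fun σ _ => sum_le_sum fun τ _ => mul_le_mul_of_nonneg_left (hfg σ τ)
    (mul_pos (gw_pos h σ) (gw_pos h τ)).le

theorem th_const (c : ℝ) (h : ι → ℝ) : th s (fun _ _ => c) h = c := by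
  simp only [th, ← sum_mul, ← mul_sum, gw_sum, one_mul, mul_one]

omit [Nonempty S] in
theorem th_add (f g : S → S → ℝ) (h : ι → ℝ) :
    th s (fun σ τ => f σ τ + g σ τ) h = th s f h + th s g h := by
  simp only [th, mul_add, sum_add_distrib]

omit [Nonempty S] in
theorem th_mul (c : ℝ) (f : S → S → ℝ) (h : ι → ℝ) :
    th s (fun σ τ => c * f σ τ) h = c * th s f h := by
  simp only [th, mul_sum]
  exact sum_congr rfl fun σ _ => sum_congr rfl fun τ _ => by ring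

omit [Nonempty S] in
theorem th_sum {κ : Type} (I : Finset κ) (f : κ → S → S → ℝ) (h : ι → ℝ) :
    th s (fun σ τ => ∑ i ∈ I, f i σ τ) h = ∑ i ∈ I, th s (f i) h := by
  simp only [th, mul_sum]
  rw [sum_comm (s := I)]
  exact sum_congr rfl fun σ _ => sum_comm

theorem th_abs {f : S → S → ℝ} {M : ℝ} (hf : ∀ σ τ, |f σ τ| ≤ M) (h : ι → ℝ) : |th s f h| ≤ M := by
  rw [abs_le]
  constructor
  · rw [← th_const (s := s) (-M) h]
    exact th_mono (fun σ τ => (abs_le.1 (hf σ τ)).1) h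
  · rw [← th_const (s := s) M h]
    exact th_mono (fun σ τ => (abs_le.1 (hf σ τ)).2) h

theorem mean_abs (hs : ∀ e σ, s e σ = 1 ∨ s e σ = -1) (h : ι → ℝ) (e : ι) :
    |∑ σ, gw s h σ * s e σ| ≤ 1 := by
  refine (abs_sum_le_sum_abs _ _).trans ?_
  rw [← gw_sum (s := s) h]
  refine sum_le_sum fun σ _ => ?_
  rw [abs_mul, abs_of_pos (gw_pos h σ)]
  rcases hs e σ with h1 | h1 <;> simp [h1]

theorem den_pos {m : ℝ} (hm : |m| ≤ 1) (t : ℝ) : 0 < 1 + tanh t * m := by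
  have h1 := abs_tanh_lt_one t
  have h2 : |tanh t * m| < 1 := by
    rw [abs_mul]
    exact mul_lt_one_of_nonneg_of_lt_one_left (abs_nonneg _) h1 hm
  linarith [(abs_lt.1 h2).1]

variable [DecidableEq ι]

theorem gw_update (hs : ∀ e σ, s e σ = 1 ∨ s e σ = -1) (h : ι → ℝ) (e : ι) (t : ℝ) (σ : S) :
    gw s (update h e t) σ = gw s (update h e 0) σ * (1 + tanh t * s e σ) /
      (1 + tanh t * ∑ τ, gw s (update h e 0) τ * s e τ) := by
  have h1 : ∀ τ, exp (∑ i, update h e t i * s i τ) =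
      cosh t * (exp (∑ i, update h e 0 i * s i τ) * (1 + tanh t * s e τ)) := by
    intro τ
    have h2 : ∑ i, update h e t i * s i τ = ∑ i, update h e 0 i * s i τ + t * s e τ := by
      rw [← sum_erase_add _ _ (mem_univ e), ← sum_erase_add _ _ (mem_univ e)]
      simp only [update_self, zero_mul, add_zero, add_left_inj]
      exact sum_congr rfl fun i hi => by simp only [update_of_ne (ne_of_mem_erase hi)]
    have h3 : exp (t * s e τ) = cosh t * (1 + tanh t * s e τ) := by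
      have hc := (cosh_pos t).ne'
      rw [tanh_eq_sinh_div_cosh]
      rcases hs e τ with h4 | h4
      · rw [h4, mul_one, ← cosh_add_sinh]
        field_simp
      · rw [h4, mul_neg_one, ← cosh_sub_sinh]
        field_simp
        ring
    rw [h2, exp_add, h3]
    ring
  have hZ := gZ_pos (s := s) (update h e 0)
  have hd := den_pos (mean_abs hs (update h e 0) e) t
  have h5 : ∑ τ, exp (∑ i, update h e t i * s i τ) = cosh t * ((∑ τ, exp (∑ i, update h e 0 i * s i τ)) *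
      (1 + tanh t * ∑ τ, gw s (update h e 0) τ * s e τ)) := by
    simp only [h1, gw]
    rw [← mul_sum]
    congr 1
    simp only [mul_add, mul_one, sum_add_distrib, mul_sum]
    congr 1
    refine sum_congr rfl fun τ _ => ?_
    field_simp
  rw [gw, h5, h1]
  have hc := (cosh_pos t).ne'
  rw [gw]
  field_simp

theorem even_alg {m f0 f1 f2 τ : ℝ} (hm : |m| ≤ 1) (h0 : |f0| ≤ 1) (h1 : |f1| ≤ 2) (h2 : |f2| ≤ 1)
    (hτ : τ ^ 2 ≤ 1 / 4) :
    |((f0 + τ * f1 + τ ^ 2 * f2) / (1 + τ * m) ^ 2 + (f0 - τ * f1 + τ ^ 2 * f2) / (1 - τ * m) ^ 2) / 2 -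
      f0 - (f2 + 3 * m ^ 2 * f0 - 2 * m * f1) * τ ^ 2| ≤ 47 * τ ^ 4 := by
  have hm2 : m ^ 2 ≤ 1 := by rwa [← sq_abs, sq_le_one_iff₀ (abs_nonneg m)]
  have hm0 := sq_nonneg m
  have hx0 := sq_nonneg τ
  have hmx : m ^ 2 * τ ^ 2 ≤ 1 / 4 := by nlinarith
  have hτm : |τ * m| ≤ 1 / 2 := by
    rw [← sq_le_sq₀ (abs_nonneg _) (by norm_num), sq_abs]
    nlinarith
  have d1 : 0 < 1 + τ * m := by linarith [(abs_le.1 hτm).1]
  have d2 : 0 < 1 - τ * m := by linarith [(abs_le.1 hτm).2]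
  set c2 := f2 + 3 * m ^ 2 * f0 - 2 * m * f1 with hc2
  have e : ((f0 + τ * f1 + τ ^ 2 * f2) / (1 + τ * m) ^ 2 +
      (f0 - τ * f1 + τ ^ 2 * f2) / (1 - τ * m) ^ 2) / 2 - f0 - c2 * τ ^ 2 =
      τ ^ 4 * (m ^ 2 * f2 - m ^ 2 * m ^ 2 * f0 + 2 * m ^ 2 * c2 - c2 * (m ^ 2 * m ^ 2) * τ ^ 2) /
        (1 - m ^ 2 * τ ^ 2) ^ 2 := by
    have : 1 - m ^ 2 * τ ^ 2 = (1 + τ * m) * (1 - τ * m) := by ring
    rw [this, hc2]
    field_simp
    ring
  have b1 : |m ^ 2 * f0| ≤ 1 := by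
    rw [abs_mul, abs_of_nonneg hm0]
    exact mul_le_one₀ hm2 (abs_nonneg _) h0
  have b2 : |m * f1| ≤ 2 := by
    rw [abs_mul]
    nlinarith [abs_nonneg m, abs_nonneg f1]
  have b3 : |c2| ≤ 8 := by
    rw [abs_le] at *
    constructor <;> nlinarith
  have b4 : ∀ a b B : ℝ, 0 ≤ a → a ≤ 1 → |b| ≤ B → |a * b| ≤ B := by
    intro a b B ha ha' hb
    rw [abs_mul, abs_of_nonneg ha]
    nlinarith [abs_nonneg b]
  have c1 := b4 _ _ _ hm0 hm2 h2
  have c2' := b4 _ _ _ hm0 hm2 b1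
  have c3 := b4 _ _ _ hm0 hm2 b3
  have c4 := b4 _ _ _ hx0 (by linarith) (b4 _ _ _ hm0 hm2 c3)
  have c5 : |m ^ 2 * f2 - m ^ 2 * m ^ 2 * f0 + 2 * m ^ 2 * c2 - c2 * (m ^ 2 * m ^ 2) * τ ^ 2| ≤ 26 := by
    rw [abs_le] at *
    constructor <;> nlinarith
  have d3 : 9 / 16 ≤ (1 - m ^ 2 * τ ^ 2) ^ 2 := by nlinarith
  rw [e, abs_div, abs_mul, abs_of_nonneg (by positivity : 0 ≤ τ ^ 4),
    abs_sq (1 - m ^ 2 * τ ^ 2), div_le_iff₀ (by linarith)]
  have h4 : 0 ≤ τ ^ 4 := by positivity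
  nlinarith [mul_le_mul_of_nonneg_left c5 h4, mul_le_mul_of_nonneg_left d3 h4]

theorem th_update (hs : ∀ e σ, s e σ = 1 ∨ s e σ = -1) (f : S → S → ℝ) (h : ι → ℝ) (e : ι)
    (t : ℝ) : th s f (update h e t) = (th s f (update h e 0) +
      tanh t * th s (fun σ τ => (s e σ + s e τ) * f σ τ) (update h e 0) +
      tanh t ^ 2 * th s (fun σ τ => s e σ * s e τ * f σ τ) (update h e 0)) /
        (1 + tanh t * ∑ τ, gw s (update h e 0) τ * s e τ) ^ 2 := by
  have hd := den_pos (mean_abs hs (update h e 0) e) t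
  rw [← th_mul, ← th_mul, ← th_add, ← th_add, th, th, sum_div]
  refine sum_congr rfl fun σ _ => ?_
  rw [sum_div]
  refine sum_congr rfl fun τ _ => ?_
  rw [gw_update hs h e t σ, gw_update hs h e t τ]
  field_simp
  ring

theorem even_bound (hs : ∀ e σ, s e σ = 1 ∨ s e σ = -1) {f : S → S → ℝ} (hf : ∀ σ τ, |f σ τ| ≤ 1)
    (h : ι → ℝ) (e : ι) : ∃ f0 c2 : ℝ, ∀ t,
      |(th s f (update h e t) + th s f (update h e (-t))) / 2 - f0 - c2 * t ^ 2| ≤ 64 * t ^ 4 := by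
  have hm := mean_abs hs (update h e 0) e
  have hs1 : ∀ σ, |s e σ| = 1 := fun σ => by rcases hs e σ with h1 | h1 <;> simp [h1]
  have h0 := th_abs (s := s) hf (update h e 0)
  have h1 := th_abs (s := s) (f := fun σ τ => (s e σ + s e τ) * f σ τ) (M := 2) (fun σ τ => by
    rw [abs_mul]
    have := abs_add_le (s e σ) (s e τ)
    rw [hs1, hs1] at this
    nlinarith [hf σ τ, abs_nonneg (f σ τ), abs_nonneg (s e σ + s e τ)]) (update h e 0)
  have h2 := th_abs (s := s) (f := fun σ τ => s e σ * s e τ * f σ τ) (M := 1) (fun σ τ => by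
    rw [abs_mul, abs_mul, hs1, hs1, one_mul, one_mul]
    exact hf σ τ) (update h e 0)
  set m := ∑ τ, gw s (update h e 0) τ * s e τ
  set f0 := th s f (update h e 0)
  set f1 := th s (fun σ τ => (s e σ + s e τ) * f σ τ) (update h e 0)
  set f2 := th s (fun σ τ => s e σ * s e τ * f σ τ) (update h e 0)
  refine ⟨f0, f2 + 3 * m ^ 2 * f0 - 2 * m * f1, fun t => ?_⟩
  have b3 : |f2 + 3 * m ^ 2 * f0 - 2 * m * f1| ≤ 8 := by
    have hm2 : m ^ 2 ≤ 1 := by rwa [← sq_abs, sq_le_one_iff₀ (abs_nonneg m)]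
    have b1 : |m ^ 2 * f0| ≤ 1 := by
      rw [abs_mul, abs_of_nonneg (sq_nonneg m)]
      exact mul_le_one₀ hm2 (abs_nonneg _) h0
    have b2 : |m * f1| ≤ 2 := by
      rw [abs_mul]
      nlinarith [abs_nonneg m, abs_nonneg f1]
    rw [abs_le] at *
    constructor <;> nlinarith
  set c2 := f2 + 3 * m ^ 2 * f0 - 2 * m * f1 with hc2
  obtain ⟨t1, t2⟩ := tanh_sq_le t
  rcases le_total (t ^ 2) (1 / 4) with ht | ht
  · have k := even_alg hm h0 h1 h2 (t1.trans ht)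
    rw [th_update hs f h e t, th_update hs f h e (-t), tanh_neg, neg_sq, neg_mul, neg_mul,
      ← sub_eq_add_neg, ← sub_eq_add_neg]
    have k2 : tanh t ^ 4 ≤ t ^ 4 := by
      have := pow_le_pow_left₀ (sq_nonneg _) t1 2
      rwa [← pow_mul, ← pow_mul] at this
    have k3 : |c2 * (tanh t ^ 2 - t ^ 2)| ≤ 8 * t ^ 4 := by
      rw [abs_mul]
      refine mul_le_mul b3 (abs_le.2 ⟨by linarith, by nlinarith [sq_nonneg (t ^ 2)]⟩)
        (abs_nonneg _) (by norm_num)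
    rw [← hc2] at k
    rw [abs_le] at k k3 ⊢
    constructor <;> nlinarith [sq_nonneg (t ^ 2)]
  · have k1 := th_abs (s := s) hf (update h e t)
    have k2 := th_abs (s := s) hf (update h e (-t))
    have k3 : |c2 * t ^ 2| ≤ 8 * t ^ 2 := by
      rw [abs_mul, abs_of_nonneg (sq_nonneg t)]
      exact mul_le_mul_of_nonneg_right b3 (sq_nonneg t)
    have k4 : t ^ 2 ≤ 4 * t ^ 4 := by nlinarith
    rw [abs_le] at k1 k2 k3 h0 ⊢
    constructor <;> nlinarith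

theorem edge_bound (hs : ∀ e σ, s e σ = 1 ∨ s e σ = -1) (h : ι → ℝ) (e : ι) {t : ℝ} (ht : 0 < t) :
    (1 - (∑ σ, gw s (update h e t) σ * s e σ) ^ 2) +
        (1 - (∑ σ, gw s (update h e (-t)) σ * s e σ) ^ 2) ≤
      2 * (1 + 1 / t) *
        (∑ σ, gw s (update h e t) σ * s e σ - ∑ σ, gw s (update h e (-t)) σ * s e σ) := by
  have hm := mean_abs hs (update h e 0) e
  have key : ∀ t, ∑ σ, gw s (update h e t) σ * s e σ =
      (∑ σ, gw s (update h e 0) σ * s e σ + tanh t) /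
        (1 + tanh t * ∑ τ, gw s (update h e 0) τ * s e τ) := by
    intro t
    conv_rhs => rw [← mul_one (tanh t), ← gw_sum (s := s) (update h e 0), mul_sum,
      ← sum_add_distrib, sum_div]
    refine sum_congr rfl fun σ _ => ?_
    rw [gw_update hs h e t σ, ← mul_sum, gw_sum, mul_one]
    rcases hs e σ with h1 | h1 <;> rw [h1] <;> ring
  rw [key t, key (-t)]
  have d1 := den_pos hm t
  have d2 := den_pos hm (-t)
  rw [tanh_neg] at *
  rw [neg_mul, ← sub_eq_add_neg] at d2 ⊢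
  rw [← sub_eq_add_neg]
  set m := ∑ τ, gw s (update h e 0) τ * s e τ
  have h1 := tanh_ge ht
  have h2 := tanh_lt_one t
  set τ := tanh t
  have h3 : 1 ≤ (1 + 1 / t) * τ := by
    rw [div_le_iff₀ (by positivity)] at h1
    rw [add_mul, one_mul, div_mul_eq_mul_div, one_mul, ← sub_le_iff_le_add', le_div_iff₀ ht]
    linarith
  have h0 : 0 < τ := lt_of_lt_of_le (by positivity) h1
  have hm2 : m ^ 2 ≤ 1 := by rwa [← sq_abs, sq_le_one_iff₀ (abs_nonneg m)]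
  have e1 : (1 - ((m + τ) / (1 + τ * m)) ^ 2) + (1 - ((m - τ) / (1 - τ * m)) ^ 2) =
      2 * ((1 - m ^ 2) / ((1 + τ * m) * (1 - τ * m))) *
        ((1 - τ ^ 2) * (1 + m ^ 2 * τ ^ 2) / ((1 + τ * m) * (1 - τ * m))) := by
    rw [mul_comm τ m] at d1 d2 ⊢
    have := d1.ne'
    have := d2.ne'
    field_simp
    ring
  have e2 : (m + τ) / (1 + τ * m) - (m - τ) / (1 - τ * m) =
      2 * τ * ((1 - m ^ 2) / ((1 + τ * m) * (1 - τ * m))) := by
    rw [mul_comm τ m] at d1 d2 ⊢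
    have := d1.ne'
    have := d2.ne'
    field_simp
    ring
  have h4 : 0 ≤ (1 - m ^ 2) / ((1 + τ * m) * (1 - τ * m)) :=
    div_nonneg (by linarith) (mul_pos d1 d2).le
  have h5 : (1 - τ ^ 2) * (1 + m ^ 2 * τ ^ 2) / ((1 + τ * m) * (1 - τ * m)) ≤ 2 := by
    rw [div_le_iff₀ (mul_pos d1 d2)]
    have a1 : τ ^ 2 ≤ 1 := by nlinarith
    have a2 : m ^ 2 * τ ^ 2 ≤ τ ^ 2 := by nlinarith [sq_nonneg τ]
    have a3 : 0 ≤ m ^ 2 * τ ^ 2 := by positivity
    nlinarith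
  rw [e1, e2]
  nlinarith [mul_le_mul_of_nonneg_left h5 h4, mul_le_mul_of_nonneg_left h3 h4]

end Pool.Agent.P.MP_81d17b_pr.LR
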