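import Mathlib

namespace Pool.Agent.P.MP_81d17b_pr.LR

open Finset

/-- The sign attached to a Boolean: `true` is `+1`, `false` is `-1`. -/
def sg (b : Bool) : ℝ := if b then 1 else -1

/-- The cube `p + [0, n)^d` of the lattice. -/
noncomputable def cube {d : ℕ} (p : Fin d → ℤ) (n : ℕ) : Finset (Fin d → ℤ) :=
  Fintype.piFinset fun i => Finset.Ico (p i) (p i + n)

/-- Minus the energy of `σ` in the volume `Λ` with free boundary condition: the sum over unordered
pairs of distinct sites `x, y` of `a x y * ε {x,y} * σ x * σ y`. -/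
noncomputable def energy {d : ℕ} (a : (Fin d → ℤ) → (Fin d → ℤ) → ℝ) (Λ : Finset (Fin d → ℤ))
    (ε : Sym2 Λ → Bool) (σ : Λ → Bool) : ℝ :=
  (1 / 2) * ∑ x : Λ, ∑ y : Λ,
    if x = y then 0 else a x y * sg (ε s(x, y)) * sg (σ x) * sg (σ y)

/-- The two-point function of the Gibbs measure in `Λ` at inverse temperature `β`. -/
noncomputable def corr {d : ℕ} (β : ℝ) (a : (Fin d → ℤ) → (Fin d → ℤ) → ℝ)
    (Λ : Finset (Fin d → ℤ)) (ε : Sym2 Λ → Bool) (x y : Λ) : ℝ :=
  (∑ σ : Λ → Bool, sg (σ x) * sg (σ y) * Real.exp (β * energy a Λ ε σ)) /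
    ∑ σ : Λ → Bool, Real.exp (β * energy a Λ ε σ)

/-- The spin-glass order parameter of the region `B` inside the volume `Λ`: the average, over all
sign choices `ε` and all pairs of sites of `B`, of the squared two-point function. -/
noncomputable def order {d : ℕ} (β : ℝ) (a : (Fin d → ℤ) → (Fin d → ℤ) → ℝ)
    (Λ B : Finset (Fin d → ℤ)) : ℝ :=
  (∑ ε : Sym2 Λ → Bool, ∑ x : Λ, ∑ y : Λ,
      if x.1 ∈ B ∧ y.1 ∈ B then corr β a Λ ε x y ^ 2 else 0) /
    (Fintype.card (Sym2 Λ → Bool) * (B.card : ℝ) ^ 2)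

end Pool.Agent.P.MP_81d17b_pr.LR
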