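import Pool.Agent.P.MP_81d17b_pr.LR.Defs

namespace Pool.Agent.P.MP_81d17b_pr.LR

open MeasureTheory ProbabilityTheory

/-- The law of a coupling: `0` (no edge) with probability `1 - p`, standard Gaussian with
probability `p`. -/
noncomputable def lawp (p : ℝ) : Measure ℝ :=
  ENNReal.ofReal (1 - p) • Measure.dirac 0 + ENNReal.ofReal p • gaussianReal 0 1

/-- The configuration equal to `η` in `Λ` and to `τ` outside `Λ`. -/
def paste {d : ℕ} (Λ : Finset (Fin d → ℤ)) (η : Λ → Bool) (τ : (Fin d → ℤ) → Bool) :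
    (Fin d → ℤ) → Bool :=
  fun x => if h : x ∈ Λ then η ⟨x, h⟩ else τ x

/-- The sum of `J {x,y} σ_x σ_y` over the unordered pairs of distinct sites with an element
in `Λ`. -/
noncomputable def ham {d : ℕ} (J : Sym2 (Fin d → ℤ) → ℝ) (Λ : Finset (Fin d → ℤ))
    (σ : (Fin d → ℤ) → Bool) : ℝ :=
  ∑ᶠ e ∈ {e : Sym2 (Fin d → ℤ) | ¬e.IsDiag ∧ ∃ x ∈ Λ, x ∈ e},
    J e * (e.map fun x => sg (σ x)).mul

/-- The probability of the spins `η` in `Λ` under the finite-volume Gibbs measure with boundary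
condition `τ`. -/
noncomputable def kern {d : ℕ} (β : ℝ) (J : Sym2 (Fin d → ℤ) → ℝ) (Λ : Finset (Fin d → ℤ))
    (τ : (Fin d → ℤ) → Bool) (η : Λ → Bool) : ℝ :=
  Real.exp (β * ham J Λ (paste Λ η τ)) / ∑ ζ : Λ → Bool, Real.exp (β * ham J Λ (paste Λ ζ τ))

/-- Gibbs state (DLR condition): a probability measure such that for every finite set `Λ` and
every `η`, the conditional probability that the spins in `Λ` equal `η`, given the spins outside
`Λ`, is `kern β J Λ τ η` for almost every `τ`. -/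
def IsDLR {d : ℕ} (β : ℝ) (J : Sym2 (Fin d → ℤ) → ℝ) (π : Measure ((Fin d → ℤ) → Bool)) : Prop :=
  IsProbabilityMeasure π ∧
    ∀ (Λ : Finset (Fin d → ℤ)) (η : Λ → Bool),
      condExp (cylinderEvents ((Λ : Set (Fin d → ℤ))ᶜ)) π
          (Set.indicator {σ | ∀ x : Λ, σ x = η x} fun _ => (1 : ℝ))
        =ᵐ[π] fun τ => kern β J Λ τ η

end Pool.Agent.P.MP_81d17b_pr.LR
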