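import Pool.Agent.P.MP_81d17b_pr.LR.Pair

namespace Pool.Agent.P.MP_81d17b_pr.LR

open MeasureTheory ProbabilityTheory Real Finset Function

section generic

variable {ι S : Type} [Fintype ι] [DecidableEq ι] [Fintype S] [Nonempty S] {s : ι → S → ℝ}

omit [DecidableEq ι] in
theorem th_bdd (f : S → S → ℝ) : ∃ M, ∀ h, |th s f h| ≤ M :=
  ⟨∑ σ, ∑ τ, |f σ τ|, th_abs fun σ τ =>
    (single_le_sum (f := fun τ => |f σ τ|) (fun _ _ => abs_nonneg _) (mem_univ τ)).trans
      (single_le_sum (f := fun σ => ∑ τ, |f σ τ|)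
        (fun _ _ => sum_nonneg fun _ _ => abs_nonneg _) (mem_univ σ))⟩

omit [DecidableEq ι] in
theorem th_int (f : S → S → ℝ) (β : ℝ) (μ : Measure (ι → ℝ)) [IsFiniteMeasure μ] :
    Integrable (fun y : ι → ℝ => th s f fun e => β * y e) μ := by
  obtain ⟨M, hM⟩ := th_bdd (s := s) f
  exact int_bdd ((th_cont f).comp (by fun_prop)).measurable fun _ => hM _

omit [DecidableEq ι] [Nonempty S] in
theorem th_prod (a b : S → ℝ) (h : ι → ℝ) :
    th s (fun σ τ => a σ * b τ) h = (∑ σ, gw s h σ * a σ) * ∑ σ, gw s h σ * b σ := by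
  rw [sum_mul_sum, th]
  exact sum_congr rfl fun σ _ => sum_congr rfl fun τ _ => by ring

theorem mean_update (hs : ∀ e σ, s e σ = 1 ∨ s e σ = -1) (h : ι → ℝ) (e : ι) (t : ℝ) :
    ∑ σ, gw s (update h e t) σ * s e σ = (∑ σ, gw s (update h e 0) σ * s e σ + tanh t) /
      (1 + tanh t * ∑ τ, gw s (update h e 0) τ * s e τ) := by
  conv_rhs => rw [← mul_one (tanh t), ← gw_sum (s := s) (update h e 0), mul_sum,
    ← sum_add_distrib, sum_div]
  refine sum_congr rfl fun σ _ => ?_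
  rw [gw_update hs h e t σ, ← mul_sum, gw_sum, mul_one]
  rcases hs e σ with h1 | h1 <;> rw [h1] <;> ring

theorem sech_le {m : ℝ} (hm : |m| ≤ 1) : ∃ u, ∀ t,
    1 - ((m + tanh t) / (1 + tanh t * m)) ^ 2 ≤ (1 + (t + u) ^ 2)⁻¹ := by
  rcases hm.eq_or_lt with h | h
  · refine ⟨0, fun t => le_trans (le_of_eq ?_) (by positivity : (0 : ℝ) ≤ _)⟩
    have hd := (den_pos hm t).ne'
    rcases (abs_eq zero_le_one).1 h with h1 | h1
    · rw [h1] at hd ⊢
      rw [mul_one] at hd ⊢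
      rw [div_self hd]
      ring
    · rw [h1] at hd ⊢
      have : (-1 + tanh t) = -(1 + tanh t * -1) := by ring
      rw [this, neg_div, div_self hd]
      ring
  · refine ⟨artanh m, fun t => ?_⟩
    have h1 := tanh_artanh (x := m) (abs_lt.1 h)
    set u := artanh m
    have c1 := cosh_pos t
    have c2 := cosh_pos u
    have c3 := cosh_pos (t + u)
    have e1 : (m + tanh t) / (1 + tanh t * m) = sinh (t + u) / cosh (t + u) := by
      rw [← h1, tanh_eq_sinh_div_cosh, tanh_eq_sinh_div_cosh, sinh_add, cosh_add]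
      rw [cosh_add] at c3
      have := c3.ne'
      field_simp
      ring
    have e2 : 1 - (sinh (t + u) / cosh (t + u)) ^ 2 = (cosh (t + u) ^ 2)⁻¹ := by
      have := cosh_sq (t + u)
      field_simp
      linarith
    rw [e1, e2]
    refine inv_anti₀ (by positivity) ?_
    have h4 : (t + u) ^ 2 ≤ sinh (t + u) ^ 2 := by
      rw [← sq_abs (t + u), ← sq_abs (sinh _), abs_sinh]
      exact pow_le_pow_left₀ (abs_nonneg _) (self_le_sinh_iff.2 (abs_nonneg _)) 2
    linarith [cosh_sq (t + u)]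

theorem int_cauchy {β : ℝ} (hβ : 0 < β) (u : ℝ) :
    ∫ t, (1 + (β * t + u) ^ 2)⁻¹ ∂gaussianReal 0 1 ≤ 2 / β := by
  have i1 : Integrable fun t : ℝ => (1 + (β * t + u) ^ 2)⁻¹ :=
    (integrable_inv_one_add_sq.comp_add_right u).comp_mul_left' hβ.ne'
  have e1 : ∫ t : ℝ, (1 + (β * t + u) ^ 2)⁻¹ = π / β := by
    rw [Measure.integral_comp_mul_left (fun t : ℝ => (1 + (t + u) ^ 2)⁻¹) β,
      integral_add_right_eq_self (fun t : ℝ => (1 + t ^ 2)⁻¹) u, integral_univ_inv_one_add_sq,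
      abs_of_pos (inv_pos.2 hβ), smul_eq_mul, div_eq_inv_mul]
  have hp : ∀ t, gaussianPDFReal 0 1 t ≤ 1 / 2 := by
    intro t
    simp only [gaussianPDFReal, NNReal.coe_one, mul_one, sub_zero]
    have a1 : exp (-t ^ 2 / 2) ≤ 1 := exp_le_one_iff.2 (by nlinarith [sq_nonneg t])
    have a2 : 2 ≤ √(2 * π) := le_sqrt_of_sq_le (by linarith [pi_gt_three])
    have a3 : (√(2 * π))⁻¹ ≤ 1 / 2 := by
      rw [one_div]
      exact inv_anti₀ two_pos a2
    calc _ ≤ 1 / 2 * 1 := mul_le_mul a3 a1 (exp_pos _).le (by norm_num)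
      _ = _ := mul_one _
  rw [integral_gaussianReal_eq_integral_smul one_ne_zero]
  calc _ ≤ ∫ t : ℝ, 1 / 2 * (1 + (β * t + u) ^ 2)⁻¹ :=
        integral_mono_of_nonneg (ae_of_all _ fun t =>
          mul_nonneg (gaussianPDFReal_nonneg _ _ _) (by positivity)) (i1.const_mul _)
          (ae_of_all _ fun t => mul_le_mul_of_nonneg_right (hp t) (by positivity))
    _ ≤ _ := by
        rw [integral_const_mul, e1, ← mul_div_assoc]
        gcongr
        linarith [pi_le_four]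

theorem edge_gauss (hs : ∀ e σ, s e σ = 1 ∨ s e σ = -1) {β : ℝ} (hβ : 0 < β)
    (ν : ι → Measure ℝ) [∀ i, IsProbabilityMeasure (ν i)] {e : ι} (he : ν e = gaussianReal 0 1) :
    ∫ y, th s (fun σ τ => 1 - s e σ * s e τ) (fun i => β * y i) ∂Measure.pi ν ≤ 2 / β := by
  obtain ⟨M, hM⟩ := th_bdd (s := s) fun σ τ => 1 - s e σ * s e τ
  have hG : Continuous fun y : ι → ℝ => th s (fun σ τ => 1 - s e σ * s e τ) fun i => β * y i :=
    (th_cont _).comp (by fun_prop)
  rw [int_update ν ν e (fun _ _ => rfl) hG fun _ => hM _]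
  have key : ∀ y : ι → ℝ, ∫ t, th s (fun σ τ => 1 - s e σ * s e τ)
      (fun i => β * update y e t i) ∂ν e ≤ 2 / β := by
    intro y
    obtain ⟨u, hu⟩ := sech_le (mean_abs hs (update (fun i => β * y i) e 0) e)
    rw [he]
    refine le_trans (integral_mono (int_bdd (hG.comp
      (continuous_const.update e continuous_id)).measurable fun _ => hM _)
      (int_bdd (by fun_prop) (M := 1) fun t => ?_) fun t => ?_) (int_cauchy hβ u)
    · rw [abs_of_pos (by positivity)]
      exact inv_le_one_of_one_le₀ (by nlinarith [sq_nonneg (β * t + u)])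
    · have e1 : (fun i => β * update y e t i) = update (fun i => β * y i) e (β * t) := by
        funext i
        by_cases hi : i = e
        · subst hi
          simp
        · simp [update_of_ne hi]
      have e2 : (fun σ τ => 1 - s e σ * s e τ) = fun σ τ => 1 + -1 * (s e σ * s e τ) := by
        funext σ τ
        ring
      simp only [e1]
      rw [e2, th_add, th_const, th_mul, th_prod, mean_update hs]
      linarith [hu (β * t)]
  simpa using integral_mono (int_upd hG (fun _ => hM _) e (Measure.pi ν) (ν e)).integral_prod_left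
    (integrable_const _) key

omit [Fintype S] [Nonempty S] in
theorem first_edge {G : (ι → ℝ) → ℝ} (hG : Continuous G) (hb : ∀ y, |G y| ≤ 2) {p : ι → ℝ}
    {lo a : ℝ} (hlo : 0 ≤ lo) (ha : 0 ≤ a) (F : Finset ι) (hp : ∀ e ∈ F, lo ≤ p e ∧ p e ≤ 1)
    (ν0 : ι → Measure ℝ)
    (h : ∀ ν : ι → Measure ℝ, (∀ i, IsProbabilityMeasure (ν i)) → (∀ i, i ∉ F → ν i = ν0 i) →
      ∀ e ∈ F, ν e = gaussianReal 0 1 → ∫ y, G y ∂Measure.pi ν ≤ a) (F' : Finset ι) :
    F' ⊆ F → ∀ ν : ι → Measure ℝ, (∀ i, IsProbabilityMeasure (ν i)) → (∀ i, i ∉ F → ν i = ν0 i) →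
      (∀ e ∈ F', ν e = lawp (p e)) → ∫ y, G y ∂Measure.pi ν ≤ a + 2 * (1 - lo) ^ F'.card := by
  induction F' using Finset.induction_on with
  | empty =>
    intro _ ν _ _ _
    have := integral_mono (μ := Measure.pi ν) (int_bdd hG.measurable hb) (integrable_const 2)
      fun y => (le_abs_self _).trans (hb y)
    simp only [integral_const, probReal_univ, smul_eq_mul, one_mul] at this
    rw [card_empty, pow_zero]
    linarith
  | insert e F' he ih =>
    intro hF ν _ h1 h2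
    have heF := hF (mem_insert_self _ _)
    obtain ⟨p1, p2⟩ := hp e heF
    have pr : ∀ m : Measure ℝ, IsProbabilityMeasure m → ∀ i, IsProbabilityMeasure (update ν e m i) :=
      fun m _ i => by
        by_cases hi : i = e
        · subst hi
          simpa
        · rw [update_of_ne hi]
          infer_instance
    have off : ∀ m : Measure ℝ, ∀ i, i ∉ F → update ν e m i = ν0 i := fun m i hi => by
      rw [update_of_ne fun h : i = e => hi (h ▸ heF), h1 i hi]
    have q1 := pr (Measure.dirac 0) inferInstance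
    have q2 := pr (gaussianReal 0 1) inferInstance
    have a1 := ih ((subset_insert _ _).trans hF) _ q1 (off _) fun i hi => by
      rw [update_of_ne fun h : i = e => he (h ▸ hi), h2 i (mem_insert_of_mem hi)]
    have a2 := h _ q2 (off _) e heF (update_self ..)
    rw [int_update ν _ e (fun i hi => update_of_ne hi _ _) hG hb, update_self] at a1 a2
    have j1 := (int_upd hG hb e (Measure.pi ν) (Measure.dirac 0)).integral_prod_left
    have j2 := (int_upd hG hb e (Measure.pi ν) (gaussianReal 0 1)).integral_prod_left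
    have a3 : ∀ y : ι → ℝ, ∫ t, G (update y e t) ∂lawp (p e) =
        (1 - p e) * ∫ t, G (update y e t) ∂Measure.dirac 0 +
          p e * ∫ t, G (update y e t) ∂gaussianReal 0 1 := fun y => by
      rw [int_lawp (F := fun t => G (update y e t)) (hlo.trans p1) p2
        (hG.comp (continuous_const.update e continuous_id)).measurable fun _ => hb _,
        integral_dirac]
    rw [int_update ν ν e (fun _ _ => rfl) hG hb, h2 e (mem_insert_self _ _)]
    simp only [a3]
    rw [integral_add (j1.const_mul _) (j2.const_mul _), integral_const_mul, integral_const_mul,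
      card_insert_of_notMem he, pow_succ]
    have b1 := mul_le_mul_of_nonneg_left a1 (sub_nonneg.2 p2)
    have b2 := mul_le_mul_of_nonneg_left a2 (hlo.trans p1)
    have b3 : 0 ≤ (1 - lo) ^ F'.card := pow_nonneg (by linarith) _
    nlinarith [mul_nonneg b3 (sub_nonneg.2 p1)]

end generic

variable {V S : Type} [Fintype V] [DecidableEq V] [Fintype S] [Nonempty S]

/-- Disorder-averaged two-replica expectation for configurations in the range of `ρ`. -/
noncomputable def LL (ρ : S → V → Bool) (β : ℝ) (ν : Sym2 V → Measure ℝ)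
    (f : (V → Bool) → (V → Bool) → ℝ) : ℝ :=
  ∫ y, th (fun e η => sp e (ρ η)) (fun σ τ => f (ρ σ) (ρ τ)) (fun e => β * y e) ∂Measure.pi ν

theorem LL_mono (ρ : S → V → Bool) (β : ℝ) (ν : Sym2 V → Measure ℝ)
    [∀ e, IsProbabilityMeasure (ν e)] {f g : (V → Bool) → (V → Bool) → ℝ}
    (h : ∀ σ τ, f (ρ σ) (ρ τ) ≤ g (ρ σ) (ρ τ)) : LL ρ β ν f ≤ LL ρ β ν g :=
  integral_mono (th_int _ _ _) (th_int _ _ _) fun _ => th_mono h _

theorem LL_avg (ρ : S → V → Bool) (β : ℝ) (ν : Sym2 V → Measure ℝ)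
    [∀ e, IsProbabilityMeasure (ν e)] : Avg (LL ρ β ν) where
  mono h := LL_mono ρ β ν fun _ _ => h _ _
  const c := by simp [LL, th_const]
  add f g := by
    simp only [LL, th_add]
    exact integral_add (th_int _ _ _) (th_int _ _ _)
  mul c f := by simp only [LL, th_mul, integral_const_mul]

theorem pairG (ρ : S → V → Bool) {β : ℝ} (hβ : 0 < β) {p : Sym2 V → ℝ} (hp0 : ∀ e, 0 ≤ p e)
    (hp1 : ∀ e, p e ≤ 1) {B B' : Finset V} (hd : Disjoint B B') {lo hi τ : ℝ}
    (hp : ∀ x ∈ B, ∀ y ∈ B', lo ≤ p s(x, y) ∧ p s(x, y) ≤ hi) (hτ0 : 0 < τ) (hτ1 : τ ≤ β)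
    {J : ℕ} (hJ : 1 ≤ J)
    (hT : (2 : ℝ) ^ (8 * J ^ 7) * β ≤ c0 * τ ^ 3 * (lo * (B.card * B'.card))) :
    LL ρ β (fun e => lawp (p e)) (fun σ τ => max (-(mB B σ τ * mB B' σ τ)) 0) ≤
      103 / J + KL * 2 ^ (8 * J ^ 7) * (hi + τ ^ 2) := by
  set D := (B ×ˢ B').image fun p : V × V => s(p.1, p.2) with hD
  have hinj : Set.InjOn (fun p : V × V => s(p.1, p.2)) (B ×ˢ B' : Finset (V × V)) := by
    intro p hp q hq h
    rw [mem_coe, mem_product] at hp hq
    rcases Sym2.eq_iff.1 h with ⟨h1, h2⟩ | ⟨h1, _⟩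
    · exact Prod.ext h1 h2
    · exact absurd (h1 ▸ hp.1) (disjoint_right.1 hd hq.2)
  have hc : (D.card : ℝ) = B.card * B'.card := by
    rw [hD, card_image_of_injOn hinj, card_product, Nat.cast_mul]
  have h := pair_gen (s := fun e η => sp e (ρ η)) (fun e η => sp_cases e _) hβ hp0 hp1 D
    (fun e he => by
      obtain ⟨q, hq, rfl⟩ := mem_image.1 he
      exact hp _ (mem_product.1 hq).1 _ (mem_product.1 hq).2) hτ0 hτ1 hJ (hc ▸ hT)
  have e1 : ∀ σ τ, (∑ e ∈ D, sp e σ * sp e τ) / D.card = mB B σ τ * mB B' σ τ := by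
    intro σ τ
    rw [hc, hD, sum_image hinj, mB, mB, div_mul_div_comm, sum_mul_sum, sum_product]
    congr 1
    exact sum_congr rfl fun x _ => sum_congr rfl fun y _ => by simp only [sp_mk]; ring
  simp only [e1] at h
  exact h

/-- The disagreement of two replicas on a pair of sites. -/
noncomputable def DD (ρ : S → V → Bool) (β : ℝ) (ν : Sym2 V → Measure ℝ) (x y : V) : ℝ :=
  LL ρ β ν fun σ τ => 1 - sp s(x, y) σ * sp s(x, y) τ

variable {ρ : S → V → Bool} {β : ℝ} {ν : Sym2 V → Measure ℝ} [∀ e, IsProbabilityMeasure (ν e)]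

theorem DD_self (x : V) : DD ρ β ν x x = 0 := by
  simp only [DD, sp_mk, sg_sq, mul_one, sub_self]
  exact (LL_avg ρ β ν).const 0

theorem DD_tri (x y z : V) : DD ρ β ν x z ≤ DD ρ β ν x y + DD ρ β ν y z := by
  rw [DD, DD, DD, ← (LL_avg ρ β ν).add]
  refine (LL_avg ρ β ν).mono fun σ τ => ?_
  simp only [sp_mk]
  cases σ x <;> cases σ y <;> cases σ z <;> cases τ x <;> cases τ y <;> cases τ z <;>
    norm_num [sg]

theorem DD_edge (hβ : 0 < β) {x y : V} (h : ν s(x, y) = gaussianReal 0 1) :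
    DD ρ β ν x y ≤ 2 / β :=
  edge_gauss (s := fun e η => sp e (ρ η)) (fun e _ => sp_cases e _) hβ ν h

theorem DD_mB {B : Finset V} (hB : B.Nonempty) {a : ℝ} (h : ∀ x ∈ B, ∀ y ∈ B, DD ρ β ν x y ≤ a) :
    1 - a ≤ LL ρ β ν fun σ τ => |mB B σ τ| := by
  have hL := LL_avg ρ β ν
  have hn : (0 : ℝ) < B.card := by exact_mod_cast card_pos.2 hB
  have e1 : ∀ σ τ, 1 + -((B.card : ℝ) ^ 2)⁻¹ * ∑ x ∈ B, ∑ y ∈ B,
      (1 - sp s(x, y) σ * sp s(x, y) τ) ≤ |mB B σ τ| := by
    intro σ τ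
    have e2 : mB B σ τ ^ 2 =
        ((B.card : ℝ) ^ 2)⁻¹ * ∑ x ∈ B, ∑ y ∈ B, sp s(x, y) σ * sp s(x, y) τ := by
      rw [mB, div_pow, div_eq_inv_mul, sq (∑ x ∈ B, _), sum_mul_sum]
      congr 1
      exact sum_congr rfl fun x _ => sum_congr rfl fun y _ => by simp only [sp_mk]; ring
    have e3 : mB B σ τ ^ 2 ≤ |mB B σ τ| := by
      rw [← sq_abs, sq]
      exact mul_le_of_le_one_left (abs_nonneg _) (abs_mB _ _ _)
    refine le_trans (le_of_eq ?_) e3
    rw [e2]
    simp only [sum_sub_distrib, sum_const, nsmul_eq_mul, mul_one]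
    field_simp
    ring
  refine le_trans ?_ (hL.mono e1)
  rw [hL.add, hL.const, hL.mul, hL.sum]
  simp only [hL.sum]
  have h2 := sum_le_sum fun x hx => sum_le_sum (h x hx)
  simp only [sum_const, nsmul_eq_mul, DD] at h2
  have h3 := mul_le_mul_of_nonneg_left h2 (show 0 ≤ ((B.card : ℝ) ^ 2)⁻¹ by positivity)
  have h4 : ((B.card : ℝ) ^ 2)⁻¹ * (B.card * (B.card * a)) = a := by field_simp
  linarith

theorem DD_cross (hβ : 0 < β) {p : Sym2 V → ℝ} {B B' : Finset V} (hd : Disjoint B B') {lo a : ℝ}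
    (hlo : 0 ≤ lo) (ha : 0 ≤ a)
    (hp : ∀ x ∈ B, ∀ y ∈ B', lo ≤ p s(x, y) ∧ p s(x, y) ≤ 1 ∧ ν s(x, y) = lawp (p s(x, y)))
    (h1 : ∀ ν' : Sym2 V → Measure ℝ, (∀ e, IsProbabilityMeasure (ν' e)) →
      (∀ x ∈ B, ∀ y ∈ B, ν' s(x, y) = ν s(x, y)) → ∀ x ∈ B, ∀ y ∈ B, DD ρ β ν' x y ≤ a)
    (h2 : ∀ ν' : Sym2 V → Measure ℝ, (∀ e, IsProbabilityMeasure (ν' e)) →
      (∀ x ∈ B', ∀ y ∈ B', ν' s(x, y) = ν s(x, y)) → ∀ x ∈ B', ∀ y ∈ B', DD ρ β ν' x y ≤ a)
    {x y : V} (hx : x ∈ B) (hy : y ∈ B') :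
    DD ρ β ν x y ≤ 2 * a + 2 / β + 2 * (1 - lo) ^ (B.card * B'.card) := by
  set D := (B ×ˢ B').image fun p : V × V => s(p.1, p.2) with hD
  have hinj : Set.InjOn (fun p : V × V => s(p.1, p.2)) (B ×ˢ B' : Finset (V × V)) := by
    intro p hp q hq h
    rw [mem_coe, mem_product] at hp hq
    rcases Sym2.eq_iff.1 h with ⟨h1, h2⟩ | ⟨h1, _⟩
    · exact Prod.ext h1 h2
    · exact absurd (h1 ▸ hp.1) (disjoint_right.1 hd hq.2)
  have hc : D.card = B.card * B'.card := by rw [hD, card_image_of_injOn hinj, card_product]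
  have hmem : ∀ u v, s(u, v) ∈ D → (u ∈ B ∧ v ∈ B') ∨ (v ∈ B ∧ u ∈ B') := by
    intro u v h
    obtain ⟨q, hq, h⟩ := mem_image.1 h
    rcases Sym2.eq_iff.1 h with ⟨rfl, rfl⟩ | ⟨rfl, rfl⟩
    · exact Or.inl (mem_product.1 hq)
    · exact Or.inr (mem_product.1 hq)
  rw [← hc]
  refine first_edge (p := p) ((th_cont _).comp (by fun_prop)) (fun _ => th_abs (fun σ τ => ?_) _)
    hlo (by positivity) D (fun e he => ?_) ν (fun ν' _ hν e he h3 => ?_) D subset_rfl ν
    inferInstance (fun _ _ => rfl) fun e he => ?_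
  · rcases sp_cases s(x, y) (ρ σ) with h3 | h3 <;> rcases sp_cases s(x, y) (ρ τ) with h4 | h4 <;>
      norm_num [h3, h4]
  · obtain ⟨q, hq, rfl⟩ := mem_image.1 he
    have := hp _ (mem_product.1 hq).1 _ (mem_product.1 hq).2
    exact ⟨this.1, this.2.1⟩
  · obtain ⟨q, hq, rfl⟩ := mem_image.1 he
    obtain ⟨q1, q2⟩ := mem_product.1 hq
    have a1 := h1 ν' inferInstance (fun u hu v hv => hν _ fun h => (hmem u v h).elim
      (fun h => disjoint_left.1 hd hv h.2) fun h => disjoint_left.1 hd hu h.2) x hx _ q1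
    have a2 := h2 ν' inferInstance (fun u hu v hv => hν _ fun h => (hmem u v h).elim
      (fun h => disjoint_left.1 hd h.1 hu) fun h => disjoint_left.1 hd h.1 hv) _ q2 y hy
    have a3 := DD_edge (ρ := ρ) hβ h3
    have a4 := DD_tri (ρ := ρ) (β := β) (ν := ν') x q.1 y
    have a5 := DD_tri (ρ := ρ) (β := β) (ν := ν') q.1 q.2 y
    change DD ρ β ν' x y ≤ _
    linarith
  · obtain ⟨q, hq, rfl⟩ := mem_image.1 he
    exact (hp _ (mem_product.1 hq).1 _ (mem_product.1 hq).2).2.2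

end Pool.Agent.P.MP_81d17b_pr.LR
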