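import Pool.Agent.P.MP_81d17b_pr.LR.Fv1

namespace Pool.Agent.P.MP_81d17b_pr.LR

open MeasureTheory ProbabilityTheory Real Finset Function

variable {d : ℕ} {Λ : Finset (Fin d → ℤ)} {S : Type} [Fintype S] [Nonempty S]

/-- The standing assumptions on the edge probabilities. -/
structure EdgeP (s c C : ℝ) (pp : Sym2 Λ → ℝ) : Prop where
  nonneg : ∀ e, 0 ≤ pp e
  le_one : ∀ e, pp e ≤ 1
  nn : ∀ (x y : Λ) (i : Fin d), y.1 = x.1 + Pi.single i 1 → pp s(x, y) = 1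
  lo : ∀ x y : Λ, x ≠ y → c * dist x.1 y.1 ^ (-s) ≤ pp s(x, y)
  hi : ∀ x y : Λ, x ≠ y → pp s(x, y) ≤ C * dist x.1 y.1 ^ (-s)

/-- Uniform smallness of the disagreement inside cubes of side `N`. -/
def HH (ρ : S → Λ → Bool) (β : ℝ) (pp : Sym2 Λ → ℝ) (N : ℕ) (a : ℝ) : Prop :=
  ∀ u, cube u N ⊆ Λ → ∀ ν : Sym2 Λ → Measure ℝ, (∀ e, IsProbabilityMeasure (ν e)) →
    (∀ x ∈ cV Λ u N, ∀ y ∈ cV Λ u N, ν s(x, y) = lawp (pp s(x, y))) →
      ∀ x ∈ cV Λ u N, ∀ y ∈ cV Λ u N, DD ρ β ν x y ≤ a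

variable {ρ : S → Λ → Bool} {β s c C : ℝ} {pp : Sym2 Λ → ℝ}

theorem lawp_one : lawp 1 = gaussianReal 0 1 := by simp [lawp]

theorem HH_init (hp : EdgeP s c C pp) (hβ : 0 < β) (N : ℕ) : HH ρ β pp N (d * N * (2 / β)) := by
  intro u hu ν _ hν
  have key : ∀ k : ℕ, ∀ x ∈ cV Λ u N, ∀ y ∈ cV Λ u N, ∑ i, (x.1 i - y.1 i).natAbs = k →
      DD ρ β ν x y ≤ k * (2 / β) := by
    intro k
    induction k with
    | zero =>
      intro x _ y _ h
      have : x = y := Subtype.ext (funext fun i => by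
        have := (sum_eq_zero_iff.1 h) i (mem_univ i)
        omega)
      rw [this, DD_self]
      simp
    | succ k ih =>
      have step : ∀ x ∈ cV Λ u N, ∀ y ∈ cV Λ u N, ∑ i, (x.1 i - y.1 i).natAbs = k + 1 →
          ∀ i, x.1 i < y.1 i → DD ρ β ν x y ≤ (k + 1 : ℕ) * (2 / β) := by
        intro x hx y hy h i hi
        have hx' := mem_cube.1 (mem_cV.1 hx)
        have hy' := mem_cube.1 (mem_cV.1 hy)
        have h1 : x.1 + Pi.single i 1 ∈ cube u N := mem_cube.2 fun j => by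
          have := hx' j
          have := hy' j
          by_cases hj : j = i
          · subst hj
            simp only [Pi.add_apply, Pi.single_eq_same]
            omega
          · simp only [Pi.add_apply, Pi.single_eq_of_ne hj]
            omega
        let x' : Λ := ⟨_, hu h1⟩
        have hx1 : x' ∈ cV Λ u N := mem_cV.2 h1
        have a1 := ih x' hx1 y hy (by
          rw [← sum_erase_add _ _ (mem_univ i)] at h ⊢
          have b1 : ∑ j ∈ univ.erase i, (x'.1 j - y.1 j).natAbs =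
              ∑ j ∈ univ.erase i, (x.1 j - y.1 j).natAbs := sum_congr rfl fun j hj => by
            simp only [x', Pi.add_apply, Pi.single_eq_of_ne (ne_of_mem_erase hj), add_zero]
          rw [b1]
          simp only [x', Pi.add_apply, Pi.single_eq_same]
          omega)
        have a2 := DD_edge (ρ := ρ) (ν := ν) hβ (x := x) (y := x')
          (by rw [hν x hx x' hx1, hp.nn x x' i rfl, lawp_one])
        have a3 := DD_tri (ρ := ρ) (β := β) (ν := ν) x x' y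
        push_cast
        linarith
      intro x hx y hy h
      obtain ⟨i, _, hi⟩ := exists_ne_zero_of_sum_ne_zero (h.trans_ne (Nat.succ_ne_zero k))
      rcases lt_or_gt_of_ne (show x.1 i ≠ y.1 i by omega) with h1 | h1
      · exact step x hx y hy h i h1
      · have := step y hy x hx (by
          rw [← h]
          exact sum_congr rfl fun j _ => by omega) i h1
        rwa [DD, Sym2.eq_swap] at this
  intro x hx y hy
  refine (key _ x hx y hy rfl).trans (mul_le_mul_of_nonneg_right ?_ (by positivity))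
  have : ∑ i, (x.1 i - y.1 i).natAbs ≤ d * N := by
    have := sum_le_sum fun i (_ : i ∈ univ) => show (x.1 i - y.1 i).natAbs ≤ N by
      have := mem_cube.1 (mem_cV.1 hx) i
      have := mem_cube.1 (mem_cV.1 hy) i
      omega
    simpa using this
  exact_mod_cast this

theorem HH_step (hp : EdgeP s c C pp) (hβ : 0 < β) (hc : 0 < c) (hs : 0 ≤ s) {N n : ℕ} (hN : 0 < N)
    (hn : N ≤ n) {a t : ℝ} (ha : 0 ≤ a) (ht : 0 < t)
    (hT : t ≤ c * (n : ℝ) ^ (-s) * ((N : ℝ) ^ d * (N : ℝ) ^ d)) (h : HH ρ β pp N a) :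
    HH ρ β pp n (2 * a + (2 / β + 2 / t)) := by
  intro u hu ν _ hν x hx y hy
  let w : Λ → Fin d → ℤ := fun x i => min (x.1 i) (u i + n - N)
  have hw1 : ∀ x ∈ cV Λ u n, cube (w x) N ⊆ cube u n := fun x hx z hz => mem_cube.2 fun i => by
    have := mem_cube.1 hz i
    have := mem_cube.1 (mem_cV.1 hx) i
    simp only [w] at *
    omega
  have hw2 : ∀ x ∈ cV Λ u n, x ∈ cV Λ (w x) N := fun x hx => mem_cV.2 (mem_cube.2 fun i => by
    have := mem_cube.1 (mem_cV.1 hx) i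
    simp only [w] at *
    omega)
  have hw3 : ∀ x ∈ cV Λ u n, cV Λ (w x) N ⊆ cV Λ u n := fun x hx z hz =>
    mem_cV.2 (hw1 x hx (mem_cV.1 hz))
  have hw4 : ∀ x ∈ cV Λ u n, ∀ ν' : Sym2 Λ → Measure ℝ, (∀ e, IsProbabilityMeasure (ν' e)) →
      (∀ v ∈ cV Λ (w x) N, ∀ z ∈ cV Λ (w x) N, ν' s(v, z) = ν s(v, z)) →
      ∀ v ∈ cV Λ (w x) N, ∀ z ∈ cV Λ (w x) N, DD ρ β ν' v z ≤ a := fun x hx ν' h1 h2 =>
    h _ ((hw1 x hx).trans hu) ν' h1 fun v hv z hz => by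
      rw [h2 v hv z hz, hν v (hw3 x hx hv) z (hw3 x hx hz)]
  have p1 : 0 ≤ 2 / β := by positivity
  have p2 : 0 ≤ 2 / t := by positivity
  by_cases hd : Disjoint (cV Λ (w x) N) (cV Λ (w y) N)
  · have hlo : ∀ v ∈ cV Λ (w x) N, ∀ z ∈ cV Λ (w y) N, c * (n : ℝ) ^ (-s) ≤ pp s(v, z) :=
      fun v hv z hz => lower_cube hc.le hs hp.lo (mem_cV.1 (hw3 x hx hv)) (mem_cV.1 (hw3 y hy hz))
        fun h => disjoint_left.1 hd hv (h ▸ hz)
    have k := DD_cross (ρ := ρ) (ν := ν) hβ hd (lo := c * (n : ℝ) ^ (-s)) (by positivity) ha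
      (fun v hv z hz => ⟨hlo v hv z hz, hp.le_one _, hν v (hw3 x hx hv) z (hw3 y hy hz)⟩)
      (hw4 x hx) (hw4 y hy) (hw2 x hx) (hw2 y hy)
    rw [card_cV ((hw1 x hx).trans hu), card_cV ((hw1 y hy).trans hu)] at k
    have l1 := (hlo x (hw2 x hx) y (hw2 y hy)).trans (hp.le_one _)
    set lo := c * (n : ℝ) ^ (-s)
    have l2 : (1 - lo) ^ (N ^ d * N ^ d) ≤ 1 / t := by
      calc _ ≤ exp (-lo) ^ (N ^ d * N ^ d) :=
            pow_le_pow_left₀ (by linarith) (by linarith [add_one_le_exp (-lo)]) _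
        _ = (exp (lo * ((N : ℝ) ^ d * (N : ℝ) ^ d)))⁻¹ := by
            rw [← exp_nat_mul, ← exp_neg]
            congr 1
            push_cast
            ring
        _ ≤ _ := by
            rw [one_div]
            exact inv_anti₀ ht (by linarith [add_one_le_exp (lo * ((N : ℝ) ^ d * (N : ℝ) ^ d))])
    have l3 : 2 / t = 2 * (1 / t) := by ring
    linarith
  · obtain ⟨v, hv1, hv2⟩ := not_disjoint_iff.1 hd
    have a1 := hw4 x hx ν inferInstance (fun _ _ _ _ => rfl) x (hw2 x hx) v hv1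
    have a2 := hw4 y hy ν inferInstance (fun _ _ _ _ => rfl) v hv2 y (hw2 y hy)
    linarith [DD_tri (ρ := ρ) (β := β) (ν := ν) x v y]

theorem T_bound2 {p k n : ℕ} (hs : 0 ≤ s) (hc : 0 < c) (hp : 0 < p)
    (hp2 : 16 * (s / 2) ≤ (d - s / 2) * p) (hn0 : 0 < n)
    (hn : n ≤ 2 ^ (k + 2 * (k / p) + 2 * ((k + 2 * (k / p)) / p))) :
    c * (2 : ℝ) ^ ((d - s / 2) * k) ≤
      c * (n : ℝ) ^ (-s) * ((((2 ^ k : ℕ) : ℝ)) ^ d * ((2 ^ k : ℕ) : ℝ) ^ d) := by
  have h := T_bound (α := s / 2) (c := 1) (β := 1) (by linarith) one_pos le_rfl hp hp2 hn0 hn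
  have e : ((n : ℝ) ^ (-(s / 2))) ^ 2 = (n : ℝ) ^ (-s) := by
    rw [← rpow_natCast, ← rpow_mul (Nat.cast_nonneg n)]
    congr 1
    push_cast
    ring
  rw [one_pow, one_mul, one_mul, one_mul, e] at h
  rw [mul_assoc]
  exact mul_le_mul_of_nonneg_left h hc.le

theorem HH_iter (hβ : 0 < β) (hc : 0 < c) (hs : 0 ≤ s) (h2 : s < 2 * d)
    {p : ℕ} (hp1 : 0 < p) (hp2 : 16 * (s / 2) ≤ (d - s / 2) * p) {j : ℕ} (hj : p ≤ j) (K : ℕ) :
    ∃ k : ℕ, j ≤ k ∧ (j : ℝ) * (1 + 1 / p) ^ K ≤ k ∧ ∀ (Λ : Finset (Fin d → ℤ)) (S : Type)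
      [Fintype S] [Nonempty S] (ρ : S → Λ → Bool) (pp : Sym2 Λ → ℝ), EdgeP s c C pp →
      HH ρ β pp (2 ^ k)
      (2 ^ K * (d * (2 ^ j : ℕ) * (2 / β) + (2 / β + 2 / (c * 2 ^ ((d - s / 2) * j)))) -
        (2 / β + 2 / (c * 2 ^ ((d - s / 2) * j)))) := by
  induction K with
  | zero => exact ⟨j, le_rfl, by simp, fun Λ S _ _ ρ pp hp => by
      simpa using HH_init (ρ := ρ) hp hβ (2 ^ j)⟩
  | succ K ih =>
    obtain ⟨k, k1, k2, k3⟩ := ih
    refine ⟨k + 2 * (k / p), by omega, le_trans ?_ (nx_ge hp1 (hj.trans k1)),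
      fun Λ S _ _ ρ pp hp => ?_⟩
    · rw [pow_succ, ← mul_assoc]
      exact mul_le_mul_of_nonneg_right k2 (by positivity)
    · have hT := T_bound2 (d := d) (k := k) (n := 2 ^ (k + 2 * (k / p))) hs hc hp1 hp2
        (by positivity) (Nat.pow_le_pow_right (by norm_num) (Nat.le_add_right _ _))
      have hT2 : c * (2 : ℝ) ^ ((d - s / 2) * j) ≤ c * 2 ^ ((d - s / 2) * k) :=
        mul_le_mul_of_nonneg_left (rpow_le_rpow_of_exponent_le (by norm_num)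
          (mul_le_mul_of_nonneg_left (by exact_mod_cast k1) (by linarith))) hc.le
      set E := 2 / β + 2 / (c * 2 ^ ((d - s / 2) * j)) with hE
      have hE0 : 0 ≤ E := by positivity
      have h1 : (1 : ℝ) ≤ 2 ^ K := one_le_pow₀ (by norm_num)
      have h3 : 0 ≤ (d : ℝ) * (2 ^ j : ℕ) * (2 / β) := by positivity
      have := HH_step hp hβ hc hs (by positivity)
        (Nat.pow_le_pow_right (by norm_num) (Nat.le_add_right k (2 * (k / p)))) (by nlinarith)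
        (by positivity) (hT2.trans hT) (k3 Λ S ρ pp hp)
      convert this using 1
      rw [← hE]
      ring

theorem pair_scale (hp : EdgeP s c C pp) (h1 : (d : ℝ) < s) (h2 : s < 2 * d) (hc : 0 < c)
    (hC : 0 ≤ C) (hβ : 1 ≤ β) {p k n : ℕ} (hp1 : 0 < p) (hp2 : 16 * (s / 2) ≤ (d - s / 2) * p)
    {η : ℝ} (hη0 : 0 < η) (hη1 : η ≤ 1) (hη2 : 64 * η ≤ d - s / 2)
    (hk1 : 1 ≤ η * ((k : ℝ) ^ (1 / 14 : ℝ)) ^ 2) (hk2 : (k : ℝ) ≤ 2 ^ ((d - s / 2) * k / 8))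
    (hB : β ≤ c * c0 * 2 ^ ((d - s / 2) * k / 2)) (hn0 : 0 < n)
    (hn2 : n ≤ 2 ^ (k + 2 * (k / p) + 2 * ((k + 2 * (k / p)) / p))) (B B' : Finset Λ)
    (c1 : B.card = (2 ^ k) ^ d) (c2 : B'.card = (2 ^ k) ^ d)
    (hBB : ∀ x ∈ B, ∀ y ∈ B', ((2 ^ k : ℕ) : ℝ) ≤ dist x.1 y.1 ∧ dist x.1 y.1 ≤ n) :
    LL ρ β (fun e => lawp (pp e)) (fun σ τ => max (-(mB B σ τ * mB B' σ τ)) 0) ≤
      (206 / η + KL * (C + 1)) * ((k : ℝ) ^ (1 / 14 : ℝ))⁻¹ ^ 2 := by
  have hd0 : (0 : ℝ) ≤ d := Nat.cast_nonneg d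
  have hs : 0 ≤ s := by linarith
  set g := (d : ℝ) - s / 2 with hg
  set x := (k : ℝ) ^ (1 / 14 : ℝ) with hx
  have hx0 : 0 ≤ x := by positivity
  have hx14 : x ^ 14 = k := by
    rw [hx, ← rpow_natCast, ← rpow_mul (Nat.cast_nonneg k)]
    norm_num
  have hx1 : 1 ≤ x := by
    by_contra hlt
    have : x ^ 2 < 1 := pow_lt_one₀ hx0 (not_le.1 hlt) (by norm_num)
    nlinarith
  have hxp : 0 < x := by linarith
  set J := ⌊η * x ^ 2⌋₊ with hJ
  have hJ1 : 1 ≤ J := Nat.le_floor (by exact_mod_cast hk1)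
  have hJ2 : (J : ℝ) ≤ η * x ^ 2 := Nat.floor_le (by positivity)
  have hJ3 : η * x ^ 2 ≤ 2 * J := by
    have a1 := Nat.lt_floor_add_one (η * x ^ 2)
    have a2 : (1 : ℝ) ≤ J := by exact_mod_cast hJ1
    linarith
  set w := (2 : ℝ) ^ (g * k / 8) with hw
  have hw0 : 0 < w := by positivity
  have hwn : ∀ m : ℕ, w ^ m = 2 ^ (g * k / 8 * m) := fun m => by
    rw [hw, ← rpow_natCast, ← rpow_mul (by norm_num)]
  have hxw : x ^ 2 ≤ w := by
    have a1 : x ^ 2 ≤ x ^ 14 := pow_le_pow_right₀ hx1 (by norm_num)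
    linarith
  have hw1 : 1 ≤ w := by nlinarith
  have hT : (2 : ℝ) ^ (8 * J ^ 7) ≤ w := by
    rw [hw, ← rpow_natCast]
    refine rpow_le_rpow_of_exponent_le (by norm_num) ?_
    have b1 : (J : ℝ) ^ 7 ≤ (η * x ^ 2) ^ 7 := by gcongr
    have b2 : η ^ 7 ≤ η := pow_le_of_le_one hη0.le hη1 (by norm_num)
    have b3 : (η * x ^ 2) ^ 7 = η ^ 7 * k := by rw [← hx14]; ring
    have b4 := mul_le_mul_of_nonneg_right b2 (Nat.cast_nonneg (α := ℝ) k)
    have b5 := mul_le_mul_of_nonneg_right hη2 (Nat.cast_nonneg (α := ℝ) k)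
    push_cast
    linarith
  have hN0 : (0 : ℝ) < ((2 ^ k : ℕ) : ℝ) := by positivity
  have hne : ∀ x ∈ B, ∀ y ∈ B', x ≠ y := fun x hx y hy h => by
    have := (hBB x hx y hy).1
    rw [h, dist_self] at this
    linarith
  have hc0 := c0_pos
  have k1 := pairG ρ (β := β) (by linarith) hp.nonneg hp.le_one (B := B) (B' := B')
    (disjoint_left.2 fun x hx hy => hne x hx x hy rfl) (lo := c * (n : ℝ) ^ (-s))
    (hi := C * w⁻¹ ^ 2) (τ := w⁻¹) (fun x hx y hy => ⟨?_, ?_⟩) (by positivity)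
    ((inv_le_one_of_one_le₀ hw1).trans hβ) hJ1 ?_
  · refine k1.trans ?_
    have hJ4 : 103 / (J : ℝ) ≤ 206 / η * x⁻¹ ^ 2 := by
      have a2 : (0 : ℝ) < J := by exact_mod_cast hJ1
      rw [inv_pow, ← div_eq_mul_inv, div_div, div_le_div_iff₀ a2 (by positivity)]
      linarith
    have hK := KL_nonneg
    have a3 : KL * 2 ^ (8 * J ^ 7) * (C * w⁻¹ ^ 2 + w⁻¹ ^ 2) ≤ KL * (C + 1) * x⁻¹ ^ 2 := by
      calc _ ≤ KL * w * (C * w⁻¹ ^ 2 + w⁻¹ ^ 2) := by gcongr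
        _ = KL * (C + 1) * w⁻¹ := by field_simp
        _ ≤ _ := by
          rw [inv_pow]
          gcongr
    linarith
  · refine le_trans (mul_le_mul_of_nonneg_left (rpow_le_rpow_of_nonpos
      (hN0.trans_le (hBB x hx y hy).1) (hBB x hx y hy).2 (by linarith)) hc.le)
      (hp.lo x y (hne x hx y hy))
  · refine (hp.hi x y (hne x hx y hy)).trans (mul_le_mul_of_nonneg_left ?_ hC)
    refine (rpow_le_rpow_of_nonpos hN0 (hBB x hx y hy).1 (by linarith)).trans ?_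
    rw [inv_pow, hwn, ← rpow_neg (by norm_num), Nat.cast_pow, ← rpow_natCast, Nat.cast_ofNat,
      ← rpow_mul (by norm_num)]
    refine rpow_le_rpow_of_exponent_le (by norm_num) ?_
    have a1 : g / 4 ≤ s := by rw [hg]; linarith
    have a2 := mul_le_mul_of_nonneg_right a1 (Nat.cast_nonneg (α := ℝ) k)
    push_cast
    linarith
  · have a1 := T_bound2 (d := d) hs hc hp1 hp2 hn0 hn2
    rw [c1, c2, Nat.cast_pow _ d]
    have a2 : (2 : ℝ) ^ (g * k) = w ^ 8 := by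
      rw [hwn]
      congr 1
      push_cast
      ring
    have a3 : (2 : ℝ) ^ (g * k / 2) = w ^ 4 := by
      rw [hwn]
      congr 1
      push_cast
      ring
    rw [← hg, a2] at a1
    rw [a3] at hB
    calc _ ≤ w * (c * c0 * w ^ 4) := mul_le_mul hT hB (by linarith) hw0.le
      _ = c0 * w⁻¹ ^ 3 * (c * w ^ 8) := by field_simp
      _ ≤ _ := by gcongr

theorem step_arith {p k : ℕ} (hp : 0 < p) {x A q : ℝ} (hx1 : 1 ≤ x) (hx : x ^ 14 = k) :
    q - (2 * d * p + 1 + A + 3 * p) * x⁻¹ ≤ q - 2 * (d / ((2 ^ (k / p) : ℕ) : ℝ) ^ 2) - x⁻¹ -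
      (A * x⁻¹ ^ 2 + 3 / ((2 ^ (k / p) : ℕ) : ℝ)) / x⁻¹ := by
  have hb1 : (1 : ℝ) ≤ ((2 ^ (k / p) : ℕ) : ℝ) := by exact_mod_cast Nat.one_le_two_pow
  have hb2 := b_ge hp k
  set b : ℝ := ((2 ^ (k / p) : ℕ) : ℝ)
  have hb3 : 1 / b ≤ p * x⁻¹ ^ 2 := by
    have a1 : x ^ 2 ≤ x ^ 14 := pow_le_pow_right₀ hx1 (by norm_num)
    rw [inv_pow, ← div_eq_mul_inv, div_le_div_iff₀ (by linarith) (by positivity)]
    linarith
  have hw1 : x⁻¹ ≤ 1 := inv_le_one_of_one_le₀ hx1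
  have hw0 : 0 < x⁻¹ := by positivity
  set w := x⁻¹
  have c1 : (d : ℝ) / b ^ 2 ≤ d * p * w := by
    calc (d : ℝ) / b ^ 2 ≤ d / b := by
          gcongr
          nlinarith
      _ = d * (1 / b) := by ring
      _ ≤ d * (p * w ^ 2) := by gcongr
      _ ≤ d * (p * w) := by
          gcongr
          nlinarith
      _ = _ := by ring
  have c2 : (A * w ^ 2 + 3 / b) / w ≤ (A + 3 * p) * w := by
    rw [div_le_iff₀ hw0]
    have a3 : 3 / b = 3 * (1 / b) := by ring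
    nlinarith
  linarith

end Pool.Agent.P.MP_81d17b_pr.LR
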