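import Pool.Agent.P.MP_81d17b_pr.LR.Fv2

namespace Pool.Agent.P.MP_81d17b_pr.LR

open MeasureTheory ProbabilityTheory Real Finset Function Filter

theorem fv_main {d : ℕ} (hd : 1 ≤ d) {s c C δ : ℝ} (h1 : (d : ℝ) < s) (h2 : s < 2 * d)
    (hc : 0 < c) (hC : 0 ≤ C) (hδ : 0 < δ) :
    ∃ β0 : ℝ, ∀ β : ℝ, β0 ≤ β → ∃ k0 : ℕ, ∀ (Λ : Finset (Fin d → ℤ)) (S : Type) [Fintype S]
      [Nonempty S] (ρ : S → Λ → Bool) (pp : Sym2 Λ → ℝ), EdgeP s c C pp → ∀ k, k0 ≤ k →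
      ∀ z z', cube z (2 ^ k) ⊆ Λ → cube z' (2 ^ k) ⊆ Λ →
      (∀ x ∈ cube z (2 ^ k), ∀ y ∈ cube z' (2 ^ k),
        ((2 ^ k : ℕ) : ℝ) ≤ dist x y ∧ dist x y ≤ (2 ^ (k + 2) : ℕ)) →
      (∀ η, ∀ y ∈ cV Λ z' (2 ^ k), ρ η y = true) →
      1 - δ ≤ LL ρ β (fun e => lawp (pp e)) (mB (cV Λ z (2 ^ k))) := by
  have hd' : (1 : ℝ) ≤ d := by exact_mod_cast hd
  have hg : 0 < d - s / 2 := by linarith
  have hs : 0 ≤ s := by linarith
  have hc0 := c0_pos
  obtain ⟨p, hp⟩ := exists_nat_gt (16 * (s / 2) / (d - s / 2))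
  have hp0 : (0 : ℝ) < p := lt_trans (div_pos (by linarith) hg) hp
  have hp1 : 0 < p := by exact_mod_cast hp0
  have hp2 : 16 * (s / 2) ≤ (d - s / 2) * p := by
    rw [div_lt_iff₀ hg] at hp
    linarith
  set g := d - s / 2 with hgd
  set η := min 1 (g / 64) with hη
  have hη0 : 0 < η := lt_min one_pos (by linarith)
  have hη1 : η ≤ 1 := min_le_left _ _
  have hη2 : 64 * η ≤ g := by linarith [min_le_right 1 (g / 64)]
  set A := 206 / η + KL * (C + 1) with hA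
  have hA0 : 0 ≤ A := by
    have := KL_nonneg
    positivity
  set Kc := 2 * d * p + 1 + A + 3 * p with hKc
  have hK0 : 0 ≤ Kc := by positivity
  set r := ((1 + 1 / p : ℝ) ^ (1 / 14 : ℝ))⁻¹ with hr
  have hr0 : 0 ≤ r := by positivity
  have hq1 : (1 : ℝ) < 1 + 1 / p := lt_add_of_pos_right _ (by positivity)
  have hr1 : r < 1 := inv_lt_one_of_one_lt₀ (one_lt_rpow hq1 (by norm_num))
  obtain ⟨K, hK⟩ := pow_unbounded_of_one_lt (6 / g) hq1
  have t1 : Tendsto (fun k : ℕ => (k : ℝ) ^ (1 / 14 : ℝ)) atTop atTop :=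
    (tendsto_rpow_atTop (by norm_num)).comp tendsto_natCast_atTop_atTop
  have t2 : ∀ᶠ k : ℕ in atTop, (k : ℝ) ≤ 2 ^ (g * k / 8) := by
    have a1 : (1 : ℝ) < 2 ^ (g / 8) := one_lt_rpow (by norm_num) (by positivity)
    filter_upwards [(tendsto_pow_const_div_const_pow_of_one_lt 1 a1).eventually
      (ge_mem_nhds one_pos)] with k hk
    rw [pow_one, div_le_one (by positivity), ← rpow_natCast, ← rpow_mul (by norm_num)] at hk
    rwa [show g * k / 8 = g / 8 * k by ring]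
  have t3 : Tendsto (fun k : ℕ => η * ((k : ℝ) ^ (1 / 14 : ℝ)) ^ 2) atTop atTop :=
    Tendsto.const_mul_atTop hη0 ((tendsto_pow_atTop two_ne_zero).comp t1)
  have t4 : Tendsto (fun k : ℕ => (2 * A + Kc / (1 - r)) * ((k : ℝ) ^ (1 / 14 : ℝ))⁻¹) atTop
      (nhds 0) := by
    simpa using t1.inv_tendsto_atTop.const_mul (2 * A + Kc / (1 - r))
  have t0 : Tendsto (fun k : ℕ => (2 : ℝ) ^ k) atTop atTop :=
    tendsto_pow_atTop_atTop_of_one_lt one_lt_two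
  have t5 : Tendsto (fun k : ℕ => c * c0 * (2 : ℝ) ^ k) atTop atTop :=
    Tendsto.const_mul_atTop (by positivity) t0
  have t6 : Tendsto (fun k : ℕ => (2 : ℝ) ^ K * ((2 * d + 2) * ((2 : ℝ) ^ k)⁻¹ +
      2 * (c * (2 : ℝ) ^ (g * k))⁻¹)) atTop (nhds 0) := by
    have a1 : Tendsto (fun k : ℕ => c * (2 : ℝ) ^ (g * k)) atTop atTop :=
      Tendsto.const_mul_atTop hc ((tendsto_rpow_atTop_of_base_gt_one 2 one_lt_two).comp
        (tendsto_natCast_atTop_atTop.const_mul_atTop hg))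
    simpa using ((t0.inv_tendsto_atTop.const_mul (2 * d + 2 : ℝ)).add
      (a1.inv_tendsto_atTop.const_mul 2)).const_mul ((2 : ℝ) ^ K)
  obtain ⟨k1, hk1⟩ := eventually_atTop.1 ((eventually_ge_atTop p).and (t2.and
    ((t3.eventually_ge_atTop 1).and ((t4.eventually (ge_mem_nhds (half_pos hδ))).and
      ((t5.eventually_ge_atTop 4).and (t6.eventually (ge_mem_nhds (half_pos hδ))))))))
  refine ⟨4 ^ k1, fun β hβ => ?_⟩
  have hβ1 : 1 ≤ β := (one_le_pow₀ (by norm_num)).trans hβ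
  obtain ⟨j, hj, hj'⟩ := exists_nat_pow_near hβ1 (show (1 : ℝ) < 4 by norm_num)
  have hj1 : k1 ≤ j :=
    Nat.lt_succ_iff.1 ((pow_lt_pow_iff_right₀ (by norm_num)).1 (hβ.trans_lt hj'))
  obtain ⟨k0, a1, a2, a3⟩ := HH_iter (C := C) (by linarith : 0 < β) hc hs h2 hp1 hp2
    (hk1 j hj1).1 K
  have hB : ∀ k, k0 ≤ k → β ≤ c * c0 * 2 ^ (g * k / 2) := by
    intro k hk
    have b1 : (2 : ℝ) ^ (3 * j) ≤ 2 ^ (g * k / 2) := by
      rw [← rpow_natCast]
      refine rpow_le_rpow_of_exponent_le (by norm_num) ?_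
      have b2 : (k0 : ℝ) ≤ k := by exact_mod_cast hk
      rw [div_lt_iff₀ hg] at hK
      have b3 := mul_le_mul_of_nonneg_left hK.le (Nat.cast_nonneg (α := ℝ) j)
      have b4 := mul_le_mul_of_nonneg_left (a2.trans b2) hg.le
      push_cast
      linarith
    have b2 : (2 : ℝ) ^ (3 * j) = 2 ^ j * 4 ^ j := by
      rw [← mul_pow, pow_mul]
      norm_num
    calc β ≤ 4 * 4 ^ j := by rw [← pow_succ']; exact hj'.le
      _ ≤ c * c0 * 2 ^ j * 4 ^ j := mul_le_mul_of_nonneg_right (hk1 j hj1).2.2.2.2.1 (by positivity)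
      _ = c * c0 * 2 ^ (3 * j) := by rw [b2]; ring
      _ ≤ _ := mul_le_mul_of_nonneg_left b1 (by positivity)
  have hk01 : k1 ≤ k0 := hj1.trans a1
  refine ⟨k0 + 2 * (k0 / p), fun Λ S _ _ ρ pp hpp k hk z z' hz hz' hzz hρ => ?_⟩
  have hμ : ∀ e, IsProbabilityMeasure (lawp (pp e)) :=
    fun e => lawp_prob (hpp.nonneg e) (hpp.le_one e)
  have hL := LL_avg ρ β fun e => lawp (pp e)
  have hx : ∀ k, k1 ≤ k → 1 ≤ (k : ℝ) ^ (1 / 14 : ℝ) := fun k hk =>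
    one_le_rpow (by exact_mod_cast hp1.trans_le (hk1 k hk).1) (by norm_num)
  have hps := fun k (hk : k0 ≤ k) n => pair_scale (ρ := ρ) (k := k) (n := n) hpp h1 h2 hc hC hβ1
    hp1 hp2 hη0 hη1 hη2 (hk1 k (hk01.trans hk)).2.2.1 (hk1 k (hk01.trans hk)).2.1 (hB k hk)
  have hdiv : ∀ k, k1 ≤ k → 1 ≤ k / p := fun k hk =>
    (Nat.le_div_iff_mul_le hp1).2 (by simpa using (hk1 k hk).1)
  have key := chain
    (P := fun n q => ∀ z, cube z n ⊆ Λ →
      q ≤ LL ρ β (fun e => lawp (pp e)) fun σ τ => |mB (cV Λ z n) σ τ|)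
    (fun n q q' h hq z hz => hq.trans (h z hz)) (nx := fun k => k + 2 * (k / p)) (k0 := k0)
    (f := fun k => ((k : ℝ) ^ (1 / 14 : ℝ))⁻¹) (q0 := 1 - δ / 2) hK0 hr0 hr1
    (fun k => by positivity) (fun k hk => ?_) (fun k hk => ?_)
    (fun k hk n q hn1 hn2 hq z hz => ?_) (fun z hz => ?_) (2 ^ k)
    (Nat.pow_le_pow_right (by norm_num) hk) z hz
  · have hk' : k0 ≤ k := (Nat.le_add_right _ _).trans hk
    have b1 := hps k hk' (2 ^ (k + 2)) (by positivity) (Nat.pow_le_pow_right (by norm_num) (by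
      have := hdiv k (hk01.trans hk')
      omega)) _ _ (card_cV hz) (card_cV hz') fun x hx y hy => hzz _ (mem_cV.1 hx) _ (mem_cV.1 hy)
    have b2 : LL ρ β (fun e => lawp (pp e)) (fun σ τ => |mB (cV Λ z (2 ^ k)) σ τ|) ≤
        LL ρ β (fun e => lawp (pp e)) fun σ τ => mB (cV Λ z (2 ^ k)) σ τ +
          2 * max (-(mB (cV Λ z (2 ^ k)) σ τ * mB (cV Λ z' (2 ^ k)) σ τ)) 0 := by
      refine LL_mono _ _ _ fun σ τ => ?_
      have c1 : mB (cV Λ z' (2 ^ k)) (ρ σ) (ρ τ) = 1 := by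
        rw [mB, sum_congr rfl fun y hy => by rw [hρ σ y hy, hρ τ y hy, sg_sq], sum_const,
          nsmul_eq_mul, mul_one, div_self]
        rw [card_cV hz']
        positivity
      rw [c1, mul_one, abs_le]
      constructor <;> linarith [le_max_left (-mB (cV Λ z (2 ^ k)) (ρ σ) (ρ τ)) 0,
        le_max_right (-mB (cV Λ z (2 ^ k)) (ρ σ) (ρ τ)) 0]
    rw [hL.add, hL.mul] at b2
    have b3 := (hk1 k0 hk01).2.2.2.1
    have b4 : ((k : ℝ) ^ (1 / 14 : ℝ))⁻¹ ^ 2 ≤ ((k0 : ℝ) ^ (1 / 14 : ℝ))⁻¹ := by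
      have c1 := hx k (hk01.trans hk')
      have c2 := hx k0 hk01
      rw [inv_pow]
      refine inv_anti₀ (by linarith) (le_trans ?_ (le_self_pow₀ c1 two_ne_zero))
      exact rpow_le_rpow (Nat.cast_nonneg _) (by exact_mod_cast hk') (by norm_num)
    have b5 := mul_le_mul_of_nonneg_left b4 hA0
    change _ ≤ LL ρ β (fun e => lawp (pp e)) fun σ τ => mB (cV Λ z (2 ^ k)) σ τ
    linarith
  · have := hdiv k (hk01.trans hk)
    omega
  · have a1 := (hk1 k (hk01.trans hk)).1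
    have a2 : (0 : ℝ) < k := by exact_mod_cast hp1.trans_le a1
    rw [hr, ← mul_inv, ← mul_rpow (by positivity) a2.le, mul_comm _ (k : ℝ)]
    exact inv_anti₀ (by positivity) (rpow_le_rpow (by positivity) (nx_ge hp1 a1) (by norm_num))
  · refine le_trans (step_arith (d := d) hp1 (hx k (hk01.trans hk)) ?_) (geo_stepG hL hd
      (N := 2 ^ k) (b := 2 ^ (k / p)) (by positivity) (by positivity)
      (by rwa [← pow_mul, ← pow_add, add_comm, mul_comm])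
      (inv_pos.2 (by linarith [hx k (hk01.trans hk)])) (by positivity)
      (hps k hk n (lt_of_lt_of_le (by positivity) hn1) hn2) hq hz)
    rw [← rpow_natCast, ← rpow_mul (Nat.cast_nonneg k)]
    norm_num
  · refine le_trans ?_ (DD_mB (card_pos.1 (by rw [card_cV hz]; positivity))
      (a3 Λ S ρ pp hpp z hz _ hμ fun _ _ _ _ => rfl))
    have b1 := (hk1 j hj1).2.2.2.2.2
    have b2 : (1 : ℝ) ≤ 2 ^ j := one_le_pow₀ (by norm_num)
    have b3 : (2 : ℝ) ^ j * (2 / β) ≤ 2 * ((2 : ℝ) ^ j)⁻¹ := by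
      rw [← mul_div_assoc, ← div_eq_mul_inv, div_le_div_iff₀ (by linarith) (by linarith)]
      have : (4 : ℝ) ^ j = 2 ^ j * 2 ^ j := by rw [← mul_pow]; norm_num
      linarith
    have b4 : 2 / β ≤ 2 * ((2 : ℝ) ^ j)⁻¹ :=
      (le_mul_of_one_le_left (by positivity) b2).trans b3
    have b5 := mul_le_mul_of_nonneg_left b3 (Nat.cast_nonneg (α := ℝ) d)
    have b6 : (d : ℝ) * (2 ^ j : ℕ) * (2 / β) + (2 / β + 2 / (c * 2 ^ (g * j))) ≤
        (2 * d + 2) * ((2 : ℝ) ^ j)⁻¹ + 2 * (c * (2 : ℝ) ^ (g * j))⁻¹ := by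
      rw [div_eq_mul_inv 2 (c * _)]
      push_cast
      linarith
    have b7 := mul_le_mul_of_nonneg_left b6 (show (0 : ℝ) ≤ 2 ^ K by positivity)
    have b8 : 0 ≤ 2 / β + 2 / (c * 2 ^ (g * j)) := by positivity
    linarith

end Pool.Agent.P.MP_81d17b_pr.LR
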