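import Mathlib

namespace Pool.Agent.P.MP_81d17b_pr.LR

open MeasureTheory ProbabilityTheory Real
open scoped RealInnerProductSpace

variable {E : Type} [NormedAddCommGroup E] [InnerProductSpace ℝ E]

/-- `f` is continuously differentiable with gradient `f'` bounded by `L`. -/
structure C1 (f : E → ℝ) (f' : E → E) (L : ℝ) : Prop where
  der : ∀ x, HasFDerivAt f (innerSL ℝ (f' x)) x
  cont : Continuous f'
  bd : ∀ x, ‖f' x‖ ≤ L

theorem C1.continuous {f : E → ℝ} {f' : E → E} {L : ℝ} (h : C1 f f' L) : Continuous f :=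
  continuous_iff_continuousAt.2 fun x => (h.der x).continuousAt

theorem C1.nonneg {f : E → ℝ} {f' : E → E} {L : ℝ} (h : C1 f f' L) : 0 ≤ L :=
  (norm_nonneg _).trans (h.bd 0)

theorem C1.lip {f : E → ℝ} {f' : E → E} {L : ℝ} (h : C1 f f' L) (x y : E) :
    |f x - f y| ≤ L * ‖x - y‖ := by
  rw [← Real.norm_eq_abs]
  refine (convex_univ (𝕜 := ℝ) (E := E)).norm_image_sub_le_of_norm_hasFDerivWithin_le
    (f' := fun x => innerSL ℝ (f' x)) (fun x _ => (h.der x).hasFDerivWithinAt) (fun x _ => ?_)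
    (Set.mem_univ y) (Set.mem_univ x)
  rw [innerSL_apply_norm]
  exact h.bd x

theorem C1.growth {f : E → ℝ} {f' : E → E} {L : ℝ} (h : C1 f f' L) (x : E) :
    |f x| ≤ |f 0| + L * ‖x‖ := by
  have := h.lip x 0
  rw [sub_zero] at this
  have h2 := abs_sub_abs_le_abs_sub (f x) (f 0)
  linarith

theorem C1.hasDerivAt {f : E → ℝ} {f' : E → E} {L : ℝ} (h : C1 f f' L) {c : ℝ → E} {c' : E}
    {θ : ℝ} (hc : HasDerivAt c c' θ) : HasDerivAt (fun θ => f (c θ)) ⟪f' (c θ), c'⟫ θ := by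
  exact (h.der (c θ)).comp_hasDerivAt θ hc

/-- Affine change of variables. -/
theorem C1.affine {f : E → ℝ} {f' : E → E} {L : ℝ} (h : C1 f f' L) (x : E) (a : ℝ) :
    C1 (fun g => f (x + a • g)) (fun g => a • f' (x + a • g)) (|a| * L) := by
  refine ⟨fun g => ?_, ?_, fun g => ?_⟩
  · have h1 : HasFDerivAt (fun g : E => x + a • g) (a • ContinuousLinearMap.id ℝ E) g :=
      ((hasFDerivAt_id g).const_smul a).const_add x
    have h2 := (h.der (x + a • g)).comp g h1
    refine h2.congr_fderiv ?_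
    ext v
    simp
  · have := h.cont
    fun_prop
  · rw [norm_smul, Real.norm_eq_abs]
    exact mul_le_mul_of_nonneg_left (h.bd _) (abs_nonneg a)

theorem C1.mono {f : E → ℝ} {f' : E → E} {L L' : ℝ} (h : C1 f f' L) (hL : L ≤ L') :
    C1 f f' L' := ⟨h.der, h.cont, fun x => (h.bd x).trans hL⟩

theorem hasDerivAt_int {Ω : Type} [MeasurableSpace Ω] {μ : Measure Ω} {F F' : ℝ → Ω → ℝ}
    {b : Ω → ℝ} (hF : ∀ θ, Integrable (F θ) μ) (hF' : ∀ θ, AEStronglyMeasurable (F' θ) μ)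
    (hb : ∀ θ ω, |F' θ ω| ≤ b ω) (hi : Integrable b μ)
    (hd : ∀ θ ω, HasDerivAt (fun θ => F θ ω) (F' θ ω) θ) (θ : ℝ) :
    HasDerivAt (fun θ => ∫ ω, F θ ω ∂μ) (∫ ω, F' θ ω ∂μ) θ :=
  (hasDerivAt_integral_of_dominated_loc_of_deriv_le (s := Set.univ) Filter.univ_mem
    (Filter.Eventually.of_forall fun θ => (hF θ).aestronglyMeasurable) (hF θ) (hF' θ)
    (ae_of_all _ fun ω θ _ => hb θ ω) hi (ae_of_all _ fun ω θ _ => hd θ ω)).2

variable [FiniteDimensional ℝ E] [MeasurableSpace E] [BorelSpace E]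

theorem int_norm : Integrable (fun g : E => ‖g‖) (stdGaussian E) :=
  (IsGaussian.integrable_id (μ := stdGaussian E)).norm

theorem int_norm_sq : Integrable (fun g : E => ‖g‖ ^ 2) (stdGaussian E) :=
  (IsGaussian.memLp_two_id (μ := stdGaussian E)).integrable_norm_pow (by norm_num)

theorem int_quad : Integrable (fun p : E × E => (1 + ‖p.1‖ + ‖p.2‖) ^ 2)
    ((stdGaussian E).prod (stdGaussian E)) := by
  have h1 : Integrable (fun p : E × E => 3 * (1 + ‖p.1‖ ^ 2 + ‖p.2‖ ^ 2))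
      ((stdGaussian E).prod (stdGaussian E)) :=
    (((integrable_const 1).add (int_norm_sq.comp_fst _)).add (int_norm_sq.comp_snd _)).const_mul 3
  refine h1.mono' (by fun_prop) (ae_of_all _ fun p => ?_)
  rw [Real.norm_eq_abs, abs_of_nonneg (sq_nonneg _)]
  nlinarith [sq_nonneg (1 - ‖p.1‖), sq_nonneg (1 - ‖p.2‖), sq_nonneg (‖p.1‖ - ‖p.2‖)]

theorem int_of_quad {F : E × E → ℝ} (hF : Continuous F) (M : ℝ)
    (hb : ∀ p, |F p| ≤ M * (1 + ‖p.1‖ + ‖p.2‖) ^ 2) :
    Integrable F ((stdGaussian E).prod (stdGaussian E)) :=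
  (int_quad.const_mul M).mono' hF.aestronglyMeasurable (ae_of_all _ hb)

theorem int_of_lin {X : Type} [NormedAddCommGroup X] {F : E → X} (hF : Continuous F) (M : ℝ)
    (hb : ∀ g, ‖F g‖ ≤ M * (1 + ‖g‖)) : Integrable F (stdGaussian E) :=
  (((integrable_const 1).add int_norm).const_mul M).mono' hF.aestronglyMeasurable (ae_of_all _ hb)

theorem int_inner (a : E) : ∫ g, ⟪a, g⟫ ∂stdGaussian E = 0 := by
  have := integral_inner (𝕜 := ℝ) (IsGaussian.integrable_id (μ := stdGaussian E)) a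
  simpa [integral_id_stdGaussian] using this

theorem int_inner_inner (a b : E) : ∫ g, ⟪a, g⟫ * ⟪b, g⟫ ∂stdGaussian E = ⟪a, b⟫ := by
  have h := covarianceBilin_apply (μ := stdGaussian E) IsGaussian.memLp_two_id a b
  rw [covarianceBilin_stdGaussian] at h
  simp only [id, integral_id_stdGaussian, sub_zero] at h
  exact h.symm

theorem int_rot {X : Type} [NormedAddCommGroup X] [NormedSpace ℝ X] {F : E × E → X}
    (hF : Continuous F) (θ : ℝ) :
    ∫ p, F (cos θ • p.1 + sin θ • p.2, -sin θ • p.1 + cos θ • p.2)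
      ∂(stdGaussian E).prod (stdGaussian E) = ∫ p, F p ∂(stdGaussian E).prod (stdGaussian E) := by
  have h1 : ((stdGaussian E).prod (stdGaussian E)).map (ContinuousLinearMap.rotation θ) =
      (stdGaussian E).prod (stdGaussian E) := IsGaussian.map_rotation_eq_self (by simp) θ
  conv_rhs => rw [← h1]
  rw [integral_map (ContinuousLinearMap.rotation θ : E × E →L[ℝ] E × E).continuous.aemeasurable
    hF.aestronglyMeasurable]
  rfl

omit [FiniteDimensional ℝ E] [MeasurableSpace E] [BorelSpace E] in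
theorem norm_rot_le (a b : ℝ) (ha : |a| ≤ 1) (hb : |b| ≤ 1) (x y : E) :
    ‖a • x + b • y‖ ≤ ‖x‖ + ‖y‖ := by
  refine (norm_add_le _ _).trans (add_le_add ?_ ?_)
  · rw [norm_smul, Real.norm_eq_abs]
    exact mul_le_of_le_one_left (norm_nonneg _) ha
  · rw [norm_smul, Real.norm_eq_abs]
    exact mul_le_of_le_one_left (norm_nonneg _) hb

/-- Gaussian integration by parts. -/
theorem ibp {F : E → ℝ} {F' : E → E} {L M : ℝ} (h : C1 F F' L) (hM : ∀ x, |F x| ≤ M) (a : E) :
    ∫ g, ⟪a, g⟫ * F g ∂stdGaussian E = ∫ g, ⟪F' g, a⟫ ∂stdGaussian E := by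
  set γ := stdGaussian E with hγ
  have hFc := h.continuous
  have hF'c := h.cont
  have hL := h.nonneg
  have hM0 : 0 ≤ M := (abs_nonneg _).trans (hM 0)
  let Φ : ℝ → E × E → ℝ := fun θ p =>
    F (cos θ • p.1 + sin θ • p.2) * ⟪a, -sin θ • p.1 + cos θ • p.2⟫
  let Φ' : ℝ → E × E → ℝ := fun θ p =>
    ⟪F' (cos θ • p.1 + sin θ • p.2), -sin θ • p.1 + cos θ • p.2⟫ * ⟪a, -sin θ • p.1 + cos θ • p.2⟫ +
      F (cos θ • p.1 + sin θ • p.2) * ⟪a, -cos θ • p.1 + -sin θ • p.2⟫
  have hb1 : ∀ (c s : ℝ) (p : E × E), |c| ≤ 1 → |s| ≤ 1 →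
      |⟪a, c • p.1 + s • p.2⟫| ≤ ‖a‖ * (‖p.1‖ + ‖p.2‖) := fun c s p hc hs =>
    (abs_real_inner_le_norm _ _).trans
      (mul_le_mul_of_nonneg_left (norm_rot_le c s hc hs _ _) (norm_nonneg _))
  have hns : ∀ θ, |-sin θ| ≤ 1 := fun θ => by rw [abs_neg]; exact abs_sin_le_one θ
  have hnc : ∀ θ, |-cos θ| ≤ 1 := fun θ => by rw [abs_neg]; exact abs_cos_le_one θ
  have hd := hasDerivAt_int (μ := γ.prod γ) (F := Φ) (F' := Φ')
    (b := fun p => ((L + M) * ‖a‖) * (1 + ‖p.1‖ + ‖p.2‖) ^ 2) (fun θ => ?_) (fun θ => ?_)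
    (fun θ p => ?_) (int_quad.const_mul _) (fun θ p => ?_) 0
  · have hconst : (fun θ => ∫ p, Φ θ p ∂γ.prod γ) = fun _ => 0 := by
      funext θ
      have := int_rot (E := E) (F := fun p : E × E => F p.1 * ⟪a, p.2⟫) (by fun_prop) θ
      simp only [Φ]
      rw [this, integral_prod_mul F fun y => ⟪a, y⟫, int_inner, mul_zero]
    rw [hconst] at hd
    have h0 := hd.unique (hasDerivAt_const 0 0)
    simp only [Φ', cos_zero, sin_zero, one_smul, zero_smul, add_zero, neg_zero, zero_add,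
      neg_smul, inner_neg_right] at h0
    have i1 : Integrable (fun p : E × E => ⟪F' p.1, p.2⟫ * ⟪a, p.2⟫) (γ.prod γ) := by
      refine int_of_quad (by fun_prop) (L * ‖a‖) fun p => ?_
      rw [abs_mul]
      have c1 := (abs_real_inner_le_norm (F' p.1) p.2).trans
        (mul_le_mul_of_nonneg_right (h.bd p.1) (norm_nonneg _))
      have c2 := abs_real_inner_le_norm a p.2
      have c3 : ‖p.2‖ ^ 2 ≤ (1 + ‖p.1‖ + ‖p.2‖) ^ 2 := by
        gcongr
        linarith [norm_nonneg p.1]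
      calc _ ≤ (L * ‖p.2‖) * (‖a‖ * ‖p.2‖) := by gcongr
        _ = L * ‖a‖ * ‖p.2‖ ^ 2 := by ring
        _ ≤ _ := by gcongr
    have i2 : Integrable (fun p : E × E => F p.1 * -⟪a, p.1⟫) (γ.prod γ) := by
      refine Integrable.comp_fst (f := fun x => F x * -⟪a, x⟫) ?_ γ
      refine int_of_lin (by fun_prop) (M * ‖a‖) fun g => ?_
      rw [Real.norm_eq_abs, abs_mul, abs_neg]
      have c2 := abs_real_inner_le_norm a g
      calc _ ≤ M * (‖a‖ * ‖g‖) := by gcongr; exact hM g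
        _ ≤ M * (‖a‖ * (1 + ‖g‖)) := by gcongr; linarith
        _ = _ := by ring
    rw [integral_add i1 i2, integral_prod _ i1,
      integral_fun_fst (fun x => F x * -⟪a, x⟫)] at h0
    simp only [hγ, int_inner_inner, probReal_univ, one_smul, mul_neg, integral_neg] at h0
    simp only [mul_comm ⟪a, _⟫ (F _)]
    linarith
  · refine int_of_quad (by simp only [Φ]; fun_prop) (M * ‖a‖) fun p => ?_
    simp only [Φ]
    rw [abs_mul]
    have c1 := hb1 _ _ p (hns θ) (abs_cos_le_one θ)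
    have c2 : ‖p.1‖ + ‖p.2‖ ≤ (1 + ‖p.1‖ + ‖p.2‖) ^ 2 := by
      nlinarith [norm_nonneg p.1, norm_nonneg p.2]
    calc _ ≤ M * (‖a‖ * (‖p.1‖ + ‖p.2‖)) := by gcongr; exact hM _
      _ ≤ M * (‖a‖ * (1 + ‖p.1‖ + ‖p.2‖) ^ 2) := by gcongr
      _ = _ := by ring
  · refine Continuous.aestronglyMeasurable ?_
    simp only [Φ']
    fun_prop
  · simp only [Φ']
    refine (abs_add_le _ _).trans ?_
    rw [abs_mul, abs_mul]
    have c1 := hb1 _ _ p (hns θ) (abs_cos_le_one θ)
    have c1' := hb1 _ _ p (hnc θ) (hns θ)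
    have c2 : ‖p.1‖ + ‖p.2‖ ≤ (1 + ‖p.1‖ + ‖p.2‖) ^ 2 := by
      nlinarith [norm_nonneg p.1, norm_nonneg p.2]
    have c3 : (‖p.1‖ + ‖p.2‖) ^ 2 ≤ (1 + ‖p.1‖ + ‖p.2‖) ^ 2 := by
      gcongr
      linarith
    have c4 : |⟪F' (cos θ • p.1 + sin θ • p.2), -sin θ • p.1 + cos θ • p.2⟫| ≤
        L * (‖p.1‖ + ‖p.2‖) :=
      (abs_real_inner_le_norm _ _).trans (mul_le_mul (h.bd _)
        (norm_rot_le _ _ (hns θ) (abs_cos_le_one θ) _ _) (norm_nonneg _) hL)
    calc _ ≤ (L * (‖p.1‖ + ‖p.2‖)) * (‖a‖ * (‖p.1‖ + ‖p.2‖)) + M * (‖a‖ * (‖p.1‖ + ‖p.2‖)) := by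
          gcongr; exact hM _
      _ = L * ‖a‖ * (‖p.1‖ + ‖p.2‖) ^ 2 + M * ‖a‖ * (‖p.1‖ + ‖p.2‖) := by ring
      _ ≤ L * ‖a‖ * (1 + ‖p.1‖ + ‖p.2‖) ^ 2 + M * ‖a‖ * (1 + ‖p.1‖ + ‖p.2‖) ^ 2 := by gcongr
      _ = _ := by ring
  · have h1 : HasDerivAt (fun θ => cos θ • p.1 + sin θ • p.2) (-sin θ • p.1 + cos θ • p.2) θ :=
      ((hasDerivAt_cos θ).smul_const p.1).add ((hasDerivAt_sin θ).smul_const p.2)
    have h2 : HasDerivAt (fun θ => -sin θ • p.1 + cos θ • p.2) (-cos θ • p.1 + -sin θ • p.2) θ :=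
      ((hasDerivAt_sin θ).neg.smul_const p.1).add ((hasDerivAt_cos θ).smul_const p.2)
    have h3 : HasDerivAt (fun θ => ⟪a, -sin θ • p.1 + cos θ • p.2⟫)
        ⟪a, -cos θ • p.1 + -sin θ • p.2⟫ θ := by
      simpa using (hasDerivAt_const θ a).inner ℝ h2
    exact (h.hasDerivAt h1).mul h3

/-- Stein-type comparison of a density with a shifted Gaussian. -/
theorem stein {f ρ : E → ℝ} {f' ρ' : E → E} {L L' M : ℝ} (hf : C1 f f' L) (hρ : C1 ρ ρ' L')
    (hM : ∀ x, |ρ x| ≤ M) (m : E) :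
    |∫ g, f g * ρ g ∂stdGaussian E -
        (∫ g, f (g + m) ∂stdGaussian E) * ∫ g, ρ g ∂stdGaussian E| ≤
      2 * L * ∫ g, ‖ρ' g - ρ g • m‖ ∂stdGaussian E := by
  set γ := stdGaussian E with hγ
  have hfc := hf.continuous
  have hf'c := hf.cont
  have hρc := hρ.continuous
  have hρ'c := hρ.cont
  have hL := hf.nonneg
  have hL' := hρ.nonneg
  have hM0 : 0 ≤ M := (abs_nonneg _).trans (hM 0)
  have hns : ∀ θ, |-sin θ| ≤ 1 := fun θ => by rw [abs_neg]; exact abs_sin_le_one θ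
  let Φ : ℝ → E × E → ℝ := fun θ p =>
    f (cos θ • p.1 + sin θ • p.2 + (1 - cos θ) • m) * ρ p.1
  let Φ' : ℝ → E × E → ℝ := fun θ p =>
    ⟪f' (cos θ • p.1 + sin θ • p.2 + (1 - cos θ) • m),
      -sin θ • p.1 + cos θ • p.2 + sin θ • m⟫ * ρ p.1
  have c0 : ∀ p : E × E, 1 + ‖p.1‖ + ‖p.2‖ ≤ (1 + ‖p.1‖ + ‖p.2‖) ^ 2 := fun p => by
    nlinarith [norm_nonneg p.1, norm_nonneg p.2]
  have hd := hasDerivAt_int (μ := γ.prod γ) (F := Φ) (F' := Φ')
    (b := fun p => (L * (1 + ‖m‖) * M) * (1 + ‖p.1‖ + ‖p.2‖) ^ 2) (fun θ => ?_) (fun θ => ?_)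
    (fun θ p => ?_) (int_quad.const_mul _) (fun θ p => ?_)
  · set B := ∫ g, ‖ρ' g - ρ g • m‖ ∂γ with hB
    have hB0 : 0 ≤ B := integral_nonneg fun _ => norm_nonneg _
    have hbound : ∀ θ, |∫ p, Φ' θ p ∂γ.prod γ| ≤ L * B := by
      intro θ
      set c := cos θ with hc
      set s := sin θ with hs
      have hcs : c ^ 2 + s ^ 2 = 1 := cos_sq_add_sin_sq θ
      have hs1 : |s| ≤ 1 := abs_sin_le_one θ
      have hc1 : |c| ≤ 1 := abs_cos_le_one θ
      have hback : ∀ p : E × E, c • (c • p.1 + s • p.2) + (-s) • (-s • p.1 + c • p.2) = p.1 := by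
        intro p
        have : c • (c • p.1 + s • p.2) + (-s) • (-s • p.1 + c • p.2) =
            (c ^ 2 + s ^ 2) • p.1 := by module
        rw [this, hcs, one_smul]
      let H : E × E → ℝ := fun q =>
        ⟪f' (q.1 + (1 - c) • m), q.2 + s • m⟫ * ρ (c • q.1 + (-s) • q.2)
      have e1 : ∫ p, Φ' θ p ∂γ.prod γ = ∫ q, H q ∂γ.prod γ := by
        rw [← int_rot (F := H) (by simp only [H]; fun_prop) θ]
        refine integral_congr_ae (ae_of_all _ fun p => ?_)
        simp only [Φ', H, ← hc, ← hs]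
        rw [hback]
      have iH : Integrable H (γ.prod γ) := by
        refine int_of_quad (by simp only [H]; fun_prop) (L * (1 + ‖m‖) * M) fun q => ?_
        simp only [H]
        rw [abs_mul]
        have a1 : ‖q.2 + s • m‖ ≤ (1 + ‖m‖) * (1 + ‖q.1‖ + ‖q.2‖) := by
          have := norm_rot_le 1 s (by simp) hs1 q.2 m
          rw [one_smul] at this
          nlinarith [norm_nonneg q.1, norm_nonneg q.2, norm_nonneg m]
        have a2 := (abs_real_inner_le_norm (f' (q.1 + (1 - c) • m)) (q.2 + s • m)).trans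
          (mul_le_mul (hf.bd _) a1 (norm_nonneg _) hL)
        calc _ ≤ (L * ((1 + ‖m‖) * (1 + ‖q.1‖ + ‖q.2‖))) * M := by gcongr; exact hM _
          _ ≤ (L * ((1 + ‖m‖) * (1 + ‖q.1‖ + ‖q.2‖) ^ 2)) * M := by gcongr; exact c0 q
          _ = _ := by ring
      let N : E × E → ℝ := fun q =>
        ‖ρ' (c • q.1 + (-s) • q.2) - ρ (c • q.1 + (-s) • q.2) • m‖
      have hNb : ∀ q, N q ≤ L' + M * ‖m‖ := by
        intro q
        refine (norm_sub_le _ _).trans (add_le_add (hρ.bd _) ?_)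
        rw [norm_smul, Real.norm_eq_abs]
        exact mul_le_mul_of_nonneg_right (hM _) (norm_nonneg _)
      have iN : Integrable N (γ.prod γ) :=
        (integrable_const (L' + M * ‖m‖)).mono'
          (Continuous.aestronglyMeasurable (by simp only [N]; fun_prop))
          (ae_of_all _ fun q => by rw [Real.norm_eq_abs, abs_of_nonneg (norm_nonneg _)]; exact hNb q)
      have e2 : ∫ q, N q ∂γ.prod γ = B := by
        rw [← int_rot (F := N) (by simp only [N]; fun_prop) θ]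
        simp only [N, ← hc, ← hs, hback]
        rw [integral_fun_fst (fun x => ‖ρ' x - ρ x • m‖)]
        simp [hB, hγ]
      have e3 : ∀ A : E, |∫ y, H (A, y) ∂γ| ≤ L * ∫ y, N (A, y) ∂γ := by
        intro A
        set a := f' (A + (1 - c) • m) with ha
        have k1 := hρ.affine (c • A) (-s)
        have k2 := ibp k1 (fun x => hM _) a
        have j1 : Integrable (fun y => ⟪a, y⟫ * ρ (c • A + (-s) • y)) γ := by
          refine int_of_lin (by fun_prop) (‖a‖ * M) fun g => ?_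
          rw [Real.norm_eq_abs, abs_mul]
          have c2 := abs_real_inner_le_norm a g
          calc _ ≤ (‖a‖ * ‖g‖) * M := by gcongr; exact hM _
            _ ≤ (‖a‖ * (1 + ‖g‖)) * M := by gcongr; linarith
            _ = _ := by ring
        have j2 : Integrable (fun y => ⟪a, s • m⟫ * ρ (c • A + (-s) • y)) γ :=
          ((integrable_const M).mono' (Continuous.aestronglyMeasurable (by fun_prop))
            (ae_of_all _ fun y => hM _)).const_mul _
        have j3 : Integrable (fun y => ⟪(-s) • ρ' (c • A + (-s) • y), a⟫) γ :=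
          (integrable_const (|-s| * L' * ‖a‖)).mono' (Continuous.aestronglyMeasurable (by fun_prop))
            (ae_of_all _ fun y => (abs_real_inner_le_norm _ _).trans
              (mul_le_mul_of_nonneg_right (k1.bd y) (norm_nonneg _)))
        have k3 : ∫ y, H (A, y) ∂γ = ∫ y, (⟪(-s) • ρ' (c • A + (-s) • y), a⟫ +
            ⟪a, s • m⟫ * ρ (c • A + (-s) • y)) ∂γ := by
          rw [integral_add j3 j2, ← k2, ← integral_add j1 j2]
          refine integral_congr_ae (ae_of_all _ fun y => ?_)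
          simp only [H, ← ha, inner_add_right]
          ring
        rw [k3, ← integral_const_mul]
        refine (abs_integral_le_integral_abs).trans (integral_mono (j3.add j2).abs ?_ fun y => ?_)
        · refine Integrable.const_mul ?_ L
          exact (integrable_const (L' + M * ‖m‖)).mono'
            (Continuous.aestronglyMeasurable (by simp only [N]; fun_prop))
            (ae_of_all _ fun q => by
              rw [Real.norm_eq_abs, abs_of_nonneg (norm_nonneg _)]; exact hNb _)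
        · have : ⟪(-s) • ρ' (c • A + (-s) • y), a⟫ + ⟪a, s • m⟫ * ρ (c • A + (-s) • y) =
              -s * ⟪a, ρ' (c • A + (-s) • y) - ρ (c • A + (-s) • y) • m⟫ := by
            simp only [inner_sub_right, real_inner_smul_left, real_inner_smul_right,
              real_inner_comm a]
            ring
          simp only [this, N]
          rw [abs_mul]
          have b1 := (abs_real_inner_le_norm a
            (ρ' (c • A + (-s) • y) - ρ (c • A + (-s) • y) • m)).trans
            (mul_le_mul_of_nonneg_right (hf.bd _) (norm_nonneg _))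
          calc _ ≤ 1 * (L * ‖ρ' (c • A + (-s) • y) - ρ (c • A + (-s) • y) • m‖) := by
                gcongr
                rwa [abs_neg]
            _ = _ := one_mul _
      rw [e1, integral_prod _ iH, ← e2, integral_prod _ iN, ← integral_const_mul]
      exact (abs_integral_le_integral_abs).trans (integral_mono iH.integral_prod_left.abs
        (iN.integral_prod_left.const_mul L) e3)
    have hmv := norm_image_sub_le_of_norm_deriv_le_segment' (a := 0) (b := π / 2) (C := L * B)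
      (fun θ _ => (hd θ).hasDerivWithinAt) (fun θ _ => hbound θ) (π / 2)
      ⟨by positivity, le_rfl⟩
    simp only [Φ, cos_pi_div_two, sin_pi_div_two, cos_zero, sin_zero, zero_smul, one_smul,
      zero_add, add_zero, sub_zero, sub_self] at hmv
    rw [integral_fun_fst (fun x => f x * ρ x)] at hmv
    have e4 : ∫ p : E × E, f (p.2 + m) * ρ p.1 ∂γ.prod γ =
        (∫ g, f (g + m) ∂γ) * ∫ g, ρ g ∂γ := by
      simp only [mul_comm (f _) (ρ _)]
      rw [integral_prod_mul ρ fun y => f (y + m), mul_comm]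
    rw [e4, Real.norm_eq_abs, abs_sub_comm] at hmv
    simp only [probReal_univ, one_smul] at hmv
    refine hmv.trans ?_
    have := pi_le_four
    have : 0 ≤ L * B := mul_nonneg hL hB0
    nlinarith
  · refine int_of_quad (by simp only [Φ]; fun_prop) ((|f 0| + L * (1 + 2 * ‖m‖)) * M) fun p => ?_
    simp only [Φ]
    rw [abs_mul]
    have a1 : ‖cos θ • p.1 + sin θ • p.2 + (1 - cos θ) • m‖ ≤
        (1 + 2 * ‖m‖) * (1 + ‖p.1‖ + ‖p.2‖) := by
      refine (norm_add_le _ _).trans ?_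
      have b1 := norm_rot_le _ _ (abs_cos_le_one θ) (abs_sin_le_one θ) p.1 p.2
      have b2 : ‖(1 - cos θ) • m‖ ≤ 2 * ‖m‖ := by
        rw [norm_smul, Real.norm_eq_abs]
        refine mul_le_mul_of_nonneg_right ?_ (norm_nonneg _)
        rw [abs_le]
        constructor <;> linarith [cos_le_one θ, neg_one_le_cos θ]
      nlinarith [norm_nonneg p.1, norm_nonneg p.2, norm_nonneg m]
    have a2 := hf.growth (cos θ • p.1 + sin θ • p.2 + (1 - cos θ) • m)
    have a3 : |f (cos θ • p.1 + sin θ • p.2 + (1 - cos θ) • m)| ≤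
        (|f 0| + L * (1 + 2 * ‖m‖)) * (1 + ‖p.1‖ + ‖p.2‖) := by
      have b1 : L * ‖cos θ • p.1 + sin θ • p.2 + (1 - cos θ) • m‖ ≤
        L * ((1 + 2 * ‖m‖) * (1 + ‖p.1‖ + ‖p.2‖)) := by gcongr
      nlinarith [norm_nonneg p.1, norm_nonneg p.2, abs_nonneg (f 0)]
    calc _ ≤ ((|f 0| + L * (1 + 2 * ‖m‖)) * (1 + ‖p.1‖ + ‖p.2‖)) * M := by gcongr; exact hM _
      _ ≤ ((|f 0| + L * (1 + 2 * ‖m‖)) * (1 + ‖p.1‖ + ‖p.2‖) ^ 2) * M := by gcongr; exact c0 p
      _ = _ := by ring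
  · refine Continuous.aestronglyMeasurable ?_
    simp only [Φ']
    fun_prop
  · simp only [Φ']
    rw [abs_mul]
    have a1 : ‖-sin θ • p.1 + cos θ • p.2 + sin θ • m‖ ≤ (1 + ‖m‖) * (1 + ‖p.1‖ + ‖p.2‖) := by
      refine (norm_add_le _ _).trans ?_
      have b1 := norm_rot_le _ _ (hns θ) (abs_cos_le_one θ) p.1 p.2
      have b2 : ‖sin θ • m‖ ≤ ‖m‖ := by
        rw [norm_smul, Real.norm_eq_abs]
        exact mul_le_of_le_one_left (norm_nonneg _) (abs_sin_le_one θ)
      nlinarith [norm_nonneg p.1, norm_nonneg p.2, norm_nonneg m]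
    have a2 := (abs_real_inner_le_norm (f' (cos θ • p.1 + sin θ • p.2 + (1 - cos θ) • m))
      (-sin θ • p.1 + cos θ • p.2 + sin θ • m)).trans (mul_le_mul (hf.bd _) a1 (norm_nonneg _) hL)
    calc _ ≤ (L * ((1 + ‖m‖) * (1 + ‖p.1‖ + ‖p.2‖))) * M := by gcongr; exact hM _
      _ ≤ (L * ((1 + ‖m‖) * (1 + ‖p.1‖ + ‖p.2‖) ^ 2)) * M := by gcongr; exact c0 p
      _ = _ := by ring
  · have h1 : HasDerivAt (fun θ => cos θ • p.1 + sin θ • p.2 + (1 - cos θ) • m)
        (-sin θ • p.1 + cos θ • p.2 + sin θ • m) θ := by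
      have := (((hasDerivAt_cos θ).smul_const p.1).add ((hasDerivAt_sin θ).smul_const p.2)).add
        (((hasDerivAt_cos θ).const_sub 1).smul_const m)
      rw [neg_neg] at this
      exact this
    exact (hf.hasDerivAt h1).mul_const _

end Pool.Agent.P.MP_81d17b_pr.LR
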