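import Pool.Agent.P.MP_81d17b_pr.LR.Scale

namespace Pool.Agent.P.MP_81d17b_pr.LR

open Real Finset Function

variable {V : Type}

/-- A normalised positive linear functional on functions of two configurations. -/
structure Avg (L : ((V → Bool) → (V → Bool) → ℝ) → ℝ) : Prop where
  mono : ∀ {f g}, (∀ σ τ, f σ τ ≤ g σ τ) → L f ≤ L g
  const : ∀ c, L (fun _ _ => c) = c
  add : ∀ f g, L (fun σ τ => f σ τ + g σ τ) = L f + L g
  mul : ∀ c f, L (fun σ τ => c * f σ τ) = c * L f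

variable {L : ((V → Bool) → (V → Bool) → ℝ) → ℝ}

theorem Avg.sum (hL : Avg L) {κ : Type} (I : Finset κ) (f : κ → (V → Bool) → (V → Bool) → ℝ) :
    L (fun σ τ => ∑ i ∈ I, f i σ τ) = ∑ i ∈ I, L (f i) := by
  classical
  induction I using Finset.induction_on with
  | empty => simpa using hL.const 0
  | insert a I ha ih =>
    simp only [sum_insert ha]
    rw [hL.add, ih]

theorem stepG [DecidableEq V] (hL : Avg L) {κ : Type} [DecidableEq κ] (I : Finset κ)
    (hI : I.Nonempty) (B : κ → Finset V)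
    (R : Finset V) {w : ℕ} (hw : 0 < w) (hc : ∀ i ∈ I, (B i).card = w) (hR : ∀ i ∈ I, B i ⊆ R)
    (hd : (I : Set κ).PairwiseDisjoint B) {θ : ℝ} (hθ : (1 - θ) * R.card ≤ I.card * w)
    {q η ρ r : ℝ} (hr : 0 < r) (hη : 0 ≤ η) (hq : ∀ i ∈ I, q ≤ L fun σ τ => |mB (B i) σ τ|)
    (bad : κ → Finset κ) (hbad : ∀ i ∈ I, ((I ∩ bad i).card : ℝ) ≤ ρ * I.card)
    (hgood : ∀ i ∈ I, ∀ j ∈ I, j ∉ bad i →
      L (fun σ τ => max (-(mB (B i) σ τ * mB (B j) σ τ)) 0) ≤ η) :
    q - 2 * θ - r - (η + ρ) / r ≤ L fun σ τ => |mB R σ τ| := by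
  have hn : (0 : ℝ) < I.card := by exact_mod_cast card_pos.2 hI
  have h1 : L (fun σ τ => (I.card : ℝ)⁻¹ * ∑ i ∈ I, |mB (B i) σ τ|) ≤
      L fun σ τ => |mB R σ τ| + ((2 * θ + r) + ((I.card : ℝ) ^ 2 * r)⁻¹ *
        ∑ i ∈ I, ∑ j ∈ I, max (-(mB (B i) σ τ * mB (B j) σ τ)) 0) := by
    refine hL.mono fun σ τ => ?_
    have a1 := sign_ineq I hI (fun i => mB (B i) σ τ) hr
    have a2 := tile_ineq I hI B R hw hc hR hd hθ σ τ
    simp only [← div_eq_inv_mul]
    linarith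
  rw [hL.mul, hL.sum, hL.add, hL.add, hL.const, hL.mul, hL.sum] at h1
  simp only [hL.sum] at h1
  have h2 : q ≤ (I.card : ℝ)⁻¹ * ∑ i ∈ I, L fun σ τ => |mB (B i) σ τ| := by
    rw [← div_eq_inv_mul, le_div_iff₀ hn]
    simpa [mul_comm] using sum_le_sum hq
  have h3 : ∀ i ∈ I, ∑ j ∈ I, L (fun σ τ => max (-(mB (B i) σ τ * mB (B j) σ τ)) 0) ≤
      (η + ρ) * I.card := by
    intro i hi
    have h4 : ∀ j ∈ I, L (fun σ τ => max (-(mB (B i) σ τ * mB (B j) σ τ)) 0) ≤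
        η + if j ∈ bad i then 1 else 0 := by
      intro j hj
      split_ifs with hb
      · rw [← hL.const (η + 1)]
        refine hL.mono fun σ τ => max_le ?_ (by linarith)
        have b1 : |mB (B i) σ τ * mB (B j) σ τ| ≤ 1 := by
          rw [abs_mul]
          exact mul_le_one₀ (abs_mB _ _ _) (abs_nonneg _) (abs_mB _ _ _)
        linarith [neg_le_abs (mB (B i) σ τ * mB (B j) σ τ)]
      · rw [add_zero]
        exact hgood i hi j hj hb
    refine (sum_le_sum h4).trans ?_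
    rw [sum_add_distrib, sum_ite_mem]
    simp only [sum_const, nsmul_eq_mul, mul_one]
    linarith [hbad i hi]
  have h5 := sum_le_sum h3
  rw [sum_const, nsmul_eq_mul] at h5
  have h6 := mul_le_mul_of_nonneg_left h5 (show 0 ≤ ((I.card : ℝ) ^ 2 * r)⁻¹ by positivity)
  have h7 : ((I.card : ℝ) ^ 2 * r)⁻¹ * (I.card * ((η + ρ) * I.card)) = (η + ρ) / r := by
    field_simp
  linarith

theorem geo_stepG {d : ℕ} {Λ : Finset (Fin d → ℤ)} {L : ((Λ → Bool) → (Λ → Bool) → ℝ) → ℝ}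
    (hL : Avg L) (hd : 1 ≤ d) {N b n : ℕ} (hN : 0 < N) (hb : 0 < b) (hn : b ^ 2 * N ≤ n)
    {q r η : ℝ} (hr : 0 < r) (hη : 0 ≤ η)
    (hpair : ∀ B B' : Finset Λ, B.card = N ^ d → B'.card = N ^ d →
      (∀ x ∈ B, ∀ y ∈ B', (N : ℝ) ≤ dist x.1 y.1 ∧ dist x.1 y.1 ≤ n) →
      L (fun σ τ => max (-(mB B σ τ * mB B' σ τ)) 0) ≤ η)
    (hq : ∀ p, cube p N ⊆ Λ → q ≤ L fun σ τ => |mB (cV Λ p N) σ τ|) {p : Fin d → ℤ}
    (h : cube p n ⊆ Λ) :
    q - 2 * (d / b ^ 2) - r - (η + 3 / b) / r ≤ L fun σ τ => |mB (cV Λ p n) σ τ| := by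
  set M := n / N with hM
  have hM1 : b ^ 2 ≤ M := (Nat.le_div_iff_mul_le hN).2 hn
  have hM2 : N * M ≤ n := Nat.mul_div_le n N
  have hM3 : n < N * M + N := by
    have h1 := Nat.div_add_mod n N
    have := Nat.mod_lt n hN
    rw [← hM] at h1
    omega
  have hM0 : 0 < M := lt_of_lt_of_le (by positivity) hM1
  let i0 : Fin d := ⟨0, hd⟩
  let I : Finset (Fin d → ℕ) := Fintype.piFinset fun _ => range M
  let c : (Fin d → ℕ) → Fin d → ℤ := fun u i => p i + N * u i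
  have hI : ∀ u, u ∈ I ↔ ∀ i, u i < M := fun u => by simp [I]
  have cI : I.card = M ^ d := by simp [I]
  have hsub : ∀ u ∈ I, cube (c u) N ⊆ cube p n := by
    intro u hu x hx
    refine mem_cube.2 fun i => ?_
    obtain ⟨h1, h2⟩ := mem_cube.1 hx i
    have h3 : N * (u i + 1) ≤ n := (Nat.mul_le_mul_left N ((hI u).1 hu i)).trans hM2
    have h4 : (N : ℤ) * (u i + 1) ≤ n := by exact_mod_cast h3
    have h5 : 0 ≤ (N : ℤ) * u i := by positivity
    simp only [c] at h1 h2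
    constructor <;> linarith
  have hfar : ∀ (u v : Fin d → ℕ) (i : Fin d) (k : ℕ) (x y : Fin d → ℤ), u i + k < v i →
      x ∈ cube (c u) N → y ∈ cube (c v) N → k * N < y i - x i := by
    intro u v i k x y huv hx hy
    obtain ⟨_, h2⟩ := mem_cube.1 hx i
    obtain ⟨h3, _⟩ := mem_cube.1 hy i
    have h4 : (u i : ℤ) + k + 1 ≤ v i := by exact_mod_cast huv
    have h5 := mul_le_mul_of_nonneg_left h4 (Int.natCast_nonneg N)
    simp only [c] at h2 h3
    linarith
  have hb' : (0 : ℝ) < b := by exact_mod_cast hb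
  have hN' : (0 : ℝ) < N := by exact_mod_cast hN
  refine stepG hL I (card_pos.1 (by rw [cI]; positivity)) (fun u => cV Λ (c u) N) (cV Λ p n)
    (w := N ^ d) (by positivity) (fun u hu => card_cV ((hsub u hu).trans h))
    (fun u hu x hx => mem_cV.2 (hsub u hu (mem_cV.1 hx))) (fun u _ v _ huv => ?_) ?_ hr
    hη (fun u hu => hq _ ((hsub u hu).trans h))
    (fun u => Fintype.piFinset fun i => if i = i0 then Icc (u i0 - b) (u i0 + b) else range M)
    (fun u _ => ?_) fun u hu v hv huv => ?_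
  · refine disjoint_left.2 fun x hx hy => ?_
    obtain ⟨i, hi⟩ := ne_iff.1 huv
    rcases lt_or_gt_of_ne hi with h1 | h1
    · simpa using hfar u v i 0 x x h1 (mem_cV.1 hx) (mem_cV.1 hy)
    · simpa using hfar v u i 0 x x h1 (mem_cV.1 hy) (mem_cV.1 hx)
  · rw [card_cV h, cI]
    push_cast
    have hb1 : (1 : ℝ) ≤ b ^ 2 := one_le_pow₀ (by exact_mod_cast hb)
    have h1 : 1 / (b : ℝ) ^ 2 ≤ 1 := (div_le_one (by positivity)).2 hb1
    have h2 := one_add_mul_le_pow (a := -(1 / (b : ℝ) ^ 2)) (by linarith) d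
    have h3 : (1 + -(1 / (b : ℝ) ^ 2)) * n ≤ M * N := by
      have a1 : (n : ℝ) ≤ N * M + N := by exact_mod_cast hM3.le
      have a2 : (b : ℝ) ^ 2 * N ≤ n := by exact_mod_cast hn
      have a3 : (N : ℝ) ≤ 1 / b ^ 2 * n := by
        rw [one_div, inv_mul_eq_div, le_div_iff₀ (by positivity)]
        linarith
      linarith
    calc (1 - d / (b : ℝ) ^ 2) * n ^ d = (1 + d * -(1 / (b : ℝ) ^ 2)) * n ^ d := by ring
      _ ≤ (1 + -(1 / (b : ℝ) ^ 2)) ^ d * n ^ d := by gcongr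
      _ = ((1 + -(1 / (b : ℝ) ^ 2)) * n) ^ d := (mul_pow _ _ _).symm
      _ ≤ ((M : ℝ) * N) ^ d :=
          pow_le_pow_left₀ (mul_nonneg (by linarith) (Nat.cast_nonneg n)) h3 d
      _ = _ := mul_pow _ _ _
  · have h1 : (I ∩ Fintype.piFinset fun i =>
        if i = i0 then Icc (u i0 - b) (u i0 + b) else range M).card ≤ (2 * b + 1) * M ^ (d - 1) := by
      refine (card_le_card inter_subset_right).trans ?_
      rw [Fintype.card_piFinset, ← mul_prod_erase _ _ (mem_univ i0), if_pos rfl]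
      refine Nat.mul_le_mul (by rw [Nat.card_Icc]; omega) (le_of_eq ?_)
      rw [prod_congr rfl fun i hi => by rw [if_neg (ne_of_mem_erase hi), card_range]]
      simp
    have h2 : M ^ d = M * M ^ (d - 1) := by
      rw [← pow_succ']
      congr 1
      omega
    have h3 : ((2 * b + 1 : ℕ) : ℝ) ≤ 3 / b * M := by
      have a1 : (b : ℝ) ^ 2 ≤ M := by exact_mod_cast hM1
      have a2 : (1 : ℝ) ≤ b := by exact_mod_cast hb
      rw [div_mul_eq_mul_div, le_div_iff₀ hb']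
      push_cast
      nlinarith
    calc _ ≤ (((2 * b + 1) * M ^ (d - 1) : ℕ) : ℝ) := by exact_mod_cast h1
      _ = ((2 * b + 1 : ℕ) : ℝ) * (M ^ (d - 1) : ℕ) := Nat.cast_mul _ _
      _ ≤ 3 / b * M * (M ^ (d - 1) : ℕ) := by gcongr
      _ = _ := by rw [cI, h2, Nat.cast_mul, mul_assoc]
  · have h1 : u i0 + b < v i0 ∨ v i0 + b < u i0 := by
      by_contra hc
      refine huv (Fintype.mem_piFinset.2 fun i => ?_)
      split_ifs with hi
      · rw [hi, mem_Icc]
        omega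
      · exact mem_range.2 ((hI v).1 hv i)
    refine hpair _ _ (card_cV ((hsub u hu).trans h)) (card_cV ((hsub v hv).trans h))
      fun x hx y hy => ⟨?_, dist_le_cube (hsub u hu (mem_cV.1 hx)) (hsub v hv (mem_cV.1 hy))⟩
    refine le_trans ?_ (dist_le_pi_dist x.1 y.1 i0)
    rw [Int.dist_eq, ← Int.cast_sub, ← Int.cast_abs, ← Int.cast_natCast, Int.cast_le]
    rcases h1 with h1 | h1
    · rw [abs_sub_comm]
      have := hfar u v i0 1 _ _ (by omega) (mem_cV.1 hx) (mem_cV.1 hy)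
      rw [Nat.cast_one, one_mul] at this
      exact this.le.trans (le_abs_self _)
    · have := hfar v u i0 1 _ _ (by omega) (mem_cV.1 hy) (mem_cV.1 hx)
      rw [Nat.cast_one, one_mul] at this
      exact this.le.trans (le_abs_self _)

end Pool.Agent.P.MP_81d17b_pr.LR
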