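import Pool.Agent.P.MP_81d17b_pr.LR.Block

namespace Pool.Agent.P.MP_81d17b_pr.LR

open Real Finset Function

variable {d : ℕ} {Λ : Finset (Fin d → ℤ)}

theorem mem_cube {p x : Fin d → ℤ} {n : ℕ} : x ∈ cube p n ↔ ∀ i, p i ≤ x i ∧ x i < p i + n := by
  simp [cube]

theorem card_cube (p : Fin d → ℤ) (n : ℕ) : (cube p n).card = n ^ d := by
  simp [cube]

/-- A cube, as a set of sites of `Λ`. -/
noncomputable def cV (Λ : Finset (Fin d → ℤ)) (p : Fin d → ℤ) (n : ℕ) : Finset Λ :=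
  univ.filter fun x => x.1 ∈ cube p n

theorem mem_cV {p : Fin d → ℤ} {n : ℕ} {x : Λ} : x ∈ cV Λ p n ↔ x.1 ∈ cube p n := by simp [cV]

theorem card_cV {p : Fin d → ℤ} {n : ℕ} (h : cube p n ⊆ Λ) : (cV Λ p n).card = n ^ d := by
  rw [← card_cube p n]
  refine card_bij (fun x _ => x.1) (fun x hx => mem_cV.1 hx) (fun x _ y _ h => Subtype.ext h)
    fun x hx => ⟨⟨x, h hx⟩, mem_cV.2 hx, rfl⟩

theorem dist_le_cube {p x y : Fin d → ℤ} {n : ℕ} (hx : x ∈ cube p n) (hy : y ∈ cube p n) :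
    dist x y ≤ n := by
  refine (dist_pi_le_iff (Nat.cast_nonneg n)).2 fun i => ?_
  obtain ⟨h1, h2⟩ := mem_cube.1 hx i
  obtain ⟨h3, h4⟩ := mem_cube.1 hy i
  rw [Int.dist_eq, ← Int.cast_sub, ← Int.cast_abs, ← Int.cast_natCast, Int.cast_le, abs_le]
  constructor <;> omega

variable {A : Sym2 Λ → ℝ} {lo hi α : ℝ}

theorem lower_cube (hlo : 0 ≤ lo) (hα : 0 ≤ α)
    (hA : ∀ x y : Λ, x ≠ y → lo * dist x.1 y.1 ^ (-α) ≤ A s(x, y)) {p : Fin d → ℤ} {n : ℕ} {x y : Λ}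
    (hx : x.1 ∈ cube p n) (hy : y.1 ∈ cube p n) (hxy : x ≠ y) : lo * (n : ℝ) ^ (-α) ≤ A s(x, y) :=
  le_trans (mul_le_mul_of_nonneg_left (rpow_le_rpow_of_nonpos
    (dist_pos.2 fun h => hxy (Subtype.ext h)) (dist_le_cube hx hy) (by linarith)) hlo) (hA x y hxy)

theorem geo_init (hlo : 0 < lo) (hα : 0 ≤ α)
    (hA : ∀ x y : Λ, x ≠ y → lo * dist x.1 y.1 ^ (-α) ≤ A s(x, y)) {p : Fin d → ℤ} {n : ℕ}
    (hn : 0 < n) (h : cube p n ⊆ Λ) :
    1 - 6 * (1 + 1 / (lo * (n : ℝ) ^ (-α))) / √((n : ℝ) ^ d) ≤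
      E2 A fun σ τ => |mB (cV Λ p n) σ τ| := by
  have h1 := initV (A := A) (B := cV Λ p n) (card_pos.1 (by rw [card_cV h]; positivity))
    (t := lo * (n : ℝ) ^ (-α)) (by positivity)
    fun x hx y hy hxy => lower_cube hlo.le hα hA (mem_cV.1 hx) (mem_cV.1 hy) hxy
  rw [card_cV h, Nat.cast_pow] at h1
  refine h1.trans (E2_mono fun σ τ => ?_)
  rw [← sq_abs, sq]
  exact mul_le_of_le_one_left (abs_nonneg _) (abs_mB _ _ _)

theorem geo_step (hd : 1 ≤ d) (hlo : 0 ≤ lo) (hhi : 0 ≤ hi) (hα : 0 ≤ α)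
    (hA : ∀ x y : Λ, x ≠ y → lo * dist x.1 y.1 ^ (-α) ≤ A s(x, y))
    (hA' : ∀ x y : Λ, x ≠ y → A s(x, y) ≤ hi * dist x.1 y.1 ^ (-α))
    {N b n J : ℕ} (hN : 0 < N) (hb : 0 < b) (hn : b ^ 2 * N ≤ n) (hJ : 1 ≤ J) {q r : ℝ} (hr : 0 < r)
    (hT : (2 : ℝ) ^ (8 * J ^ 7) ≤ (lo * (n : ℝ) ^ (-α)) ^ 2 * ((N : ℝ) ^ d * (N : ℝ) ^ d))
    (hq : ∀ p, cube p N ⊆ Λ → q ≤ E2 A fun σ τ => |mB (cV Λ p N) σ τ|) {p : Fin d → ℤ}
    (h : cube p n ⊆ Λ) :
    q - 2 * (d / b ^ 2) - r - (103 / J + KL * ((N : ℝ) ^ d * (N : ℝ) ^ d *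
      (hi * ((b : ℝ) * N) ^ (-α)) ^ 4) + 3 / b) / r ≤ E2 A fun σ τ => |mB (cV Λ p n) σ τ| := by
  set M := n / N with hM
  have hM1 : b ^ 2 ≤ M := (Nat.le_div_iff_mul_le hN).2 hn
  have hM2 : N * M ≤ n := Nat.mul_div_le n N
  have hM3 : n < N * M + N := by
    have h1 := Nat.div_add_mod n N
    have := Nat.mod_lt n hN
    rw [← hM] at h1
    omega
  have hM0 : 0 < M := lt_of_lt_of_le (by positivity) hM1
  let i0 : Fin d := ⟨0, hd⟩
  let I : Finset (Fin d → ℕ) := Fintype.piFinset fun _ => range M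
  let c : (Fin d → ℕ) → Fin d → ℤ := fun u i => p i + N * u i
  have hI : ∀ u, u ∈ I ↔ ∀ i, u i < M := fun u => by simp [I]
  have cI : I.card = M ^ d := by simp [I]
  have hsub : ∀ u ∈ I, cube (c u) N ⊆ cube p n := by
    intro u hu x hx
    refine mem_cube.2 fun i => ?_
    obtain ⟨h1, h2⟩ := mem_cube.1 hx i
    have h3 : N * (u i + 1) ≤ n := (Nat.mul_le_mul_left N ((hI u).1 hu i)).trans hM2
    have h4 : (N : ℤ) * (u i + 1) ≤ n := by exact_mod_cast h3
    have h5 : 0 ≤ (N : ℤ) * u i := by positivity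
    simp only [c] at h1 h2
    constructor <;> linarith
  have hfar : ∀ (u v : Fin d → ℕ) (i : Fin d) (k : ℕ) (x y : Fin d → ℤ), u i + k < v i →
      x ∈ cube (c u) N → y ∈ cube (c v) N → k * N < y i - x i := by
    intro u v i k x y huv hx hy
    obtain ⟨_, h2⟩ := mem_cube.1 hx i
    obtain ⟨h3, _⟩ := mem_cube.1 hy i
    have h4 : (u i : ℤ) + k + 1 ≤ v i := by exact_mod_cast huv
    have h5 := mul_le_mul_of_nonneg_left h4 (Int.natCast_nonneg N)
    simp only [c] at h2 h3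
    linarith
  have hb' : (0 : ℝ) < b := by exact_mod_cast hb
  have hN' : (0 : ℝ) < N := by exact_mod_cast hN
  refine stepV I (card_pos.1 (by rw [cI]; positivity)) (fun u => cV Λ (c u) N) (cV Λ p n)
    (w := N ^ d) (by positivity) (fun u hu => card_cV ((hsub u hu).trans h))
    (fun u hu x hx => mem_cV.2 (hsub u hu (mem_cV.1 hx))) (fun u _ v _ huv => ?_) ?_ hr
    (by have := KL_nonneg; positivity) (fun u hu => hq _ ((hsub u hu).trans h))
    (fun u => Fintype.piFinset fun i => if i = i0 then Icc (u i0 - b) (u i0 + b) else range M)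
    (fun u _ => ?_) fun u hu v hv huv => ?_
  · refine disjoint_left.2 fun x hx hy => ?_
    obtain ⟨i, hi⟩ := ne_iff.1 huv
    rcases lt_or_gt_of_ne hi with h1 | h1
    · simpa using hfar u v i 0 x x h1 (mem_cV.1 hx) (mem_cV.1 hy)
    · simpa using hfar v u i 0 x x h1 (mem_cV.1 hy) (mem_cV.1 hx)
  · rw [card_cV h, cI]
    push_cast
    have hb1 : (1 : ℝ) ≤ b ^ 2 := one_le_pow₀ (by exact_mod_cast hb)
    have h1 : 1 / (b : ℝ) ^ 2 ≤ 1 := (div_le_one (by positivity)).2 hb1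
    have h2 := one_add_mul_le_pow (a := -(1 / (b : ℝ) ^ 2)) (by linarith) d
    have h3 : (1 + -(1 / (b : ℝ) ^ 2)) * n ≤ M * N := by
      have a1 : (n : ℝ) ≤ N * M + N := by exact_mod_cast hM3.le
      have a2 : (b : ℝ) ^ 2 * N ≤ n := by exact_mod_cast hn
      have a3 : (N : ℝ) ≤ 1 / b ^ 2 * n := by
        rw [one_div, inv_mul_eq_div, le_div_iff₀ (by positivity)]
        linarith
      linarith
    calc (1 - d / (b : ℝ) ^ 2) * n ^ d = (1 + d * -(1 / (b : ℝ) ^ 2)) * n ^ d := by ring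
      _ ≤ (1 + -(1 / (b : ℝ) ^ 2)) ^ d * n ^ d := by gcongr
      _ = ((1 + -(1 / (b : ℝ) ^ 2)) * n) ^ d := (mul_pow _ _ _).symm
      _ ≤ ((M : ℝ) * N) ^ d :=
          pow_le_pow_left₀ (mul_nonneg (by linarith) (Nat.cast_nonneg n)) h3 d
      _ = _ := mul_pow _ _ _
  · have h1 : (I ∩ Fintype.piFinset fun i =>
        if i = i0 then Icc (u i0 - b) (u i0 + b) else range M).card ≤ (2 * b + 1) * M ^ (d - 1) := by
      refine (card_le_card inter_subset_right).trans ?_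
      rw [Fintype.card_piFinset, ← mul_prod_erase _ _ (mem_univ i0), if_pos rfl]
      refine Nat.mul_le_mul (by rw [Nat.card_Icc]; omega) (le_of_eq ?_)
      rw [prod_congr rfl fun i hi => by rw [if_neg (ne_of_mem_erase hi), card_range]]
      simp
    have h2 : M ^ d = M * M ^ (d - 1) := by
      rw [← pow_succ']
      congr 1
      omega
    have h3 : ((2 * b + 1 : ℕ) : ℝ) ≤ 3 / b * M := by
      have a1 : (b : ℝ) ^ 2 ≤ M := by exact_mod_cast hM1
      have a2 : (1 : ℝ) ≤ b := by exact_mod_cast hb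
      rw [div_mul_eq_mul_div, le_div_iff₀ hb']
      push_cast
      nlinarith
    calc _ ≤ (((2 * b + 1) * M ^ (d - 1) : ℕ) : ℝ) := by exact_mod_cast h1
      _ = ((2 * b + 1 : ℕ) : ℝ) * (M ^ (d - 1) : ℕ) := Nat.cast_mul _ _
      _ ≤ 3 / b * M * (M ^ (d - 1) : ℕ) := by gcongr
      _ = _ := by rw [cI, h2, Nat.cast_mul, mul_assoc]
  · have h1 : u i0 + b < v i0 ∨ v i0 + b < u i0 := by
      by_contra hc
      refine huv (Fintype.mem_piFinset.2 fun i => ?_)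
      split_ifs with hi
      · rw [hi, mem_Icc]
        omega
      · exact mem_range.2 ((hI v).1 hv i)
    have h2 : ∀ x ∈ cV Λ (c u) N, ∀ y ∈ cV Λ (c v) N, (b : ℝ) * N ≤ dist x.1 y.1 := by
      intro x hx y hy
      refine le_trans ?_ (dist_le_pi_dist x.1 y.1 i0)
      rw [Int.dist_eq, ← Int.cast_sub, ← Int.cast_abs, ← Int.cast_natCast, ← Int.cast_natCast (R := ℝ) N,
        ← Int.cast_mul, Int.cast_le]
      rcases h1 with h1 | h1
      · rw [abs_sub_comm]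
        exact (hfar u v i0 b _ _ h1 (mem_cV.1 hx) (mem_cV.1 hy)).le.trans (le_abs_self _)
      · exact (hfar v u i0 b _ _ h1 (mem_cV.1 hy) (mem_cV.1 hx)).le.trans (le_abs_self _)
    have h3 : ∀ x ∈ cV Λ (c u) N, ∀ y ∈ cV Λ (c v) N, x ≠ y := by
      intro x hx y hy hxy
      have := h2 x hx y hy
      rw [hxy, dist_self] at this
      exact absurd this (not_le.2 (by positivity))
    have h4 := pairV (A := A) (B := cV Λ (c u) N) (B' := cV Λ (c v) N)
      (disjoint_left.2 fun x hx hy => h3 x hx x hy rfl) (a := lo * (n : ℝ) ^ (-α))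
      (a' := hi * ((b : ℝ) * N) ^ (-α)) (by positivity) (fun x hx y hy =>
        ⟨lower_cube hlo hα hA (hsub u hu (mem_cV.1 hx)) (hsub v hv (mem_cV.1 hy)) (h3 x hx y hy),
        (hA' x y (h3 x hx y hy)).trans (mul_le_mul_of_nonneg_left (rpow_le_rpow_of_nonpos
          (by positivity) (h2 x hx y hy) (by linarith)) hhi)⟩) hJ
    rw [card_cV ((hsub u hu).trans h), card_cV ((hsub v hv).trans h), Nat.cast_pow] at h4
    exact h4 hT

/-- The couplings as a function on unordered pairs. -/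
noncomputable def cpl (β : ℝ) (a : (Fin d → ℤ) → (Fin d → ℤ) → ℝ) (ha : ∀ x y, a x y = a y x)
    (Λ : Finset (Fin d → ℤ)) : Sym2 Λ → ℝ :=
  Sym2.lift ⟨fun x y => if x = y then 0 else β * a x y, fun x y => by
    simp only [eq_comm (a := x), ha x]⟩

theorem sum_pairs {V : Type} [Fintype V] [DecidableEq V] (G : Sym2 V → ℝ)
    (hG : ∀ x, G s(x, x) = 0) : ∑ x, ∑ y, G s(x, y) = 2 * ∑ e, G e := by
  rw [← Fintype.sum_prod_type', ← sum_fiberwise univ fun p : V × V => s(p.1, p.2), mul_sum]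
  refine sum_congr rfl fun e _ => ?_
  rw [sum_congr rfl fun p hp => by rw [(mem_filter.1 hp).2], sum_const, nsmul_eq_mul]
  induction e using Sym2.ind with
  | h x y =>
    by_cases hxy : x = y
    · rw [hxy, hG, mul_zero, mul_zero]
    · have : (univ.filter fun p : V × V => s(p.1, p.2) = s(x, y)) = {(x, y), (y, x)} := by
        ext p
        simp [Prod.ext_iff]
      rw [this, card_pair fun h => hxy (Prod.ext_iff.1 h).1]
      norm_num

theorem order_eq (β : ℝ) (a : (Fin d → ℤ) → (Fin d → ℤ) → ℝ) (ha : ∀ x y, a x y = a y x)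
    {p : Fin d → ℤ} {n : ℕ} (h : cube p n ⊆ Λ) :
    order β a Λ (cube p n) = E2 (cpl β a ha Λ) fun σ τ => mB (cV Λ p n) σ τ ^ 2 := by
  have e1 : ∀ ε σ, β * energy a Λ ε σ = ∑ e, cpl β a ha Λ e * sg (ε e) * sp e σ := by
    intro ε σ
    have := sum_pairs (fun e => cpl β a ha Λ e * sg (ε e) * sp e σ) fun x => by simp [cpl]
    have e0 : ∑ x : Λ, ∑ y : Λ, cpl β a ha Λ s(x, y) * sg (ε s(x, y)) * sp s(x, y) σ =
        β * ∑ x : Λ, ∑ y : Λ,
          if x = y then 0 else a x y * sg (ε s(x, y)) * sg (σ x) * sg (σ y) := by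
      simp only [mul_sum]
      refine sum_congr rfl fun x _ => sum_congr rfl fun y _ => ?_
      simp only [cpl, Sym2.lift_mk, sp_mk]
      split_ifs <;> ring
    rw [energy]
    linarith
  have e2 : ∀ ε x y, corr β a Λ ε x y =
      ∑ σ, gw sp (fun e => cpl β a ha Λ e * sg (ε e)) σ * sp s(x, y) σ := by
    intro ε x y
    simp only [corr, gw, e1, sum_div, sp_mk]
    exact sum_congr rfl fun σ _ => by ring
  simp only [order, E2, th_sq, ← e2]
  rw [← sum_div, div_div, mul_comm, card_cV h, card_cube]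
  congr 1
  refine sum_congr rfl fun ε _ => ?_
  simp only [cV, sum_filter, ite_and]
  refine sum_congr rfl fun x _ => ?_
  split_ifs <;> simp

end Pool.Agent.P.MP_81d17b_pr.LR
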