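import Pool.Agent.P.MP_81d17b_pr.LR.Heat

namespace Pool.Agent.P.MP_81d17b_pr.LR

open MeasureTheory ProbabilityTheory Real Finset
open scoped RealInnerProductSpace

variable {E : Type} [NormedAddCommGroup E] [InnerProductSpace ℝ E] {S : Type} [Fintype S]

/-- Partition function. -/
noncomputable def Zf (c : S → ℝ) (φ : S → E) (y : E) : ℝ := ∑ s, exp (c s + ⟪φ s, y⟫)

/-- Gibbs weights. -/
noncomputable def Gf (c : S → ℝ) (φ : S → E) (s : S) (y : E) : ℝ :=
  exp (c s + ⟪φ s, y⟫) / Zf c φ y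

/-- Barycentre. -/
noncomputable def bf (c : S → ℝ) (φ : S → E) (y : E) : E := ∑ s, Gf c φ s y • φ s

variable [Nonempty S] {c : S → ℝ} {φ : S → E}

theorem Zf_pos (y : E) : 0 < Zf c φ y := sum_pos (fun _ _ => exp_pos _) univ_nonempty

theorem Gf_pos (s : S) (y : E) : 0 < Gf c φ s y := div_pos (exp_pos _) (Zf_pos y)

theorem Gf_sum (y : E) : ∑ s, Gf c φ s y = 1 := by
  simp only [Gf]
  rw [← sum_div]
  exact div_self (Zf_pos y).ne'

theorem Gf_le (s : S) (y : E) : Gf c φ s y ≤ 1 := by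
  rw [← Gf_sum (c := c) (φ := φ) y]
  exact single_le_sum (fun t _ => (Gf_pos t y).le) (mem_univ s)

theorem Gf_abs (s : S) (y : E) : |Gf c φ s y| ≤ 1 := by
  rw [abs_of_pos (Gf_pos s y)]
  exact Gf_le s y

theorem GG_abs (s t : S) (y : E) : |Gf c φ s y * Gf c φ t y| ≤ 1 := by
  rw [abs_mul]
  exact mul_le_one₀ (Gf_abs s y) (abs_nonneg _) (Gf_abs t y)

omit [Nonempty S] in
theorem Zf_cont : Continuous (Zf c φ) := by
  unfold Zf
  fun_prop

theorem Gf_cont (s : S) : Continuous (Gf c φ s) :=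
  Continuous.div (by fun_prop) Zf_cont fun y => (Zf_pos y).ne'

theorem bf_cont : Continuous (bf c φ) :=
  continuous_finsetSum _ fun s _ => (Gf_cont s).smul continuous_const

theorem norm_avg_le {g : S → E} {M : ℝ} (hg : ∀ s, ‖g s‖ ≤ M) (y : E) :
    ‖∑ s, Gf c φ s y • g s‖ ≤ M := by
  refine (norm_sum_le _ _).trans ?_
  calc _ ≤ ∑ s, Gf c φ s y * M := sum_le_sum fun s _ => by
        rw [norm_smul, Real.norm_eq_abs, abs_of_pos (Gf_pos s y)]
        exact mul_le_mul_of_nonneg_left (hg s) (Gf_pos s y).le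
    _ = M := by rw [← sum_mul, Gf_sum, one_mul]

theorem bf_norm (hφ : ∀ s, ‖φ s‖ ≤ 1) (y : E) : ‖bf c φ y‖ ≤ 1 := norm_avg_le hφ y

omit [Fintype S] [Nonempty S] in
theorem der_lin (s : S) (y : E) :
    HasFDerivAt (fun y => c s + ⟪φ s, y⟫) (innerSL ℝ (φ s)) y :=
  ((innerSL ℝ (φ s)).hasFDerivAt).const_add (c s)

theorem der_log (y : E) :
    HasFDerivAt (fun y => log (Zf c φ y)) (innerSL ℝ (bf c φ y)) y := by
  have h1 : HasFDerivAt (Zf c φ) (∑ s, exp (c s + ⟪φ s, y⟫) • innerSL ℝ (φ s)) y :=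
    HasFDerivAt.fun_sum fun s _ => (der_lin s y).exp
  refine (h1.log (Zf_pos y).ne').congr_fderiv ?_
  ext v
  simp [bf, Gf, sum_inner, real_inner_smul_left, mul_sum, div_eq_inv_mul, mul_assoc]

theorem C1_log (hφ : ∀ s, ‖φ s‖ ≤ 1) : C1 (fun y => log (Zf c φ y)) (bf c φ) 1 :=
  ⟨der_log, bf_cont, bf_norm hφ⟩

theorem Gf_eq (s : S) (y : E) : Gf c φ s y = exp (c s + ⟪φ s, y⟫ - log (Zf c φ y)) := by
  rw [exp_sub, exp_log (Zf_pos y), Gf]

theorem der_G (s : S) (y : E) :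
    HasFDerivAt (Gf c φ s) (innerSL ℝ (Gf c φ s y • (φ s - bf c φ y))) y := by
  have h1 := ((der_lin (c := c) (φ := φ) s y).sub (der_log (c := c) (φ := φ) y)).exp
  have e : Gf c φ s = fun y => exp (c s + ⟪φ s, y⟫ - log (Zf c φ y)) := funext (Gf_eq s)
  rw [e]
  refine h1.congr_fderiv ?_
  ext v
  simp [inner_sub_left]

theorem grad_G_le (hφ : ∀ s, ‖φ s‖ ≤ 1) (s : S) (y : E) :
    ‖Gf c φ s y • (φ s - bf c φ y)‖ ≤ 2 * Gf c φ s y := by
  rw [norm_smul, Real.norm_eq_abs, abs_of_pos (Gf_pos s y), mul_comm]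
  refine mul_le_mul_of_nonneg_right ((norm_sub_le _ _).trans ?_) (Gf_pos s y).le
  linarith [hφ s, bf_norm (c := c) hφ y]

theorem C1_G (hφ : ∀ s, ‖φ s‖ ≤ 1) (s : S) :
    C1 (Gf c φ s) (fun y => Gf c φ s y • (φ s - bf c φ y)) 2 :=
  ⟨der_G s, (Gf_cont s).smul (continuous_const.sub bf_cont), fun y =>
    (grad_G_le hφ s y).trans (by linarith [Gf_le (c := c) (φ := φ) s y])⟩

theorem C1_GG (hφ : ∀ s, ‖φ s‖ ≤ 1) (s t : S) :
    C1 (fun y => Gf c φ s y * Gf c φ t y)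
      (fun y => (Gf c φ s y * Gf c φ t y) • (φ s + φ t - (2 : ℝ) • bf c φ y)) 4 := by
  refine ⟨fun y => ?_, ((Gf_cont s).mul (Gf_cont t)).smul
    (continuous_const.sub (bf_cont.const_smul _)), fun y => ?_⟩
  · refine ((der_G s y).mul (der_G t y)).congr_fderiv ?_
    ext v
    simp [inner_sub_left, inner_add_left, real_inner_smul_left]
    ring
  · rw [norm_smul, Real.norm_eq_abs]
    have h1 : ‖φ s + φ t - (2 : ℝ) • bf c φ y‖ ≤ 4 := by
      refine (norm_sub_le _ _).trans ?_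
      rw [norm_smul, Real.norm_eq_abs, abs_two]
      linarith [norm_add_le (φ s) (φ t), hφ s, hφ t, bf_norm (c := c) hφ y]
    calc _ ≤ 1 * 4 := mul_le_mul (GG_abs s t y) h1 (norm_nonneg _) zero_le_one
      _ = 4 := one_mul _

/-- The exponential identity behind the Fenchel inequality. -/
theorem fenchel (y w : E) :
    ∑ t, Gf c φ t y * max (⟪φ t, w⟫ - (log (Zf c φ (y + w)) - log (Zf c φ y))) 0 ≤ 1 := by
  rw [← Gf_sum (c := c) (φ := φ) (y + w)]
  refine sum_le_sum fun t _ => ?_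
  have h1 : Gf c φ t (y + w) =
      Gf c φ t y * exp (⟪φ t, w⟫ - (log (Zf c φ (y + w)) - log (Zf c φ y))) := by
    rw [Gf_eq, Gf_eq, ← exp_add, inner_add_right]
    congr 1
    ring
  rw [h1]
  refine mul_le_mul_of_nonneg_left (max_le ?_ (exp_pos _).le) (Gf_pos t y).le
  linarith [add_one_le_exp (⟪φ t, w⟫ - (log (Zf c φ (y + w)) - log (Zf c φ y)))]

/-- A positive partition of unity together with a bounded vector field. -/
structure Fam {I : Type} [Fintype I] (W : I → E → ℝ) (b : E → E) : Prop where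
  pos : ∀ i y, 0 < W i y
  sum : ∀ y, ∑ i, W i y = 1
  cont : ∀ i, Continuous (W i)
  bcont : Continuous b
  bnorm : ∀ y, ‖b y‖ ≤ 1

theorem fam_G (hφ : ∀ s, ‖φ s‖ ≤ 1) : Fam (Gf c φ) (bf c φ) :=
  ⟨Gf_pos, Gf_sum, Gf_cont, bf_cont, bf_norm hφ⟩

theorem fam_GG (hφ : ∀ s, ‖φ s‖ ≤ 1) :
    Fam (fun (p : S × S) y => Gf c φ p.1 y * Gf c φ p.2 y) (bf c φ) :=
  ⟨fun p y => mul_pos (Gf_pos _ y) (Gf_pos _ y), fun y => by
    rw [Fintype.sum_prod_type]
    simp only [← mul_sum, Gf_sum, mul_one],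
    fun p => (Gf_cont _).mul (Gf_cont _), bf_cont, bf_norm hφ⟩

variable {I : Type} [Fintype I] {W : I → E → ℝ} {b : E → E}

omit [InnerProductSpace ℝ E] in
theorem Fam.abs_le (h : Fam W b) (i : I) (y : E) : |W i y| ≤ 1 := by
  rw [abs_of_pos (h.pos i y), ← h.sum y]
  exact single_le_sum (fun t _ => (h.pos t y).le) (mem_univ i)

omit [InnerProductSpace ℝ E] in
theorem Fam.linW (h : Fam W b) (i : I) : Lin (W i) := Lin.of_bdd (h.cont i) (h.abs_le i)

theorem Fam.linN (h : Fam W b) (i : I) : Lin fun y => W i y • b y :=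
  (Lin.of_bdd h.bcont h.bnorm).smul (h.cont i) (h.abs_le i)

variable [FiniteDimensional ℝ E] [MeasurableSpace E] [BorelSpace E]

theorem abs_Q_le {F : E → ℝ} {M : ℝ} (hM : ∀ y, |F y| ≤ M) (t : ℝ) (x : E) : |Q t F x| ≤ M :=
  norm_Q_le_const (F := F) hM t x

/-- The quadratic functional whose increments control the martingale increments. -/
noncomputable def hh (W : I → E → ℝ) (b : E → E) (t : ℝ) (x : E) : ℝ :=
  ∑ i, ‖Q t (fun y => W i y • b y) x‖ ^ 2 / Q t (W i) x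

theorem Fam.Mpos (h : Fam W b) (i : I) (t : ℝ) (x : E) : 0 < Q t (W i) x :=
  Q_pos (h.linW i) (h.pos i) t x

theorem Fam.Msum (h : Fam W b) (t : ℝ) (x : E) : ∑ i, Q t (W i) x = 1 := by
  rw [← Q_sum _ fun i _ => h.linW i]
  simp only [h.sum, Q_const]

theorem Fam.N_le (h : Fam W b) (i : I) (t : ℝ) (x : E) :
    ‖Q t (fun y => W i y • b y) x‖ ≤ Q t (W i) x := by
  refine (norm_Q_le _ t x).trans (Q_mono (h.linN i).norm (h.linW i) (fun y => ?_) t x)
  rw [norm_smul, Real.norm_eq_abs, abs_of_pos (h.pos i y)]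
  exact mul_le_of_le_one_right (h.pos i y).le (h.bnorm y)

theorem Fam.term_le (h : Fam W b) (i : I) (t : ℝ) (x : E) :
    ‖Q t (fun y => W i y • b y) x‖ ^ 2 / Q t (W i) x ≤ Q t (W i) x := by
  rw [div_le_iff₀ (h.Mpos i t x), ← sq]
  exact pow_le_pow_left₀ (norm_nonneg _) (h.N_le i t x) 2

theorem Fam.hh_nonneg (h : Fam W b) (t : ℝ) (x : E) : 0 ≤ hh W b t x :=
  sum_nonneg fun i _ => div_nonneg (sq_nonneg _) (h.Mpos i t x).le

theorem Fam.hh_le (h : Fam W b) (t : ℝ) (x : E) : hh W b t x ≤ 1 := by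
  rw [← h.Msum t x]
  exact sum_le_sum fun i _ => h.term_le i t x

theorem Fam.lin_term (h : Fam W b) (i : I) (t : ℝ) :
    Lin fun x => ‖Q t (fun y => W i y • b y) x‖ ^ 2 / Q t (W i) x := by
  refine Lin.of_bdd (Continuous.div (((h.linN i).Q t).1.norm.pow 2) ((h.linW i).Q t).1
    fun x => (h.Mpos i t x).ne') (M := 1) fun x => ?_
  rw [Real.norm_eq_abs, abs_of_nonneg (div_nonneg (sq_nonneg _) (h.Mpos i t x).le)]
  exact (h.term_le i t x).trans ((le_abs_self _).trans (abs_Q_le (h.abs_le i) t x))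

theorem Fam.lin_hh (h : Fam W b) (t : ℝ) : Lin (hh W b t) :=
  Lin.sum _ fun i _ => h.lin_term i t

/-- Posterior mean of the field. -/
noncomputable def bb (W : I → E → ℝ) (b : E → E) (t : ℝ) (x : E) (i : I) : E :=
  (Q t (W i) x)⁻¹ • Q t (fun y => W i y • b y) x

/-- Size of the martingale increment over a window. -/
noncomputable def AA (W : I → E → ℝ) (b : E → E) (u v : ℝ) (x : E) (i : I) : ℝ :=
  Q u (fun y => ‖Q v (fun y => W i y • b y) y - Q v (W i) y • bb W b (u + v) x i‖) x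

theorem Fam.AA_le (h : Fam W b) {u v θ : ℝ} (hu : 0 ≤ u) (hv : 0 ≤ v) (hθ : 0 < θ) (x : E) :
    ∑ i, AA W b u v x i ≤ θ + (Q u (hh W b v) x - hh W b (u + v) x) / (4 * θ) := by
  have key : ∀ i, AA W b u v x i ≤ θ * Q (u + v) (W i) x +
      (Q u (fun x => ‖Q v (fun y => W i y • b y) x‖ ^ 2 / Q v (W i) x) x -
        ‖Q (u + v) (fun y => W i y • b y) x‖ ^ 2 / Q (u + v) (W i) x) / (4 * θ) := by
    intro i
    set w := bb W b (u + v) x i with hw
    have lM := (h.linW i).Q v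
    have lN := (h.linN i).Q v
    have lT := h.lin_term i v
    have lI : Lin fun y => ⟪Q v (fun y => W i y • b y) y, w⟫ := by
      obtain ⟨h1, M, hM⟩ := lN
      refine ⟨by fun_prop, M * ‖w‖, fun y => (norm_inner_le_norm _ _).trans ?_⟩
      calc _ ≤ M * (1 + ‖y‖) * ‖w‖ := mul_le_mul_of_nonneg_right (hM y) (norm_nonneg _)
        _ = _ := by ring
    have lS : Lin fun y => Q v (W i) y • w :=
      (Lin.const w).smul lM.1 (M := 1) fun y => abs_Q_le (h.abs_le i) v y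
    have h1 : AA W b u v x i ≤ Q u (fun y => (θ + ‖w‖ ^ 2 / (4 * θ)) * Q v (W i) y +
        ((4 * θ)⁻¹ * (‖Q v (fun y => W i y • b y) y‖ ^ 2 / Q v (W i) y) -
          (2 * θ)⁻¹ * ⟪Q v (fun y => W i y • b y) y, w⟫)) x := by
      refine Q_mono (lN.sub lS).norm ((lM.const_mul _).add ((lT.const_mul _).sub (lI.const_mul _)))
        (fun y => ?_) u x
      set N := Q v (fun y => W i y • b y) y
      set M := Q v (W i) y with hM
      have hM0 : 0 < M := h.Mpos i v y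
      have e1 : ‖N - M • w‖ ^ 2 = ‖N‖ ^ 2 - 2 * M * ⟪N, w⟫ + M ^ 2 * ‖w‖ ^ 2 := by
        rw [norm_sub_sq_real, real_inner_smul_right, norm_smul, Real.norm_eq_abs, mul_pow, sq_abs]
        ring
      have e2 : (θ + ‖w‖ ^ 2 / (4 * θ)) * M + ((4 * θ)⁻¹ * (‖N‖ ^ 2 / M) - (2 * θ)⁻¹ * ⟪N, w⟫) =
          θ * M + ‖N - M • w‖ ^ 2 / (4 * θ * M) := by
        rw [e1]
        field_simp
        ring
      rw [e2, ← sub_nonneg]
      have e3 : θ * M + ‖N - M • w‖ ^ 2 / (4 * θ * M) - ‖N - M • w‖ =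
          (‖N - M • w‖ - 2 * θ * M) ^ 2 / (4 * θ * M) := by
        field_simp
        ring
      rw [e3]
      positivity
    rw [Q_add (lM.const_mul _) ((lT.const_mul _).sub (lI.const_mul _)),
      Q_sub (lT.const_mul _) (lI.const_mul _), Q_const_mul, Q_const_mul, Q_const_mul,
      Q_inner lN, Q_Q (h.linW i) hu hv, Q_Q (h.linN i) hu hv] at h1
    refine h1.trans (le_of_eq ?_)
    have hM0 := h.Mpos i (u + v) x
    rw [hw, bb, real_inner_smul_right, real_inner_self_eq_norm_sq, norm_smul, Real.norm_eq_abs,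
      mul_pow, sq_abs]
    field_simp
    ring
  refine (sum_le_sum fun i _ => key i).trans (le_of_eq ?_)
  rw [sum_add_distrib, ← mul_sum, h.Msum, mul_one, ← sum_div, sum_sub_distrib,
    ← Q_sum _ fun i _ => h.lin_term i v]
  rfl

end Pool.Agent.P.MP_81d17b_pr.LR
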