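import Pool.Agent.P.MP_81d17b_pr.LR.Gauss

namespace Pool.Agent.P.MP_81d17b_pr.LR

open MeasureTheory ProbabilityTheory Real
open scoped RealInnerProductSpace

variable {E : Type} [NormedAddCommGroup E] [InnerProductSpace ℝ E]
  {X : Type} [NormedAddCommGroup X]

/-- Continuous functions of at most linear growth. -/
def Lin (F : E → X) : Prop := Continuous F ∧ ∃ M, ∀ y, ‖F y‖ ≤ M * (1 + ‖y‖)

omit [InnerProductSpace ℝ E] in
theorem Lin.of_bdd {F : E → X} (hF : Continuous F) {M : ℝ} (hM : ∀ y, ‖F y‖ ≤ M) : Lin F := by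
  refine ⟨hF, M, fun y => (hM y).trans ?_⟩
  have : 0 ≤ M := (norm_nonneg _).trans (hM 0)
  nlinarith [norm_nonneg y]

theorem C1.lin {f : E → ℝ} {f' : E → E} {L : ℝ} (h : C1 f f' L) : Lin f := by
  refine ⟨h.continuous, |f 0| + L, fun y => (h.growth y).trans ?_⟩
  nlinarith [norm_nonneg y, abs_nonneg (f 0), h.nonneg]

omit [InnerProductSpace ℝ E] in
theorem Lin.const (c : X) : Lin fun _ : E => c := Lin.of_bdd continuous_const fun _ => le_rfl

omit [InnerProductSpace ℝ E] in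
theorem Lin.add {F G : E → X} (hF : Lin F) (hG : Lin G) : Lin fun y => F y + G y := by
  obtain ⟨h1, M, hM⟩ := hF
  obtain ⟨h2, N, hN⟩ := hG
  refine ⟨h1.add h2, M + N, fun y => (norm_add_le _ _).trans ?_⟩
  linarith [hM y, hN y]

omit [InnerProductSpace ℝ E] in
theorem Lin.sub {F G : E → X} (hF : Lin F) (hG : Lin G) : Lin fun y => F y - G y := by
  obtain ⟨h1, M, hM⟩ := hF
  obtain ⟨h2, N, hN⟩ := hG
  refine ⟨h1.sub h2, M + N, fun y => (norm_sub_le _ _).trans ?_⟩
  linarith [hM y, hN y]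

omit [InnerProductSpace ℝ E] in
theorem Lin.norm {F : E → X} (hF : Lin F) : Lin fun y => ‖F y‖ := by
  obtain ⟨h1, M, hM⟩ := hF
  exact ⟨h1.norm, M, fun y => by rw [norm_norm]; exact hM y⟩

omit [InnerProductSpace ℝ E] in
theorem Lin.abs {F : E → ℝ} (hF : Lin F) : Lin fun y => |F y| := hF.norm

omit [InnerProductSpace ℝ E] in
theorem Lin.sum {ι : Type} (s : Finset ι) {F : ι → E → X} (hF : ∀ i ∈ s, Lin (F i)) :
    Lin fun y => ∑ i ∈ s, F i y := by
  classical
  induction s using Finset.induction_on with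
  | empty => simpa using Lin.const (0 : X)
  | insert a s ha ih =>
    simp only [Finset.sum_insert ha]
    exact (hF a (Finset.mem_insert_self _ _)).add
      (ih fun i hi => hF i (Finset.mem_insert_of_mem hi))

omit [InnerProductSpace ℝ E] in
theorem Lin.smul [NormedSpace ℝ X] {ρ : E → ℝ} {F : E → X} (hF : Lin F) (hρ : Continuous ρ) {M : ℝ}
    (hM : ∀ y, |ρ y| ≤ M) : Lin fun y => ρ y • F y := by
  obtain ⟨h1, N, hN⟩ := hF
  refine ⟨hρ.smul h1, M * N, fun y => ?_⟩
  rw [norm_smul, mul_assoc]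
  exact mul_le_mul (hM y) (hN y) (norm_nonneg _) ((abs_nonneg _).trans (hM 0))

omit [InnerProductSpace ℝ E] in
theorem Lin.mul {ρ F : E → ℝ} (hF : Lin F) (hρ : Continuous ρ) {M : ℝ}
    (hM : ∀ y, |ρ y| ≤ M) : Lin fun y => F y * ρ y := by
  simpa only [smul_eq_mul, mul_comm] using hF.smul hρ hM

omit [InnerProductSpace ℝ E] in
theorem Lin.const_mul {F : E → ℝ} (hF : Lin F) (c : ℝ) : Lin fun y => c * F y :=
  hF.smul (ρ := fun _ => c) continuous_const (M := |c|) fun _ => le_rfl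

omit [InnerProductSpace ℝ E] in
theorem Lin.shift {F : E → X} (hF : Lin F) (v : E) : Lin fun y => F (y + v) := by
  obtain ⟨h1, M, hM⟩ := hF
  have hM0 : 0 ≤ M := by simpa using (norm_nonneg _).trans (hM 0)
  refine ⟨by fun_prop, M * (1 + ‖v‖), fun y => (hM _).trans ?_⟩
  rw [mul_assoc]
  refine mul_le_mul_of_nonneg_left ?_ hM0
  nlinarith [norm_add_le y v, norm_nonneg y, norm_nonneg v]

theorem C1.comp_real {f : E → ℝ} {f' : E → E} {L : ℝ} (h : C1 f f' L) {g g' : ℝ → ℝ} {K : ℝ}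
    (hg : ∀ t, HasDerivAt g (g' t) t) (hc : Continuous g') (hK : ∀ t, |g' t| ≤ K) :
    C1 (fun x => g (f x)) (fun x => g' (f x) • f' x) (K * L) := by
  refine ⟨fun x => ?_, ?_, fun x => ?_⟩
  · refine ((hg (f x)).comp_hasFDerivAt x (h.der x)).congr_fderiv ?_
    ext v
    simp
  · exact (hc.comp h.continuous).smul h.cont
  · rw [norm_smul]
    exact mul_le_mul (hK _) (h.bd x) (norm_nonneg _) ((abs_nonneg _).trans (hK 0))

theorem C1.shift {f : E → ℝ} {f' : E → E} {L : ℝ} (h : C1 f f' L) (v : E) :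
    C1 (fun y => f (y + v)) (fun y => f' (y + v)) L := by
  have := h.affine v 1
  simpa only [one_smul, abs_one, one_mul, add_comm v] using this

theorem C1.sub_const {f : E → ℝ} {f' : E → E} {L : ℝ} (h : C1 f f' L) (c : ℝ) :
    C1 (fun y => f y - c) f' L := ⟨fun x => (h.der x).sub_const c, h.cont, h.bd⟩

theorem C1.inner (v : E) : C1 (fun y => ⟪v, y⟫) (fun _ => v) ‖v‖ :=
  ⟨fun x => (innerSL ℝ v).hasFDerivAt, continuous_const, fun _ => le_rfl⟩

theorem C1.one : C1 (fun _ : E => (1 : ℝ)) (fun _ => 0) 0 := by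
  refine ⟨fun x => (hasFDerivAt_const (1 : ℝ) x).congr_fderiv ?_, continuous_const, fun _ => by simp⟩
  ext v
  simp

variable [FiniteDimensional ℝ E] [MeasurableSpace E] [BorelSpace E] [NormedSpace ℝ X]

/-- The heat semigroup. -/
noncomputable def Q (t : ℝ) (F : E → X) (x : E) : X := ∫ g, F (x + √t • g) ∂stdGaussian E

omit [NormedSpace ℝ X] in
theorem Lin.int {F : E → X} (hF : Lin F) (x : E) (a : ℝ) :
    Integrable (fun g => F (x + a • g)) (stdGaussian E) := by
  obtain ⟨h1, M, hM⟩ := hF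
  have hM0 : 0 ≤ M := by simpa using (norm_nonneg _).trans (hM 0)
  refine int_of_lin (by fun_prop) (M * (1 + ‖x‖ + |a|)) fun g => (hM _).trans ?_
  rw [mul_assoc]
  refine mul_le_mul_of_nonneg_left ?_ hM0
  have := norm_add_le x (a • g)
  rw [norm_smul, Real.norm_eq_abs] at this
  nlinarith [norm_nonneg x, norm_nonneg g, abs_nonneg a]

theorem Q_add {F G : E → X} (hF : Lin F) (hG : Lin G) (t : ℝ) (x : E) :
    Q t (fun y => F y + G y) x = Q t F x + Q t G x := integral_add (hF.int _ _) (hG.int _ _)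

theorem Q_sub {F G : E → X} (hF : Lin F) (hG : Lin G) (t : ℝ) (x : E) :
    Q t (fun y => F y - G y) x = Q t F x - Q t G x := integral_sub (hF.int _ _) (hG.int _ _)

theorem Q_sum {ι : Type} (s : Finset ι) {F : ι → E → X} (hF : ∀ i ∈ s, Lin (F i)) (t : ℝ) (x : E) :
    Q t (fun y => ∑ i ∈ s, F i y) x = ∑ i ∈ s, Q t (F i) x :=
  integral_finsetSum s fun i hi => (hF i hi).int _ _

theorem Q_const_mul (c : ℝ) (F : E → ℝ) (t : ℝ) (x : E) :
    Q t (fun y => c * F y) x = c * Q t F x := integral_const_mul _ _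

theorem Q_mul_const (c : ℝ) (F : E → ℝ) (t : ℝ) (x : E) :
    Q t (fun y => F y * c) x = Q t F x * c := integral_mul_const _ _

theorem Q_const [CompleteSpace X] (c : X) (t : ℝ) (x : E) : Q t (fun _ => c) x = c := by
  simp [Q]

theorem Q_smul_const [CompleteSpace X] (F : E → ℝ) (c : X) (t : ℝ) (x : E) :
    Q t (fun y => F y • c) x = Q t F x • c := integral_smul_const _ _

theorem Q_mono {F G : E → ℝ} (hF : Lin F) (hG : Lin G) (h : ∀ y, F y ≤ G y) (t : ℝ) (x : E) :
    Q t F x ≤ Q t G x := integral_mono (hF.int _ _) (hG.int _ _) fun _ => h _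

theorem Q_nonneg {F : E → ℝ} (h : ∀ y, 0 ≤ F y) (t : ℝ) (x : E) : 0 ≤ Q t F x :=
  integral_nonneg fun _ => h _

theorem Q_pos {F : E → ℝ} (hF : Lin F) (h : ∀ y, 0 < F y) (t : ℝ) (x : E) : 0 < Q t F x := by
  refine (integral_pos_iff_support_of_nonneg (fun _ => (h _).le) (hF.int _ _)).2 ?_
  have : Function.support (fun g => F (x + √t • g)) = Set.univ :=
    Set.eq_univ_of_forall fun g => (h _).ne'
  simp [this]

theorem norm_Q_le (F : E → X) (t : ℝ) (x : E) : ‖Q t F x‖ ≤ Q t (fun y => ‖F y‖) x :=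
  norm_integral_le_integral_norm _

theorem norm_Q_le_const {F : E → X} {M : ℝ} (hM : ∀ y, ‖F y‖ ≤ M) (t : ℝ) (x : E) :
    ‖Q t F x‖ ≤ M := by
  simpa [Q] using norm_integral_le_of_norm_le_const (μ := stdGaussian E)
    (f := fun g => F (x + √t • g)) (ae_of_all _ fun g => hM _)

theorem Q_inner {F : E → E} (hF : Lin F) (v : E) (t : ℝ) (x : E) :
    Q t (fun y => ⟪F y, v⟫) x = ⟪Q t F x, v⟫ := by
  simp only [Q, real_inner_comm v]
  exact integral_inner (hF.int _ _) v

theorem Q_shift (F : E → X) (v : E) (t : ℝ) (x : E) :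
    Q t (fun y => F (y + v)) x = Q t F (x + v) := by
  simp only [Q, add_right_comm]

theorem Q_lin (v : E) (t : ℝ) (x : E) : Q t (fun y => ⟪v, y⟫) x = ⟪v, x⟫ := by
  simp only [Q, inner_add_right, real_inner_smul_right]
  rw [integral_add (integrable_const _), integral_const_mul, int_inner]
  · simp
  · simpa using ((C1.inner v).lin.int 0 1).const_mul √t

theorem Lin.Q {F : E → X} (hF : Lin F) (t : ℝ) : Lin (Q t F) := by
  obtain ⟨h1, M, hM⟩ := id hF
  have hM0 : 0 ≤ M := by simpa using (norm_nonneg _).trans (hM 0)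
  have hb : ∀ (x g : E) (R : ℝ), ‖x‖ ≤ R → ‖F (x + √t • g)‖ ≤ M * (1 + R + √t * ‖g‖) := by
    intro x g R hR
    refine (hM _).trans (mul_le_mul_of_nonneg_left ?_ hM0)
    have := norm_add_le x (√t • g)
    rw [norm_smul, Real.norm_eq_abs, abs_of_nonneg (sqrt_nonneg t)] at this
    linarith
  have hi : ∀ R : ℝ, Integrable (fun g : E => M * (1 + R + √t * ‖g‖)) (stdGaussian E) := fun R =>
    ((integrable_const _).add (int_norm.const_mul _)).const_mul M
  refine ⟨continuous_iff_continuousAt.2 fun x0 => ?_,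
    M * (1 + √t * ∫ g, ‖g‖ ∂stdGaussian E), fun x => ?_⟩
  · refine continuousAt_of_dominated (bound := fun g => M * (1 + (‖x0‖ + 1) + √t * ‖g‖))
      (Filter.Eventually.of_forall fun x => (hF.int _ _).aestronglyMeasurable) ?_ (hi _)
      (ae_of_all _ fun g => Continuous.continuousAt (by fun_prop))
    filter_upwards [Metric.ball_mem_nhds x0 one_pos] with x hx
    refine ae_of_all _ fun g => hb x g _ ?_
    rw [mem_ball_iff_norm] at hx
    linarith [norm_sub_norm_le x x0]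
  · refine (norm_integral_le_of_norm_le (hi ‖x‖) (ae_of_all _ fun g => hb x g _ le_rfl)).trans ?_
    rw [integral_const_mul, integral_add (integrable_const _) (int_norm.const_mul _),
      integral_const_mul, mul_assoc]
    refine mul_le_mul_of_nonneg_left ?_ hM0
    have : 0 ≤ √t * ∫ g, ‖g‖ ∂stdGaussian E :=
      mul_nonneg (sqrt_nonneg t) (integral_nonneg fun _ => norm_nonneg _)
    simp only [integral_const, probReal_univ, smul_eq_mul, one_mul]
    nlinarith [norm_nonneg x]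

theorem Q_Q [CompleteSpace X] {F : E → X} (hF : Lin F) {u v : ℝ} (hu : 0 ≤ u) (hv : 0 ≤ v)
    (x : E) : Q u (Q v F) x = Q (u + v) F x := by
  obtain ⟨θ, h1, h2⟩ : ∃ θ, √(u + v) * cos θ = √u ∧ √(u + v) * sin θ = √v := by
    refine ⟨Complex.arg ⟨√u, √v⟩, ?_, ?_⟩
    · have := Complex.norm_mul_cos_arg ⟨√u, √v⟩
      rwa [Complex.norm_eq_sqrt_sq_add_sq, sq_sqrt hu, sq_sqrt hv] at this
    · have := Complex.norm_mul_sin_arg ⟨√u, √v⟩
      rwa [Complex.norm_eq_sqrt_sq_add_sq, sq_sqrt hu, sq_sqrt hv] at this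
  obtain ⟨hc, M, hM⟩ := id hF
  have hM0 : 0 ≤ M := by simpa using (norm_nonneg _).trans (hM 0)
  have i1 : Integrable (fun p : E × E => F (x + √u • p.1 + √v • p.2))
      ((stdGaussian E).prod (stdGaussian E)) := by
    refine (int_quad.const_mul (M * (1 + ‖x‖ + √u + √v))).mono'
      (Continuous.aestronglyMeasurable (by fun_prop)) (ae_of_all _ fun p => (hM _).trans ?_)
    rw [mul_assoc]
    refine mul_le_mul_of_nonneg_left ?_ hM0
    have a1 := norm_add₃_le (a := x) (b := √u • p.1) (c := √v • p.2)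
    rw [norm_smul, norm_smul, Real.norm_eq_abs, Real.norm_eq_abs, abs_of_nonneg (sqrt_nonneg u),
      abs_of_nonneg (sqrt_nonneg v)] at a1
    have a2 : 1 + ‖p.1‖ + ‖p.2‖ ≤ (1 + ‖p.1‖ + ‖p.2‖) ^ 2 := by
      nlinarith [norm_nonneg p.1, norm_nonneg p.2]
    have a3 : 1 + ‖x + √u • p.1 + √v • p.2‖ ≤ (1 + ‖x‖ + √u + √v) * (1 + ‖p.1‖ + ‖p.2‖) := by
      have := norm_nonneg p.1
      have := norm_nonneg p.2
      have := norm_nonneg x
      have := sqrt_nonneg u
      have := sqrt_nonneg v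
      nlinarith [mul_nonneg (sqrt_nonneg u) (norm_nonneg p.2),
        mul_nonneg (sqrt_nonneg v) (norm_nonneg p.1), mul_nonneg (norm_nonneg x) (norm_nonneg p.1),
        mul_nonneg (norm_nonneg x) (norm_nonneg p.2)]
    refine a3.trans (mul_le_mul_of_nonneg_left a2 (by positivity))
  have e1 := int_rot (E := E) (F := fun p : E × E => F (x + √(u + v) • p.1)) (by fun_prop) θ
  simp only [smul_add, smul_smul, h1, h2, ← add_assoc] at e1
  rw [integral_fun_fst (fun y => F (x + √(u + v) • y)), integral_prod _ i1] at e1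
  simpa [Q] using e1

theorem C1.Q {f : E → ℝ} {f' : E → E} {L : ℝ} (h : C1 f f' L) (t : ℝ) :
    C1 (Q t f) (Q t f') L := by
  have hl : Lin f' := Lin.of_bdd h.cont h.bd
  refine ⟨fun x => ?_, (hl.Q t).1, fun x => norm_Q_le_const h.bd t x⟩
  have hc := h.cont
  have := hasFDerivAt_integral_of_dominated_of_fderiv_le (μ := stdGaussian E) (x₀ := x)
    (F := fun x g => f (x + √t • g)) (F' := fun x g => innerSL ℝ (f' (x + √t • g)))
    (bound := fun _ => L) (s := Set.univ) Filter.univ_mem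
    (Filter.Eventually.of_forall fun x => (h.lin.int _ _).aestronglyMeasurable) (h.lin.int _ _)
    (Continuous.aestronglyMeasurable (by fun_prop))
    (ae_of_all _ fun g x _ => by rw [innerSL_apply_norm]; exact h.bd _) (integrable_const L)
    (ae_of_all _ fun g x _ => (h.shift (√t • g)).der x)
  refine this.congr_fderiv ?_
  ext v
  rw [ContinuousLinearMap.integral_apply]
  · exact Q_inner hl v t x
  · refine (integrable_const L).mono' (Continuous.aestronglyMeasurable (by fun_prop))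
      (ae_of_all _ fun g => by rw [innerSL_apply_norm]; exact h.bd _)

theorem stein_Q {f ρ : E → ℝ} {f' ρ' : E → E} {L' M : ℝ} (hf : C1 f f' 1) (hρ : C1 ρ ρ' L')
    (hM : ∀ x, |ρ x| ≤ M) {u : ℝ} (hu : 0 ≤ u) (x z : E) :
    |Q u (fun y => f y * ρ y) x - Q u f (x + u • z) * Q u ρ x| ≤
      2 * u * Q u (fun y => ‖ρ' y - ρ y • z‖) x := by
  have h := stein (hf.affine x √u) (hρ.affine x √u) (fun _ => hM _) (√u • z)
  have e1 : ∀ g : E, x + √u • (g + √u • z) = x + u • z + √u • g := by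
    intro g
    rw [smul_add, smul_smul, mul_self_sqrt hu]
    abel
  have e2 : ∀ g : E, ‖√u • ρ' (x + √u • g) - ρ (x + √u • g) • √u • z‖ =
      √u * ‖ρ' (x + √u • g) - ρ (x + √u • g) • z‖ := by
    intro g
    rw [smul_comm, ← smul_sub, norm_smul, Real.norm_eq_abs, abs_of_nonneg (sqrt_nonneg u)]
  simp only [e1, e2, integral_const_mul, abs_of_nonneg (sqrt_nonneg u), mul_one] at h
  refine h.trans (le_of_eq ?_)
  rw [← mul_assoc, mul_assoc 2, mul_self_sqrt hu]
  rfl

theorem hasDerivAt_chi {u : ℝ} (hu : 0 < u) (t : ℝ) :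
    HasDerivAt (fun t => √(t ^ 2 + u)) (t / √(t ^ 2 + u)) t := by
  have h1 : HasDerivAt (fun t : ℝ => t ^ 2 + u) (2 * t) t := by
    simpa using (hasDerivAt_pow 2 t).add_const u
  have h2 := h1.sqrt (by positivity)
  convert h2 using 1
  field_simp

theorem abs_le_chi (u : ℝ) (hu : 0 < u) (t : ℝ) : |t| ≤ √(t ^ 2 + u) :=
  abs_le_sqrt (by linarith)

theorem C1.chi {f : E → ℝ} {f' : E → E} (hf : C1 f f' 1) {u : ℝ} (hu : 0 < u) :
    C1 (fun y => √(f y ^ 2 + u)) (fun y => (f y / √(f y ^ 2 + u)) • f' y) 1 := by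
  have := hf.comp_real (hasDerivAt_chi hu) (K := 1)
    (Continuous.div continuous_id (by fun_prop) fun t => (sqrt_pos.2 (by positivity)).ne') fun t => by
      rw [abs_div, abs_of_nonneg (sqrt_nonneg _), div_le_one (sqrt_pos.2 (by positivity))]
      exact abs_le_chi u hu t
  simpa only [mul_one] using this

theorem dev_zero {f : E → ℝ} {f' : E → E} (hf : C1 f f' 1) {u : ℝ} (hu : 0 < u) (x : E) :
    Q u (fun y => √((f y - Q u f x) ^ 2 + u)) x ≤ 3 * √u := by
  set c := Q u f x with hc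
  have hsu : 0 < √u := sqrt_pos.2 hu
  have hpos : ∀ t : ℝ, 0 < √(t ^ 2 + u) := fun t => sqrt_pos.2 (by positivity)
  have hge : ∀ t : ℝ, √u ≤ √(t ^ 2 + u) := fun t => sqrt_le_sqrt (by nlinarith [sq_nonneg t])
  have hd : ∀ t : ℝ, HasDerivAt (fun t => t / √(t ^ 2 + u)) (u / √(t ^ 2 + u) ^ 3) t := by
    intro t
    have h1 := (hasDerivAt_id' t).div (hasDerivAt_chi hu t) (hpos t).ne'
    have h2 := sq_sqrt (show 0 ≤ t ^ 2 + u by positivity)
    have h3 := hpos t
    refine h1.congr_deriv ?_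
    field_simp
    nlinarith
  have hρ := (hf.sub_const c).comp_real hd (K := 1 / √u)
    (Continuous.div continuous_const (by fun_prop) fun t => (pow_pos (hpos t) 3).ne') fun t => by
      rw [abs_of_nonneg (by have := hpos t; positivity), div_le_div_iff₀ (pow_pos (hpos t) 3) hsu,
        one_mul]
      calc u * √u = √u ^ 3 := by rw [pow_succ, sq_sqrt hu.le]
        _ ≤ _ := pow_le_pow_left₀ hsu.le (hge t) 3
  have hM : ∀ y, |(f y - c) / √((f y - c) ^ 2 + u)| ≤ 1 := fun y => by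
    rw [abs_div, abs_of_nonneg (sqrt_nonneg _), div_le_one (hpos _)]
    exact abs_le_chi u hu _
  have h := stein_Q hf hρ hM hu.le x 0
  simp only [smul_zero, add_zero, sub_zero, ← hc] at h
  have h2 : Q u (fun y => ‖(u / √((f y - c) ^ 2 + u) ^ 3) • f' y‖) x ≤ 1 / √u := by
    refine (le_abs_self _).trans ?_
    rw [← Real.norm_eq_abs]
    refine norm_Q_le_const (fun y => ?_) u x
    rw [norm_norm]
    simpa using hρ.bd y
  have h3 : 2 * u * (1 / √u) = 2 * √u := by
    field_simp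
    exact (sq_sqrt hu.le).symm
  have l1 : Lin fun y => f y * ((f y - c) / √((f y - c) ^ 2 + u)) := hf.lin.mul hρ.continuous hM
  have l2 : Lin fun y => c * ((f y - c) / √((f y - c) ^ 2 + u)) := hρ.lin.const_mul c
  have h4 : Q u (fun y => √((f y - c) ^ 2 + u)) x ≤ Q u (fun y =>
      (f y * ((f y - c) / √((f y - c) ^ 2 + u)) - c * ((f y - c) / √((f y - c) ^ 2 + u))) + √u) x := by
    refine Q_mono ((hf.sub_const c).chi hu).lin ((l1.sub l2).add (Lin.const _)) (fun y => ?_) u x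
    set t := f y - c with ht
    have a1 : f y * (t / √(t ^ 2 + u)) - c * (t / √(t ^ 2 + u)) = t ^ 2 / √(t ^ 2 + u) := by
      rw [← sub_mul, ← ht]; ring
    have a2 : √(t ^ 2 + u) = t ^ 2 / √(t ^ 2 + u) + u / √(t ^ 2 + u) := by
      rw [← add_div, eq_div_iff (hpos t).ne', mul_self_sqrt (by positivity)]
    have a3 : u / √(t ^ 2 + u) ≤ √u := by
      rw [div_le_iff₀ (hpos t)]
      calc u = √u * √u := (mul_self_sqrt hu.le).symm
        _ ≤ _ := mul_le_mul_of_nonneg_left (hge t) hsu.le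
    rw [a1]
    linarith
  rw [Q_add (l1.sub l2) (Lin.const _), Q_sub l1 l2, Q_const, Q_const_mul] at h4
  have h5 := (le_abs_self _).trans h
  have h6 : 2 * u * Q u (fun y => ‖(u / √((f y - c) ^ 2 + u) ^ 3) • f' y‖) x ≤
    2 * u * (1 / √u) := by gcongr
  linarith

/-- Deviation estimate under a density. -/
theorem dev {f ρ : E → ℝ} {f' ρ' : E → E} {L' M : ℝ} (hf : C1 f f' 1) (hρ : C1 ρ ρ' L')
    (hM : ∀ x, |ρ x| ≤ M) (h0 : ∀ x, 0 ≤ ρ x) {u : ℝ} (hu : 0 < u) (x z : E) :
    Q u (fun y => |f y - Q u f (x + u • z)| * ρ y) x ≤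
      3 * √u * Q u ρ x + 2 * u * Q u (fun y => ‖ρ' y - ρ y • z‖) x := by
  set c := Q u f (x + u • z) with hc
  have h1 := (hf.sub_const c).chi hu
  have h2 := (le_abs_self _).trans (stein_Q h1 hρ hM hu.le x z)
  have h3 := dev_zero hf hu (x + u • z)
  rw [← hc] at h3
  have h4 : Q u (fun y => |f y - c| * ρ y) x ≤ Q u (fun y => √((f y - c) ^ 2 + u) * ρ y) x :=
    Q_mono ((hf.sub_const c).lin.abs.mul hρ.continuous hM) (h1.lin.mul hρ.continuous hM)
      (fun y => mul_le_mul_of_nonneg_right (abs_le_chi u hu _) (h0 y)) u x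
  have h5 := mul_le_mul_of_nonneg_right h3 (Q_nonneg h0 u x)
  linarith

end Pool.Agent.P.MP_81d17b_pr.LR
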