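import Pool.Agent.P.MP_81d17b_pr.LR.Lind

namespace Pool.Agent.P.MP_81d17b_pr.LR

open Real Finset Function

variable {ι S : Type} [Fintype ι] [DecidableEq ι]

theorem sum_exp_le (P : Finset ι) (w : ι → ℝ) (hw : ∀ e, w e = 1 ∨ w e = -1) (l : ℝ) :
    ∑ ε : ι → Bool, exp (l * ∑ e ∈ P, sg (ε e) * w e) ≤
      Fintype.card (ι → Bool) * exp (l ^ 2 / 2 * P.card) := by
  have h1 : ∀ ε : ι → Bool, exp (l * ∑ e ∈ P, sg (ε e) * w e) =
      ∏ e, exp (if e ∈ P then l * (sg (ε e) * w e) else 0) := by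
    intro ε
    rw [← exp_sum, sum_ite_mem, univ_inter, mul_sum]
  simp only [h1]
  have h2 := prod_univ_sum (fun _ : ι => (univ : Finset Bool))
    fun e b => exp (if e ∈ P then l * (sg b * w e) else 0)
  rw [Fintype.piFinset_univ] at h2
  rw [← h2]
  have h3 : (Fintype.card (ι → Bool) : ℝ) * exp (l ^ 2 / 2 * P.card) =
      ∏ e : ι, 2 * exp (if e ∈ P then l ^ 2 / 2 else 0) := by
    rw [prod_mul_distrib, ← exp_sum, sum_ite_mem, univ_inter]
    simp [mul_comm]
  rw [h3]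
  refine prod_le_prod (fun e _ => sum_nonneg fun _ _ => (exp_pos _).le) fun e _ => ?_
  rw [Fintype.sum_bool]
  split_ifs with he
  · have h4 := cosh_le_exp_half_sq l
    rw [cosh_eq] at h4
    rcases hw e with h5 | h5 <;> simp only [h5, sg] <;> norm_num <;> linarith
  · norm_num

variable [Fintype S] [Nonempty S] {s : ι → S → ℝ}

theorem edge_sum (hs : ∀ e σ, s e σ = 1 ∨ s e σ = -1) {A : ι → ℝ} {e : ι} {t : ℝ} (ht : 0 < t)
    (hA : t ≤ A e) :
    ∑ ε : ι → Bool, (1 - (∑ σ, gw s (fun i => A i * sg (ε i)) σ * s e σ) ^ 2) ≤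
      2 * (1 + 1 / t) * ∑ ε : ι → Bool, sg (ε e) * ∑ σ, gw s (fun i => A i * sg (ε i)) σ * s e σ := by
  set M : (ι → Bool) → ℝ := fun ε => ∑ σ, gw s (fun i => A i * sg (ε i)) σ * s e σ with hM
  have hA0 : 0 < A e := ht.trans_le hA
  have key : ∀ ε : ι → Bool, (1 - M ε ^ 2) + (1 - M (update ε e (!ε e)) ^ 2) ≤ 2 * (1 + 1 / t) *
      (sg (ε e) * M ε + sg (update ε e (!ε e) e) * M (update ε e (!ε e))) := by
    intro ε
    set h : ι → ℝ := fun i => A i * sg (ε i) with hh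
    have e1 : h = update h e (A e * sg (ε e)) := by
      rw [eq_comm, update_eq_self_iff]
    have e2 : (fun i => A i * sg (update ε e (!ε e) i)) = update h e (-(A e * sg (ε e))) := by
      funext i
      by_cases hi : i = e
      · subst hi
        simp [sg_not]
      · simp [update_of_ne hi, hh]
    have e3 : M ε = ∑ σ, gw s (update h e (A e * sg (ε e))) σ * s e σ := by
      rw [← e1]
    have e4 : M (update ε e (!ε e)) = ∑ σ, gw s (update h e (-(A e * sg (ε e)))) σ * s e σ := by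
      rw [← e2]
    have k1 := edge_bound hs h e hA0
    have m1 := mean_abs hs (update h e (A e)) e
    have m2 := mean_abs hs (update h e (-A e)) e
    rw [← sq_le_one_iff_abs_le_one] at m1 m2
    have k2 : 0 ≤ ∑ σ, gw s (update h e (A e)) σ * s e σ -
        ∑ σ, gw s (update h e (-A e)) σ * s e σ :=
      nonneg_of_mul_nonneg_right (a := 2 * (1 + 1 / A e)) (by linarith) (by positivity)
    have k3 : 2 * (1 + 1 / A e) ≤ 2 * (1 + 1 / t) := by gcongr
    have k4 := k1.trans (mul_le_mul_of_nonneg_right k3 k2)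
    rw [e3, e4, update_self, sg_not]
    rcases sg_cases (ε e) with h2 | h2
    · simp only [h2, mul_one, one_mul]
      linarith
    · simp only [h2, mul_neg, mul_one, neg_neg, one_mul]
      linarith
  have h3 := sum_le_sum fun ε (_ : ε ∈ univ) => key ε
  rw [sum_add_distrib, ← mul_sum, sum_add_distrib, sum_flip e fun ε => 1 - M ε ^ 2,
    sum_flip e fun ε => sg (ε e) * M ε] at h3
  linarith

theorem init_abs (hs : ∀ e σ, s e σ = 1 ∨ s e σ = -1) {A : ι → ℝ} (P : Finset ι) (T : Finset S)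
    (hT : ∀ σ, ∃ τ ∈ T, ∀ e ∈ P, s e σ = s e τ) {t l : ℝ} (ht : 0 < t) (hA : ∀ e ∈ P, t ≤ A e)
    (hl : 0 < l) :
    ∑ ε : ι → Bool, ∑ e ∈ P, (1 - (∑ σ, gw s (fun i => A i * sg (ε i)) σ * s e σ) ^ 2) ≤
      Fintype.card (ι → Bool) * (2 * (1 + 1 / t) * (log T.card / l + l / 2 * P.card)) := by
  rw [sum_comm]
  refine (sum_le_sum fun e he => edge_sum hs ht (hA e he)).trans ?_
  rw [← mul_sum, sum_comm, mul_left_comm]
  refine mul_le_mul_of_nonneg_left ?_ (by positivity)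
  have hT0 : (0 : ℝ) < T.card := by
    obtain ⟨τ, hτ, _⟩ := hT (Classical.arbitrary S)
    exact_mod_cast card_pos.2 ⟨τ, hτ⟩
  set y := T.card * exp (l ^ 2 / 2 * P.card) with hy
  have hy0 : 0 < y := by positivity
  have key : ∀ ε : ι → Bool,
      l * ∑ e ∈ P, sg (ε e) * ∑ σ, gw s (fun i => A i * sg (ε i)) σ * s e σ ≤
        log y - 1 + (∑ τ ∈ T, exp (l * ∑ e ∈ P, sg (ε e) * s e τ)) / y := by
    intro ε
    set h : ι → ℝ := fun i => A i * sg (ε i)
    have e1 : l * ∑ e ∈ P, sg (ε e) * ∑ σ, gw s h σ * s e σ =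
        ∑ σ, gw s h σ * (l * ∑ e ∈ P, sg (ε e) * s e σ) := by
      simp only [mul_sum]
      rw [sum_comm]
      exact sum_congr rfl fun σ _ => sum_congr rfl fun e _ => by ring
    have e2 : ∀ c : ℝ, ∑ σ, gw s h σ * c = c := fun c => by rw [← sum_mul, gw_sum, one_mul]
    rw [e1, ← e2 (log y - 1 + _)]
    refine sum_le_sum fun σ _ => mul_le_mul_of_nonneg_left ?_ (gw_pos h σ).le
    obtain ⟨τ, hτ, hP⟩ := hT σ
    rw [sum_congr rfl fun e he => by rw [hP e he]]
    have h1 := add_one_le_exp (l * ∑ e ∈ P, sg (ε e) * s e τ - log y)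
    rw [exp_sub, exp_log hy0] at h1
    have h2 : exp (l * ∑ e ∈ P, sg (ε e) * s e τ) / y ≤
        (∑ τ ∈ T, exp (l * ∑ e ∈ P, sg (ε e) * s e τ)) / y :=
      div_le_div_of_nonneg_right (single_le_sum
        (f := fun τ => exp (l * ∑ e ∈ P, sg (ε e) * s e τ)) (fun _ _ => (exp_pos _).le) hτ) hy0.le
    linarith
  have h3 := sum_le_sum fun ε (_ : ε ∈ univ) => key ε
  rw [← mul_sum, sum_add_distrib, ← sum_div, sum_comm (t := T), sum_const, card_univ,
    nsmul_eq_mul] at h3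
  have h4 := sum_le_sum fun τ (_ : τ ∈ T) => sum_exp_le P (fun e => s e τ) (fun e => hs e τ) l
  rw [sum_const, nsmul_eq_mul, mul_left_comm, ← hy] at h4
  have h5 := div_le_div_of_nonneg_right h4 hy0.le
  rw [mul_div_cancel_right₀ _ hy0.ne'] at h5
  have h6 : log y = log T.card + l ^ 2 / 2 * P.card := by
    rw [hy, log_mul hT0.ne' (exp_pos _).ne', log_exp]
  refine le_of_mul_le_mul_left ?_ hl
  have h7 : l * (Fintype.card (ι → Bool) * (log T.card / l + l / 2 * P.card)) =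
      Fintype.card (ι → Bool) * log y := by
    rw [h6]
    field_simp
  rw [h7]
  linarith

end Pool.Agent.P.MP_81d17b_pr.LR
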