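import Pool.Agent.P.MP_81d17b_pr.LR.Fv3
import Pool.Agent.P.MP_81d17b_pr.Gam

namespace Pool.Agent.P.MP_81d17b_pr.LR

open MeasureTheory ProbabilityTheory Real Finset Function Filter Topology

theorem summable_lattice {d : ℕ} {s : ℝ} (h : (d : ℝ) < s) :
    Summable fun v : Fin d → ℤ => ‖v‖ ^ (-s) := by
  let L := Submodule.span ℤ (Set.range (Pi.basisFun ℝ (Fin d)))
  have h1 := ZLattice.summable_norm_rpow L (-s) (by
    rw [ZLattice.rank ℝ L]
    simpa using h)
  let f : (Fin d → ℤ) → L := fun v => ⟨fun i => (v i : ℝ), by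
    rw [(Pi.basisFun ℝ (Fin d)).mem_span_iff_repr_mem ℤ]
    exact fun i => ⟨v i, by simp⟩⟩
  have hf : Injective f := fun v w hvw => funext fun i => by
    exact Int.cast_injective (α := ℝ) (congrFun (congrArg Subtype.val hvw) i)
  refine (h1.comp_injective hf).congr fun v => ?_
  simp only [comp_apply]
  congr 1

theorem lawp_ne {p : ℝ} : lawp p {0}ᶜ ≤ ENNReal.ofReal p := by
  simp only [lawp, Measure.coe_add, Measure.coe_smul, Pi.add_apply, Pi.smul_apply, smul_eq_mul]
  rw [Measure.dirac_apply' _ (measurableSet_singleton _).compl, Set.indicator_of_notMem (by simp),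
    mul_zero, zero_add]
  exact mul_le_of_le_one_right' prob_le_one

variable {Ω : Type*} [MeasurableSpace Ω] {P : Measure Ω}

theorem int_bd [IsFiniteMeasure P] {F : Ω → ℝ} (hF : Measurable F) {M : ℝ} (hb : ∀ x, |F x| ≤ M) :
    Integrable F P :=
  (integrable_const M).mono' hF.aestronglyMeasurable (ae_of_all _ hb)

theorem ae_locfin {d : ℕ} {s C : ℝ} (h : (d : ℝ) < s) {p : (Fin d → ℤ) → ℝ} (hp0 : ∀ v, 0 ≤ p v)
    (hp : ∀ v, v ≠ 0 → p v ≤ C * ‖v‖ ^ (-s)) {J : Sym2 (Fin d → ℤ) → Ω → ℝ}
    (hJ : ∀ e, Measurable (J e)) (hl : ∀ x y, P.map (J s(x, y)) = lawp (p (x - y))) :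
    ∀ᵐ ω ∂P, ∀ x, {y | J s(x, y) ω ≠ 0}.Finite := by
  refine ae_all_iff.2 fun x => ?_
  have h1 : Summable p := by
    refine Summable.of_norm_bounded_eventually ((summable_lattice h).mul_left C) ?_
    refine (Set.finite_singleton 0).subset fun v hv => ?_
    by_contra h0
    exact hv (by simpa [abs_of_nonneg (hp0 v)] using hp v h0)
  have h2 : Summable fun y => p (x - y) := h1.comp_injective sub_right_injective
  refine ae_finite_setOfPred_mem (s := fun y => {ω | J s(x, y) ω ≠ 0}) (ne_top_of_le_ne_top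
    (b := ∑' y, ENNReal.ofReal (p (x - y))) ?_ (ENNReal.tsum_le_tsum fun y => ?_))
  · rw [← ENNReal.ofReal_tsum_of_nonneg (fun _ => hp0 _) h2]
    exact ENNReal.ofReal_ne_top
  · refine le_trans (le_of_eq ?_) lawp_ne
    rw [← hl, Measure.map_apply (hJ _) (measurableSet_singleton _).compl]
    rfl

theorem fatou1 [IsProbabilityMeasure P] {f : ℕ → Ω → ℝ} {g : Ω → ℝ} (hf : ∀ m, Measurable (f m))
    (hg : Measurable g) (hf1 : ∀ m ω, |f m ω| ≤ 1) (hg1 : ∀ ω, |g ω| ≤ 1)
    (h : ∀ᵐ ω ∂P, ∀ᶠ m in atTop, f m ω ≤ g ω) {ε : ℝ} (hε : 0 < ε) :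
    ∀ᶠ m in atTop, ∫ ω, f m ω ∂P ≤ ∫ ω, g ω ∂P + ε := by
  have hb : ∀ m ω, |max (f m ω - g ω) 0| ≤ 2 := fun m ω => by
    rw [abs_of_nonneg (le_max_right _ _)]
    exact max_le (by linarith [(abs_le.1 (hf1 m ω)).2, (abs_le.1 (hg1 ω)).1]) zero_le_two
  have hm : ∀ m, Measurable fun ω => max (f m ω - g ω) 0 := fun m =>
    ((hf m).sub hg).max measurable_const
  have h1 := tendsto_integral_of_dominated_convergence (μ := P)
    (F := fun m ω => max (f m ω - g ω) 0) (f := fun _ => 0) (fun _ => 2)
    (fun m => (hm m).aestronglyMeasurable) (integrable_const _) (fun m => ae_of_all _ (hb m)) (by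
      filter_upwards [h] with ω hω
      refine tendsto_const_nhds.congr' ?_
      filter_upwards [hω] with m hm
      exact (max_eq_right (by linarith)).symm)
  rw [integral_zero] at h1
  filter_upwards [h1.eventually (ge_mem_nhds hε)] with m h2
  have h3 := integral_mono (μ := P) ((int_bd (hf m) (hf1 m)).sub (int_bd hg hg1))
    (int_bd (hm m) (hb m)) fun ω => le_max_left _ _
  simp only [Pi.sub_apply] at h3
  rw [integral_sub (int_bd (hf m) (hf1 m)) (int_bd hg hg1)] at h3
  linarith

theorem fatou2 [IsProbabilityMeasure P] {f : ℕ → ℕ → Ω → ℝ} (hf : ∀ n m, Measurable (f n m))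
    (hf1 : ∀ n m ω, |f n m ω| ≤ 1) {a : ℝ} (ha : |a| ≤ 1)
    (h : ∀ᵐ ω ∂P, ∀ᶠ n in atTop, ∀ᶠ m in atTop, f n m ω ≤ a) {ε : ℝ} (hε : 0 < ε) :
    ∀ᶠ n in atTop, ∀ᶠ m in atTop, ∫ ω, f n m ω ∂P ≤ a + 2 * ε := by
  classical
  let g : ℕ → Ω → ℝ := fun n ω => if ∀ᶠ m in atTop, f n m ω ≤ a then a else 1
  have hg : ∀ n, Measurable (g n) := fun n => by
    refine Measurable.ite ?_ measurable_const measurable_const
    simp only [eventually_atTop]
    exact measurableSet_setOfPred.2 (Measurable.exists fun _ => Measurable.forall fun m =>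
      measurable_const.imp (measurableSet_setOfPred.1 (measurableSet_le (hf n m) measurable_const)))
  have hg1 : ∀ n ω, |g n ω| ≤ 1 := fun n ω => by
    simp only [g]
    split_ifs
    · exact ha
    · simp
  have h1 := fatou1 (P := P) (g := fun _ => a) hg measurable_const hg1 (fun _ => ha) (by
    filter_upwards [h] with ω hω
    filter_upwards [hω] with n hn
    exact (if_pos hn).le) hε
  filter_upwards [h1] with n hn
  have h2 := fatou1 (P := P) (hf n) (hg n) (hf1 n) (hg1 n) (ae_of_all _ fun ω => by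
    simp only [g]
    split_ifs with h3
    · exact h3
    · exact Eventually.of_forall fun m => (abs_le.1 (hf1 n m ω)).2) hε
  filter_upwards [h2] with m hm
  simp only [integral_const, probReal_univ, smul_eq_mul, one_mul] at hn
  linarith

theorem zero_one {ι : Type} {J : ι → Ω → ℝ} (hJ : ∀ e, Measurable (J e)) (hi : iIndepFun J P)
    {U : Set (ι → ℝ)} (hU : MeasurableSet U) [DecidableEq ι]
    (hinv : ∀ K ∈ U, ∀ e t, update K e t ∈ U) :
    (∀ᵐ ω ∂P, (fun e => J e ω) ∈ U) ∨ ∀ᵐ ω ∂P, (fun e => J e ω) ∉ U := by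
  have := hi.isProbabilityMeasure
  have h1 : ∀ (F : Finset ι) (K : ι → ℝ), K ∈ U ↔ (fun e => if e ∈ F then 0 else K e) ∈ U := by
    intro F K
    induction F using Finset.induction_on with
    | empty => simp
    | insert a F ha ih =>
      rw [ih]
      constructor
      · intro h
        convert hinv _ h a 0 using 1
        funext e
        by_cases he : e = a
        · simp [he]
        · simp [he]
      · intro h
        convert hinv _ h a (K a) using 1
        funext e
        by_cases he : e = a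
        · simp [he, ha]
        · simp [he]
  have hm : Measurable fun ω e => J e ω := measurable_pi_iff.2 hJ
  have h2 := measure_zero_or_one_of_measurableSet_limsup (μ := P)
    (s := fun e => MeasurableSpace.comap (J e) inferInstance) (f := cofinite) (p := Set.Finite)
    (ns := fun F : Finset ι => (F : Set ι)) (fun e => (hJ e).comap_le)
    ((iIndepFun_iff_iIndep _ _ _).1 hi) (fun t ht => by simpa using ht)
    (fun F G => ⟨F ∪ G, by simp, by simp⟩) (fun F => F.finite_toSet)
    (fun e => ⟨{e}, by simp⟩) (t := (fun ω e => J e ω) ⁻¹' U) (by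
      rw [limsup_eq_iInf_iSup]
      refine MeasurableSpace.measurableSet_iInf.2 fun t =>
        MeasurableSpace.measurableSet_iInf.2 fun ht => ?_
      have h3 : (fun ω e => J e ω) ⁻¹' U =
          (fun ω e => if e ∈ (mem_cofinite.1 ht).toFinset then 0 else J e ω) ⁻¹' U :=
        Set.ext fun ω => h1 _ _
      rw [h3]
      have h4 : Measurable[⨆ e ∈ t, MeasurableSpace.comap (J e) inferInstance]
          fun ω e => if e ∈ (mem_cofinite.1 ht).toFinset then 0 else J e ω := by
        refine (@measurable_pi_iff _ _ _ (_) _ _).2 fun e => ?_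
        split_ifs with he
        · exact measurable_const
        · exact (comap_measurable (J e)).mono (le_iSup₂ (f := fun e (_ : e ∈ t) =>
            MeasurableSpace.comap (J e) inferInstance) e (by simpa using he)) le_rfl
      exact h4 hU)
  rcases h2 with h2 | h2
  · exact Or.inr (measure_eq_zero_iff_ae_notMem.1 h2)
  · exact Or.inl ((mem_ae_iff_prob_eq_one (hm hU)).2 h2)

end Pool.Agent.P.MP_81d17b_pr.LR
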