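import Pool.Agent.P.MP_81d17b_pr.LR.Iv1

namespace Pool.Agent.P.MP_81d17b_pr.LR

open MeasureTheory ProbabilityTheory Real Finset Function Filter Topology

variable {d : ℕ}

/-- A basic cylinder set. -/
def cy (T : Finset (Fin d → ℤ)) (ζ : (Fin d → ℤ) → Bool) : Set ((Fin d → ℤ) → Bool) :=
  {σ | ∀ x ∈ T, σ x = ζ x}

/-- The basic cylinder sets based in `Δ`. -/
def cys (Δ : Set (Fin d → ℤ)) : Set (Set ((Fin d → ℤ) → Bool)) :=
  {s | ∃ (T : Finset (Fin d → ℤ)) (ζ : (Fin d → ℤ) → Bool), (T : Set (Fin d → ℤ)) ⊆ Δ ∧ s = cy T ζ}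

theorem pi_cys (Δ : Set (Fin d → ℤ)) : IsPiSystem (cys Δ) := by
  rintro _ ⟨T, ζ, hT, rfl⟩ _ ⟨T', ζ', hT', rfl⟩ ⟨σ, h1, h2⟩
  refine ⟨T ∪ T', σ, by rw [Finset.coe_union]; exact Set.union_subset hT hT', ?_⟩
  ext ρ
  simp only [cy, Set.mem_inter_iff, Set.mem_ofPred_eq, Finset.mem_union] at h1 h2 ⊢
  constructor
  · rintro ⟨a, b⟩ x (hx | hx)
    · rw [a x hx, h1 x hx]
    · rw [b x hx, h2 x hx]
  · intro h
    exact ⟨fun x hx => by rw [h x (Or.inl hx), h1 x hx],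
      fun x hx => by rw [h x (Or.inr hx), h2 x hx]⟩

theorem meas_cy {Δ : Set (Fin d → ℤ)} {T : Finset (Fin d → ℤ)} (hT : (T : Set (Fin d → ℤ)) ⊆ Δ)
    (ζ : (Fin d → ℤ) → Bool) : MeasurableSet[cylinderEvents Δ] (cy T ζ) := by
  have : cy T ζ = ⋂ x ∈ T, (fun σ : (Fin d → ℤ) → Bool => σ x) ⁻¹' {ζ x} := by
    ext σ; simp [cy]
  rw [this]
  exact Finset.measurableSet_biInter T fun x hx =>
    measurable_cylinderEvent_apply (X := fun _ : Fin d → ℤ => Bool) (hT hx)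
      (measurableSet_singleton _)

theorem cyl_eq (Δ : Set (Fin d → ℤ)) :
    cylinderEvents (X := fun _ : Fin d → ℤ => Bool) Δ = MeasurableSpace.generateFrom (cys Δ) := by
  apply le_antisymm
  · refine iSup₂_le fun x hx => ?_
    rw [← measurable_iff_comap_le]
    refine @measurable_to_countable' _ _ _ _ (MeasurableSpace.generateFrom (cys Δ)) _ fun b => ?_
    refine MeasurableSpace.measurableSet_generateFrom ⟨{x}, fun _ => b, by simpa using hx, ?_⟩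
    ext σ; simp [cy]
  · refine MeasurableSpace.generateFrom_le ?_
    rintro _ ⟨T, ζ, hT, rfl⟩
    exact meas_cy hT ζ

variable {S T : Finset (Fin d → ℤ)} {F G : ((Fin d → ℤ) → Bool) → ℝ}

theorem dep_comp (h : Dep S F) : F = (fun η : S → Bool => F (glue S η fun _ => true)) ∘
    fun (σ : (Fin d → ℤ) → Bool) (x : S) => σ x := by
  funext σ
  exact h _ _ fun x hx => (glue_of_mem (fun x : S => σ x) _ hx).symm

theorem dep_meas (h : Dep S F) {Δ : Set (Fin d → ℤ)} (hS : (S : Set (Fin d → ℤ)) ⊆ Δ) :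
    Measurable[cylinderEvents Δ] F := by
  rw [dep_comp h]
  refine (measurable_of_finite _).comp ?_
  rw [@measurable_pi_iff]
  exact fun x => measurable_cylinderEvent_apply (X := fun _ : Fin d → ℤ => Bool) (hS x.2)

theorem dep_cont (h : Dep S F) : Continuous F := by
  rw [dep_comp h]
  exact continuous_of_discreteTopology.comp (continuous_pi fun x => continuous_apply _)

theorem dep_int (h : Dep S F) (μ0 : Measure ((Fin d → ℤ) → Bool)) [IsFiniteMeasure μ0] :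
    Integrable F μ0 :=
  (BoundedContinuousFunction.mkOfCompact ⟨F, dep_cont h⟩).integrable μ0

theorem dep_mul (hF : Dep S F) (hG : Dep T G) : Dep (S ∪ T) fun σ => F σ * G σ := by
  intro σ σ' h
  simp only
  rw [hF σ σ' fun x hx => h x (Finset.mem_union_left _ hx),
    hG σ σ' fun x hx => h x (Finset.mem_union_right _ hx)]

theorem dep_cy (T : Finset (Fin d → ℤ)) (ζ : (Fin d → ℤ) → Bool) :
    Dep T ((cy T ζ).indicator fun _ => (1 : ℝ)) := by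
  intro σ σ' h
  have : σ ∈ cy T ζ ↔ σ' ∈ cy T ζ := forall₂_congr fun x hx => by rw [h x hx]
  by_cases h1 : σ ∈ cy T ζ
  · rw [Set.indicator_of_mem h1, Set.indicator_of_mem (this.1 h1)]
  · rw [Set.indicator_of_notMem h1, Set.indicator_of_notMem fun h2 => h1 (this.2 h2)]

/-- The indicator that the spins in `Λ` equal `η`. -/
noncomputable def idc (Λ : Finset (Fin d → ℤ)) (η : Λ → Bool) : ((Fin d → ℤ) → Bool) → ℝ :=
  Set.indicator {σ | ∀ x : Λ, σ x = η x} fun _ => (1 : ℝ)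

theorem dep_idc (Λ : Finset (Fin d → ℤ)) (η : Λ → Bool) : Dep Λ (idc Λ η) := by
  intro σ σ' h
  have : (∀ x : Λ, σ x = η x) ↔ ∀ x : Λ, σ' x = η x := forall_congr' fun x => by rw [h x x.2]
  simp only [idc, Set.indicator_apply, Set.mem_ofPred_eq, this]

theorem idc_glue (Λ : Finset (Fin d → ℤ)) (η ζ : Λ → Bool) (τ : (Fin d → ℤ) → Bool) :
    idc Λ η (glue Λ ζ τ) = if ζ = η then 1 else 0 := by
  have : (∀ x : Λ, glue Λ ζ τ x = η x) ↔ ζ = η := by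
    rw [funext_iff]
    exact forall_congr' fun x => by rw [glue_of_mem _ _ x.2]
  simp only [idc, Set.indicator_apply, Set.mem_ofPred_eq, this]

/-- The Boltzmann weight of the volume `Λ`. -/
noncomputable def wt (β : ℝ) (K : Sym2 (Fin d → ℤ) → ℝ) (Λ : Finset (Fin d → ℤ))
    (σ : (Fin d → ℤ) → Bool) : ℝ := exp (β * ham K Λ σ)

/-- The Boltzmann weight of the pairs inside `Γ`. -/
noncomputable def wf (β : ℝ) (K : Sym2 (Fin d → ℤ) → ℝ) (Γ : Finset (Fin d → ℤ))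
    (σ : (Fin d → ℤ) → Bool) : ℝ := exp (β * ∑ e ∈ Γ.sym2, K e * sp e σ)

variable {β : ℝ} {K : Sym2 (Fin d → ℤ) → ℝ}

theorem wt_pos (Λ : Finset (Fin d → ℤ)) (σ : (Fin d → ℤ) → Bool) : 0 < wt β K Λ σ := exp_pos _

theorem wf_pos (Λ : Finset (Fin d → ℤ)) (σ : (Fin d → ℤ) → Bool) : 0 < wf β K Λ σ := exp_pos _

theorem kern_eq (Λ : Finset (Fin d → ℤ)) (τ : (Fin d → ℤ) → Bool) (η : Λ → Bool) :
    kern β K Λ τ η = gam (wt β K Λ) Λ (idc Λ η) τ := by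
  rw [gam_eq_glue]
  simp only [idc_glue, mul_ite, mul_one, mul_zero, Finset.sum_ite_eq', Finset.mem_univ, if_true]
  rfl

theorem sp_congr {X : Type} {e : Sym2 X} {σ τ : X → Bool} (h : ∀ x ∈ e, σ x = τ x) :
    sp e σ = sp e τ := by
  induction e using Sym2.ind with
  | h x y => rw [sp_mk, sp_mk, h x (by simp), h y (by simp)]

theorem exists_edges (hK : ∀ x, {y | K s(x, y) ≠ 0}.Finite) (Λ : Finset (Fin d → ℤ)) :
    ∃ (Γ : Finset (Fin d → ℤ)) (E : Finset (Sym2 (Fin d → ℤ))), E ⊆ Γ.sym2 ∧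
      (∀ e, e ∉ E → e.IsDiag ∨ (∀ x ∈ e, x ∉ Λ) ∨ K e = 0) ∧
      ∀ σ, ham K Λ σ = ∑ e ∈ E, K e * sp e σ := by
  classical
  let Γ := Λ ∪ Λ.biUnion fun x => (hK x).toFinset
  refine ⟨Γ, Γ.sym2.filter fun e => ¬e.IsDiag ∧ ∃ x ∈ Λ, x ∈ e, filter_subset _ _, ?_, ?_⟩
  all_goals
    have key : ∀ e : Sym2 (Fin d → ℤ), (∃ x ∈ Λ, x ∈ e) → K e ≠ 0 → e ∈ Γ.sym2 := by
      rintro e ⟨x, hx, he⟩ h
      obtain ⟨y, rfl⟩ := Sym2.mem_iff_exists.1 he
      exact mk_mem_sym2_iff.2 ⟨mem_union_left _ hx,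
        mem_union_right _ (mem_biUnion.2 ⟨x, hx, (Set.Finite.mem_toFinset _).2 h⟩)⟩
  · intro e he
    by_contra h
    push Not at h
    obtain ⟨h1, ⟨x, h2, h3⟩, h4⟩ := h
    exact he (mem_filter.2 ⟨key e ⟨x, h3, h2⟩ h4, h1, x, h3, h2⟩)
  · intro σ
    refine finsum_mem_eq_sum_of_inter_support_eq _ (Set.ext fun e => ?_)
    simp only [Set.mem_inter_iff, Set.mem_ofPred_eq, mem_support, coe_filter]
    exact ⟨fun h => ⟨⟨key e h.1.2 (left_ne_zero_of_mul h.2), h.1⟩, h.2⟩, fun h => ⟨h.1.2, h.2⟩⟩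

theorem ev_gam (hK : ∀ x, {y | K s(x, y) ≠ 0}.Finite) (Q : Finset (Fin d → ℤ)) :
    ∀ᶠ Γ in atTop, ∀ Λ ⊆ Q, ∀ f τ, gam (wf β K Γ) Λ f τ = gam (wt β K Q) Λ f τ := by
  obtain ⟨Γ0, E, h1, h2, h3⟩ := exists_edges hK Q
  filter_upwards [eventually_ge_atTop Γ0] with Γ hΓ Λ hΛ f τ
  refine gam_weight (C := fun σ => exp (β * ∑ e ∈ Γ.sym2 \ E, K e * sp e σ)) (exp_pos _).ne'
    (fun σ hσ => ?_) f
  rw [wf, wt, h3, ← exp_add, ← mul_add, ← sum_sdiff (h1.trans (sym2_mono hΓ))]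
  congr 3
  refine sum_congr rfl fun e he => ?_
  rcases h2 e (mem_sdiff.1 he).2 with h | h | h
  · induction e using Sym2.ind with
    | h x y =>
      rw [Sym2.mk_isDiag_iff.1 h, sp_mk, sp_mk, sg_sq, sg_sq]
  · rw [sp_congr fun x hx => mem_confs.1 hσ x fun h4 => h x hx (hΛ h4)]
  · rw [h, zero_mul, zero_mul]

theorem gam_cons (hK : ∀ x, {y | K s(x, y) ≠ 0}.Finite) {Λ Q : Finset (Fin d → ℤ)} (h : Λ ⊆ Q)
    (f : ((Fin d → ℤ) → Bool) → ℝ) (τ : (Fin d → ℤ) → Bool) :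
    gam (wt β K Q) Λ f τ = gam (wt β K Λ) Λ f τ := by
  obtain ⟨Γ, h1, h2⟩ := ((ev_gam (β := β) hK Q).and (ev_gam (β := β) hK Λ)).exists
  rw [← h1 Λ h, h2 Λ subset_rfl]

theorem dep_gam (hK : ∀ x, {y | K s(x, y) ≠ 0}.Finite) (Λ : Finset (Fin d → ℤ))
    {f : ((Fin d → ℤ) → Bool) → ℝ} (hf : Dep Λ f) :
    ∃ Γ : Finset (Fin d → ℤ), Dep (Γ \ Λ) (gam (wt β K Λ) Λ f) := by
  obtain ⟨Γ, E, h1, _, h3⟩ := exists_edges hK Λ
  refine ⟨Γ, fun τ τ' h => gam_local (fun η => ?_) fun η => hf _ _ fun x hx => ?_⟩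
  · rw [wt, wt, h3, h3]
    congr 2
    refine sum_congr rfl fun e he => ?_
    rw [sp_congr fun x hx => ?_]
    by_cases h4 : x ∈ Λ
    · rw [glue_of_mem _ _ h4, glue_of_mem _ _ h4]
    · rw [glue_of_notMem _ _ h4, glue_of_notMem _ _ h4,
        h x (mem_sdiff.2 ⟨mem_sym2_iff.1 (h1 he) x hx, h4⟩)]
  · rw [glue_of_mem _ _ hx, glue_of_mem _ _ hx]

/-- The finite-volume measure. -/
noncomputable def fvol (W : ((Fin d → ℤ) → Bool) → ℝ) (Λ : Finset (Fin d → ℤ))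
    (τ : (Fin d → ℤ) → Bool) : Measure ((Fin d → ℤ) → Bool) :=
  ∑ σ ∈ confs Λ τ, ENNReal.ofReal (W σ / part W Λ τ) • Measure.dirac σ

theorem fvol_prob {W : ((Fin d → ℤ) → Bool) → ℝ} (hW : ∀ σ, 0 < W σ) (Λ : Finset (Fin d → ℤ))
    (τ : (Fin d → ℤ) → Bool) : IsProbabilityMeasure (fvol W Λ τ) := by
  have hZ := part_pos hW Λ τ
  constructor
  simp only [fvol, Measure.coe_finsetSum, Finset.sum_apply, Measure.smul_apply,
    measure_univ, smul_eq_mul, mul_one]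
  rw [← ENNReal.ofReal_sum_of_nonneg fun σ _ => (div_pos (hW σ) hZ).le, ← Finset.sum_div]
  change ENNReal.ofReal (part _ _ _ / _) = 1
  rw [div_self hZ.ne', ENNReal.ofReal_one]

theorem int_fvol {W : ((Fin d → ℤ) → Bool) → ℝ} (hW : ∀ σ, 0 < W σ) (Λ : Finset (Fin d → ℤ))
    (τ : (Fin d → ℤ) → Bool) (hF : Dep S F) : ∫ σ, F σ ∂(fvol W Λ τ) = gam W Λ F τ := by
  have hZ := part_pos hW Λ τ
  unfold fvol gam
  rw [integral_finsetSum_measure fun σ _ =>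
    (dep_int hF _).smul_measure ENNReal.ofReal_ne_top, Finset.sum_div]
  refine Finset.sum_congr rfl fun σ _ => ?_
  rw [integral_smul_measure, integral_dirac,
    ENNReal.toReal_ofReal (div_pos (hW σ) hZ).le, smul_eq_mul]
  ring

theorem dlr_limit (hK : ∀ x, {y | K s(x, y) ≠ 0}.Finite) (u : Ultrafilter (Finset (Fin d → ℤ)))
    (hu : (u : Filter (Finset (Fin d → ℤ))) ≤ atTop) (τ0 : (Fin d → ℤ) → Bool) :
    ∃ μ0 : Measure ((Fin d → ℤ) → Bool), IsDLR β K μ0 ∧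
      ∀ (S : Finset (Fin d → ℤ)) (F : ((Fin d → ℤ) → Bool) → ℝ), Dep S F →
        Tendsto (fun Q => gam (wt β K Q) Q F τ0) u (𝓝 (∫ σ, F σ ∂μ0)) := by
  let μs : Finset (Fin d → ℤ) → ProbabilityMeasure ((Fin d → ℤ) → Bool) :=
    fun Q => ⟨fvol (wt β K Q) Q τ0, fvol_prob (wt_pos Q) _ _⟩
  obtain ⟨μ0, -, hμ0⟩ := isCompact_univ.ultrafilter_le_nhds (u.map μs) (by simp)
  have hlim : Tendsto μs u (𝓝 μ0) := hμ0
  have hconv : ∀ {S : Finset (Fin d → ℤ)} {F : ((Fin d → ℤ) → Bool) → ℝ}, Dep S F →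
      Tendsto (fun Q => gam (wt β K Q) Q F τ0) u
        (𝓝 (∫ σ, F σ ∂(μ0 : Measure ((Fin d → ℤ) → Bool)))) := by
    intro S F hF
    have := ProbabilityMeasure.tendsto_iff_forall_integral_tendsto.1 hlim
      (BoundedContinuousFunction.mkOfCompact ⟨F, dep_cont hF⟩)
    refine this.congr fun Q => ?_
    exact int_fvol (wt_pos Q) _ _ hF
  refine ⟨μ0, ⟨inferInstance, fun Λ η => ?_⟩, fun S F hF => hconv hF⟩
  change condExp _ _ (idc Λ η) =ᵐ[_] _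
  set m : Measure ((Fin d → ℤ) → Bool) := (μ0 : Measure ((Fin d → ℤ) → Bool)) with hm
  have hI := dep_idc Λ η
  obtain ⟨Γ, hG⟩ := dep_gam (β := β) hK Λ hI
  have hGi := dep_int hG m
  have hIi := dep_int hI m
  have hbasic : ∀ (T : Finset (Fin d → ℤ)) (ζ : (Fin d → ℤ) → Bool),
      (T : Set (Fin d → ℤ)) ⊆ (Λ : Set (Fin d → ℤ))ᶜ →
      ∫ σ in cy T ζ, gam (wt β K Λ) Λ (idc Λ η) σ ∂m = ∫ σ in cy T ζ, idc Λ η σ ∂m := by
    intro T ζ hT
    have hmeas : MeasurableSet (cy T ζ) := cylinderEvents_le_pi _ (meas_cy hT ζ)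
    set g : ((Fin d → ℤ) → Bool) → ℝ := (cy T ζ).indicator fun _ => (1 : ℝ) with hg
    have e : ∀ F : ((Fin d → ℤ) → Bool) → ℝ, ∫ σ in cy T ζ, F σ ∂m = ∫ σ, g σ * F σ ∂m := by
      intro F
      rw [← integral_indicator hmeas]
      congr 1
      funext σ
      by_cases h : σ ∈ cy T ζ <;> simp [hg, h]
    rw [e, e]
    refine tendsto_nhds_unique (hconv (dep_mul (dep_cy T ζ) hG))
      ((hconv (dep_mul (dep_cy T ζ) hI)).congr' ?_)
    filter_upwards [hu (eventually_ge_atTop Λ)] with Q hQ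
    rw [← gam_gam (wt_pos _) hQ]
    refine gam_congr fun σ _ => ?_
    rw [← gam_cons hK hQ, ← gam_mul_left]
    refine gam_congr fun ρ hρ => ?_
    rw [dep_cy T ζ ρ σ fun x hx => mem_confs.1 hρ x (hT hx)]
  have hall : ∀ t, MeasurableSet[cylinderEvents ((Λ : Set (Fin d → ℤ))ᶜ)] t →
      ∫ σ in t, gam (wt β K Λ) Λ (idc Λ η) σ ∂m = ∫ σ in t, idc Λ η σ ∂m := by
    intro t ht
    refine MeasurableSpace.induction_on_inter (m := cylinderEvents ((Λ : Set (Fin d → ℤ))ᶜ))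
      (C := fun t _ => ∫ σ in t, gam (wt β K Λ) Λ (idc Λ η) σ ∂m = ∫ σ in t, idc Λ η σ ∂m)
      (cyl_eq _) (pi_cys _) (by simp) ?_ ?_ ?_ t ht
    · rintro _ ⟨T, ζ, hT, rfl⟩
      exact hbasic T ζ hT
    · intro v hv h1
      have hv' : MeasurableSet v := cylinderEvents_le_pi _ hv
      have h0 := hbasic ∅ (fun _ => true) (by simp)
      have : cy (∅ : Finset (Fin d → ℤ)) (fun _ => true) = Set.univ := by ext; simp [cy]
      rw [this, Measure.restrict_univ] at h0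
      rw [setIntegral_compl hv' hGi, setIntegral_compl hv' hIi, h0, h1]
    · intro v hdis hv h1
      have hv' : ∀ i, MeasurableSet (v i) := fun i => cylinderEvents_le_pi _ (hv i)
      rw [integral_iUnion hv' hdis hGi.integrableOn, integral_iUnion hv' hdis hIi.integrableOn]
      exact tsum_congr h1
  simp only [kern_eq]
  refine (ae_eq_condExp_of_forall_setIntegral_eq cylinderEvents_le_pi hIi
    (fun t _ _ => hGi.integrableOn) (fun t ht _ => hall t ht) ?_).symm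
  refine (dep_meas hG ?_).stronglyMeasurable.aestronglyMeasurable
  intro x hx
  exact (Finset.mem_sdiff.1 hx).2

end Pool.Agent.P.MP_81d17b_pr.LR
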