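import Pool.Agent.P.MP_81d17b_pr.LR.Iv2

namespace Pool.Agent.P.MP_81d17b_pr.LR

open MeasureTheory ProbabilityTheory Real Finset Function Filter Topology

variable {d : ℕ} {β : ℝ}

/-- Product of the spins along a list of sites. -/
noncomputable def spl (l : List (Fin d → ℤ)) (σ : (Fin d → ℤ) → Bool) : ℝ :=
  (l.map fun x => sg (σ x)).prod

/-- The couplings for which all odd correlations with plus boundary condition vanish in the
infinite-volume limit. -/
def UU (d : ℕ) (β : ℝ) : Set (Sym2 (Fin d → ℤ) → ℝ) :=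
  {K | ∀ l : List (Fin d → ℤ), Odd l.length → ∀ k : ℕ, ∀ᶠ Q in atTop, ∀ᶠ Γ in atTop,
    |gam (wf β K Γ) Q (spl l) fun _ => true| ≤ 1 / (k + 1)}

theorem meas_gam (Γ Q : Finset (Fin d → ℤ)) (f : ((Fin d → ℤ) → Bool) → ℝ)
    (τ : (Fin d → ℤ) → Bool) : Measurable fun K => gam (wf β K Γ) Q f τ := by
  unfold gam part wf
  fun_prop

theorem meas_UU : MeasurableSet (UU d β) := by
  simp only [UU, eventually_atTop]
  exact measurableSet_setOfPred.2 (Measurable.forall fun l => measurable_const.imp
    (Measurable.forall fun k => Measurable.exists fun _ => Measurable.forall fun Q =>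
      measurable_const.imp (Measurable.exists fun _ => Measurable.forall fun Γ =>
        measurable_const.imp (measurableSet_setOfPred.1
          (measurableSet_le (meas_gam Γ Q _ _).abs measurable_const)))))

theorem gam_tilt {ι : Type} [DecidableEq ι] {W E : (ι → Bool) → ℝ} (hW : ∀ σ, 0 < W σ)
    (Q : Finset ι) (f : (ι → Bool) → ℝ) (τ : ι → Bool) :
    gam (fun σ => W σ * E σ) Q f τ = gam W Q (fun σ => E σ * f σ) τ / gam W Q E τ := by
  have := (part_pos hW Q τ).ne'
  rw [gam, gam, gam, div_div_div_cancel_right₀ this]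
  simp only [part, mul_assoc]

theorem inv_UU (K : Sym2 (Fin d → ℤ) → ℝ) (hK : K ∈ UU d β) (e : Sym2 (Fin d → ℤ)) (t : ℝ) :
    update K e t ∈ UU d β := by
  intro l hl k
  induction e using Sym2.ind with
  | h x y =>
  set u := β * (t - K s(x, y)) with hu
  set M := exp |u| * (cosh u + |sinh u|) with hM
  have hc := cosh_pos u
  have hM0 : 0 < M := by positivity
  obtain ⟨k', hk'⟩ := exists_nat_one_div_lt (show 0 < 1 / ((k : ℝ) + 1) / M by positivity)
  filter_upwards [hK l hl k', hK (x :: y :: l) (by simpa [Nat.odd_add_one] using hl) k'] with Q a b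
  filter_upwards [a, b, eventually_ge_atTop {x, y}] with Γ h1 h2 hΓ
  have he : s(x, y) ∈ Γ.sym2 := mk_mem_sym2_iff.2 ⟨hΓ (by simp), hΓ (by simp)⟩
  have e1 : wf β (update K s(x, y) t) Γ = fun σ => wf β K Γ σ * exp (u * sp s(x, y) σ) := by
    funext σ
    rw [wf, wf, ← exp_add, ← sum_erase_add _ _ he, ← sum_erase_add _ _ he, update_self,
      sum_congr rfl fun i hi => by rw [update_of_ne (ne_of_mem_erase hi)], hu]
    congr 1
    ring
  have e2 : ∀ σ, exp (u * sp s(x, y) σ) * spl l σ =
      cosh u * spl l σ + sinh u * spl (x :: y :: l) σ := by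
    intro σ
    have : spl (x :: y :: l) σ = sp s(x, y) σ * spl l σ := by simp [spl, sp_mk, mul_assoc]
    rw [this]
    rcases sp_cases s(x, y) σ with h | h <;> rw [h]
    · rw [mul_one, ← cosh_add_sinh]
      ring
    · rw [mul_neg_one, ← cosh_sub_sinh]
      ring
  have e3 : exp (-|u|) ≤ gam (wf β K Γ) Q (fun σ => exp (u * sp s(x, y) σ)) fun _ => true :=
    le_gam (wf_pos Γ) fun σ _ => exp_le_exp.2 (by
      rcases sp_cases s(x, y) σ with h | h <;> rw [h]
      · linarith [neg_abs_le u]
      · linarith [le_abs_self u])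
  rw [e1, gam_tilt (wf_pos Γ)]
  simp only [e2]
  rw [gam_add, gam_mul_left, gam_mul_left, abs_div, abs_of_pos ((exp_pos _).trans_le e3),
    div_le_iff₀ ((exp_pos _).trans_le e3)]
  rw [lt_div_iff₀ hM0] at hk'
  calc _ ≤ cosh u * (1 / (k' + 1)) + |sinh u| * (1 / (k' + 1)) := by
        refine (abs_add_le _ _).trans (add_le_add ?_ ?_)
        · rw [abs_mul, abs_of_pos hc]
          exact mul_le_mul_of_nonneg_left h1 hc.le
        · rw [abs_mul]
          exact mul_le_mul_of_nonneg_left h2 (abs_nonneg _)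
    _ = 1 / (k' + 1) * M * exp (-|u|) := by
        rw [hM, exp_neg]
        field_simp
    _ ≤ _ := mul_le_mul hk'.le e3 (exp_pos _).le (by positivity)

theorem gam_flip {ι : Type} [DecidableEq ι] {W : (ι → Bool) → ℝ}
    (hW : ∀ σ, W (fun x => !σ x) = W σ) (Q : Finset ι) (f : (ι → Bool) → ℝ) (τ : ι → Bool) :
    gam W Q f (fun x => !τ x) = gam W Q (fun σ => f fun x => !σ x) τ := by
  have key : ∀ F : (ι → Bool) → ℝ,
      ∑ σ ∈ confs Q (fun x => !τ x), F σ = ∑ σ ∈ confs Q τ, F fun x => !σ x := fun F =>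
    sum_nbij' (fun σ x => !σ x) (fun σ x => !σ x)
      (fun σ h => mem_confs.2 fun x hx => by simp [mem_confs.1 h x hx])
      (fun σ h => mem_confs.2 fun x hx => by simp [mem_confs.1 h x hx])
      (fun σ _ => by simp) (fun σ _ => by simp) fun σ _ => by simp
  simp only [gam, part, key, hW]

theorem spl_flip (l : List (Fin d → ℤ)) (σ : (Fin d → ℤ) → Bool) :
    spl l (fun x => !σ x) = (-1) ^ l.length * spl l σ := by
  induction l with
  | nil => simp [spl]
  | cons x l ih =>
    simp only [spl, List.map_cons, List.prod_cons, List.length_cons] at ih ⊢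
    rw [ih, sg_not]
    ring

theorem dep_spl (l : List (Fin d → ℤ)) : Dep l.toFinset (spl l) := fun σ τ h => by
  unfold spl
  rw [List.map_congr_left fun x hx => by rw [h x (List.mem_toFinset.2 hx)]]

theorem two_states {K : Sym2 (Fin d → ℤ) → ℝ} (hK : ∀ x, {y | K s(x, y) ≠ 0}.Finite)
    (hU : K ∉ UU d β) : ∃ m m', IsDLR β K m ∧ IsDLR β K m' ∧ m ≠ m' := by
  simp only [UU, Set.mem_ofPred_eq, not_forall] at hU
  obtain ⟨l, hl, k, h⟩ := hU
  have h1 : ∃ᶠ Q in atTop, 1 / ((k : ℝ) + 1) ≤ |gam (wt β K Q) Q (spl l) fun _ => true| := by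
    refine (not_eventually.1 h).mono fun Q hQ => ?_
    by_contra h2
    refine hQ ((ev_gam (β := β) hK Q).mono fun Γ hΓ => ?_)
    rw [hΓ Q subset_rfl]
    exact (not_le.1 h2).le
  have := frequently_iff_neBot.1 h1
  obtain ⟨u, hu⟩ := Ultrafilter.exists_le (atTop ⊓ 𝓟 {Q : Finset (Fin d → ℤ) |
    1 / ((k : ℝ) + 1) ≤ |gam (wt β K Q) Q (spl l) fun _ => true|})
  rw [le_inf_iff] at hu
  obtain ⟨m, m1, m2⟩ := dlr_limit (β := β) hK u hu.1 fun _ => true
  obtain ⟨m', m1', m2'⟩ := dlr_limit (β := β) hK u hu.1 fun _ => !true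
  refine ⟨m, m', m1, m1', fun hm => ?_⟩
  have a1 := m2 _ _ (dep_spl l)
  have a2 := m2' _ _ (dep_spl l)
  have a3 : ∀ Q, gam (wt β K Q) Q (spl l) (fun _ => !true) =
      -gam (wt β K Q) Q (spl l) fun _ => true := by
    intro Q
    rw [gam_flip (τ := fun _ => true) fun σ => ?_]
    · simp only [spl_flip, hl.neg_one_pow]
      rw [gam_mul_left, neg_one_mul]
    · unfold wt ham
      congr 3
      funext e
      congr 2
      induction e using Sym2.ind with
      | h x y => simp [sg_not]
  simp only [a3] at a2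
  have a4 := tendsto_nhds_unique a1.neg a2
  have a5 := ge_of_tendsto a1.abs (le_principal_iff.1 hu.2)
  rw [← hm] at a4
  have a6 : ∫ σ, spl l σ ∂m = 0 := by linarith
  rw [a6, abs_zero] at a5
  exact absurd a5 (not_le.2 (by positivity))

theorem link {V : Type} [Fintype V] [DecidableEq V] (pos : V ↪ (Fin d → ℤ)) (A : Finset V)
    (K : Sym2 (Fin d → ℤ) → ℝ) (v : V) :
    gam (wf β K (univ.map pos)) (A.map pos) (spl [pos v]) (fun _ => true) =
      ∑ η : A → Bool, gw (fun e η => sp e (glue A η fun _ => true))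
        (fun e => β * K (e.map pos)) η * sg (glue A η (fun _ => true) v) := by
  let ex : (A → Bool) → (Fin d → ℤ) → Bool := fun η =>
    extend pos (glue A η fun _ => true) fun _ => true
  have h1 : ∀ η w, ex η (pos w) = glue A η (fun _ => true) w := fun η w =>
    pos.injective.extend_apply _ _ _
  have key : ∀ F : ((Fin d → ℤ) → Bool) → ℝ,
      ∑ σ ∈ confs (A.map pos) (fun _ => true), F σ = ∑ η, F (ex η) := by
    intro F
    refine (sum_nbij' ex (fun σ a => σ (pos a)) (fun η _ => mem_confs.2 fun x hx => ?_)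
      (fun _ _ => mem_univ _) (fun η _ => funext fun a => ?_) (fun σ hσ => funext fun x => ?_)
      fun _ _ => rfl).symm
    · by_cases h : ∃ w, pos w = x
      · obtain ⟨w, rfl⟩ := h
        rw [h1, glue_of_notMem _ _ fun h => hx (mem_map_of_mem _ h)]
      · exact extend_apply' _ _ _ h
    · rw [h1, glue_of_mem _ _ a.2]
    · by_cases h : ∃ w, pos w = x
      · obtain ⟨w, rfl⟩ := h
        rw [h1]
        by_cases hw : w ∈ A
        · rw [glue_of_mem _ _ hw]
        · rw [glue_of_notMem _ _ hw, mem_confs.1 hσ _ (by simpa using hw)]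
      · rw [mem_confs.1 hσ x fun h2 => h (by
          obtain ⟨w, _, h3⟩ := mem_map.1 h2
          exact ⟨w, h3⟩)]
        exact extend_apply' _ _ _ h
  have h2 : ∀ η, wf β K (univ.map pos) (ex η) =
      exp (∑ e : Sym2 V, β * K (e.map pos) * sp e (glue A η fun _ => true)) := by
    intro η
    rw [wf, sym2_map, sym2_univ, sum_map, mul_sum]
    congr 1
    refine sum_congr rfl fun e _ => ?_
    induction e using Sym2.ind with
    | h x y => simp [sp_mk, h1, mul_assoc]
  rw [gam, part, key, key, sum_div]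
  refine sum_congr rfl fun η _ => ?_
  simp only [h2, gw, spl, List.map_cons, List.map_nil, List.prod_cons, List.prod_nil, mul_one, h1]
  ring

end Pool.Agent.P.MP_81d17b_pr.LR
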