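import Pool.Agent.P.MP_81d17b_pr.LR.Iv3

namespace Pool.Agent.P.MP_81d17b_pr.LR

open MeasureTheory ProbabilityTheory Real Finset Function Filter Topology

variable {d : ℕ} {β : ℝ}

/-- Translation by `-x`, as an embedding of `Λ`. -/
def tr (Λ : Finset (Fin d → ℤ)) (x : Fin d → ℤ) : Λ ↪ (Fin d → ℤ) :=
  ⟨fun v => v.1 - x, fun _ _ h => Subtype.ext (sub_left_injective h)⟩

theorem map_tr {Λ : Finset (Fin d → ℤ)} {u : Fin d → ℤ} {N : ℕ} (h : cube u N ⊆ Λ)
    (x : Fin d → ℤ) : (cV Λ u N).map (tr Λ x) = cube (u - x) N := by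
  ext y
  rw [Finset.mem_map]
  constructor
  · rintro ⟨v, hv, rfl⟩
    refine mem_cube.2 fun i => ?_
    have := mem_cube.1 (mem_cV.1 hv) i
    change u i - x i ≤ v.1 i - x i ∧ v.1 i - x i < u i - x i + N
    omega
  · intro hy
    have h1 : y + x ∈ cube u N := mem_cube.2 fun i => by
      have := mem_cube.1 hy i
      simp only [Pi.add_apply, Pi.sub_apply] at *
      omega
    exact ⟨⟨_, h h1⟩, mem_cV.2 h1, add_sub_cancel_right y x⟩

theorem ev_cube (T : Finset (Fin d → ℤ)) : ∀ᶠ m : ℕ in atTop, ∀ y ∈ T, ∀ i, |y i| < m := by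
  refine (eventually_all_finset T).2 fun y _ => eventually_all.2 fun i => ?_
  filter_upwards [eventually_gt_atTop (y i).natAbs] with m hm
  rw [abs_lt]
  omega

theorem tend_cube (x : Fin d → ℤ) :
    Tendsto (fun m : ℕ => cube ((fun _ => -(m : ℤ)) - x) (2 * m)) atTop atTop := by
  refine tendsto_atTop.2 fun T => ?_
  filter_upwards [ev_cube (T.image fun y => y + x)] with m hm y hy
  refine mem_cube.2 fun i => ?_
  have := abs_lt.1 (hm _ (mem_image_of_mem _ hy) i)
  simp only [Pi.add_apply, Pi.sub_apply] at *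
  omega

variable {Ω : Type*} [MeasurableSpace Ω] {P : Measure Ω}

theorem not_ae_UU (hd : 1 ≤ d) {s c C : ℝ} {p : (Fin d → ℤ) → ℝ} (hp : ∀ v, 0 ≤ p v ∧ p v ≤ 1)
    (hsym : ∀ v, p (-v) = p v) (hnn : ∀ i, p (Pi.single i 1) = 1)
    (hb : ∀ v, v ≠ 0 → c * ‖v‖ ^ (-s) ≤ p v ∧ p v ≤ C * ‖v‖ ^ (-s))
    {J : Sym2 (Fin d → ℤ) → Ω → ℝ} (hJ : ∀ e, Measurable (J e)) (hi : iIndepFun J P)
    (hl : ∀ x y, P.map (J s(x, y)) = lawp (p (x - y))) {k0 : ℕ}
    (H : ∀ (Λ : Finset (Fin d → ℤ)) (S : Type) [Fintype S]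
      [Nonempty S] (ρ : S → Λ → Bool) (pp : Sym2 Λ → ℝ), EdgeP s c C pp → ∀ k, k0 ≤ k →
      ∀ z z', cube z (2 ^ k) ⊆ Λ → cube z' (2 ^ k) ⊆ Λ →
      (∀ x ∈ cube z (2 ^ k), ∀ y ∈ cube z' (2 ^ k),
        ((2 ^ k : ℕ) : ℝ) ≤ dist x y ∧ dist x y ≤ (2 ^ (k + 2) : ℕ)) →
      (∀ η, ∀ y ∈ cV Λ z' (2 ^ k), ρ η y = true) →
      1 - 1 / 4 ≤ LL ρ β (fun e => lawp (pp e)) (mB (cV Λ z (2 ^ k)))) :
    ¬∀ᵐ ω ∂P, (fun e => J e ω) ∈ UU d β := by
  intro hU
  have := hi.isProbabilityMeasure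
  let g : ℕ → ℕ → (Fin d → ℤ) → Ω → ℝ := fun n m x ω =>
    gam (wf β (fun e => J e ω) (cube ((fun _ => -(m : ℤ)) - x) (2 * m)))
      (cube ((fun _ => -((2 ^ n : ℕ) : ℤ)) - x) (3 * 2 ^ n)) (spl [0]) (fun _ => true) ^ 2
  have hgm : ∀ n m x, Measurable (g n m x) := fun n m x =>
    ((meas_gam _ _ _ _).comp (measurable_pi_iff.2 hJ)).pow_const 2
  have hg1 : ∀ n m x ω, |g n m x ω| ≤ 1 := fun n m x ω => by
    rw [abs_of_nonneg (sq_nonneg _), sq_le_one_iff_abs_le_one, abs_le]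
    exact ⟨le_gam (wf_pos _) fun σ _ => by rcases sg_cases (σ 0) with h | h <;> simp [spl, h],
      gam_le (wf_pos _) fun σ _ => by rcases sg_cases (σ 0) with h | h <;> simp [spl, h]⟩
  have hN : ∀ n : ℕ, (0 : ℝ) < (cube (0 : Fin d → ℤ) (2 ^ n)).card := fun n => by
    rw [card_cube]
    positivity
  have av : ∀ (n : ℕ) (F : (Fin d → ℤ) → ℝ) (a : ℝ), (∀ x ∈ cube 0 (2 ^ n), F x ≤ a) →
      (∑ x ∈ cube 0 (2 ^ n), F x) / (cube (0 : Fin d → ℤ) (2 ^ n)).card ≤ a := fun n F a h => by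
    rw [div_le_iff₀ (hN n), mul_comm]
    simpa using sum_le_sum h
  have h1 := fatou2 (P := P) (f := fun n m ω =>
      (∑ x ∈ cube 0 (2 ^ n), g n m x ω) / (cube (0 : Fin d → ℤ) (2 ^ n)).card)
    (fun n m => (Finset.measurable_sum _ fun x _ => hgm n m x).div_const _)
    (fun n m ω => by
      rw [abs_of_nonneg (div_nonneg (sum_nonneg fun _ _ => sq_nonneg _) (hN n).le)]
      exact av n _ _ fun x _ => (le_abs_self _).trans (hg1 n m x ω))
    (a := 1 / 4) (by rw [abs_of_pos] <;> norm_num) (by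
      filter_upwards [hU] with ω hω
      obtain ⟨Q0, hQ⟩ := eventually_atTop.1 (hω [0] (by simp) 1)
      filter_upwards [ev_cube Q0] with n hn
      have h2 : ∀ᶠ m in atTop, ∀ x ∈ cube 0 (2 ^ n), g n m x ω ≤ 1 / 4 := by
        refine (eventually_all_finset _).2 fun x hx => ?_
        have h3 := hQ (cube ((fun _ => -((2 ^ n : ℕ) : ℤ)) - x) (3 * 2 ^ n)) fun y hy =>
          mem_cube.2 fun i => by
            have a1 := abs_lt.1 (hn y hy i)
            have a2 := mem_cube.1 hx i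
            have a3 := Nat.lt_two_pow_self (n := n)
            simp only [Pi.zero_apply, Pi.sub_apply] at *
            omega
        filter_upwards [(tend_cube x).eventually h3] with m hm
        refine le_trans (sq_abs _).symm.le ((pow_le_pow_left₀ (abs_nonneg _) hm 2).trans ?_)
        norm_num
      filter_upwards [h2] with m hm
      exact av n _ _ hm) (ε := 1 / 8) (by norm_num)
  obtain ⟨n, hn, h2⟩ := ((eventually_ge_atTop k0).and h1).exists
  obtain ⟨m, hm, h3⟩ := ((eventually_ge_atTop (3 * 2 ^ n)).and h2).exists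
  set N := 2 ^ n with hNd
  let Λ : Finset (Fin d → ℤ) := cube (fun _ => -(m : ℤ)) (2 * m)
  let A : Finset Λ := cV Λ (fun _ => -(N : ℤ)) (3 * N)
  let pp : Sym2 Λ → ℝ := Sym2.lift ⟨fun x y => p (x.1 - y.1), fun x y => by
    simp only
    rw [← hsym, neg_sub]⟩
  have hpp : EdgeP s c C pp := by
    have e : ∀ x y : Λ, x ≠ y → x.1 - y.1 ≠ 0 := fun x y h => sub_ne_zero.2 (Subtype.ext_iff.not.1 h)
    refine ⟨fun e => ?_, fun e => ?_, fun x y i h => ?_, fun x y h => ?_, fun x y h => ?_⟩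
    · induction e using Sym2.ind with
      | h x y => exact (hp _).1
    · induction e using Sym2.ind with
      | h x y => exact (hp _).2
    · change p (x.1 - y.1) = 1
      rw [h, sub_add_cancel_left, hsym, hnn]
    · rw [dist_eq_norm]
      exact (hb _ (e x y h)).1
    · rw [dist_eq_norm]
      exact (hb _ (e x y h)).2
  have sub : ∀ (a : ℤ) (M : ℕ), -(m : ℤ) ≤ a → a + M ≤ m → cube (fun _ => a) M ⊆ Λ :=
    fun a M a1 a2 x hx => mem_cube.2 fun i => by
      have := mem_cube.1 hx i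
      omega
  have s1 : cube 0 N ⊆ Λ := sub 0 N (by omega) (by omega)
  have h4 := H Λ (A → Bool) (fun η => glue A η fun _ => true) pp hpp n hn 0 (fun _ => 2 * (N : ℤ))
    s1 (sub _ _ (by omega) (by omega)) (fun x hx y hy => ⟨?_, ?_⟩) fun η y hy => ?_
  · have hμ : ∀ e, IsProbabilityMeasure (lawp (pp e)) :=
      fun e => lawp_prob (hpp.nonneg e) (hpp.le_one e)
    let G : Λ → (Sym2 Λ → ℝ) → ℝ := fun v y => th (fun e η => sp e (glue A η fun _ => true))
      (fun σ τ => sg (glue A σ (fun _ => true) v) * sg (glue A τ (fun _ => true) v))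
      fun e => β * y e
    have h5 : ∀ v : Λ, ∫ y, G v y ∂(Measure.pi fun e => lawp (pp e)) = ∫ ω, g n m v.1 ω ∂P := by
      intro v
      have a1 := (hi.precomp (g := Sym2.map (tr Λ v.1))
        (Sym2.map.injective (tr Λ v.1).injective)).map_fun_eq_pi_map
          fun e => (hJ _).aemeasurable
      have a2 : (fun e : Sym2 Λ => P.map (J (e.map (tr Λ v.1)))) = fun e => lawp (pp e) := by
        funext e
        induction e using Sym2.ind with
        | h x y =>
          rw [Sym2.map_mk, hl]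
          change lawp (p (x.1 - v.1 - (y.1 - v.1))) = lawp (p (x.1 - y.1))
          rw [sub_sub_sub_cancel_right]
      have a3 : Continuous (G v) := (th_cont _).comp (by fun_prop)
      rw [← a2, ← a1, integral_map (measurable_pi_iff.2 fun e => hJ _).aemeasurable
        a3.aestronglyMeasurable]
      congr 1
      funext ω
      have a4 := link (β := β) (tr Λ v.1) A (fun e => J e ω) v
      have a5 : (univ : Finset Λ) = cV Λ (fun _ => -(m : ℤ)) (2 * m) := by
        ext y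
        simp only [mem_univ, mem_cV, true_iff]
        exact y.2
      have a6 : tr Λ v.1 v = 0 := sub_self _
      rw [a5, map_tr subset_rfl, map_tr (sub _ _ (by omega) (by push_cast; omega)), a6] at a4
      simp only [G, g]
      rw [th_prod, ← sq, ← a4]
    have h6 : LL (fun η : A → Bool => glue A η fun _ => true) β (fun e => lawp (pp e))
        (mB (cV Λ 0 N)) = (∑ v ∈ cV Λ 0 N, ∫ ω, g n m v.1 ω ∂P) / (cV Λ 0 N).card := by
      have hL := LL_avg (fun η : A → Bool => glue A η fun _ => true) β fun e => lawp (pp e)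
      have a1 : mB (cV Λ 0 N) = fun σ τ => ((cV Λ 0 N).card : ℝ)⁻¹ *
          ∑ x ∈ cV Λ 0 N, sg (σ x) * sg (τ x) := by
        funext σ τ
        rw [mB, div_eq_inv_mul]
      rw [a1, hL.mul, hL.sum, div_eq_inv_mul]
      congr 1
      exact sum_congr rfl fun v _ => h5 v
    have h7 : ∑ v ∈ cV Λ 0 N, ∫ ω, g n m v.1 ω ∂P = ∑ x ∈ cube 0 N, ∫ ω, g n m x ω ∂P :=
      sum_bij (fun x _ => x.1) (fun x hx => mem_cV.1 hx) (fun x _ y _ h => Subtype.ext h)
        (fun x hx => ⟨⟨x, s1 hx⟩, mem_cV.2 hx, rfl⟩) fun _ _ => rfl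
    rw [integral_div, integral_finsetSum _ fun x _ => int_bd (hgm n m x) (hg1 n m x)] at h3
    rw [h6, h7, card_cV s1, ← card_cube 0 N] at h4
    linarith
  · refine le_trans ?_ (dist_le_pi_dist x y ⟨0, hd⟩)
    rw [Int.dist_eq, ← Int.cast_sub, ← Int.cast_abs, ← Int.cast_natCast, Int.cast_le, le_abs]
    have a1 := mem_cube.1 hx ⟨0, hd⟩
    have a2 := mem_cube.1 hy ⟨0, hd⟩
    simp only [Pi.zero_apply] at *
    omega
  · refine dist_le_cube (p := 0) (mem_cube.2 fun i => ?_) (mem_cube.2 fun i => ?_)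
    · have a1 := mem_cube.1 hx i
      simp only [Pi.zero_apply, pow_add] at *
      omega
    · have a1 := mem_cube.1 hy i
      simp only [Pi.zero_apply, pow_add] at *
      omega
  · refine glue_of_notMem _ _ fun h => ?_
    have a1 := mem_cube.1 (mem_cV.1 h) ⟨0, hd⟩
    have a2 := mem_cube.1 (mem_cV.1 hy) ⟨0, hd⟩
    omega

end Pool.Agent.P.MP_81d17b_pr.LR
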