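import Pool.Agent.P.MP_81d17b_pr.LR.Window

namespace Pool.Agent.P.MP_81d17b_pr.LR

open MeasureTheory ProbabilityTheory Real Finset
open scoped RealInnerProductSpace

variable {E : Type} [NormedAddCommGroup E] [InnerProductSpace ℝ E] {S : Type} [Fintype S]
  [FiniteDimensional ℝ E] [MeasurableSpace E] [BorelSpace E]

/-- Two-replica average of the negative part of the overlap. -/
noncomputable def YY (c : S → ℝ) (φ : S → E) (y : E) : ℝ :=
  ∑ s, ∑ t, GG c φ (s, t) y * max (-⟪φ s, φ t⟫) 0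

variable [Nonempty S] {c : S → ℝ} {φ : S → E}

omit [FiniteDimensional ℝ E] [MeasurableSpace E] [BorelSpace E] in
theorem lin_term (hφ : ∀ s, ‖φ s‖ ≤ 1) (s t : S) (r : ℝ) : Lin fun y => GG c φ (s, t) y * r := by
  simpa only [mul_comm] using ((fam_GG hφ).linW (s, t)).const_mul r

omit [FiniteDimensional ℝ E] [MeasurableSpace E] [BorelSpace E] in
theorem lin_YY (hφ : ∀ s, ‖φ s‖ ≤ 1) : Lin (YY c φ) :=
  Lin.sum _ fun s _ => Lin.sum _ fun t _ => lin_term hφ s t _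

theorem window_bound (hφ : ∀ s, ‖φ s‖ ≤ 1) {J : ℕ} (hJ : 1 ≤ J) {u v : ℝ} (hv : (J : ℝ) ^ 3 ≤ v)
    (hu : u = J ^ 3 * v) (x : E) :
    Q (u + v) (YY c φ) x ≤ 93 / J + J ^ 5 *
      (4 * (Q u (hh (Gf c φ) (bf c φ) v) x - hh (Gf c φ) (bf c φ) (u + v) x) +
        6 * (Q u (hh (GG c φ) (bf c φ) v) x - hh (GG c φ) (bf c φ) (u + v) x)) := by
  have hJ1 : (1 : ℝ) ≤ J := by exact_mod_cast hJ
  have hJ3 : (1 : ℝ) ≤ (J : ℝ) ^ 3 := one_le_pow₀ hJ1
  have hv0 : 0 < v := by linarith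
  have hvu : v ≤ u := by nlinarith
  have hu0 : 0 < u := by linarith
  have h := (window (c := c) hφ hu0 hv0 x).positivity hJ
  have e : Q (u + v) (YY c φ) x =
      ∑ s, ∑ t, Q (u + v) (GG c φ (s, t)) x * max (-⟪φ s, φ t⟫) 0 := by
    unfold YY
    rw [Q_sum _ fun s _ => Lin.sum _ fun t _ => lin_term hφ s t _]
    refine sum_congr rfl fun s _ => ?_
    rw [Q_sum _ fun t _ => lin_term hφ s t _]
    simp only [Q_mul_const]
  rw [e]
  refine h.trans ?_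
  have hθ : (0 : ℝ) < 1 / J ^ 3 := by positivity
  have a1 := (fam_G (c := c) hφ).AA_le hu0.le hv0.le hθ x
  have a2 := (fam_GG (c := c) hφ).AA_le hu0.le hv0.le hθ x
  have a0 : 0 ≤ ∑ s, AA (Gf c φ) (bf c φ) u v x s :=
    sum_nonneg fun s _ => Q_nonneg (fun _ => norm_nonneg _) _ _
  set A1 := ∑ s, AA (Gf c φ) (bf c φ) u v x s
  set A2 := ∑ p, AA (GG c φ) (bf c φ) u v x p
  set D1 := Q u (hh (Gf c φ) (bf c φ) v) x - hh (Gf c φ) (bf c φ) (u + v) x
  set D2 := Q u (hh (GG c φ) (bf c φ) v) x - hh (GG c φ) (bf c φ) (u + v) x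
  set j : ℝ := (J : ℝ)
  have hj : 0 < j := by linarith
  have s1 : j ^ 3 ≤ √u := le_sqrt_of_sq_le (by nlinarith)
  have s2 : √v ≤ √u := sqrt_le_sqrt hvu
  have s3 : √(u + v) ≤ 2 * √u := by
    rw [sqrt_le_left (by positivity), mul_pow, sq_sqrt hu0.le]
    linarith
  have s4 : √u / u ≤ 1 / j ^ 3 := by
    rw [div_le_div_iff₀ hu0 (by positivity), one_mul]
    calc √u * j ^ 3 ≤ √u * √u := by gcongr
      _ = u := mul_self_sqrt hu0.le
  have s5 : v / u = 1 / j ^ 3 := by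
    rw [hu]
    field_simp
  have s6 : 1 / u ≤ √u / u := by
    gcongr
    linarith
  have b0 : (4 * u * A2 + 2 * u * A1 + 3 * √u) / u ≤ 4 * A2 + 2 * A1 + 3 * (1 / j ^ 3) := by
    have : (4 * u * A2 + 2 * u * A1 + 3 * √u) / u = 4 * A2 + 2 * A1 + 3 * (√u / u) := by
      field_simp
    linarith
  have b1 : (1 + 3 * √v + 4 * v + 3 * √u + 2 * u * A1 + 3 * √(u + v)) / u ≤
      2 * A1 + 17 * (1 / j ^ 3) := by
    have c1 : (1 + 3 * √v + 4 * v + 3 * √u + 2 * u * A1 + 3 * √(u + v)) / u ≤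
      (1 + 3 * √u + 4 * v + 3 * √u + 2 * u * A1 + 3 * (2 * √u)) / u := by gcongr
    have c2 : (1 + 3 * √u + 4 * v + 3 * √u + 2 * u * A1 + 3 * (2 * √u)) / u =
      1 / u + 12 * (√u / u) + 4 * (v / u) + 2 * A1 := by
      field_simp
      ring
    linarith
  have c1 : 2 * j * ((1 + 3 * √v + 4 * v + 3 * √u + 2 * u * A1 + 3 * √(u + v)) / u) ≤
    2 * j ^ 2 * (2 * A1 + 17 * (1 / j ^ 3)) := by
    refine (mul_le_mul_of_nonneg_left b1 (by positivity)).trans ?_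
    refine mul_le_mul_of_nonneg_right (by nlinarith) (by positivity)
  have c2 := mul_le_mul_of_nonneg_left b0 (show 0 ≤ 6 * j ^ 2 by positivity)
  have c3 := mul_le_mul_of_nonneg_left a1 (show 0 ≤ 16 * j ^ 2 by positivity)
  have c4 := mul_le_mul_of_nonneg_left a2 (show 0 ≤ 24 * j ^ 2 by positivity)
  have d1 : j ^ 2 * (1 / j ^ 3) = 1 / j := by field_simp
  have d2 : ∀ D : ℝ, j ^ 2 * (D / (4 * (1 / j ^ 3))) = j ^ 5 * D / 4 := fun D => by field_simp
  have d3 : 1 / (2 * j) = 1 / 2 * (1 / j) := by field_simp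
  have d4 : 93 / j = 93 * (1 / j) := by ring
  have d5 : 0 ≤ 1 / j := by positivity
  have := d2 D1
  have := d2 D2
  nlinarith

/-- The positivity principle for a linear Gaussian field. -/
theorem posit (hφ : ∀ s, ‖φ s‖ ≤ 1) {J : ℕ} (hJ : 1 ≤ J) {T : ℝ} (hT : (2 : ℝ) ^ (8 * J ^ 7) ≤ T)
    (x : E) : Q T (YY c φ) x ≤ 103 / J := by
  have hJ1 : (1 : ℝ) ≤ J := by exact_mod_cast hJ
  set j : ℝ := (J : ℝ) with hj
  have hj3 : 1 ≤ j ^ 3 := one_le_pow₀ hJ1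
  let v : ℕ → ℝ := fun k => (j ^ 3 + 1) ^ k * j ^ 3
  have hv1 : ∀ k, j ^ 3 ≤ v k := fun k =>
    le_mul_of_one_le_left (by positivity) (one_le_pow₀ (by linarith))
  have hv2 : ∀ k, j ^ 3 * v k + v k = v (k + 1) := fun k => by
    simp only [v]
    ring
  have hv3 : ∀ k ≤ J ^ 6, v k ≤ T := by
    intro k hk
    refine le_trans ?_ hT
    have h1 : j ≤ 2 ^ J := by
      rw [hj]
      exact_mod_cast (Nat.lt_two_pow_self (n := J)).le
    have h2 : j ^ 3 ≤ 2 ^ (3 * J) := by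
      rw [mul_comm, pow_mul]
      gcongr
    have h3 : j ^ 3 + 1 ≤ 2 ^ (4 * J) := by
      calc j ^ 3 + 1 ≤ 2 ^ (3 * J) * 2 ^ 1 := by linarith
        _ ≤ 2 ^ (3 * J) * 2 ^ J := by gcongr; norm_num
        _ = _ := by rw [← pow_add]; congr 1; ring
    have h4 : 3 * J ≤ 4 * J ^ 7 := by
      have := Nat.le_self_pow (by norm_num : 7 ≠ 0) J
      omega
    calc v k ≤ (2 ^ (4 * J)) ^ (J ^ 6) * 2 ^ (4 * J ^ 7) := by
          refine mul_le_mul ((pow_le_pow_right₀ (by linarith) hk).trans ?_)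
            (h2.trans (pow_le_pow_right₀ (by norm_num) h4)) (by positivity) (by positivity)
          gcongr
      _ = _ := by rw [← pow_mul, ← pow_add]; congr 1; ring
  have F1 := fam_G (c := c) hφ
  have F2 := fam_GG (c := c) hφ
  let H : ℕ → ℝ := fun k => 4 * Q (T - v k) (hh (Gf c φ) (bf c φ) (v k)) x +
    6 * Q (T - v k) (hh (GG c φ) (bf c φ) (v k)) x
  have key : ∀ k < J ^ 6, Q T (YY c φ) x ≤ 93 / j + j ^ 5 * (H k - H (k + 1)) := by
    intro k hk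
    have hT1 : 0 ≤ T - v (k + 1) := sub_nonneg.2 (hv3 _ hk)
    have hv0 : 0 ≤ v k := le_trans (by positivity) (hv1 k)
    have hu0 : 0 ≤ j ^ 3 * v k := by positivity
    have l1 := ((F1.lin_hh (v k)).Q (j ^ 3 * v k)).sub (F1.lin_hh (v (k + 1)))
    have l2 := ((F2.lin_hh (v k)).Q (j ^ 3 * v k)).sub (F2.lin_hh (v (k + 1)))
    have h1 := fun y => window_bound (c := c) hφ hJ (hv1 k) rfl y
    simp only [← hj, hv2] at h1
    have h2 := Q_mono ((lin_YY hφ).Q _) ((Lin.const _).add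
      (((l1.const_mul 4).add (l2.const_mul 6)).const_mul (j ^ 5))) h1 (T - v (k + 1)) x
    have e1 : T - v (k + 1) + j ^ 3 * v k = T - v k := by rw [← hv2]; ring
    rw [Q_Q (lin_YY hφ) hT1 (le_trans (by positivity) (hv1 _)), sub_add_cancel,
      Q_add (Lin.const _) (((l1.const_mul 4).add (l2.const_mul 6)).const_mul _), Q_const,
      Q_const_mul, Q_add (l1.const_mul 4) (l2.const_mul 6), Q_const_mul, Q_const_mul,
      Q_sub ((F1.lin_hh _).Q _) (F1.lin_hh _), Q_sub ((F2.lin_hh _).Q _) (F2.lin_hh _),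
      Q_Q (F1.lin_hh _) hT1 hu0, Q_Q (F2.lin_hh _) hT1 hu0, e1] at h2
    refine h2.trans (le_of_eq ?_)
    simp only [H]
    ring
  have hs := sum_le_sum fun k (hk : k ∈ range (J ^ 6)) => key k (mem_range.1 hk)
  rw [sum_add_distrib, ← mul_sum, sum_range_sub', sum_const, sum_const, card_range, nsmul_eq_mul,
    nsmul_eq_mul, Nat.cast_pow, ← hj] at hs
  have b1 : ∀ t, |Q (T - t) (hh (Gf c φ) (bf c φ) t) x| ≤ 1 := fun t => abs_Q_le (fun y => by
    rw [abs_of_nonneg (F1.hh_nonneg t y)]; exact F1.hh_le t y) _ _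
  have b2 : ∀ t, |Q (T - t) (hh (GG c φ) (bf c φ) t) x| ≤ 1 := fun t => abs_Q_le (fun y => by
    rw [abs_of_nonneg (F2.hh_nonneg t y)]; exact F2.hh_le t y) _ _
  have b3 : H 0 ≤ 10 := by
    simp only [H]
    linarith [le_abs_self (Q (T - v 0) (hh (Gf c φ) (bf c φ) (v 0)) x), b1 (v 0),
      le_abs_self (Q (T - v 0) (hh (GG c φ) (bf c φ) (v 0)) x), b2 (v 0)]
  have b4 : 0 ≤ H (J ^ 6) := add_nonneg
    (mul_nonneg (by norm_num) (Q_nonneg (F1.hh_nonneg _) _ _))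
    (mul_nonneg (by norm_num) (Q_nonneg (F2.hh_nonneg _) _ _))
  have hj0 : 0 < j := by linarith
  have b5 : j ^ 5 * (H 0 - H (J ^ 6)) ≤ j ^ 5 * 10 := by gcongr; linarith
  have b6 : j ^ 6 * (93 / j) + j ^ 5 * 10 = j ^ 6 * (103 / j) := by
    field_simp
    ring
  exact le_of_mul_le_mul_left (a := j ^ 6) (by linarith) (by positivity)

end Pool.Agent.P.MP_81d17b_pr.LR
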