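import Pool.Agent.P.MP_81d17b_pr.LR.Coord
import Pool.Agent.P.MP_81d17b_pr.LR.Tele

namespace Pool.Agent.P.MP_81d17b_pr.LR

open MeasureTheory ProbabilityTheory Real Finset Function
open scoped RealInnerProductSpace

/-- The constant in the replacement estimate. -/
noncomputable def KL : ℝ := 64 * (8 * (∫ x, x ^ 4 ∂gaussianReal 0 1 + 1) + 1)

theorem m4_nonneg : 0 ≤ ∫ x, x ^ 4 ∂gaussianReal 0 1 := integral_nonneg fun x => by positivity

theorem KL_nonneg : 0 ≤ KL := by
  have := m4_nonneg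
  unfold KL
  positivity

theorem int_pow (n : ℕ) (hn : n ≠ 0) : Integrable (fun x : ℝ => x ^ n) (gaussianReal 0 1) := by
  have h := (memLp_id_gaussianReal' (μ := 0) (v := 1) n (by simp)).integrable_norm_pow hn
  refine h.mono' (by fun_prop) (ae_of_all _ fun x => by simp)

theorem int_sq : ∫ x, x ^ 2 ∂gaussianReal 0 1 = 1 := by
  have h := variance_fun_id_gaussianReal (μ := 0) (v := 1)
  rw [variance_eq_integral (by fun_prop)] at h
  simpa using h

theorem one_dim {F : ℝ → ℝ} (hF : Continuous F) (hb : ∀ t, |F t| ≤ 1) {f0 c2 : ℝ}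
    (h : ∀ t, |(F t + F (-t)) / 2 - f0 - c2 * t ^ 2| ≤ 64 * t ^ 4) {a A : ℝ} (ha : 0 ≤ a)
    (hA : a ≤ A) :
    |(∫ x, F (a * x + √(A ^ 2 - a ^ 2)) ∂gaussianReal 0 1 - F A) +
      (∫ x, F (a * x + -√(A ^ 2 - a ^ 2)) ∂gaussianReal 0 1 - F (-A))| ≤ 2 * KL * A ^ 4 := by
  set r := √(A ^ 2 - a ^ 2) with hr
  have hr0 : 0 ≤ r := sqrt_nonneg _
  have hr2 : r ^ 2 = A ^ 2 - a ^ 2 := sq_sqrt (by nlinarith)
  have hI : ∀ G : ℝ → ℝ, Continuous G → Integrable (fun x => F (G x)) (gaussianReal 0 1) :=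
    fun G hG => (integrable_const 1).mono' (by fun_prop) (ae_of_all _ fun x => hb _)
  have e1 : ∫ x, F (a * x + -r) ∂gaussianReal 0 1 = ∫ x, F (-(a * x + r)) ∂gaussianReal 0 1 := by
    have h1 : (gaussianReal 0 1).map (fun x => -x) = gaussianReal 0 1 := by
      rw [gaussianReal_map_neg, neg_zero]
    conv_lhs => rw [← h1]
    rw [integral_map (by fun_prop) (by fun_prop)]
    congr 1
    funext x
    congr 1
    ring
  have i1 := int_pow 1 (by norm_num)
  have i2 := int_pow 2 (by norm_num)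
  have i4 := int_pow 4 (by norm_num)
  simp only [pow_one] at i1
  have iq : Integrable (fun x => f0 + c2 * (a * x + r) ^ 2) (gaussianReal 0 1) := by
    have : (fun x => f0 + c2 * (a * x + r) ^ 2) =
        fun x => (f0 + c2 * r ^ 2) + ((c2 * a ^ 2) * x ^ 2 + (c2 * 2 * a * r) * x) := by
      funext x
      ring
    rw [this]
    exact (integrable_const _).add ((i2.const_mul _).add (i1.const_mul _))
  have e2 : ∫ x, (f0 + c2 * (a * x + r) ^ 2) ∂gaussianReal 0 1 = f0 + c2 * A ^ 2 := by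
    have : (fun x => f0 + c2 * (a * x + r) ^ 2) =
        fun x => (f0 + c2 * r ^ 2) + ((c2 * a ^ 2) * x ^ 2 + (c2 * 2 * a * r) * x) := by
      funext x
      ring
    have i3 : Integrable (fun x => (c2 * a ^ 2) * x ^ 2 + (c2 * 2 * a * r) * x) (gaussianReal 0 1) :=
      (i2.const_mul _).add (i1.const_mul _)
    rw [this, integral_add (integrable_const _) i3,
      integral_add (i2.const_mul _) (i1.const_mul _), integral_const_mul, integral_const_mul,
      int_sq, integral_id_gaussianReal, hr2]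
    simp
    ring
  have j1 := hI (fun x => a * x + r) (by fun_prop)
  have j2 := hI (fun x => -(a * x + r)) (by fun_prop)
  have hA0 : 0 ≤ A := ha.trans hA
  have a4 : a ^ 4 ≤ A ^ 4 := pow_le_pow_left₀ ha hA 4
  have r4 : r ^ 4 ≤ A ^ 4 := by
    have : r ^ 2 ≤ A ^ 2 := by nlinarith
    have := pow_le_pow_left₀ (sq_nonneg _) this 2
    rwa [← pow_mul, ← pow_mul] at this
  have e3 : |∫ x, ((F (a * x + r) + F (-(a * x + r))) / 2 - (f0 + c2 * (a * x + r) ^ 2))
      ∂gaussianReal 0 1| ≤ ∫ x, 64 * 8 * A ^ 4 * (x ^ 4 + 1) ∂gaussianReal 0 1 := by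
    rw [← Real.norm_eq_abs]
    refine norm_integral_le_of_norm_le ((i4.add (integrable_const 1)).const_mul _)
      (ae_of_all _ fun x => ?_)
    rw [Real.norm_eq_abs, ← sub_sub]
    refine (h _).trans ?_
    have b1 : (a * x + r) ^ 4 ≤ 8 * ((a * x) ^ 4 + r ^ 4) := by
      nlinarith [sq_nonneg ((a * x) ^ 2 - r ^ 2), sq_nonneg ((a * x - r) ^ 2),
        mul_nonneg (sq_nonneg (a * x - r)) (sq_nonneg (a * x + r))]
    have b2 : (a * x) ^ 4 ≤ A ^ 4 * x ^ 4 := by
      rw [mul_pow]
      exact mul_le_mul_of_nonneg_right a4 (by positivity)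
    nlinarith
  have j3 : Integrable (fun x => (F (a * x + r) + F (-(a * x + r))) / 2) (gaussianReal 0 1) :=
    (j1.add j2).div_const 2
  rw [integral_sub j3 iq, integral_div, integral_add j1 j2, e2,
    integral_const_mul, integral_add i4 (integrable_const 1)] at e3
  simp only [integral_const, probReal_univ, smul_eq_mul, one_mul] at e3
  have e4 := h A
  rw [e1]
  unfold KL
  rw [abs_le] at e3 e4 ⊢
  constructor <;> nlinarith

variable {ι S : Type} [Fintype ι] [DecidableEq ι]

theorem mp_update (μ : Measure ℝ) [IsProbabilityMeasure μ] (e : ι) :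
    MeasurePreserving (fun p : (ι → ℝ) × ℝ => update p.1 e p.2)
      ((Measure.pi fun _ => μ).prod μ) (Measure.pi fun _ => μ) := by
  refine ⟨measurable_update', (Measure.pi_eq fun s hs => ?_).symm⟩
  rw [Measure.map_apply measurable_update' (MeasurableSet.univ_pi hs)]
  have h1 : (fun p : (ι → ℝ) × ℝ => update p.1 e p.2) ⁻¹' Set.univ.pi s =
      (Set.univ.pi (update s e Set.univ)) ×ˢ s e := by
    ext p
    simp only [Set.mem_preimage, Set.mem_pi, Set.mem_univ, true_implies, Set.mem_prod]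
    constructor
    · intro h
      refine ⟨fun i => ?_, by simpa using h e⟩
      by_cases hi : i = e
      · subst hi
        simp
      · simpa [update_of_ne hi] using h i
    · rintro ⟨h1, h2⟩ i
      by_cases hi : i = e
      · subst hi
        simpa using h2
      · simpa [update_of_ne hi] using h1 i
  rw [h1, Measure.prod_prod, Measure.pi_pi, ← prod_erase_mul _ _ (mem_univ e),
    ← prod_erase_mul _ _ (mem_univ e)]
  simp only [update_self, measure_univ, mul_one]
  congr 1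
  exact prod_congr rfl fun i hi => by rw [update_of_ne (ne_of_mem_erase hi)]

theorem sum_flip (e : ι) (H : (ι → Bool) → ℝ) :
    ∑ ε, H (update ε e (!ε e)) = ∑ ε, H ε := by
  have hinv : Involutive fun ε : ι → Bool => update ε e (!ε e) := fun ε => by simp
  exact Equiv.sum_comp hinv.toPerm H

/-- Couplings in which those of `D` have been partly replaced by Gaussian variables. -/
noncomputable def hy (A : ι → ℝ) (a : ℝ) (D : Finset ι) (ε : ι → Bool) (g : ι → ℝ) (e : ι) : ℝ :=
  if e ∈ D then a * g e + √(A e ^ 2 - a ^ 2) * sg (ε e) else A e * sg (ε e)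

omit [Fintype ι] in
theorem hy_cont (A : ι → ℝ) (a : ℝ) (D : Finset ι) (ε : ι → Bool) : Continuous (hy A a D ε) := by
  refine continuous_pi fun e => ?_
  unfold hy
  split_ifs <;> fun_prop

variable [Fintype S] [Nonempty S] {s : ι → S → ℝ}

theorem lind_step (hs : ∀ e σ, s e σ = 1 ∨ s e σ = -1) {f : S → S → ℝ} (hf : ∀ σ τ, |f σ τ| ≤ 1)
    {A : ι → ℝ} {a : ℝ} (ha : 0 ≤ a) {D : Finset ι} {e : ι} (he : e ∉ D) (hA : a ≤ A e) :
    ∑ ε, ∫ g, th s f (hy A a D ε g) ∂(Measure.pi fun _ => gaussianReal 0 1) ≤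
      ∑ ε, ∫ g, th s f (hy A a (insert e D) ε g) ∂(Measure.pi fun _ => gaussianReal 0 1) +
        Fintype.card (ι → Bool) * (KL * A e ^ 4) := by
  set γ : Measure (ι → ℝ) := Measure.pi fun _ => gaussianReal 0 1 with hγ
  set r := √(A e ^ 2 - a ^ 2) with hr
  let F : (ι → Bool) → (ι → ℝ) → ℝ → ℝ := fun ε g t => th s f (update (hy A a D ε g) e t)
  have hFb : ∀ ε g t, |F ε g t| ≤ 1 := fun ε g t => th_abs hf _
  have hFc : ∀ ε, Continuous fun p : (ι → ℝ) × ℝ => F ε p.1 (a * p.2 + r * sg (ε e)) := fun ε =>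
    (th_cont f).comp (((hy_cont A a D ε).comp continuous_fst).update e (by fun_prop))
  have hFi : ∀ ε, Integrable (fun p : (ι → ℝ) × ℝ => F ε p.1 (a * p.2 + r * sg (ε e)))
      (γ.prod (gaussianReal 0 1)) := fun ε =>
    (integrable_const 1).mono' (hFc ε).aestronglyMeasurable (ae_of_all _ fun p => hFb _ _ _)
  have e1 : ∀ ε g, th s f (hy A a D ε g) = F ε g (A e * sg (ε e)) := by
    intro ε g
    simp only [F]
    congr 1
    rw [eq_comm, update_eq_self_iff]
    simp [hy, he]
  have e2 : ∀ ε, ∫ g, th s f (hy A a (insert e D) ε g) ∂γ =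
      ∫ g, ∫ x, F ε g (a * x + r * sg (ε e)) ∂gaussianReal 0 1 ∂γ := by
    intro ε
    have hc : Continuous fun g => th s f (hy A a (insert e D) ε g) :=
      (th_cont f).comp (hy_cont A a _ ε)
    have hm : (γ.prod (gaussianReal 0 1)).map (fun p : (ι → ℝ) × ℝ => update p.1 e p.2) = γ :=
      (mp_update (gaussianReal 0 1) e).map_eq
    rw [← integral_prod _ (hFi ε)]
    conv_lhs => rw [← hm]
    rw [integral_map measurable_update'.aemeasurable hc.aestronglyMeasurable]
    congr 1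
    funext p
    simp only [F]
    congr 1
    funext i
    by_cases hi : i = e
    · subst hi
      simp [hy, hr]
    · simp [hy, update_of_ne hi, hi]
  have e3 : ∀ ε, F (update ε e (!ε e)) = F ε := by
    intro ε
    funext g t
    simp only [F]
    congr 1
    funext i
    by_cases hi : i = e
    · subst hi
      simp
    · simp [hy, update_of_ne hi]
  let Φ : (ι → Bool) → (ι → ℝ) → ℝ := fun ε g =>
    ∫ x, F ε g (a * x + r * sg (ε e)) ∂gaussianReal 0 1 - F ε g (A e * sg (ε e))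
  have i1 : ∀ ε, Integrable (fun g => F ε g (A e * sg (ε e))) γ := fun ε =>
    (integrable_const 1).mono' (Continuous.aestronglyMeasurable
      ((th_cont f).comp ((hy_cont A a D ε).update e continuous_const)))
      (ae_of_all _ fun p => hFb _ _ _)
  have iΦ : ∀ ε, Integrable (Φ ε) γ := fun ε => (hFi ε).integral_prod_left.sub (i1 ε)
  have key : ∀ ε, -(2 * KL * A e ^ 4) ≤ ∫ g, Φ ε g ∂γ + ∫ g, Φ (update ε e (!ε e)) g ∂γ := by
    intro ε
    rw [← integral_add (iΦ _) (iΦ _)]
    have : -(2 * KL * A e ^ 4) = ∫ _, -(2 * KL * A e ^ 4) ∂γ := by simp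
    rw [this]
    refine integral_mono (integrable_const _) ((iΦ _).add (iΦ _)) fun g => ?_
    obtain ⟨f0, c2, hc⟩ := even_bound hs hf (hy A a D ε g) e
    have h1 := (abs_le.1 (one_dim (F := F ε g)
      ((th_cont f).comp (continuous_const.update e continuous_id)) (hFb ε g) hc ha hA)).1
    simp only [Φ, e3, update_self, sg_not, mul_neg]
    rcases sg_cases (ε e) with h2 | h2
    · simpa only [h2, mul_one] using h1
    · simp only [h2, mul_neg, mul_one, neg_neg]
      linarith
  have h3 := sum_le_sum fun ε (_ : ε ∈ univ) => key ε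
  rw [sum_add_distrib, sum_flip e fun ε => ∫ g, Φ ε g ∂γ, sum_const, card_univ, nsmul_eq_mul] at h3
  have h4 : ∑ ε, ∫ g, Φ ε g ∂γ = ∑ ε, ∫ g, th s f (hy A a (insert e D) ε g) ∂γ -
      ∑ ε, ∫ g, th s f (hy A a D ε g) ∂γ := by
    rw [← sum_sub_distrib]
    refine sum_congr rfl fun ε _ => ?_
    simp only [e1, e2]
    exact integral_sub (hFi ε).integral_prod_left (i1 ε)
  linarith

theorem lind (hs : ∀ e σ, s e σ = 1 ∨ s e σ = -1) {f : S → S → ℝ} (hf : ∀ σ τ, |f σ τ| ≤ 1)
    {A : ι → ℝ} {a : ℝ} (ha : 0 ≤ a) (D : Finset ι) (hA : ∀ e ∈ D, a ≤ A e) :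
    ∑ ε : ι → Bool, th s f (fun e => A e * sg (ε e)) ≤
      ∑ ε, ∫ g, th s f (hy A a D ε g) ∂(Measure.pi fun _ => gaussianReal 0 1) +
        Fintype.card (ι → Bool) * (KL * ∑ e ∈ D, A e ^ 4) := by
  induction D using Finset.induction_on with
  | empty =>
    have : ∀ ε g, hy A a ∅ ε g = fun e => A e * sg (ε e) := fun ε g => funext fun e => by simp [hy]
    simp [this]
  | insert e D he ih =>
    have h1 := ih fun i hi => hA i (mem_insert_of_mem hi)
    have h2 := lind_step hs hf ha he (hA e (mem_insert_self _ _))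
    rw [sum_insert he]
    linarith

/-- Positivity of the overlap carried by a set `D` of couplings. -/
theorem pair_abs (hs : ∀ e σ, s e σ = 1 ∨ s e σ = -1) {A : ι → ℝ} {a : ℝ} (ha : 0 ≤ a)
    (D : Finset ι) (hA : ∀ e ∈ D, a ≤ A e) {J : ℕ} (hJ : 1 ≤ J)
    (hT : (2 : ℝ) ^ (8 * J ^ 7) ≤ a ^ 2 * D.card) :
    ∑ ε : ι → Bool, th s (fun σ τ => max (-((∑ e ∈ D, s e σ * s e τ) / D.card)) 0)
        (fun e => A e * sg (ε e)) ≤
      Fintype.card (ι → Bool) * (103 / J + KL * ∑ e ∈ D, A e ^ 4) := by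
  have hD : (0 : ℝ) < D.card := by
    by_contra h
    have h0 : (D.card : ℝ) = 0 := le_antisymm (not_lt.1 h) (Nat.cast_nonneg _)
    rw [h0, mul_zero] at hT
    exact absurd hT (not_le.2 (by positivity))
  have hsD : 0 < √(D.card : ℝ) := sqrt_pos.2 hD
  have hs1 : ∀ e σ, |s e σ| = 1 := fun e σ => by rcases hs e σ with h1 | h1 <;> simp [h1]
  have hR : ∀ σ τ, |(∑ e ∈ D, s e σ * s e τ) / D.card| ≤ 1 := by
    intro σ τ
    rw [abs_div, abs_of_pos hD, div_le_one hD]
    refine (abs_sum_le_sum_abs _ _).trans (le_of_eq ?_)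
    simp [abs_mul, hs1]
  refine (lind hs (fun σ τ => ?_) ha D hA).trans ?_
  · rw [abs_of_nonneg (le_max_right _ _)]
    exact max_le ((neg_le_abs _).trans (hR σ τ)) zero_le_one
  rw [mul_add, add_le_add_iff_right, ← nsmul_eq_mul, ← card_univ, ← sum_const]
  refine sum_le_sum fun ε _ => ?_
  let φ : S → EuclideanSpace ℝ ι := fun σ =>
    WithLp.toLp 2 fun e => if e ∈ D then s e σ / √(D.card : ℝ) else 0
  let c : S → ℝ := fun σ => ∑ e, hy A a D ε 0 e * s e σ
  have hin : ∀ σ τ, ⟪φ σ, φ τ⟫ = (∑ e ∈ D, s e σ * s e τ) / D.card := by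
    intro σ τ
    rw [PiLp.inner_apply, sum_div, ← sum_filter_add_sum_filter_not univ (· ∈ D)]
    rw [sum_eq_zero (s := univ.filter (· ∉ D)) fun e he => by simp [φ, (mem_filter.1 he).2],
      add_zero, filter_mem_eq_inter, univ_inter]
    refine sum_congr rfl fun e he => ?_
    simp only [φ, he, if_true, RCLike.inner_apply, conj_trivial]
    rw [div_mul_div_comm, mul_self_sqrt hD.le, mul_comm]
  have hφ : ∀ σ, ‖φ σ‖ ≤ 1 := by
    intro σ
    rw [← sq_le_one_iff₀ (norm_nonneg _), ← real_inner_self_eq_norm_sq, hin]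
    exact (le_abs_self _).trans (hR σ σ)
  have h1 := posit (c := c) hφ hJ hT 0
  refine le_trans (le_of_eq ?_) h1
  have hc : Continuous fun g : EuclideanSpace ℝ ι => YY c φ (0 + √(a ^ 2 * D.card) • g) :=
    (lin_YY hφ).1.comp (by fun_prop)
  rw [Q, ← map_pi_eq_stdGaussian, integral_map (by fun_prop) hc.aestronglyMeasurable]
  congr 1
  funext g
  have h2 : ∀ σ, c σ + ⟪φ σ, 0 + √(a ^ 2 * D.card) • WithLp.toLp 2 g⟫ =
      ∑ e, hy A a D ε g e * s e σ := by
    intro σ
    rw [zero_add, PiLp.inner_apply, ← sum_add_distrib, sqrt_mul (sq_nonneg a), sqrt_sq ha]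
    refine sum_congr rfl fun e _ => ?_
    by_cases he : e ∈ D
    · simp only [φ, hy, he, if_true, RCLike.inner_apply, conj_trivial, PiLp.smul_apply,
        smul_eq_mul, Pi.zero_apply]
      field_simp
      ring
    · simp [φ, hy, he]
  simp only [th, YY, GG, Gf, Zf, gw, h2, hin]

end Pool.Agent.P.MP_81d17b_pr.LR
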