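import Pool.Agent.P.MP_81d17b_pr.LR.Swap

namespace Pool.Agent.P.MP_81d17b_pr.LR

open MeasureTheory ProbabilityTheory Real Finset Function
open scoped RealInnerProductSpace

variable {ι S : Type} [Fintype ι] [DecidableEq ι]

theorem mp_update' (μ ν : ι → Measure ℝ) [∀ i, IsProbabilityMeasure (μ i)]
    [∀ i, IsProbabilityMeasure (ν i)] (e : ι) (h : ∀ i, i ≠ e → ν i = μ i) :
    MeasurePreserving (fun p : (ι → ℝ) × ℝ => update p.1 e p.2)
      ((Measure.pi μ).prod (ν e)) (Measure.pi ν) := by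
  refine ⟨measurable_update', (Measure.pi_eq fun s hs => ?_).symm⟩
  rw [Measure.map_apply measurable_update' (MeasurableSet.univ_pi hs)]
  have h1 : (fun p : (ι → ℝ) × ℝ => update p.1 e p.2) ⁻¹' Set.univ.pi s =
      (Set.univ.pi (update s e Set.univ)) ×ˢ s e := by
    ext p
    simp only [Set.mem_preimage, Set.mem_pi, Set.mem_univ, true_implies, Set.mem_prod]
    constructor
    · intro h
      refine ⟨fun i => ?_, by simpa using h e⟩
      by_cases hi : i = e
      · subst hi
        simp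
      · simpa [update_of_ne hi] using h i
    · rintro ⟨h1, h2⟩ i
      by_cases hi : i = e
      · subst hi
        simpa using h2
      · simpa [update_of_ne hi] using h1 i
  rw [h1, Measure.prod_prod, Measure.pi_pi, ← prod_erase_mul _ _ (mem_univ e),
    ← prod_erase_mul _ _ (mem_univ e)]
  simp only [update_self, measure_univ, mul_one]
  congr 1
  exact prod_congr rfl fun i hi => by rw [update_of_ne (ne_of_mem_erase hi), h i (ne_of_mem_erase hi)]

theorem int_upd {G : (ι → ℝ) → ℝ} (hG : Continuous G) {M : ℝ} (hb : ∀ h, |G h| ≤ M) (e : ι)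
    (μ : Measure (ι → ℝ)) (m : Measure ℝ) [IsProbabilityMeasure μ] [IsProbabilityMeasure m] :
    Integrable (fun p : (ι → ℝ) × ℝ => G (update p.1 e p.2)) (μ.prod m) :=
  int_bdd (hG.measurable.comp measurable_update') fun _ => hb _

theorem int_update (μ ν : ι → Measure ℝ) [∀ i, IsProbabilityMeasure (μ i)]
    [∀ i, IsProbabilityMeasure (ν i)] (e : ι) (h : ∀ i, i ≠ e → ν i = μ i)
    {G : (ι → ℝ) → ℝ} (hG : Continuous G) {M : ℝ} (hb : ∀ h, |G h| ≤ M) :
    ∫ y, G y ∂Measure.pi ν = ∫ y, ∫ t, G (update y e t) ∂ν e ∂Measure.pi μ := by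
  rw [← integral_prod _ (int_upd hG hb e _ _), ← (mp_update' μ ν e h).map_eq,
    integral_map measurable_update'.aemeasurable hG.aestronglyMeasurable]

theorem swap_all {G : (ι → ℝ) → ℝ} (hG : Continuous G) {M : ℝ} (hb : ∀ h, |G h| ≤ M)
    (μ : ι → Measure ℝ) [∀ i, IsProbabilityMeasure (μ i)] (err : ι → ℝ) (D : Finset ι) :
    ∀ ν : ι → Measure ℝ, ∀ _ : ∀ i, IsProbabilityMeasure (ν i), (∀ i, i ∉ D → ν i = μ i) →
      (∀ e ∈ D, ∀ y, ∫ t, G (update y e t) ∂μ e ≤ ∫ t, G (update y e t) ∂ν e + err e) →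
      ∫ y, G y ∂Measure.pi μ ≤ ∫ y, G y ∂Measure.pi ν + ∑ e ∈ D, err e := by
  induction D using Finset.induction_on with
  | empty =>
    intro ν _ h _
    have : ν = μ := funext fun i => h i (notMem_empty i)
    subst this
    simp
  | insert e D he ih =>
    intro ν _ h1 h2
    let κ : ι → Measure ℝ := fun i => if i = e then μ i else ν i
    have hκ : ∀ i, IsProbabilityMeasure (κ i) := fun i => by
      simp only [κ]
      split_ifs <;> infer_instance
    have a1 := ih κ hκ (fun i hi => by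
      simp only [κ]
      split_ifs with h3
      · rfl
      · exact h1 i fun h => (mem_insert.1 h).elim h3 hi) fun i hi y => by
      have : κ i = ν i := if_neg fun (h : i = e) => he (h ▸ hi)
      rw [this]
      exact h2 i (mem_insert_of_mem hi) y
    have a2 : ∫ y, G y ∂Measure.pi κ ≤ ∫ y, G y ∂Measure.pi ν + err e := by
      have hκe : κ e = μ e := if_pos rfl
      rw [int_update ν κ e (fun i hi => if_neg hi) hG hb, int_update ν ν e (fun _ _ => rfl) hG hb,
        hκe]
      have := integral_mono (int_upd hG hb e (Measure.pi ν) (μ e)).integral_prod_left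
        ((int_upd hG hb e (Measure.pi ν) (ν e)).integral_prod_left.add (integrable_const (err e)))
        (h2 e (mem_insert_self _ _))
      simp only [Pi.add_apply] at this
      rw [integral_add (int_upd hG hb e (Measure.pi ν) (ν e)).integral_prod_left
        (integrable_const _)] at this
      simpa using this
    rw [sum_insert he]
    linarith

variable [Fintype S] [Nonempty S] {s : ι → S → ℝ}

theorem shift_bound (hs : ∀ e σ, s e σ = 1 ∨ s e σ = -1) {f : S → S → ℝ} (hf : ∀ σ τ, |f σ τ| ≤ 1)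
    (h : ι → ℝ) (e : ι) (t : ℝ) : ∃ c, |c| ≤ 24 ∧ ∀ x,
      |(th s f (update h e (t + x)) + th s f (update h e (t - x))) / 2 - th s f (update h e t) -
        c * x ^ 2| ≤ 64 * x ^ 4 := by
  let s' : Option ι → S → ℝ := fun o => o.elim (s e) s
  let h' : Option ι → ℝ := fun o => o.elim 0 (update h e t)
  have e1 : ∀ x, th s' f (update h' none x) = th s f (update h e (t + x)) := by
    intro x
    have : ∀ σ, ∑ o, update h' none x o * s' o σ = ∑ i, update h e (t + x) i * s i σ := by
      intro σ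
      rw [Fintype.sum_option, ← sum_erase_add _ _ (mem_univ e), ← sum_erase_add _ _ (mem_univ e)]
      have a1 : ∑ i ∈ univ.erase e, update h' none x (some i) * s' (some i) σ =
          ∑ i ∈ univ.erase e, update h e (t + x) i * s i σ :=
        sum_congr rfl fun i hi => by simp [h', s', update_of_ne (ne_of_mem_erase hi)]
      rw [a1]
      simp [h', s']
      ring
    simp only [th, gw, this]
  obtain ⟨f0, c, hc⟩ := even_bound (s := s') (fun o σ => by cases o <;> exact hs _ _) hf h' none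
  simp only [e1, ← sub_eq_add_neg] at hc
  have h0 : f0 = th s f (update h e t) := by
    have := hc 0
    simp only [add_zero, sub_zero, ne_eq, OfNat.ofNat_ne_zero, not_false_eq_true, zero_pow,
      mul_zero, abs_nonpos_iff] at this
    linarith
  subst h0
  refine ⟨c, ?_, hc⟩
  have a1 := hc (1 / 2)
  have a2 := th_abs (s := s) hf (update h e (t + 1 / 2))
  have a3 := th_abs (s := s) hf (update h e (t - 1 / 2))
  have a4 := th_abs (s := s) hf (update h e t)
  rw [abs_le] at *
  constructor <;> linarith [a1.1, a1.2, a2.1, a2.2, a3.1, a3.2, a4.1, a4.2]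

theorem R_abs (hs : ∀ e σ, s e σ = 1 ∨ s e σ = -1) (D : Finset ι) (σ τ : S) :
    |(∑ e ∈ D, s e σ * s e τ) / D.card| ≤ 1 := by
  have hs1 : ∀ e σ, |s e σ| = 1 := fun e σ => by rcases hs e σ with h1 | h1 <;> simp [h1]
  rw [abs_div, Nat.abs_cast]
  refine div_le_one_of_le₀ ((abs_sum_le_sum_abs _ _).trans (le_of_eq ?_)) (Nat.cast_nonneg _)
  simp [abs_mul, hs1]

theorem Rneg_abs (hs : ∀ e σ, s e σ = 1 ∨ s e σ = -1) (D : Finset ι) (σ τ : S) :
    |max (-((∑ e ∈ D, s e σ * s e τ) / D.card)) 0| ≤ 1 := by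
  rw [abs_of_nonneg (le_max_right _ _)]
  exact max_le ((neg_le_abs _).trans (R_abs hs D σ τ)) zero_le_one

theorem posit_pi (hs : ∀ e σ, s e σ = 1 ∨ s e σ = -1) {a : ℝ} (ha : 0 ≤ a) (D : Finset ι)
    {J : ℕ} (hJ : 1 ≤ J) (hT : (2 : ℝ) ^ (8 * J ^ 7) ≤ a ^ 2 * D.card) (y : ι → ℝ) :
    ∫ g, th s (fun σ τ => max (-((∑ e ∈ D, s e σ * s e τ) / D.card)) 0)
        (fun e => y e + (if e ∈ D then a else 0) * g e) ∂(Measure.pi fun _ => gaussianReal 0 1) ≤
      103 / J := by
  have hD : (0 : ℝ) < D.card := by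
    by_contra h
    have h0 : (D.card : ℝ) = 0 := le_antisymm (not_lt.1 h) (Nat.cast_nonneg _)
    rw [h0, mul_zero] at hT
    exact absurd hT (not_le.2 (by positivity))
  have hsD : 0 < √(D.card : ℝ) := sqrt_pos.2 hD
  let φ : S → EuclideanSpace ℝ ι := fun σ =>
    WithLp.toLp 2 fun e => if e ∈ D then s e σ / √(D.card : ℝ) else 0
  let c : S → ℝ := fun σ => ∑ e, y e * s e σ
  have hin : ∀ σ τ, ⟪φ σ, φ τ⟫ = (∑ e ∈ D, s e σ * s e τ) / D.card := by
    intro σ τ
    rw [PiLp.inner_apply, sum_div, ← sum_filter_add_sum_filter_not univ (· ∈ D)]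
    rw [sum_eq_zero (s := univ.filter (· ∉ D)) fun e he => by simp [φ, (mem_filter.1 he).2],
      add_zero, filter_mem_eq_inter, univ_inter]
    refine sum_congr rfl fun e he => ?_
    simp only [φ, he, if_true, RCLike.inner_apply, conj_trivial]
    rw [div_mul_div_comm, mul_self_sqrt hD.le, mul_comm]
  have hφ : ∀ σ, ‖φ σ‖ ≤ 1 := by
    intro σ
    rw [← sq_le_one_iff₀ (norm_nonneg _), ← real_inner_self_eq_norm_sq, hin]
    exact (le_abs_self _).trans (R_abs hs D σ σ)
  have h1 := posit (c := c) hφ hJ hT 0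
  refine le_trans (le_of_eq ?_) h1
  have hc : Continuous fun g : EuclideanSpace ℝ ι => YY c φ (0 + √(a ^ 2 * D.card) • g) :=
    (lin_YY hφ).1.comp (by fun_prop)
  rw [Q, ← map_pi_eq_stdGaussian, integral_map (by fun_prop) hc.aestronglyMeasurable]
  congr 1
  funext g
  have h2 : ∀ σ, c σ + ⟪φ σ, 0 + √(a ^ 2 * D.card) • WithLp.toLp 2 g⟫ =
      ∑ e, (y e + (if e ∈ D then a else 0) * g e) * s e σ := by
    intro σ
    rw [zero_add, PiLp.inner_apply, ← sum_add_distrib, sqrt_mul (sq_nonneg a), sqrt_sq ha]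
    refine sum_congr rfl fun e _ => ?_
    by_cases he : e ∈ D
    · simp only [φ, he, if_true, RCLike.inner_apply, conj_trivial, PiLp.smul_apply,
        smul_eq_mul]
      field_simp
    · simp [φ, he]
  simp only [th, YY, GG, Gf, Zf, gw, h2, hin]

theorem pair_gen (hs : ∀ e σ, s e σ = 1 ∨ s e σ = -1) {β : ℝ} (hβ : 0 < β) {p : ι → ℝ}
    (hp0 : ∀ e, 0 ≤ p e) (hp1 : ∀ e, p e ≤ 1) (D : Finset ι) {lo hi τ : ℝ}
    (hp : ∀ e ∈ D, lo ≤ p e ∧ p e ≤ hi) (hτ0 : 0 < τ) (hτ1 : τ ≤ β) {J : ℕ} (hJ : 1 ≤ J)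
    (hT : (2 : ℝ) ^ (8 * J ^ 7) * β ≤ c0 * τ ^ 3 * (lo * D.card)) :
    ∫ y, th s (fun σ τ => max (-((∑ e ∈ D, s e σ * s e τ) / D.card)) 0) (fun e => β * y e)
        ∂(Measure.pi fun e => lawp (p e)) ≤
      103 / J + KL * 2 ^ (8 * J ^ 7) * (hi + τ ^ 2) := by
  set T : ℝ := 2 ^ (8 * J ^ 7) with hTd
  have hT0 : 0 < T := by positivity
  set f : S → S → ℝ := fun σ τ => max (-((∑ e ∈ D, s e σ * s e τ) / D.card)) 0 with hf
  have hf1 : ∀ σ τ, |f σ τ| ≤ 1 := Rneg_abs hs D
  have hc0 := c0_pos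
  have hlD : 0 < lo * D.card := pos_of_mul_pos_right
    (lt_of_lt_of_le (by positivity) hT) (by positivity)
  have hD : (0 : ℝ) < D.card := by
    rcases (Nat.cast_nonneg (α := ℝ) D.card).eq_or_lt with h | h
    · rw [← h, mul_zero] at hlD
      exact absurd hlD (lt_irrefl _)
    · exact h
  set u := τ / β with hu
  have hu0 : 0 < u := by positivity
  have hv := vv_ge hu0 ((div_le_one hβ).2 hτ1)
  have hv0 : 0 < vv u := lt_of_lt_of_le (by positivity) hv
  set p' := T / (β ^ 2 * vv u * D.card) with hp'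
  have hp'0 : 0 ≤ p' := by positivity
  have hp'1 : p' ≤ lo := by
    rw [hp', div_le_iff₀ (by positivity)]
    have a1 : c0 * τ ^ 3 = c0 * u ^ 3 * β ^ 3 := by rw [hu]; field_simp
    have a2 : c0 * u ^ 3 * β ^ 3 * (lo * D.card) ≤ vv u * β ^ 3 * (lo * D.card) := by gcongr
    refine le_of_mul_le_mul_right ?_ hβ
    rw [a1] at hT
    linarith
  set a := √(p' * vv u) with ha
  have ha0 : 0 ≤ a := sqrt_nonneg _
  have ha2 : a ^ 2 = p' * vv u := sq_sqrt (by positivity)
  have haT : (β * a) ^ 2 * D.card = T := by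
    rw [mul_pow, ha2, hp']
    field_simp
  have hμ : ∀ e, IsProbabilityMeasure (lawp (p e)) := fun e => lawp_prob (hp0 e) (hp1 e)
  let ν2 : ι → Measure ℝ := fun e => if e ∈ D then law2 (p e) p' u else lawp (p e)
  have hν2 : ∀ e, IsProbabilityMeasure (ν2 e) := fun e => by
    simp only [ν2]
    split_ifs with he
    · exact law2_prob hp'0 (hp'1.trans (hp e he).1) (hp1 e) u
    · exact hμ e
  let ψ : ι → ℝ × ℝ → ℝ := fun e q => q.1 + (if e ∈ D then a else 0) * q.2
  have hψ : ∀ e, Measurable (ψ e) := fun e => by fun_prop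
  let ν1 : ι → Measure ℝ := fun e => ((ν2 e).prod (gaussianReal 0 1)).map (ψ e)
  have hν1 : ∀ e, IsProbabilityMeasure (ν1 e) := fun e =>
    Measure.isProbabilityMeasure_map (hψ e).aemeasurable
  let G : (ι → ℝ) → ℝ := fun y => th s f fun e => β * y e
  have hG : Continuous G := (th_cont f).comp (by fun_prop)
  have hGb : ∀ y, |G y| ≤ 1 := fun y => th_abs hf1 _
  have h1 := swap_all hG hGb (fun e => lawp (p e)) (fun _ => (β * a) ^ 2 * (KL * (hi + τ ^ 2))) D
    ν1 hν1 (fun e he => by
      have : ψ e = Prod.fst := funext fun q => by simp [ψ, he]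
      simp only [ν1, ν2, this, if_neg he, Measure.map_fst_prod, measure_univ, one_smul])
    fun e he y => by
      have hFc : Continuous fun t => G (update y e t) := hG.comp (continuous_const.update e continuous_id)
      have e1 : ∀ t, G (update y e t) = th s f (update (fun i => β * y i) e (β * t)) := fun t => by
        simp only [G]
        congr 1
        funext i
        by_cases hi : i = e
        · subst hi
          simp
        · simp [update_of_ne hi]
      have k := edge_swap hFc (fun t => hGb _) (A2 := 24 * β ^ 2) (A4 := 64 * β ^ 4) (by positivity)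
        (fun t => by
          obtain ⟨c, hc1, hc2⟩ := shift_bound hs hf1 (fun i => β * y i) e (β * t)
          refine ⟨c * β ^ 2, ?_, fun x => ?_⟩
          · rw [abs_mul, abs_of_nonneg (sq_nonneg β)]
            exact mul_le_mul_of_nonneg_right hc1 (sq_nonneg β)
          · simpa only [e1, mul_add, mul_sub, mul_pow, mul_assoc] using hc2 (β * x))
        hp'0 (hp'1.trans (hp e he).1) (hp1 e) ha2
      have e2 : ∫ t, G (update y e t) ∂ν1 e =
          ∫ z, ∫ g, G (update y e (z + a * g)) ∂gaussianReal 0 1 ∂law2 (p e) p' u := by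
        have := law2_prob hp'0 (hp'1.trans (hp e he).1) (hp1 e) u
        simp only [ν1, ν2, if_pos he]
        have hI : Integrable (fun q : ℝ × ℝ => G (update y e (ψ e q)))
            ((law2 (p e) p' u).prod (gaussianReal 0 1)) :=
          int_bdd (hFc.measurable.comp (hψ e)) fun _ => hGb _
        rw [integral_map (hψ e).aemeasurable hFc.aestronglyMeasurable, integral_prod _ hI]
        simp only [ψ, if_pos he]
      rw [e2]
      refine k.trans (add_le_add le_rfl ?_)
      have m0 := m4_nonneg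
      have b1 : (β * u) = τ := by rw [hu]; field_simp
      have b2 : a ^ 2 * (2 * p e * (24 * β ^ 2) +
          64 * β ^ 4 * (2 * ∫ x, x ^ 4 ∂gaussianReal 0 1 + 1) * u ^ 2) = (β * a) ^ 2 *
          (48 * p e + 64 * (2 * ∫ x, x ^ 4 ∂gaussianReal 0 1 + 1) * τ ^ 2) := by
        rw [← b1]
        ring
      rw [b2]
      refine mul_le_mul_of_nonneg_left ?_ (sq_nonneg _)
      unfold KL
      nlinarith [(hp e he).2, hp0 e, sq_nonneg τ, mul_nonneg m0 (sq_nonneg τ),
        mul_nonneg m0 ((hp0 e).trans (hp e he).2)]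
  rw [sum_const, nsmul_eq_mul, ← mul_assoc, mul_comm (D.card : ℝ), haT] at h1
  refine h1.trans (add_le_add ?_ (le_of_eq (by ring)))
  have m1 : MeasurePreserving (fun (ω : ι → ℝ × ℝ) e => ψ e (ω e))
      (Measure.pi fun e => (ν2 e).prod (gaussianReal 0 1)) (Measure.pi ν1) :=
    measurePreserving_pi _ _ fun e => ⟨hψ e, rfl⟩
  have m2 := (measurePreserving_arrowProdEquivProdArrow ℝ ℝ ι ν2
    fun _ => gaussianReal 0 1).symm
  have m3 := m1.comp m2
  have hI : Integrable (fun x => G (((fun (ω : ι → ℝ × ℝ) e => ψ e (ω e)) ∘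
      (MeasurableEquiv.arrowProdEquivProdArrow ℝ ℝ ι).symm) x))
      ((Measure.pi ν2).prod (Measure.pi fun _ => gaussianReal 0 1)) :=
    int_bdd (hG.measurable.comp m3.measurable) fun _ => hGb _
  rw [← m3.map_eq, integral_map m3.measurable.aemeasurable hG.aestronglyMeasurable,
    integral_prod _ hI]
  have h2 : ∀ y : ι → ℝ, ∫ g, G (((fun (ω : ι → ℝ × ℝ) e => ψ e (ω e)) ∘
      (MeasurableEquiv.arrowProdEquivProdArrow ℝ ℝ ι).symm) (y, g))
        ∂(Measure.pi fun _ => gaussianReal 0 1) ≤ 103 / J := by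
    intro y
    refine le_trans (le_of_eq ?_) (posit_pi hs (mul_nonneg hβ.le ha0) D hJ haT.ge fun e => β * y e)
    congr 1
    funext g
    simp only [G]
    congr 1
    funext e
    change β * (y e + (if e ∈ D then a else 0) * g e) = _
    split_ifs <;> ring
  simpa using integral_mono hI.integral_prod_left (integrable_const _) h2

end Pool.Agent.P.MP_81d17b_pr.LR
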