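import Pool.Agent.P.MP_81d17b_pr.LR.Geo

namespace Pool.Agent.P.MP_81d17b_pr.LR

open Real Finset Function

theorem chain {P : ℕ → ℝ → Prop} (hP : ∀ n q q', P n q → q' ≤ q → P n q') {nx : ℕ → ℕ} {k0 : ℕ}
    {f : ℕ → ℝ} {K ρ q0 : ℝ} (hK : 0 ≤ K) (hρ0 : 0 ≤ ρ) (hρ : ρ < 1) (hf0 : ∀ k, 0 ≤ f k)
    (hnx : ∀ k, k0 ≤ k → k < nx k) (hf : ∀ k, k0 ≤ k → f (nx k) ≤ ρ * f k)
    (step : ∀ k, k0 ≤ k → ∀ n q, 2 ^ nx k ≤ n → n ≤ 2 ^ nx (nx k) → P (2 ^ k) q → P n (q - K * f k))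
    (init : P (2 ^ k0) q0) (n : ℕ) (hn : 2 ^ nx k0 ≤ n) : P n (q0 - K / (1 - ρ) * f k0) := by
  set K2 := K / (1 - ρ) with hK2
  have hK0 : 0 ≤ K2 := div_nonneg hK (by linarith)
  have e : K = K2 - ρ * K2 := by
    rw [hK2]
    have : 1 - ρ ≠ 0 := by linarith
    field_simp
  have main : ∀ m k, k0 ≤ k → n ≤ k + m → 2 ^ nx k ≤ n → P (2 ^ k) (q0 - K2 * f k0 + K2 * f k) →
      P n (q0 - K2 * f k0) := by
    intro m
    induction m with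
    | zero =>
      intro k hk h1 h2 _
      have := hnx k hk
      have := Nat.lt_two_pow_self (n := nx k)
      omega
    | succ m ih =>
      intro k hk h1 h2 h3
      have a1 := hnx k hk
      rcases le_total n (2 ^ nx (nx k)) with h4 | h4
      · refine hP _ _ _ (step k hk n _ h2 h4 h3) ?_
        rw [e]
        nlinarith [mul_nonneg (mul_nonneg hρ0 hK0) (hf0 k)]
      · refine ih (nx k) (by omega) (by omega) h4 (hP _ _ _ (step k hk _ _ le_rfl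
          (Nat.pow_le_pow_right (by norm_num) (hnx _ (by omega)).le) h3) ?_)
        rw [e]
        nlinarith [mul_le_mul_of_nonneg_left (hf k hk) hK0]
  exact main n k0 le_rfl (by omega) hn (hP _ _ _ init (by linarith))

theorem nx_le (p k : ℕ) : ((k + 2 * (k / p) : ℕ) : ℝ) ≤ k * (1 + 2 / p) := by
  have := Nat.cast_div_le (α := ℝ) (m := k) (n := p)
  push_cast
  have e : (k : ℝ) * (1 + 2 / p) = k + 2 * (k / p) := by ring
  linarith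

theorem nx_ge {p k : ℕ} (hp : 0 < p) (hk : p ≤ k) :
    (k : ℝ) * (1 + 1 / p) ≤ ((k + 2 * (k / p) : ℕ) : ℝ) := by
  have h1 := Nat.div_add_mod k p
  have h2 := Nat.mod_lt k hp
  have h3 : p * 1 ≤ p * (k / p) := Nat.mul_le_mul_left p ((Nat.le_div_iff_mul_le hp).2 (by omega))
  have h4 : k ≤ 2 * (p * (k / p)) := by omega
  have h5 : (k : ℝ) ≤ 2 * (p * (k / p : ℕ)) := by exact_mod_cast h4
  have hp' : (0 : ℝ) < p := by exact_mod_cast hp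
  have h6 : (k : ℝ) / p ≤ 2 * (k / p : ℕ) := by
    rw [div_le_iff₀ hp']
    linarith
  push_cast
  have e : (k : ℝ) * (1 + 1 / p) = k + k / p := by ring
  linarith

theorem b_ge {p : ℕ} (hp : 0 < p) (k : ℕ) : (k : ℝ) ≤ p * ((2 ^ (k / p) : ℕ) : ℝ) := by
  have h1 := Nat.div_add_mod k p
  have h2 := Nat.mod_lt k hp
  have h3 : p * (k / p + 1) ≤ p * 2 ^ (k / p) := Nat.mul_le_mul_left p Nat.lt_two_pow_self
  have h4 : k ≤ p * 2 ^ (k / p) := by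
    rw [mul_add, mul_one] at h3
    omega
  exact_mod_cast h4

theorem T_bound {d p k n : ℕ} {α c β : ℝ} (hα : 0 ≤ α) (hc : 0 < c) (hβ : 1 ≤ β) (hp : 0 < p)
    (hp2 : 16 * α ≤ (d - α) * p) (hn0 : 0 < n)
    (hn : n ≤ 2 ^ (k + 2 * (k / p) + 2 * ((k + 2 * (k / p)) / p))) :
    c ^ 2 * (2 : ℝ) ^ ((d - α) * k) ≤
      (β * c * (n : ℝ) ^ (-α)) ^ 2 * ((((2 ^ k : ℕ) : ℝ)) ^ d * ((2 ^ k : ℕ) : ℝ) ^ d) := by
  have hp' : (1 : ℝ) ≤ p := by exact_mod_cast hp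
  set k2 := k + 2 * (k / p) + 2 * ((k + 2 * (k / p)) / p) with hk2
  have h1 : (k2 : ℝ) ≤ k * (1 + 8 / p) := by
    have a1 := nx_le p (k + 2 * (k / p))
    have a2 := nx_le p k
    have a3 : (1 + 2 / (p : ℝ)) * (1 + 2 / p) ≤ 1 + 8 / p := by
      have b1 : 1 / (p : ℝ) ≤ 1 := (div_le_one (by linarith)).2 hp'
      have b2 : 0 ≤ 1 / (p : ℝ) := by positivity
      have b3 : 2 / (p : ℝ) = 2 * (1 / p) := by ring
      have b4 : 8 / (p : ℝ) = 8 * (1 / p) := by ring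
      rw [b3, b4]
      nlinarith
    calc (k2 : ℝ) ≤ ((k + 2 * (k / p) : ℕ) : ℝ) * (1 + 2 / p) := a1
      _ ≤ k * (1 + 2 / p) * (1 + 2 / p) := by gcongr
      _ ≤ _ := by rw [mul_assoc]; gcongr
  have h2 : (2 : ℝ) ^ (-α * (k * (1 + 8 / p))) ≤ (n : ℝ) ^ (-α) := by
    have a1 : (n : ℝ) ≤ 2 ^ (k2 : ℝ) := by
      rw [rpow_natCast]
      exact_mod_cast hn
    calc (2 : ℝ) ^ (-α * (k * (1 + 8 / p))) ≤ 2 ^ (k2 * -α) :=
          rpow_le_rpow_of_exponent_le (by norm_num) (by nlinarith)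
      _ = (2 ^ (k2 : ℝ)) ^ (-α) := rpow_mul (by norm_num) _ _
      _ ≤ _ := rpow_le_rpow_of_nonpos (by exact_mod_cast hn0) a1 (by linarith)
  have h3 : (((2 ^ k : ℕ) : ℝ)) ^ d = (2 : ℝ) ^ ((k : ℝ) * d) := by
    rw [rpow_mul (by norm_num), rpow_natCast, rpow_natCast]
    push_cast
    rfl
  have h4 : (d - α) * k ≤ -α * (k * (1 + 8 / p)) * 2 + (k * d + k * d) := by
    have a1 : 16 * α / p ≤ d - α := by
      rw [div_le_iff₀ (by linarith)]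
      exact hp2
    have a2 := mul_le_mul_of_nonneg_left a1 (Nat.cast_nonneg (α := ℝ) k)
    have a3 : -α * (k * (1 + 8 / p)) * 2 = -2 * α * k - k * (16 * α / p) := by ring
    linarith
  calc c ^ 2 * (2 : ℝ) ^ ((d - α) * k) ≤ c ^ 2 * 2 ^ (-α * (k * (1 + 8 / p)) * 2 + (k * d + k * d)) :=
        mul_le_mul_of_nonneg_left (rpow_le_rpow_of_exponent_le (by norm_num) h4) (sq_nonneg c)
    _ = (1 * c * 2 ^ (-α * (k * (1 + 8 / p)))) ^ 2 * (2 ^ ((k : ℝ) * d) * 2 ^ ((k : ℝ) * d)) := by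
        rw [rpow_add (by norm_num), rpow_add (by norm_num), rpow_mul (by norm_num) _ 2, rpow_two]
        ring
    _ ≤ _ := by
        rw [h3]
        gcongr

theorem L_bound {d : ℕ} {α C β B b N : ℝ} (hα : 1 / 4 ≤ α) (hC : 0 ≤ C) (hβ : 0 ≤ β) (hb : 1 ≤ b)
    (hN : 0 < N) (h : β ≤ B * N ^ (α - d / 2)) :
    N ^ d * N ^ d * (β * C * (b * N) ^ (-α)) ^ 4 ≤ (B * C) ^ 4 / b := by
  have hb0 : 0 < b := by linarith
  have h1 : β * C * (b * N) ^ (-α) ≤ B * C * b ^ (-α) * N ^ (-(d / 2 : ℝ)) := by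
    calc _ ≤ B * N ^ (α - d / 2) * C * (b * N) ^ (-α) := by gcongr
      _ = B * C * b ^ (-α) * (N ^ (α - d / 2) * N ^ (-α)) := by
        rw [mul_rpow hb0.le hN.le]
        ring
      _ = _ := by
        rw [← rpow_add hN]
        congr 2
        ring
  have h2 : N ^ d * N ^ d * (N ^ (-(d / 2 : ℝ))) ^ 4 = 1 := by
    rw [← rpow_natCast N d, ← rpow_natCast _ 4, ← rpow_mul hN.le, ← rpow_add hN, ← rpow_add hN,
      ← rpow_zero N]
    congr 1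
    push_cast
    ring
  have h3 : (b ^ (-α)) ^ 4 ≤ b⁻¹ := by
    rw [← rpow_natCast _ 4, ← rpow_mul hb0.le, ← rpow_neg_one]
    exact rpow_le_rpow_of_exponent_le hb (by push_cast; linarith)
  calc _ ≤ N ^ d * N ^ d * (B * C * b ^ (-α) * N ^ (-(d / 2 : ℝ))) ^ 4 := by gcongr
    _ = (B * C) ^ 4 * (b ^ (-α)) ^ 4 * (N ^ d * N ^ d * (N ^ (-(d / 2 : ℝ))) ^ 4) := by ring
    _ ≤ _ := by
      rw [h2, mul_one, div_eq_mul_inv]
      exact mul_le_mul_of_nonneg_left h3 (by positivity)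

variable {d : ℕ} {Λ : Finset (Fin d → ℤ)} {A : Sym2 Λ → ℝ}

theorem scale_step (hd : 1 ≤ d) {α c C β B η : ℝ} (h1 : (d : ℝ) / 2 < α) (h2 : α < d) (hc : 0 < c)
    (hC : 0 ≤ C) (hβ : 1 ≤ β)
    (hA : ∀ x y : Λ, x ≠ y → β * c * dist x.1 y.1 ^ (-α) ≤ A s(x, y))
    (hA' : ∀ x y : Λ, x ≠ y → A s(x, y) ≤ β * C * dist x.1 y.1 ^ (-α))
    {p k n : ℕ} (hp : 0 < p) (hp2 : 16 * α ≤ (d - α) * p) (hη0 : 0 < η) (hη1 : η ≤ 1)
    (hη2 : 16 * η ≤ d - α) (hk1 : 1 ≤ η * ((k : ℝ) ^ (1 / 14 : ℝ)) ^ 2)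
    (hk2 : 1 ≤ c ^ 2 * (2 : ℝ) ^ ((d - α) * k / 2))
    (hB : β ≤ B * ((2 ^ k : ℕ) : ℝ) ^ (α - d / 2)) (hn1 : 2 ^ (k + 2 * (k / p)) ≤ n)
    (hn2 : n ≤ 2 ^ (k + 2 * (k / p) + 2 * ((k + 2 * (k / p)) / p))) {q : ℝ}
    (hq : ∀ z, cube z (2 ^ k) ⊆ Λ → q ≤ E2 A fun σ τ => |mB (cV Λ z (2 ^ k)) σ τ|)
    (z : Fin d → ℤ) (h : cube z n ⊆ Λ) :
    q - (2 * d * p + 1 + 206 / η + (KL * (B * C) ^ 4 + 3) * p) * ((k : ℝ) ^ (1 / 14 : ℝ))⁻¹ ≤
      E2 A fun σ τ => |mB (cV Λ z n) σ τ| := by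
  have hd' : (1 : ℝ) ≤ d := by exact_mod_cast hd
  have hα : 1 / 2 ≤ α := by linarith
  set x := (k : ℝ) ^ (1 / 14 : ℝ) with hx
  have hx0 : 0 ≤ x := by positivity
  have hx14 : x ^ 14 = k := by
    rw [hx, ← rpow_natCast, ← rpow_mul (Nat.cast_nonneg k)]
    norm_num
  have hx1 : 1 ≤ x := by
    by_contra hlt
    have : x ^ 2 < 1 := pow_lt_one₀ hx0 (not_le.1 hlt) (by norm_num)
    nlinarith
  have hxp : 0 < x := by linarith
  set J := ⌊η * x ^ 2⌋₊ with hJ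
  have hJ1 : 1 ≤ J := Nat.le_floor (by exact_mod_cast hk1)
  have hJ2 : (J : ℝ) ≤ η * x ^ 2 := Nat.floor_le (by positivity)
  have hJ3 : η * x ^ 2 ≤ 2 * J := by
    have a1 := Nat.lt_floor_add_one (η * x ^ 2)
    have a2 : (1 : ℝ) ≤ J := by exact_mod_cast hJ1
    linarith
  have hn0 : 0 < n := lt_of_lt_of_le (by positivity) hn1
  have hT : (2 : ℝ) ^ (8 * J ^ 7) ≤
      (β * c * (n : ℝ) ^ (-α)) ^ 2 * ((((2 ^ k : ℕ) : ℝ)) ^ d * ((2 ^ k : ℕ) : ℝ) ^ d) := by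
    refine le_trans ?_ (T_bound (by linarith) hc hβ hp hp2 hn0 hn2)
    have a1 : ((8 * J ^ 7 : ℕ) : ℝ) ≤ (d - α) * k / 2 := by
      have b1 : (J : ℝ) ^ 7 ≤ (η * x ^ 2) ^ 7 := by gcongr
      have b2 : η ^ 7 ≤ η := pow_le_of_le_one hη0.le hη1 (by norm_num)
      have b3 : (η * x ^ 2) ^ 7 = η ^ 7 * k := by rw [← hx14]; ring
      have b4 := mul_le_mul_of_nonneg_right b2 (Nat.cast_nonneg (α := ℝ) k)
      have b5 := mul_le_mul_of_nonneg_right hη2 (Nat.cast_nonneg (α := ℝ) k)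
      push_cast
      linarith
    calc (2 : ℝ) ^ (8 * J ^ 7) = 1 * 2 ^ ((8 * J ^ 7 : ℕ) : ℝ) := by rw [rpow_natCast, one_mul]
      _ ≤ (c ^ 2 * 2 ^ ((d - α) * k / 2)) * 2 ^ ((d - α) * k / 2) :=
          mul_le_mul hk2 (rpow_le_rpow_of_exponent_le (by norm_num) a1) (by positivity)
            (by positivity)
      _ = _ := by rw [mul_assoc, ← rpow_add (by norm_num), add_halves]
  have hg := geo_step hd (by positivity) (by positivity) (by linarith) hA hA' (N := 2 ^ k)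
    (b := 2 ^ (k / p)) (by positivity) (by positivity)
    (by rwa [← pow_mul, ← pow_add, add_comm, mul_comm]) hJ1 (r := x⁻¹) (by positivity) hT hq h
  refine le_trans ?_ hg
  have hb1 : (1 : ℝ) ≤ ((2 ^ (k / p) : ℕ) : ℝ) := by exact_mod_cast Nat.one_le_two_pow
  have hL := L_bound (d := d) (by linarith : 1 / 4 ≤ α) hC (by linarith) hb1 (by positivity) hB
  have hb2 := b_ge hp k
  set b : ℝ := ((2 ^ (k / p) : ℕ) : ℝ)
  have hb3 : 1 / b ≤ p * x⁻¹ ^ 2 := by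
    have a1 : x ^ 2 ≤ x ^ 14 := pow_le_pow_right₀ hx1 (by norm_num)
    rw [inv_pow, ← div_eq_mul_inv, div_le_div_iff₀ (by linarith) (by positivity)]
    linarith
  have hJ4 : 103 / (J : ℝ) ≤ 206 / η * x⁻¹ ^ 2 := by
    have a2 : (0 : ℝ) < J := by exact_mod_cast hJ1
    rw [inv_pow, ← div_eq_mul_inv, div_div, div_le_div_iff₀ a2 (by positivity)]
    linarith
  have hw1 : x⁻¹ ≤ 1 := inv_le_one_of_one_le₀ hx1
  have hw0 : 0 < x⁻¹ := by positivity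
  set w := x⁻¹
  have c1 : (d : ℝ) / b ^ 2 ≤ d * p * w := by
    calc (d : ℝ) / b ^ 2 ≤ d / b := by
          gcongr
          nlinarith
      _ = d * (1 / b) := by ring
      _ ≤ d * (p * w ^ 2) := by gcongr
      _ ≤ d * (p * w) := by
          gcongr
          nlinarith
      _ = _ := by ring
  have c2 : (103 / J + KL * ((((2 ^ k : ℕ) : ℝ)) ^ d * ((2 ^ k : ℕ) : ℝ) ^ d *
      (β * C * (b * ((2 ^ k : ℕ) : ℝ)) ^ (-α)) ^ 4) + 3 / b) / w ≤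
      (206 / η + (KL * (B * C) ^ 4 + 3) * p) * w := by
    rw [div_le_iff₀ hw0]
    have a1 := mul_le_mul_of_nonneg_left hL KL_nonneg
    have a2 := mul_le_mul_of_nonneg_left hb3
      (show 0 ≤ KL * (B * C) ^ 4 + 3 by have := KL_nonneg; positivity)
    have a3 : (KL * (B * C) ^ 4 + 3) * (1 / b) = KL * ((B * C) ^ 4 / b) + 3 / b := by ring
    nlinarith
  linarith

theorem scale_init (hd : 1 ≤ d) {α c β B : ℝ} (h1 : (d : ℝ) / 2 < α) (hc : 0 < c) (hB0 : 0 < B)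
    (hA : ∀ x y : Λ, x ≠ y → β * c * dist x.1 y.1 ^ (-α) ≤ A s(x, y)) {k : ℕ} (hk : 1 ≤ k)
    (hB : B * ((2 ^ k : ℕ) : ℝ) ^ (α - d / 2) ≤ β) (z : Fin d → ℤ) (h : cube z (2 ^ k) ⊆ Λ) :
    1 - 6 / (B * c) - 6 * ((k : ℝ) ^ (1 / 14 : ℝ))⁻¹ ≤
      E2 A fun σ τ => |mB (cV Λ z (2 ^ k)) σ τ| := by
  have hd' : (1 : ℝ) ≤ d := by exact_mod_cast hd
  have hβ : 0 < β := lt_of_lt_of_le (by positivity) hB
  refine le_trans ?_ (geo_init (by positivity) (by linarith) hA (by positivity) h)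
  have hk1 : (1 : ℝ) ≤ k := by exact_mod_cast hk
  have hN : (k : ℝ) ≤ ((2 ^ k : ℕ) : ℝ) := by exact_mod_cast Nat.lt_two_pow_self.le
  set N : ℝ := ((2 ^ k : ℕ) : ℝ)
  have hN0 : 0 < N := by linarith
  have e1 : √(N ^ d) = N ^ (d / 2 : ℝ) := by
    rw [sqrt_eq_rpow, ← rpow_natCast, ← rpow_mul hN0.le]
    congr 1
    ring
  have a1 : (k : ℝ) ^ (1 / 14 : ℝ) ≤ N ^ (d / 2 : ℝ) :=
    (rpow_le_rpow (by linarith) hN (by norm_num)).trans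
      (rpow_le_rpow_of_exponent_le (by linarith) (by linarith))
  have a2 : B * c ≤ β * c * N ^ (-α) * N ^ (d / 2 : ℝ) := by
    calc B * c = B * N ^ (α - d / 2) * c * N ^ (-α) * N ^ (d / 2 : ℝ) := by
          have : N ^ (α - d / 2) * N ^ (-α) * N ^ (d / 2 : ℝ) = 1 := by
            rw [← rpow_add hN0, ← rpow_add hN0, ← rpow_zero N]
            congr 1
            ring
          linear_combination (-(B * c)) * this
      _ ≤ _ := by gcongr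
  rw [e1]
  have a3 : 6 * (1 + 1 / (β * c * N ^ (-α))) / N ^ (d / 2 : ℝ) =
      6 / (β * c * N ^ (-α) * N ^ (d / 2 : ℝ)) + 6 * (N ^ (d / 2 : ℝ))⁻¹ := by
    field_simp
    ring
  have a4 : 6 / (β * c * N ^ (-α) * N ^ (d / 2 : ℝ)) ≤ 6 / (B * c) := by gcongr
  have a5 : (N ^ (d / 2 : ℝ))⁻¹ ≤ ((k : ℝ) ^ (1 / 14 : ℝ))⁻¹ := by gcongr
  linarith

end Pool.Agent.P.MP_81d17b_pr.LR
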