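import Pool.Agent.P.MP_81d17b_pr.LR.Gen
import Pool.Agent.P.MP_81d17b_pr.LR.Defs2

namespace Pool.Agent.P.MP_81d17b_pr.LR

open MeasureTheory ProbabilityTheory Real Finset Function
open scoped RealInnerProductSpace

theorem int_bdd {X : Type} [MeasurableSpace X] {μ : Measure X} [IsFiniteMeasure μ] {F : X → ℝ}
    (hF : Measurable F) {M : ℝ} (hb : ∀ x, |F x| ≤ M) : Integrable F μ :=
  (integrable_const M).mono' hF.aestronglyMeasurable (ae_of_all _ hb)

theorem lawp_prob {p : ℝ} (h0 : 0 ≤ p) (h1 : p ≤ 1) : IsProbabilityMeasure (lawp p) := by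
  constructor
  simp only [lawp, Measure.coe_add, Measure.coe_smul, Pi.add_apply, Pi.smul_apply, measure_univ,
    smul_eq_mul, mul_one]
  rw [← ENNReal.ofReal_add (by linarith) h0]
  simp

theorem int_lawp {p : ℝ} (h0 : 0 ≤ p) (h1 : p ≤ 1) {F : ℝ → ℝ} (hF : Measurable F) {M : ℝ}
    (hb : ∀ x, |F x| ≤ M) :
    ∫ t, F t ∂lawp p = (1 - p) * F 0 + p * ∫ t, F t ∂gaussianReal 0 1 := by
  rw [lawp, integral_add_measure ((int_bdd hF hb).smul_measure ENNReal.ofReal_ne_top)
    ((int_bdd hF hb).smul_measure ENNReal.ofReal_ne_top), integral_smul_measure,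
    integral_smul_measure, integral_dirac, ENNReal.toReal_ofReal (by linarith),
    ENNReal.toReal_ofReal h0, smul_eq_mul, smul_eq_mul]

/-- Small values are replaced by zero. -/
noncomputable def kill (u t : ℝ) : ℝ := if |t| ≤ u then 0 else t

theorem meas_kill (u : ℝ) : Measurable (kill u) :=
  Measurable.ite (measurableSet_le (by fun_prop) measurable_const) measurable_const measurable_id

/-- The law of a coupling after removal of a small part. -/
noncomputable def law2 (p p' u : ℝ) : Measure ℝ :=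
  ENNReal.ofReal (1 - p) • Measure.dirac 0 + (ENNReal.ofReal (p - p') • gaussianReal 0 1 +
    ENNReal.ofReal p' • (gaussianReal 0 1).map (kill u))

theorem law2_prob {p p' : ℝ} (h0 : 0 ≤ p') (h1 : p' ≤ p) (h2 : p ≤ 1) (u : ℝ) :
    IsProbabilityMeasure (law2 p p' u) := by
  have := Measure.isProbabilityMeasure_map (μ := gaussianReal 0 1) (meas_kill u).aemeasurable
  constructor
  simp only [law2, Measure.coe_add, Measure.coe_smul, Pi.add_apply, Pi.smul_apply, measure_univ,
    smul_eq_mul, mul_one]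
  rw [← ENNReal.ofReal_add (by linarith) h0, ← ENNReal.ofReal_add (by linarith) (by linarith)]
  simp

theorem int_law2 {p p' : ℝ} (h0 : 0 ≤ p') (h1 : p' ≤ p) (h2 : p ≤ 1) (u : ℝ) {F : ℝ → ℝ}
    (hF : Measurable F) {M : ℝ} (hb : ∀ x, |F x| ≤ M) :
    ∫ t, F t ∂law2 p p' u = (1 - p) * F 0 + ((p - p') * ∫ t, F t ∂gaussianReal 0 1 +
      p' * ∫ t, F (kill u t) ∂gaussianReal 0 1) := by
  have := Measure.isProbabilityMeasure_map (μ := gaussianReal 0 1) (meas_kill u).aemeasurable
  have i : ∀ (μ : Measure ℝ) [IsFiniteMeasure μ] (c : ℝ), Integrable F (ENNReal.ofReal c • μ) :=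
    fun μ _ c => (int_bdd hF hb).smul_measure ENNReal.ofReal_ne_top
  rw [law2, integral_add_measure (i _ _) ((i _ _).add_measure (i _ _)),
    integral_add_measure (i _ _) (i _ _), integral_smul_measure,
    integral_smul_measure, integral_smul_measure, integral_dirac,
    ENNReal.toReal_ofReal (by linarith), ENNReal.toReal_ofReal (by linarith),
    ENNReal.toReal_ofReal h0, smul_eq_mul, smul_eq_mul, smul_eq_mul,
    integral_map (meas_kill u).aemeasurable hF.aestronglyMeasurable]

theorem int_neg {F : ℝ → ℝ} (hF : Measurable F) :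
    ∫ t, F (-t) ∂gaussianReal 0 1 = ∫ t, F t ∂gaussianReal 0 1 := by
  have h1 : (gaussianReal 0 1).map (fun x => -x) = gaussianReal 0 1 := by
    rw [gaussianReal_map_neg, neg_zero]
  conv_rhs => rw [← h1]
  rw [integral_map (by fun_prop) hF.aestronglyMeasurable]

/-- Second moment of the small part. -/
noncomputable def vv (u : ℝ) : ℝ := ∫ t, (t - kill u t) ^ 2 ∂gaussianReal 0 1

theorem sub_kill_le (u t : ℝ) : (t - kill u t) ^ 2 ≤ u ^ 2 := by
  unfold kill
  split_ifs with h
  · rw [sub_zero, ← sq_abs]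
    exact pow_le_pow_left₀ (abs_nonneg t) h 2
  · simpa using sq_nonneg u

theorem int_sub_kill (u : ℝ) : Integrable (fun t => (t - kill u t) ^ 2) (gaussianReal 0 1) :=
  int_bdd ((measurable_id.sub (meas_kill u)).pow_const 2) (M := u ^ 2) fun t => by
    rw [abs_of_nonneg (sq_nonneg _)]
    exact sub_kill_le u t

theorem vv_le (u : ℝ) : vv u ≤ u ^ 2 := by
  simpa [vv] using integral_mono (int_sub_kill u) (integrable_const (u ^ 2)) (sub_kill_le u)

/-- A lower bound for the Gaussian density on the unit interval, divided by eight. -/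
noncomputable def c0 : ℝ := (√(2 * π))⁻¹ * exp (-1 / 2) / 8

theorem c0_pos : 0 < c0 := by
  unfold c0
  have := pi_pos
  positivity

theorem vv_ge {u : ℝ} (h0 : 0 < u) (h1 : u ≤ 1) : c0 * u ^ 3 ≤ vv u := by
  have hi := int_sub_kill u
  rw [vv, integral_gaussianReal_eq_integral_smul one_ne_zero]
  have h2 : c0 * u ^ 3 = ∫ t, (Set.Icc (u / 2) u).indicator (fun _ => 2 * c0 * u ^ 2) t := by
    rw [integral_indicator_const _ measurableSet_Icc, Real.volume_real_Icc_of_le (by linarith),
      smul_eq_mul]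
    ring
  rw [h2]
  refine integral_mono ((integrable_indicator_iff measurableSet_Icc).2
    (integrableOn_const (by simp))) ?_ fun t => ?_
  · refine ((integrable_gaussianPDFReal 0 1).mul_const (u ^ 2)).mono'
      ((measurable_gaussianPDFReal 0 1).mul
        ((measurable_id.sub (meas_kill u)).pow_const 2)).aestronglyMeasurable
      (ae_of_all _ fun t => ?_)
    rw [smul_eq_mul, Real.norm_eq_abs,
      abs_of_nonneg (mul_nonneg (gaussianPDFReal_nonneg _ _ _) (sq_nonneg _))]
    exact mul_le_mul_of_nonneg_left (sub_kill_le u t) (gaussianPDFReal_nonneg _ _ _)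
  · by_cases ht : t ∈ Set.Icc (u / 2) u
    · rw [Set.indicator_of_mem ht]
      obtain ⟨t1, t2⟩ := ht
      have a1 : kill u t = 0 := if_pos (abs_le.2 ⟨by linarith, t2⟩)
      simp only [a1, sub_zero, smul_eq_mul, gaussianPDFReal, NNReal.coe_one, mul_one, c0]
      have a2 : exp (-1 / 2) ≤ exp (-t ^ 2 / 2) := exp_le_exp.2 (by nlinarith)
      have a3 : u ^ 2 / 4 ≤ t ^ 2 := by nlinarith
      calc _ = (√(2 * π))⁻¹ * exp (-1 / 2) * (u ^ 2 / 4) := by ring
        _ ≤ _ := by gcongr
    · rw [Set.indicator_of_notMem ht]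
      exact mul_nonneg (gaussianPDFReal_nonneg _ _ _) (sq_nonneg _)

theorem edge_swap {F : ℝ → ℝ} (hF : Continuous F) (hb : ∀ t, |F t| ≤ 1) {A2 A4 : ℝ} (hA4 : 0 ≤ A4)
    (h : ∀ t, ∃ c, |c| ≤ A2 ∧ ∀ x, |(F (t + x) + F (t - x)) / 2 - F t - c * x ^ 2| ≤ A4 * x ^ 4)
    {p p' u a : ℝ} (h0 : 0 ≤ p') (h1 : p' ≤ p) (h2 : p ≤ 1) (ha : a ^ 2 = p' * vv u) :
    ∫ t, F t ∂lawp p ≤ ∫ y, ∫ g, F (y + a * g) ∂gaussianReal 0 1 ∂law2 p p' u +
      a ^ 2 * (2 * p * A2 + A4 * (2 * ∫ x, x ^ 4 ∂gaussianReal 0 1 + 1) * u ^ 2) := by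
  set m4 := ∫ x, x ^ 4 ∂gaussianReal 0 1 with hm4
  have hm0 : 0 ≤ m4 := m4_nonneg
  have hFm := hF.measurable
  set Fa : ℝ → ℝ := fun y => ∫ g, F (y + a * g) ∂gaussianReal 0 1 with hFa
  have hFam : Measurable Fa :=
    (StronglyMeasurable.integral_prod_right' (f := fun q : ℝ × ℝ => F (q.1 + a * q.2))
      (Continuous.stronglyMeasurable (by fun_prop))).measurable
  have hFab : ∀ y, |Fa y| ≤ 1 := fun y => by
    simpa using norm_integral_le_of_norm_le_const (μ := gaussianReal 0 1)
      (f := fun g => F (y + a * g)) (C := 1) (ae_of_all _ fun g => hb _)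
  have i2 := int_pow 2 (by norm_num)
  have i4 := int_pow 4 (by norm_num)
  have k1 : ∀ t c, (∀ x, |(F (t + x) + F (t - x)) / 2 - F t - c * x ^ 2| ≤ A4 * x ^ 4) →
      |Fa t - F t - c * a ^ 2| ≤ A4 * m4 * a ^ 4 := by
    intro t c hc
    have j1 : Integrable (fun g => F (t + a * g)) (gaussianReal 0 1) := int_bdd (by fun_prop) fun _ => hb _
    have j2 : Integrable (fun g => F (t - a * g)) (gaussianReal 0 1) := int_bdd (by fun_prop) fun _ => hb _
    have j3 : Integrable (fun g => (F (t + a * g) + F (t - a * g)) / 2) (gaussianReal 0 1) :=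
      (j1.add j2).div_const 2
    have j4 : Integrable (fun g => (F (t + a * g) + F (t - a * g)) / 2 - F t) (gaussianReal 0 1) :=
      j3.sub (integrable_const _)
    have e1 : ∫ g, F (t - a * g) ∂gaussianReal 0 1 = Fa t := by
      rw [hFa]
      simp only
      rw [← int_neg (F := fun g => F (t + a * g)) (by fun_prop)]
      simp only [mul_neg, sub_eq_add_neg]
    have e2 := norm_integral_le_of_norm_le (μ := gaussianReal 0 1)
      (f := fun g => (F (t + a * g) + F (t - a * g)) / 2 - F t - c * a ^ 2 * g ^ 2)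
      (i4.const_mul (A4 * a ^ 4)) (ae_of_all _ fun g => by
        have := hc (a * g)
        rw [Real.norm_eq_abs]
        simpa only [mul_pow, mul_assoc] using this)
    rw [integral_sub j4 (i2.const_mul _), integral_sub j3 (integrable_const _), integral_div,
      integral_add j1 j2, e1, integral_const_mul, integral_const_mul, int_sq, Real.norm_eq_abs] at e2
    simp only [integral_const, probReal_univ, smul_eq_mul, one_mul, mul_one] at e2
    have e3 : (Fa t + Fa t) / 2 = Fa t := by ring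
    rw [e3] at e2
    linarith
  have k2 : ∀ t, F t - Fa t ≤ A2 * a ^ 2 + A4 * m4 * a ^ 4 := by
    intro t
    obtain ⟨c, hc1, hc2⟩ := h t
    have := (abs_le.1 (k1 t c hc2)).1
    nlinarith [(abs_le.1 hc1).1, sq_nonneg a]
  obtain ⟨c, hc1, hc2⟩ := h 0
  have k3 := (abs_le.1 (k1 0 c hc2)).1
  have iF : Integrable F (gaussianReal 0 1) := int_bdd hFm hb
  have iFa : Integrable Fa (gaussianReal 0 1) := int_bdd hFam hFab
  have iFk : Integrable (fun t => F (kill u t)) (gaussianReal 0 1) :=
    int_bdd (hFm.comp (meas_kill u)) fun _ => hb _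
  have iFak : Integrable (fun t => Fa (kill u t)) (gaussianReal 0 1) :=
    int_bdd (hFam.comp (meas_kill u)) fun _ => hFab _
  have k4 := integral_mono (iF.sub iFa) (integrable_const _) k2
  have k5 := integral_mono (iFk.sub iFak) (integrable_const _) fun t => k2 (kill u t)
  simp only [Pi.sub_apply] at k4 k5
  rw [integral_sub iF iFa] at k4
  rw [integral_sub iFk iFak] at k5
  simp only [integral_const, probReal_univ, smul_eq_mul, one_mul] at k4 k5
  have k6 : ∫ t, F t ∂gaussianReal 0 1 - ∫ t, F (kill u t) ∂gaussianReal 0 1 ≤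
      (c + A4 * u ^ 2) * vv u := by
    have iN : Integrable (fun t => F (-t)) (gaussianReal 0 1) := int_bdd (by fun_prop) fun _ => hb _
    have iNk : Integrable (fun t => F (kill u (-t))) (gaussianReal 0 1) :=
      int_bdd (hFm.comp ((meas_kill u).comp measurable_neg)) fun _ => hb _
    have a1 : ∀ t, (F t - F (kill u t)) + (F (-t) - F (kill u (-t))) ≤
        2 * (c + A4 * u ^ 2) * (t - kill u t) ^ 2 := by
      intro t
      unfold kill
      rw [abs_neg]
      split_ifs with ht
      · have b1 := (abs_le.1 (hc2 t)).2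
        have b2 : t ^ 2 ≤ u ^ 2 := by
          rw [← sq_abs]
          exact pow_le_pow_left₀ (abs_nonneg t) ht 2
        have b3 := mul_le_mul_of_nonneg_left (mul_le_mul_of_nonneg_right b2 (sq_nonneg t)) hA4
        rw [zero_add, zero_sub] at b1
        rw [sub_zero]
        nlinarith
      · simp
    have j1 : Integrable (fun t => F t - F (kill u t)) (gaussianReal 0 1) := iF.sub iFk
    have j2 : Integrable (fun t => F (-t) - F (kill u (-t))) (gaussianReal 0 1) := iN.sub iNk
    have j3 : Integrable (fun t => (F t - F (kill u t)) + (F (-t) - F (kill u (-t))))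
      (gaussianReal 0 1) := j1.add j2
    have a2 := integral_mono j3 ((int_sub_kill u).const_mul _) a1
    rw [integral_add j1 j2, integral_sub iF iFk, integral_sub iN iNk, int_neg hFm,
      int_neg (F := fun t => F (kill u t)) (hFm.comp (meas_kill u)), integral_const_mul] at a2
    unfold vv
    linarith
  rw [int_lawp (h0.trans h1) h2 hFm hb, int_law2 h0 h1 h2 u hFam hFab]
  have hau : a ^ 2 ≤ u ^ 2 := by
    have b1 : 0 ≤ vv u := integral_nonneg fun _ => sq_nonneg _
    nlinarith [vv_le u]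
  have b1 := mul_le_mul_of_nonneg_left k4 (sub_nonneg.2 h1)
  have b2 := mul_le_mul_of_nonneg_left k5 h0
  have b3 := mul_le_mul_of_nonneg_left k6 h0
  have b4 := mul_le_mul_of_nonneg_left k3 (sub_nonneg.2 h2)
  have b5 : p * (c * a ^ 2) ≤ p * (A2 * a ^ 2) := mul_le_mul_of_nonneg_left
    (mul_le_mul_of_nonneg_right (abs_le.1 hc1).2 (sq_nonneg a)) (h0.trans h1)
  have b6 : A4 * m4 * a ^ 4 ≤ A4 * m4 * (a ^ 2 * u ^ 2) := by
    refine mul_le_mul_of_nonneg_left ?_ (by positivity)
    nlinarith [sq_nonneg a]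
  have b7 : p' * ((c + A4 * u ^ 2) * vv u) = (c + A4 * u ^ 2) * a ^ 2 := by rw [ha]; ring
  have b8 : 0 ≤ A4 * m4 * a ^ 4 := by positivity
  nlinarith

end Pool.Agent.P.MP_81d17b_pr.LR
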