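import Pool.Agent.P.MP_81d17b_pr.LR.Gibbs
import Pool.Agent.P.MP_81d17b_pr.LR.Alg

namespace Pool.Agent.P.MP_81d17b_pr.LR

open MeasureTheory ProbabilityTheory Real Finset
open scoped RealInnerProductSpace

variable {E : Type} [NormedAddCommGroup E] [InnerProductSpace ℝ E] {S : Type} [Fintype S]
  [FiniteDimensional ℝ E] [MeasurableSpace E] [BorelSpace E]

/-- Two-replica weights. -/
noncomputable abbrev GG (c : S → ℝ) (φ : S → E) (p : S × S) (y : E) : ℝ :=
  Gf c φ p.1 y * Gf c φ p.2 y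

variable [Nonempty S] {c : S → ℝ} {φ : S → E}

theorem row_sum (hφ : ∀ s, ‖φ s‖ ≤ 1) (s : S) (t : ℝ) (x : E) :
    ∑ r, Q t (GG c φ (s, r)) x = Q t (Gf c φ s) x := by
  rw [← Q_sum _ fun r _ => (fam_GG hφ).linW (s, r)]
  simp only [← mul_sum, Gf_sum, mul_one]

theorem Q_avg (hφ : ∀ s, ‖φ s‖ ≤ 1) (g : S → E) (s : S) (t : ℝ) (x : E) :
    ∑ r, Q t (GG c φ (s, r)) x • g r = Q t (fun y => Gf c φ s y • ∑ r, Gf c φ r y • g r) x := by
  simp only [smul_sum, smul_smul]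
  rw [Q_sum _ fun r _ => (Lin.const (g r)).smul ((fam_GG hφ).cont (s, r))
    ((fam_GG hφ).abs_le (s, r))]
  simp only [Q_smul_const]

theorem Pm_eq (hφ : ∀ s, ‖φ s‖ ≤ 1) (s : S) (t : ℝ) (x : E) :
    Pm (fun s => Q t (Gf c φ s) x) (fun s r => Q t (GG c φ (s, r)) x) φ s =
      bb (Gf c φ) (bf c φ) t x s := by
  simp only [Pm, bb, Q_avg hφ, bf]

theorem grad_one (hφ : ∀ s, ‖φ s‖ ≤ 1) (s : S) (v : ℝ) (w y : E) :
    ‖Q v (fun y => Gf c φ s y • (φ s - bf c φ y)) y - Q v (Gf c φ s) y • (φ s - w)‖ =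
      ‖Q v (fun y => Gf c φ s y • bf c φ y) y - Q v (Gf c φ s) y • w‖ := by
  simp only [smul_sub]
  rw [Q_sub ((Lin.const (φ s)).smul (Gf_cont s) (Gf_abs s)) ((fam_G hφ).linN s), Q_smul_const,
    ← norm_neg]
  congr 1
  abel

theorem grad_two (hφ : ∀ s, ‖φ s‖ ≤ 1) (p : S × S) (v : ℝ) (w y : E) :
    ‖Q v (fun y => GG c φ p y • (φ p.1 + φ p.2 - (2 : ℝ) • bf c φ y)) y -
        Q v (GG c φ p) y • (φ p.1 + φ p.2 - (2 : ℝ) • w)‖ =
      2 * ‖Q v (fun y => GG c φ p y • bf c φ y) y - Q v (GG c φ p) y • w‖ := by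
  have l1 := (fam_GG (c := c) hφ).linN p
  have e1 : ∀ y, GG c φ p y • (φ p.1 + φ p.2 - (2 : ℝ) • bf c φ y) =
      GG c φ p y • (φ p.1 + φ p.2) - (GG c φ p y • bf c φ y + GG c φ p y • bf c φ y) := by
    intro y
    module
  simp only [e1]
  rw [Q_sub ((Lin.const _).smul ((fam_GG hφ).cont p) ((fam_GG hφ).abs_le p)) (l1.add l1),
    Q_add l1 l1, Q_smul_const, ← norm_neg]
  have : (2 : ℝ) = ‖(2 : ℝ)‖ := by simp
  conv_rhs => rw [this, ← norm_smul]
  congr 1
  module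

theorem dev_one (hφ : ∀ s, ‖φ s‖ ≤ 1) {u v : ℝ} (hu : 0 < u) (hv : 0 ≤ v) (x : E) (s : S)
    {f : E → ℝ} {f' : E → E} (hf : C1 f f' 1) :
    Q u (fun y => |f y - Q u f (x + u • (φ s - bb (Gf c φ) (bf c φ) (u + v) x s))| *
        Q v (Gf c φ s) y) x ≤
      3 * √u * Q (u + v) (Gf c φ s) x + 2 * u * AA (Gf c φ) (bf c φ) u v x s := by
  have h := dev hf ((C1_G (c := c) hφ s).Q v) (fun y => abs_Q_le (Gf_abs s) v y)
    (fun y => Q_nonneg (fun y => (Gf_pos s y).le) v y) hu x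
    (φ s - bb (Gf c φ) (bf c φ) (u + v) x s)
  simp only [grad_one hφ] at h
  rw [Q_Q ((fam_G hφ).linW s) hu.le hv] at h
  exact h

theorem lemC (hφ : ∀ s, ‖φ s‖ ≤ 1) {u v : ℝ} (hu : 0 < u) (hv : 0 ≤ v) (x : E)
    {f : S → E → ℝ} {f' : S → E → E} (hf : ∀ s, C1 (f s) (f' s) 1) :
    ∑ s, ∑ t, Q (u + v) (GG c φ (s, t)) x *
        |Q u (f s) (x + u • (φ s + φ t - (2 : ℝ) • bb (GG c φ) (bf c φ) (u + v) x (s, t))) -
          Q u (f s) (x + u • (φ s - bb (Gf c φ) (bf c φ) (u + v) x s))| ≤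
      4 * u * ∑ p, AA (GG c φ) (bf c φ) u v x p + 2 * u * ∑ s, AA (Gf c φ) (bf c φ) u v x s +
        3 * √u := by
  set a : S → ℝ := fun s => Q u (f s) (x + u • (φ s - bb (Gf c φ) (bf c φ) (u + v) x s)) with ha
  have lA : ∀ s t, Lin fun y => |f s y - a s| * Q v (GG c φ (s, t)) y := fun s t =>
    ((hf s).sub_const _).lin.abs.mul (((fam_GG hφ).linW (s, t)).Q v).1
      fun y => abs_Q_le ((fam_GG hφ).abs_le (s, t)) v y
  have key : ∀ s t, Q (u + v) (GG c φ (s, t)) x *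
      |Q u (f s) (x + u • (φ s + φ t - (2 : ℝ) • bb (GG c φ) (bf c φ) (u + v) x (s, t))) - a s| ≤
      4 * u * AA (GG c φ) (bf c φ) u v x (s, t) +
        Q u (fun y => |f s y - a s| * Q v (GG c φ (s, t)) y) x := by
    intro s t
    have h := stein_Q ((hf s).sub_const (a s)) ((C1_GG (c := c) hφ s t).Q v)
      (fun y => abs_Q_le (GG_abs s t) v y) hu.le x
      (φ s + φ t - (2 : ℝ) • bb (GG c φ) (bf c φ) (u + v) x (s, t))
    have e := grad_two (c := c) hφ (s, t) v (bb (GG c φ) (bf c φ) (u + v) x (s, t))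
    simp only at e
    simp only [e] at h
    rw [Q_const_mul, Q_sub (hf s).lin (Lin.const _), Q_const,
      Q_Q ((fam_GG hφ).linW (s, t)) hu.le hv] at h
    have h2 : |Q u (fun y => (f s y - a s) * Q v (GG c φ (s, t)) y) x| ≤
        Q u (fun y => |f s y - a s| * Q v (GG c φ (s, t)) y) x := by
      refine (norm_Q_le (fun y => (f s y - a s) * Q v (GG c φ (s, t)) y) u x).trans (le_of_eq ?_)
      congr 1
      funext y
      rw [Real.norm_eq_abs, abs_mul, abs_of_pos ((fam_GG hφ).Mpos (s, t) v y)]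
    have h3 := (fam_GG (c := c) hφ).Mpos (s, t) (u + v) x
    rw [← abs_of_pos h3, ← abs_mul, mul_comm]
    have h4 := abs_sub_abs_le_abs_sub
      ((Q u (f s) (x + u • (φ s + φ t - (2 : ℝ) • bb (GG c φ) (bf c φ) (u + v) x (s, t))) - a s) *
        Q (u + v) (GG c φ (s, t)) x) (Q u (fun y => (f s y - a s) * Q v (GG c φ (s, t)) y) x)
    rw [abs_sub_comm] at h4
    have h5 : 2 * u * (2 * AA (GG c φ) (bf c φ) u v x (s, t)) =
      4 * u * AA (GG c φ) (bf c φ) u v x (s, t) := by ring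
    have h6 := h.trans (le_of_eq h5)
    linarith
  have key2 : ∀ s, ∑ t, Q u (fun y => |f s y - a s| * Q v (GG c φ (s, t)) y) x ≤
      3 * √u * Q (u + v) (Gf c φ s) x + 2 * u * AA (Gf c φ) (bf c φ) u v x s := by
    intro s
    rw [← Q_sum _ fun t _ => lA s t]
    simp only [← mul_sum, row_sum hφ]
    exact dev_one hφ hu hv x s (hf s)
  refine (sum_le_sum fun s _ => sum_le_sum fun t _ => key s t).trans ?_
  simp only [sum_add_distrib]
  have e1 := sum_le_sum fun s (_ : s ∈ univ) => key2 s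
  rw [sum_add_distrib, ← mul_sum, ← mul_sum, (fam_G hφ).Msum, mul_one] at e1
  rw [Fintype.sum_prod_type, mul_sum]
  simp only [mul_sum]
  simp only [mul_sum] at e1
  linarith

theorem lemF (hφ : ∀ s, ‖φ s‖ ≤ 1) {u v : ℝ} (hu : 0 < u) (hv : 0 < v) (x : E) (w : S → E) :
    ∑ s, ∑ t, Q (u + v) (GG c φ (s, t)) x *
        max (⟪φ t, w s⟫ - (Q (u + v) (fun y => log (Zf c φ y))
          (x + u • (φ s - bb (Gf c φ) (bf c φ) (u + v) x s) + w s) -
            Q (u + v) (fun y => log (Zf c φ y)) x)) 0 ≤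
      1 + 3 * √v + 4 * v + 3 * √u + 2 * u * ∑ s, AA (Gf c φ) (bf c φ) u v x s + 3 * √(u + v) := by
  set ψ : E → ℝ := fun y => log (Zf c φ y) with hψ
  have cψ : C1 ψ (bf c φ) 1 := C1_log hφ
  set a : S → ℝ := fun s => Q (u + v) ψ (x + u • (φ s - bb (Gf c φ) (bf c φ) (u + v) x s) + w s)
    with ha
  set a0 := Q (u + v) ψ x with ha0
  have F := fam_G (c := c) hφ
  have lmax : ∀ s t, Lin fun y => max (⟪φ t, w s⟫ - (ψ (y + w s) - ψ y)) 0 := by
    intro s t
    obtain ⟨h1, M, hM⟩ := (Lin.const ⟪φ t, w s⟫).sub ((cψ.shift (w s)).lin.sub cψ.lin)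
    refine ⟨h1.max continuous_const, M, fun y => le_trans ?_ (hM y)⟩
    rw [Real.norm_eq_abs, Real.norm_eq_abs, abs_of_nonneg (le_max_right _ _)]
    exact max_le (le_abs_self _) (abs_nonneg _)
  have l1 : ∀ s, Lin fun y => |ψ (y + w s) - a s| := fun s => ((cψ.shift _).sub_const _).lin.abs
  have l0 : Lin fun y => |ψ y - a0| := (cψ.sub_const _).lin.abs
  have lG : ∀ {g : E → ℝ} (s : S), Lin g → Lin fun y => g y * Gf c φ s y := fun s hg =>
    hg.mul (Gf_cont s) (Gf_abs s)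
  have step1 : ∀ s, ∑ t, Q (u + v) (GG c φ (s, t)) x * max (⟪φ t, w s⟫ - (a s - a0)) 0 ≤
      Q (u + v) (fun y => Gf c φ s y + (|ψ (y + w s) - a s| * Gf c φ s y +
        |ψ y - a0| * Gf c φ s y)) x := by
    intro s
    simp only [← Q_mul_const]
    have lt : ∀ t, Lin fun y => GG c φ (s, t) y * max (⟪φ t, w s⟫ - (a s - a0)) 0 := fun t => by
      simpa only [mul_comm] using ((fam_GG hφ).linW (s, t)).const_mul
        (max (⟪φ t, w s⟫ - (a s - a0)) 0)
    rw [← Q_sum _ fun t _ => lt t]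
    refine Q_mono (Lin.sum _ fun t _ => lt t) ((F.linW s).add ((lG s (l1 s)).add (lG s l0)))
      (fun y => ?_) _ _
    have h1 := fenchel (c := c) (φ := φ) y (w s)
    have h2 : ∀ t, max (⟪φ t, w s⟫ - (a s - a0)) 0 ≤ max (⟪φ t, w s⟫ - (ψ (y + w s) - ψ y)) 0 +
        (|ψ (y + w s) - a s| + |ψ y - a0|) := by
      intro t
      have b1 := le_max_left (⟪φ t, w s⟫ - (ψ (y + w s) - ψ y)) 0
      have b2 := le_max_right (⟪φ t, w s⟫ - (ψ (y + w s) - ψ y)) 0
      have b3 := le_abs_self (ψ (y + w s) - a s)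
      have b4 := neg_abs_le (ψ y - a0)
      have b5 := abs_nonneg (ψ (y + w s) - a s)
      have b6 := abs_nonneg (ψ y - a0)
      exact max_le (by linarith) (by linarith)
    have hs := Gf_pos (c := c) (φ := φ) s y
    calc _ ≤ ∑ t, Gf c φ s y * (Gf c φ t y * max (⟪φ t, w s⟫ - (ψ (y + w s) - ψ y)) 0 +
            Gf c φ t y * (|ψ (y + w s) - a s| + |ψ y - a0|)) := sum_le_sum fun t _ => by
          rw [← mul_add, ← mul_assoc]
          exact mul_le_mul_of_nonneg_left (h2 t) ((fam_GG hφ).pos (s, t) y).le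
      _ = Gf c φ s y * (∑ t, Gf c φ t y * max (⟪φ t, w s⟫ - (ψ (y + w s) - ψ y)) 0 +
            (|ψ (y + w s) - a s| + |ψ y - a0|)) := by
          rw [← mul_sum, sum_add_distrib, ← sum_mul, Gf_sum, one_mul]
      _ ≤ Gf c φ s y * (1 + (|ψ (y + w s) - a s| + |ψ y - a0|)) := by gcongr
      _ = _ := by ring
  have step2 : ∀ s, Q (u + v) (fun y => |ψ (y + w s) - a s| * Gf c φ s y) x ≤
      (3 * √v + 4 * v + 3 * √u) * Q (u + v) (Gf c φ s) x +
        2 * u * AA (Gf c φ) (bf c φ) u v x s := by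
    intro s
    have cf := cψ.shift (w s)
    have cq := cf.Q v
    have e1 : a s = Q u (Q v fun y => ψ (y + w s))
        (x + u • (φ s - bb (Gf c φ) (bf c φ) (u + v) x s)) := by
      rw [Q_Q cf.lin hu.le hv.le, Q_shift]
    have d1 := dev_one (c := c) hφ hu hv.le x s cq
    rw [← e1] at d1
    rw [← Q_Q (lG s (l1 s)) hu.le hv.le]
    have lq : Lin fun y => |Q v (fun y => ψ (y + w s)) y - a s| * Q v (Gf c φ s) y :=
      (cq.sub_const _).lin.abs.mul ((F.linW s).Q v).1 fun y => abs_Q_le (Gf_abs s) v y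
    have d2 : Q u (Q v fun y => |ψ (y + w s) - a s| * Gf c φ s y) x ≤
        Q u (fun y => (3 * √v + 4 * v) * Q v (Gf c φ s) y +
          |Q v (fun y => ψ (y + w s)) y - a s| * Q v (Gf c φ s) y) x := by
      refine Q_mono ((lG s (l1 s)).Q v) ((((F.linW s).Q v).const_mul _).add lq) (fun η => ?_) u x
      have d3 := dev cf (C1_G (c := c) hφ s) (Gf_abs s) (fun y => (Gf_pos s y).le) hv η 0
      simp only [smul_zero, add_zero, sub_zero] at d3
      set m := Q v (fun y => ψ (y + w s)) η with hm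
      have d4 : Q v (fun y => ‖Gf c φ s y • (φ s - bf c φ y)‖) η ≤
          Q v (fun y => 2 * Gf c φ s y) η :=
        Q_mono (Lin.of_bdd (C1_G hφ s).cont (C1_G hφ s).bd).norm ((F.linW s).const_mul _)
          (grad_G_le hφ s) v η
      rw [Q_const_mul] at d4
      have l2 : Lin fun y => |ψ (y + w s) - m| * Gf c φ s y := lG s (cf.sub_const _).lin.abs
      have d5 : Q v (fun y => |ψ (y + w s) - a s| * Gf c φ s y) η ≤
          Q v (fun y => |ψ (y + w s) - m| * Gf c φ s y + |m - a s| * Gf c φ s y) η := by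
        refine Q_mono (lG s (l1 s)) (l2.add ((F.linW s).const_mul _)) (fun y => ?_) v η
        rw [← add_mul]
        exact mul_le_mul_of_nonneg_right (abs_sub_le _ _ _) (Gf_pos s y).le
      rw [Q_add l2 ((F.linW s).const_mul _), Q_const_mul] at d5
      have d6 := mul_le_mul_of_nonneg_left d4 (show 0 ≤ 2 * v by positivity)
      nlinarith
    rw [Q_add (((F.linW s).Q v).const_mul _) lq, Q_const_mul, Q_Q (F.linW s) hu.le hv.le] at d2
    nlinarith
  have step3 : ∑ s, Q (u + v) (fun y => |ψ y - a0| * Gf c φ s y) x ≤ 3 * √(u + v) := by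
    rw [← Q_sum _ fun s _ => lG s l0]
    simp only [← mul_sum, Gf_sum, mul_one]
    have huv : 0 < u + v := by positivity
    refine le_trans (Q_mono l0 ((cψ.sub_const a0).chi huv).lin (fun y => abs_le_chi _ huv _) _ _) ?_
    exact dev_zero cψ huv x
  refine (sum_le_sum fun s _ => step1 s).trans ?_
  have e2 : ∀ s, Q (u + v) (fun y => Gf c φ s y + (|ψ (y + w s) - a s| * Gf c φ s y +
      |ψ y - a0| * Gf c φ s y)) x = Q (u + v) (Gf c φ s) x +
        (Q (u + v) (fun y => |ψ (y + w s) - a s| * Gf c φ s y) x +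
          Q (u + v) (fun y => |ψ y - a0| * Gf c φ s y) x) := fun s => by
    rw [Q_add (F.linW s) ((lG s (l1 s)).add (lG s l0)), Q_add (lG s (l1 s)) (lG s l0)]
  simp only [e2, sum_add_distrib]
  have e3 := sum_le_sum fun s (_ : s ∈ univ) => step2 s
  rw [sum_add_distrib, ← mul_sum, ← mul_sum, F.Msum, mul_one] at e3
  rw [F.Msum]
  linarith

theorem lemP (hφ : ∀ s, ‖φ s‖ ≤ 1) (t : ℝ) (x : E) (g : S → E) :
    ∑ s, Q t (Gf c φ s) x *
        ‖Pm (fun s => Q t (Gf c φ s) x) (fun s r => Q t (GG c φ (s, r)) x) g s‖ ^ 2 ≤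
      ∑ s, ∑ r, Q t (GG c φ (s, r)) x * ⟪g s, g r⟫ := by
  have F := fam_G (c := c) hφ
  set a : E → E := fun y => ∑ r, Gf c φ r y • g r with ha
  have ca : Continuous a := continuous_finsetSum _ fun r _ => (Gf_cont r).smul continuous_const
  have ba : ∀ y, ‖a y‖ ≤ ∑ r, ‖g r‖ := norm_avg_le fun r =>
    single_le_sum (f := fun r => ‖g r‖) (fun _ _ => norm_nonneg _) (mem_univ r)
  have la : Lin a := Lin.of_bdd ca ba
  have l2 : Lin fun y => ‖a y‖ ^ 2 := Lin.of_bdd (ca.norm.pow 2) (M := (∑ r, ‖g r‖) ^ 2) fun y => by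
    rw [norm_pow, norm_norm]
    exact pow_le_pow_left₀ (norm_nonneg _) (ba y) 2
  have lN : ∀ s, Lin fun y => Gf c φ s y • a y := fun s => la.smul (Gf_cont s) (Gf_abs s)
  have lI : ∀ s (w : E), Lin fun y => ⟪Gf c φ s y • a y, w⟫ := by
    intro s w
    obtain ⟨h1, M, hM⟩ := lN s
    refine ⟨by fun_prop, M * ‖w‖, fun y => (norm_inner_le_norm _ _).trans ?_⟩
    calc _ ≤ M * (1 + ‖y‖) * ‖w‖ := mul_le_mul_of_nonneg_right (hM y) (norm_nonneg _)
      _ = _ := by ring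
  have h1 : ∀ s, Q t (Gf c φ s) x *
      ‖Pm (fun s => Q t (Gf c φ s) x) (fun s r => Q t (GG c φ (s, r)) x) g s‖ ^ 2 ≤
      Q t (fun y => ‖a y‖ ^ 2 * Gf c φ s y) x := by
    intro s
    simp only [Pm, Q_avg hφ]
    set N := Q t (fun y => Gf c φ s y • a y) x with hN
    set M := Q t (Gf c φ s) x with hM
    have hM0 : 0 < M := F.Mpos s t x
    have h2 : Q t (fun y => 2 * ⟪Gf c φ s y • a y, M⁻¹ • N⟫ - ‖M⁻¹ • N‖ ^ 2 * Gf c φ s y) x ≤
        Q t (fun y => ‖a y‖ ^ 2 * Gf c φ s y) x := by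
      refine Q_mono (((lI s _).const_mul _).sub ((F.linW s).const_mul _))
        (l2.mul (Gf_cont s) (Gf_abs s)) (fun y => ?_) t x
      have h3 := sq_nonneg ‖a y - M⁻¹ • N‖
      rw [norm_sub_sq_real] at h3
      rw [real_inner_smul_left]
      nlinarith [mul_nonneg h3 (Gf_pos (c := c) (φ := φ) s y).le]
    rw [Q_sub ((lI s _).const_mul _) ((F.linW s).const_mul _), Q_const_mul, Q_const_mul,
      Q_inner (lN s), ← hN, ← hM, real_inner_smul_right, real_inner_self_eq_norm_sq] at h2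
    refine le_trans (le_of_eq ?_) h2
    rw [norm_smul, mul_pow, Real.norm_eq_abs, sq_abs]
    field_simp
    ring
  have h2 : ∀ s, ∑ r, Q t (GG c φ (s, r)) x * ⟪g s, g r⟫ =
      Q t (fun y => ⟪Gf c φ s y • a y, g s⟫) x := by
    intro s
    rw [Q_inner (lN s), ← Q_avg hφ, sum_inner]
    refine sum_congr rfl fun r _ => ?_
    rw [real_inner_smul_left, real_inner_comm]
  refine (sum_le_sum fun s _ => h1 s).trans (le_of_eq ?_)
  simp only [h2]
  rw [← Q_sum _ fun s _ => l2.mul (Gf_cont s) (Gf_abs s), ← Q_sum _ fun s _ => lI s _]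
  congr 1
  funext y
  rw [← mul_sum, Gf_sum, mul_one, ← real_inner_self_eq_norm_sq]
  conv_lhs => rw [ha]
  simp only [inner_sum, real_inner_smul_left, real_inner_smul_right]
  rfl

theorem window (hφ : ∀ s, ‖φ s‖ ≤ 1) {u v : ℝ} (hu : 0 < u) (hv : 0 < v) (x : E) :
    Hyp (fun s => Q (u + v) (Gf c φ s) x) (fun s t => Q (u + v) (GG c φ (s, t)) x) φ
      (fun s t => φ s + φ t - (2 : ℝ) • bb (GG c φ) (bf c φ) (u + v) x (s, t))
      (fun w => (Q (u + v) (fun y => log (Zf c φ y)) (x + u • w) -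
        Q (u + v) (fun y => log (Zf c φ y)) x) / u)
      ((4 * u * ∑ p, AA (GG c φ) (bf c φ) u v x p + 2 * u * ∑ s, AA (Gf c φ) (bf c φ) u v x s +
        3 * √u) / u)
      ((1 + 3 * √v + 4 * v + 3 * √u + 2 * u * ∑ s, AA (Gf c φ) (bf c φ) u v x s +
        3 * √(u + v)) / u) := by
  have cψ : C1 (fun y => log (Zf c φ y)) (bf c φ) 1 := C1_log hφ
  have hsym : ∀ s t, GG c φ (s, t) = GG c φ (t, s) := fun s t => funext fun y => mul_comm _ _
  refine ⟨fun s => (fam_G hφ).Mpos s _ x, fun s t => ((fam_GG hφ).Mpos (s, t) _ x).le,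
    fun s t => by rw [hsym], fun s => row_sum hφ s _ x, (fam_G hφ).Msum _ x, hφ,
    fun s t => by rw [bb, bb, hsym s t, add_comm (φ s)], by simp, fun δ => ?_, fun w hw => ?_,
    fun δ => ?_, lemP hφ _ x⟩
  · have h := lemC (c := c) hφ hu hv.le x (fun s => (cψ.shift (u • δ s)).Q v)
    simp only [Q_Q (cψ.shift _).lin hu.le hv.le, Q_shift fun y => log (Zf c φ y)] at h
    rw [le_div_iff₀ hu, sum_mul]
    refine le_trans (le_of_eq (sum_congr rfl fun s _ => ?_)) h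
    rw [sum_mul]
    refine sum_congr rfl fun t _ => ?_
    rw [Pm_eq hφ, ← sub_div, abs_div, abs_of_pos hu, mul_assoc, div_mul_cancel₀ _ hu.ne']
    simp only [smul_add, add_assoc, sub_sub_sub_cancel_right]
  · have h := lemC (c := c) hφ hu hv.le x (fun s => (C1.inner (w s)).mono (hw s))
    simp only [Q_lin] at h
    rw [le_div_iff₀ hu, sum_mul]
    refine le_trans (le_of_eq (sum_congr rfl fun s _ => ?_)) h
    rw [sum_mul]
    refine sum_congr rfl fun t _ => ?_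
    rw [Pm_eq hφ, ← inner_sub_right, add_sub_add_left_eq_sub, ← smul_sub, real_inner_smul_right,
      abs_mul, abs_of_pos hu]
    ring
  · have h := lemF (c := c) hφ hu hv x fun s => u • δ s
    rw [le_div_iff₀ hu, sum_mul]
    refine le_trans (le_of_eq (sum_congr rfl fun s _ => ?_)) h
    rw [sum_mul]
    refine sum_congr rfl fun t _ => ?_
    rw [Pm_eq hφ, mul_assoc, max_mul_of_nonneg _ _ hu.le, zero_mul, sub_mul,
      div_mul_cancel₀ _ hu.ne', real_inner_smul_right, smul_add, add_assoc, mul_comm u]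

end Pool.Agent.P.MP_81d17b_pr.LR
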